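import Pool.Agent.Lib.MP_8a3537_gt.AUF.SpecA

/-!
# AUF, module CFP: coherent rings
-/

namespace Pool.Agent.Lib.MP8a3537.AUF

open Matrix
open Pool.Agent.Lib.MP8a3537.AUL

namespace CFPM

section Gen

variable {A : Type} [Ring A]

/-- The part of a finitely generated submodule `K` inside `N ≥ K`. -/
theorem fg_submoduleOf {M : Type} [AddCommGroup M] [Module A M] {K N : Submodule A M}
    (h : K ≤ N) (hK : K.FG) : (K.submoduleOf N).FG := by
  refine Submodule.fg_of_fg_map_injective N.subtype (Submodule.subtype_injective N) ?_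
  have h1 : (K.submoduleOf N).map N.subtype = K := by
    rw [Submodule.submoduleOf, Submodule.map_comap_subtype, inf_eq_right.2 h]
  rw [h1]
  exact hK

theorem one (hA : Coh A) (M : Type) [AddCommGroup M] [Module A M]
    (hM : Module.FinitePresentation A M) (N : Submodule A M) (hN : N.FG) :
    Module.FinitePresentation A N := by
  obtain ⟨n, K, e, hK⟩ := Module.FinitePresentation.exists_fin A M
  let p : (Fin n → A) →ₗ[A] M := e.symm.toLinearMap.comp K.mkQ
  have hp : Function.Surjective p := e.symm.surjective.comp (Submodule.mkQ_surjective K)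
  have hker : LinearMap.ker p = K := by
    ext x
    rw [LinearMap.mem_ker]
    change e.symm (K.mkQ x) = 0 ↔ x ∈ K
    rw [e.symm.map_eq_zero_iff, Submodule.mkQ_apply, Submodule.Quotient.mk_eq_zero]
  have hle : K ≤ N.comap p := by
    intro x hx
    rw [← hker, LinearMap.mem_ker] at hx
    rw [Submodule.mem_comap, hx]
    exact N.zero_mem
  have hfg : (N.comap p).FG := by
    refine Submodule.fg_of_fg_map_of_fg_inf_ker p ?_ ?_
    · rw [Submodule.map_comap_eq_of_surjective hp]
      exact hN
    · rw [hker, inf_eq_right.2 hle]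
      exact hK
  have hfp : Module.FinitePresentation A (N.comap p) := hA n _ hfg
  refine Module.finitePresentation_of_surjective
    (p.restrict (p := N.comap p) (q := N) (fun x hx => hx)) ?_ ?_
  · rintro ⟨y, hy⟩
    obtain ⟨x, rfl⟩ := hp y
    exact ⟨⟨x, hy⟩, rfl⟩
  · have hk : LinearMap.ker (p.restrict (p := N.comap p) (q := N) (fun x hx => hx)) =
        K.submoduleOf (N.comap p) := by
      ext ⟨x, hx⟩
      rw [LinearMap.mem_ker, Submodule.submoduleOf, Submodule.mem_comap, ← hker, LinearMap.mem_ker]
      exact Subtype.ext_iff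
    rw [hk]
    exact fg_submoduleOf hle hK

/-- The rows, with the parts of the wrong degree. -/
def F (C : FC A) (q : ℤ) : (C.I → A) →ₗ[A] (C.I → A) × (C.I → A) where
  toFun x := (x ᵥ* C.e, fun i => if C.deg i = q then 0 else x i)
  map_add' x y := by
    refine Prod.ext (Matrix.add_vecMul _ _ _) ?_
    funext i
    change (if C.deg i = q then 0 else (x + y) i) =
      (if C.deg i = q then 0 else x i) + (if C.deg i = q then 0 else y i)
    split_ifs
    · rw [add_zero]
    · rfl
  map_smul' a x := by
    refine Prod.ext (Matrix.smul_vecMul _ _ _) ?_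
    funext i
    change (if C.deg i = q then 0 else (a • x) i) = a • (if C.deg i = q then 0 else x i)
    split_ifs
    · rw [smul_zero]
    · rfl

theorem ker_F (C : FC A) (q : ℤ) : LinearMap.ker (F C q) = C.Z q := by
  ext x
  rw [LinearMap.mem_ker]
  constructor
  · intro h
    have h1 : x ᵥ* C.e = 0 := congrArg Prod.fst h
    have h2 : (fun i => if C.deg i = q then 0 else x i) = (0 : C.I → A) := congrArg Prod.snd h
    refine ⟨fun i hi => ?_, h1⟩
    have h3 := congrFun h2 i
    simp only [if_neg hi] at h3
    exact h3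
  · rintro ⟨h1, h2⟩
    refine Prod.ext h2 ?_
    funext i
    change (if C.deg i = q then 0 else x i) = 0
    split_ifs with h
    · rfl
    · exact h1 i h

/-- The differential on the rows of degree `q - 1`. -/
def G (C : FC A) (q : ℤ) : (C.I → A) →ₗ[A] (C.I → A) where
  toFun y := part C.deg (q - 1) y ᵥ* C.e
  map_add' x y := by
    rw [← Matrix.add_vecMul]
    congr 1
    funext i
    change (if C.deg i = q - 1 then (x + y) i else 0) =
      (if C.deg i = q - 1 then x i else 0) + (if C.deg i = q - 1 then y i else 0)
    split_ifs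
    · rfl
    · rw [add_zero]
  map_smul' a x := by
    rw [RingHom.id_apply, ← Matrix.smul_vecMul]
    congr 1
    funext i
    change (if C.deg i = q - 1 then (a • x) i else 0) = a • (if C.deg i = q - 1 then x i else 0)
    split_ifs
    · rfl
    · rw [smul_zero]

theorem term (C : FC A) (q : ℤ) (y : C.I → A) (i j : C.I) (hj : C.deg j = q) :
    part C.deg (q - 1) y i * C.e i j = y i * C.e i j := by
  unfold part
  split_ifs with h
  · rfl
  · have h0 : C.e i j = 0 := by
      by_contra hne
      have := C.he i j hne
      omega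
    rw [h0, mul_zero, mul_zero]

theorem term' (C : FC A) (q : ℤ) (y : C.I → A) (i j : C.I) (hj : C.deg j ≠ q) :
    part C.deg (q - 1) y i * C.e i j = 0 := by
  unfold part
  split_ifs with h
  · have h0 : C.e i j = 0 := by
      by_contra hne
      have := C.he i j hne
      omega
    rw [h0, mul_zero]
  · rw [zero_mul]

theorem range_G (C : FC A) (q : ℤ) : LinearMap.range (G C q) = C.B q := by
  ext x
  rw [LinearMap.mem_range]
  constructor
  · rintro ⟨y, rfl⟩
    refine ⟨fun j hj => ?_, part C.deg (q - 1) y, rfl⟩
    change ∑ i, part C.deg (q - 1) y i * C.e i j = 0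
    exact Finset.sum_eq_zero fun i _ => term' C q y i j hj
  · rintro ⟨h1, y, rfl⟩
    refine ⟨y, ?_⟩
    funext j
    change ∑ i, part C.deg (q - 1) y i * C.e i j = ∑ i, y i * C.e i j
    by_cases hj : C.deg j = q
    · exact Finset.sum_congr rfl fun i _ => term C q y i j hj
    · rw [Finset.sum_eq_zero fun i _ => term' C q y i j hj]
      exact (h1 j hj).symm

theorem B_le_Z (C : FC A) (q : ℤ) : C.B q ≤ C.Z q := by
  rintro x ⟨h1, y, rfl⟩
  refine ⟨h1, ?_⟩
  rw [Matrix.vecMul_vecMul, C.e_mul_e, Matrix.vecMul_zero]

end Gen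

end CFPM

open CFPM in
theorem specCFP : SpecCFP := by
  intro A _ hA
  refine ⟨one hA, fun C q => ?_⟩
  have hB : (C.B q).FG := by
    rw [← range_G, LinearMap.range_eq_map]
    exact Module.Finite.fg_top.map _
  have hZ : (C.Z q).FG := by
    rw [← ker_F]
    have h1 : (LinearMap.range (F C q)).FG := by
      rw [LinearMap.range_eq_map]
      exact Module.Finite.fg_top.map _
    have h2 : Module.FinitePresentation A (LinearMap.range (F C q)) :=
      one hA _ inferInstance _ h1
    have h3 := Module.FinitePresentation.fg_ker (F C q).rangeRestrict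
      (LinearMap.surjective_rangeRestrict _)
    rwa [LinearMap.ker_rangeRestrict] at h3
  have hZp : Module.FinitePresentation A (C.Z q) := one hA _ inferInstance _ hZ
  refine ⟨hZ, hB, ?_⟩
  refine Module.finitePresentation_of_surjective ((C.B q).submoduleOf (C.Z q)).mkQ
    (Submodule.mkQ_surjective _) ?_
  rw [Submodule.ker_mkQ]
  exact fg_submoduleOf (B_le_Z C q) hB

end Pool.Agent.Lib.MP8a3537.AUF
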