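import Pool.Agent.Lib.MP_8a3537_gt.AUF.SpecC

/-!
# Group rings of extensions by free groups (MP_8a3537_gt, folder AUF), module RFP

A module with a resolution is finitely presented.
-/

namespace Pool.Agent.Lib.MP8a3537.AUF

open Matrix
open Pool.Agent.Lib.MP8a3537.AUL

namespace RFPM

theorem finitePresentation {A : Type} [Ring A] {C : FC A} {X : Type} [AddCommGroup X] [Module A X]
    (r : Res C X) : Module.FinitePresentation A X := by
  classical
  have hfin : Module.FinitePresentation A (C.I → A) :=
    Module.finitePresentation_of_projective A (C.I → A)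
  refine Module.finitePresentation_of_surjective r.pi r.surj ?_
  have hS : Set.Finite (Set.range (fun i : C.I => C.e i) ∪
      Set.range (fun i : {i : C.I // C.deg i ≠ 0} => (Pi.single i.1 1 : C.I → A))) :=
    (Set.finite_range _).union (Set.finite_range _)
  rw [Submodule.fg_def]
  refine ⟨_, hS, ?_⟩
  have hpis : ∀ i : C.I, C.deg i ≠ 0 → ∀ a : A, r.pi (Pi.single i a) = 0 := by
    intro i hi a
    apply r.low (C.deg i) _ hi
    intro j hj
    rw [Pi.single_apply, if_neg]
    rintro rfl
    exact hj rfl
  apply le_antisymm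
  · rw [Submodule.span_le]
    rintro _ (⟨i, rfl⟩ | ⟨i, rfl⟩)
    · change r.pi (C.e i) = 0
      have h := r.zero (Pi.single i 1)
      rwa [Matrix.single_one_vecMul] at h
    · exact hpis i.1 i.2 1
  · intro x hx
    have hx0 : r.pi x = 0 := hx
    have hdec : x = part C.deg 0 x + ∑ i : {i : C.I // C.deg i ≠ 0},
        x i.1 • (Pi.single i.1 1 : C.I → A) := by
      funext j
      rw [Pi.add_apply, Finset.sum_apply]
      by_cases hj : C.deg j = 0
      · have h0 : ∑ i : {i : C.I // C.deg i ≠ 0}, (x i.1 • (Pi.single i.1 1 : C.I → A)) j = 0 := by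
          refine Finset.sum_eq_zero (fun i _ => ?_)
          have hne : j ≠ i.1 := by
            rintro rfl
            exact i.2 hj
          simp [hne]
        rw [h0, add_zero]
        simp [part, hj]
      · rw [Finset.sum_eq_single (⟨j, hj⟩ : {i : C.I // C.deg i ≠ 0})]
        · simp [part, hj]
        · intro b _ hb
          have hne : j ≠ b.1 := by
            rintro rfl
            exact hb rfl
          simp [hne]
        · intro h
          exact absurd (Finset.mem_univ _) h
    have hsum : r.pi (∑ i : {i : C.I // C.deg i ≠ 0}, x i.1 • (Pi.single i.1 1 : C.I → A)) = 0 := by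
      rw [map_sum]
      refine Finset.sum_eq_zero (fun i _ => ?_)
      rw [map_smul, hpis i.1 i.2, smul_zero]
    have hp0 : r.pi (part C.deg 0 x) = 0 := by
      rw [hdec, map_add, hsum, add_zero] at hx0
      exact hx0
    obtain ⟨y, hy⟩ := r.ker (part C.deg 0 x) (fun i hi => by simp [part, hi]) hp0
    rw [hdec]
    refine Submodule.add_mem _ ?_ ?_
    · rw [hy, Matrix.vecMul_eq_sum]
      refine Submodule.sum_mem _ (fun i _ => ?_)
      exact Submodule.smul_mem _ _ (Submodule.subset_span (Or.inl ⟨i, rfl⟩))
    · refine Submodule.sum_mem _ (fun i _ => ?_)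
      exact Submodule.smul_mem _ _ (Submodule.subset_span (Or.inr ⟨i, rfl⟩))

end RFPM

theorem specRFP (hRSM : AUL.SpecRSM) : SpecRFP := by
  intro A _ C
  refine ⟨fun X _ _ r => RFPM.finitePresentation r, fun hC => ?_⟩
  obtain ⟨X, i1, i2, -, ⟨r⟩⟩ := hRSM A C hC
  exact ⟨X, i1, i2, RFPM.finitePresentation r, ⟨r⟩⟩

end Pool.Agent.Lib.MP8a3537.AUF
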