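import Pool.Agent.Lib.MP_8a3537_gt.AUF.SpecA
import Pool.Agent.Lib.MP_8a3537_gt.AUL.Main
import Pool.Agent.Lib.MP_8a3537_gt.AUL.ACH

/-!
# Module ACH: the cohomology of a base change to `S = S0 * F`
-/

namespace Pool.Agent.Lib.MP8a3537.AUF

open Matrix
open Pool.Agent.Lib.MP8a3537.AUL
open Pool.Agent.Lib.MP8a3537.AUL.ACHM (up_vecMul up_mem up up_bd)

namespace ACHM

variable {S : Type} [Ring S] [StarRing S] {S0 : Subring S} [StarSub S0] {F X : Type} [Group F]
  {T : TreeLen F X}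

/-- The coefficients of a cocycle over `S` are cocycles over `S0`. -/
theorem co_mem (L : Fre S0 T) (hL : CFacts L) (D : FC S0) (q : ℤ) (x : (bc D).I → S)
    (hx : x ∈ (bc D).Z q) (g : F) : (L.cor (x : D.I → S) g : D.I → S0) ∈ D.Z q := by
  obtain ⟨h1, h2⟩ := hx
  refine ⟨fun i hi => ?_, ?_⟩
  · have h3 : x i = 0 := h1 i hi
    show L.co (x i) g = 0
    rw [h3]
    show (L.val.symm 0 : F →₀ S0) g = 0
    rw [map_zero]
    rfl
  · have h3 := hL.mul D.I D.I x D.e g
    have h4 : ((x : D.I → S) ᵥ* D.e.map (fun a : S0 => (a : S)) : D.I → S) = 0 := h2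
    exact h3.symm.trans ((congrArg (fun z : D.I → S => L.cor z g) h4).trans (hL.zero D.I g))

/-- A row is the sum of its coefficient rows. -/
theorem eq_sum (L : Fre S0 T) (hL : CFacts L) {I : Type} [Fintype I] (x : I → S) :
    ∃ E : Finset F, x = ∑ g ∈ E, ((L.un g : Sˣ) : S) • (fun i => (L.cor x g i : S)) := by
  classical
  have h := hL.sum I (I → S) (fun i => Pi.single i 1) x (hL.fin I x).toFinset
    (fun g hg => by rw [Set.Finite.mem_toFinset]; exact hg)
  have h1 : ∀ y : I → S, ∑ i, y i • (Pi.single i 1 : I → S) = y := by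
    intro y
    funext j
    rw [Finset.sum_apply, Finset.sum_eq_single j]
    · simp
    · intro b _ hb
      rw [Pi.smul_apply, Pi.single_eq_of_ne (Ne.symm hb), smul_zero]
    · intro hj
      exact absurd (Finset.mem_univ j) hj
  rw [h1] at h
  refine ⟨(hL.fin I x).toFinset, h.trans (Finset.sum_congr rfl fun g _ => ?_)⟩
  exact congrArg _ (h1 (fun i => (L.cor x g i : S)))

theorem main (hLAT : SpecLAT) (L : Fre S0 T) (hL : CFacts L) (d : ℕ)
    (hn0 : IsNoetherianRing S0) (hF : FinRes S0 d) (D : FC S0) (c : ℤ)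
    (hT : Tc S0 c (D.H c)) (N : Submodule S0 ((bc D).H c)) (hN : N.FG) : Tc S0 c N := by
  let j : D.Z c →ₗ[S0] (bc D).H c :=
    (((bc D).B c).submoduleOf ((bc D).Z c)).mkQ.restrictScalars S0 ∘ₗ up D c
  have hj : ∀ y, j y = Submodule.Quotient.mk (up D c y) := fun y => rfl
  refine hLAT S S0 F X T L d hn0 hF ((bc D).H c) (LinearMap.range j) ?_ ?_ c ?_ N hN
  · have h1 : Module.Finite S0 (D.Z c) := inferInstance
    have h2 := h1.1.map j
    rwa [Submodule.map_top] at h2
  · rw [Gen, eq_top_iff]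
    rintro m -
    obtain ⟨x, rfl⟩ := Submodule.Quotient.mk_surjective _ m
    obtain ⟨E, hx⟩ := eq_sum L hL (I := D.I) x.1
    have h1 : x = ∑ g ∈ E, ((L.un g : Sˣ) : S) •
        up D c ⟨L.cor (I := D.I) x.1 g, co_mem L hL D c x.1 x.2 g⟩ := by
      apply Subtype.ext
      rw [Submodule.coe_sum]
      exact hx
    rw [h1]
    have h2 := map_sum (Submodule.mkQ (((bc D).B c).submoduleOf ((bc D).Z c)))
      (fun g => ((L.un g : Sˣ) : S) •
        up D c ⟨L.cor (I := D.I) x.1 g, co_mem L hL D c x.1 x.2 g⟩) E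
    rw [← Submodule.mkQ_apply, h2]
    refine Submodule.sum_mem _ fun g _ => ?_
    rw [map_smul]
    exact Submodule.smul_mem _ _ (Submodule.subset_span ⟨_, rfl⟩)
  · have hker : (D.B c).submoduleOf (D.Z c) ≤ LinearMap.ker j.rangeRestrict := by
      intro y hy
      rw [LinearMap.mem_ker]
      apply Subtype.ext
      show j y = 0
      rw [hj, Submodule.Quotient.mk_eq_zero]
      exact up_bd D c y.1 hy
    refine (AUL.mTCS S0 c (D.H c) (LinearMap.range j)
      (((D.B c).submoduleOf (D.Z c)).liftQ j.rangeRestrict hker)).2.1 ?_ hT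
    rintro ⟨_, y, rfl⟩
    exact ⟨Submodule.Quotient.mk y, Subtype.ext rfl⟩

end ACHM

theorem specACH (hCFL : SpecCFL) (hLAT : SpecLAT) : SpecACH := by
  intro S _ _ S0 _ F X _ T L d hn0 hF C c hT N hN
  exact ACHM.main hLAT L (hCFL S S0 F X T L) d hn0 hF C.dual c hT N hN

end Pool.Agent.Lib.MP8a3537.AUF
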