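import Pool.Agent.Lib.MP_8a3537_gt.AUF.Defs

/-!
# Group rings of extensions by free groups (MP_8a3537_gt, folder AUF): Specs, block B

Paper: `/team-store/8a3537_WA.md`, 2.6. The statements of the folder `AUL` (LFT, HTP, IND, CON, LES,
RSM, SEM, TCS, TCE, TCZ) are proved there: a module may import their files. Every module `XXX` of this
block is a file `Pool/Agent/Lib/MP_8a3537_gt/AUF/XXX.lean` which imports `AUF.SpecB`, for the other deps
`AUF.SpecA` and for RFP `AUF.SpecC`, and proves `theorem specXXX (hypotheses = deps, in the order of the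
docstring) : SpecXXX` in the namespace `Pool.Agent.Lib.MP8a3537.AUF`, with its auxiliary declarations in
the namespace `XXXM`. `AUL: ...` names landed theorems, to be used directly: `AUL.specLFT`,
`AUL.specHTP`, `AUL.mIND`, `AUL.specCON`, `AUL.specLES`, `AUL.specRSM`, `AUL.specSEM`, `AUL.mTCS`,
`AUL.mTCE`, `AUL.specTCZ` (`AUL.Main` imports them all).

Conventions: rows; `C.dual` has the same index set as `C`, degrees `-deg`, differential `C.eᴴ`; a row of
the dual of `cone C D u` is `(y, y')` and it is mapped to `(y ᵥ* C.eᴴ, y ᵥ* uᴴ - y' ᵥ* D.eᴴ)`, the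
`D`-part of degree `q` has degree `q - 1` in `D.dual`. -/

namespace Pool.Agent.Lib.MP8a3537.AUF

open Matrix
open Pool.Agent.Lib.MP8a3537.AUL

/-! ## Part B1: any ring -/

/-- **IN1** (size 100, AUL: CON, IND): injectivity for `K ≤ N` if `Ext^q(N/K) = 0`.

PROOF. `cone P Q v` resolves `N ⧸ K` (CON); `Gr A c (N ⧸ K)` and IND: its dual is exact in degree `q < c`.
`y ᵥ* vᴴ = z ᵥ* Q.eᴴ` with `z` of degree `q - 1` in `Q.dual` (part of degree `q - 1`, see `LESM.pre` in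
`AUL/LES.lean`). `(y, z)` is a cocycle of degree `q` of the dual of the cone, so `(y, z) = (y2, z2) ᵥ* e`,
`y = y2 ᵥ* P.eᴴ`. -/
def SpecIN1 : Prop :=
  ∀ (A : Type) [Ring A] [StarRing A] (c : ℤ) (N : Type) [AddCommGroup N] [Module A N]
    (K : Submodule A N), Gr A c (N ⧸ K) →
    ∀ (P Q : FC A) (r : Res P N) (s : Res Q K) (v : Matrix Q.I P.I A), IsChain Q P v →
      (∀ x, r.pi (x ᵥ* v) = (s.pi x : N)) →
      ∀ q < c, ∀ y ∈ P.dual.Z q, (y ᵥ* vᴴ : Q.I → A) ∈ Q.dual.B q → y ∈ P.dual.B q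

/-- **INQ** (size 200, AUL: LFT, HTP, CON): injectivity for a surjection `f : Y → K` if
`Ext^(q-1)(ker f) = 0`.

PROOF. `V` resolves `ker f`, `V.dual` exact below `q`. `k : V → P` lifts the inclusion (LFT),
`J = cone P V k` resolves `Y ⧸ ker f` (CON), `θ : Y ⧸ ker f ≃ K` (`LinearMap.quotKerEquivOfSurjective`),
`lam : J → Q` lifts `θ`, `mu : Q → J` lifts `θ⁻¹` (LFT). The rows `inl` of `lam` form a chain map
`lamP : P → Q` with `s.pi (x ᵥ* lamP) = f (r.pi x)` (the augmentation of `J` given by CON is not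
specified by its statement; see the proof of CON, or redo the augmentation: `z ↦ [r.pi (z ∘ inl)]`;
alternatively use the lemma of `AUL/CON.lean` directly). `lamP - v` is a chain map which induces `0`:
`lamP = v + P.e * h + h * Q.e` (HTP). So for `y ∈ Q.dual.Z q`:
`y ᵥ* lamPᴴ = y ᵥ* vᴴ + (y ᵥ* hᴴ) ᵥ* P.eᴴ` (`y ᵥ* Q.eᴴ = 0`), a coboundary: `= a ᵥ* P.eᴴ`, `a` of degree
`q - 1`. `y ᵥ* lamᴴ = (y ᵥ* lamPᴴ, b)` is a cocycle of `J.dual`; subtract `(a, 0) ᵥ* e = (a ᵥ* P.eᴴ,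
a ᵥ* kᴴ)`: `(0, b')` is a cocycle, so `b' ᵥ* V.eᴴ = 0`, `b'` of degree `q - 1` in `V.dual`, which is exact
there: `b' = - z ᵥ* V.eᴴ`, `(0, b') = (0, z) ᵥ* e`. So `y ᵥ* lamᴴ ∈ J.dual.B q`. `mu * lam : Q → Q` lifts the
identity: `mu * lam = 1 + Q.e * h' + h' * Q.e` (HTP), `(y ᵥ* lamᴴ) ᵥ* muᴴ = y + (y ᵥ* h'ᴴ) ᵥ* Q.eᴴ`: `y` is a
coboundary. -/
def SpecINQ : Prop :=
  ∀ (A : Type) [Ring A] [StarRing A] (q : ℤ) (Y K : Type) [AddCommGroup Y] [Module A Y]
    [AddCommGroup K] [Module A K] (f : Y →ₗ[A] K), Function.Surjective f →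
    Gr A q (LinearMap.ker f) →
    ∀ (P Q : FC A) (r : Res P Y) (s : Res Q K) (v : Matrix P.I Q.I A), IsChain P Q v →
      (∀ x, s.pi (x ᵥ* v) = f (r.pi x)) →
      ∀ y ∈ Q.dual.Z q, (y ᵥ* vᴴ : P.I → A) ∈ P.dual.B q → y ∈ Q.dual.B q

/-- **INJ** (size 200, deps DSM, TCU, IN1, INQ; AUL: LFT, HTP, TCS): injectivity for a finite family of
submodules `K i ≤ N`.

PROOF. `K0 = ⨆ i, K i`, `f : (∀ i, K i) → K0`, `f m = ∑ i, m i`: surjective
(`Submodule.mem_iSup_iff_exists_finsupp` or `Submodule.iSup_eq_range_dfinsupp_lsum`). `∀ i, K i` has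
`T_(c-1)` (TCU), so `Gr A (c-1) (ker f)`. `dsum D` resolves `∀ i, K i` (DSM), `Q` resolves `K0` (`FinRes`; `K0`
is finite). `v0 : Q → P` lifts `K0 ≤ N`, `v' i : D i → Q` lifts `K i ≤ K0` (LFT). Let `y ∈ P.dual.Z (c-1)` and
`y' = y ᵥ* v0ᴴ ∈ Q.dual.Z (c-1)`. `v' i * v0 - v i : D i → P` induces `0`, so it is `(D i).e * h + h * P.e` (HTP)
and `y' ᵥ* (v' i)ᴴ = y ᵥ* (v' i * v0)ᴴ = y ᵥ* (v i)ᴴ + (y ᵥ* hᴴ) ᵥ* (D i).eᴴ ∈ (D i).dual.B (c-1)`. The matrix `v'` with
the rows `⟨i, k⟩ ↦ v' i k` is a chain map `dsum D → Q` which lifts `f`, and `y' ᵥ* v'ᴴ` has the components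
`y' ᵥ* (v' i)ᴴ`, so it is in `(dsum D).dual.B (c-1)`. INQ: `y' ∈ Q.dual.B (c-1)`. IN1: `y ∈ P.dual.B (c-1)`. -/
def SpecINJ : Prop :=
  ∀ (A : Type) [Ring A] [StarRing A] (d : ℕ), IsNoetherianRing A → FinRes A d →
    ∀ (ι : Type) [Fintype ι] [DecidableEq ι] (c : ℤ) (N : Type) [AddCommGroup N] [Module A N],
      Module.Finite A N → ∀ (K : ι → Submodule A N), (∀ i, Tc A (c - 1) (K i)) →
      Gr A c (N ⧸ ⨆ i, K i) →
      ∀ (P : FC A) (r : Res P N) (D : ι → FC A) (s : ∀ i, Res (D i) (K i))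
        (v : ∀ i, Matrix (D i).I P.I A), (∀ i, IsChain (D i) P (v i)) →
        (∀ i x, r.pi (x ᵥ* v i) = ((s i).pi x : N)) →
        ∀ y ∈ P.dual.Z (c - 1),
          (∀ i, (y ᵥ* (v i)ᴴ : (D i).I → A) ∈ (D i).dual.B (c - 1)) → y ∈ P.dual.B (c - 1)

/-! ## Part B2: restrictions of cocycles -/

/-- The row of the direct sum with the only component `y` (in the place `x`). -/
def jx {A : Type} [Ring A] {X : Type} [DecidableEq X] {D : X → FC A} (x : X) (y : (D x).I → A) :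
    (Σ x, (D x).I) → A :=
  fun i => (Pi.single x y : ∀ x', (D x').I → A) i.1 i.2

/-- A row over `S0` as a row over `S`. -/
def up {S : Type} [Ring S] {S0 : Subring S} {I : Type} (y : I → S0) : I → S := fun i => (y i : S)

/-- **RSF** (size 150, no deps): restrictions and rows with one component.

PROOF. (1), (2): direction `(x, false)`: `(y ᵥ* (u x)ᴴ) ᵥ* (D x).eᴴ = y ᵥ* ((D x).e * u x)ᴴ =
y ᵥ* (u x * C.e)ᴴ = (y ᵥ* C.eᴴ) ᵥ* (u x)ᴴ`, degrees by `IsChain.deg` (see `ACXM.dual_mem` in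
`AUL/ACX.lean`). Direction `(x, true)`: the same for `w x : D x → C.map σ⁻¹`; `y ↦ σ⁻¹(y)` maps `C.dual.Z q` onto
`(C.map σ⁻¹).dual.Z q` and `C.dual.B q` onto `(C.map σ⁻¹).dual.B q` because `σ⁻¹` commutes with `star`
(`Fre.sg_star`; see `ACXM.symm_mem`). (3): a matrix computation. (4), (5): `jx x y ᵥ* (dsum D).eᴴ =
jx x (y ᵥ* (D x).eᴴ)` and `up` commutes with matrices over `S0`. (6): split a row over `S0` into its
components. -/
def SpecRSF : Prop :=
  ∀ (S : Type) [Ring S] [StarRing S] (S0 : Subring S) [StarSub S0] (F X : Type) [Group F]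
    [Fintype X] [DecidableEq X] (T : TreeLen F X) (L : Fre S0 T) (C : FC S0) (D : X → FC S0)
    (u w : ∀ x, Matrix (D x).I C.I S0), (∀ x, IsChain (D x) C (u x)) →
    (∀ x, IsChain (D x) (C.map ((L.sx x).symm : S0 →+* S0)) (w x)) → ∀ q : ℤ,
    (∀ s, ∀ y ∈ C.dual.Z q, L.rs u w s y ∈ (D s.1).dual.Z q) ∧
    (∀ s, ∀ y ∈ C.dual.B q, L.rs u w s y ∈ (D s.1).dual.B q) ∧
    (∀ s y z, L.rs u w s (y + z : C.I → S0) = L.rs u w s y + L.rs u w s z) ∧
    (∀ x, ∀ y ∈ (D x).dual.Z q, (up (jx x y) : (Σ x, (D x).I) → S) ∈ (bc (dsum D)).dual.Z q) ∧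
    (∀ x, ∀ y ∈ (D x).dual.B q, (up (jx x y) : (Σ x, (D x).I) → S) ∈ (bc (dsum D)).dual.B q) ∧
    (∀ z : (Σ x, (D x).I) → S0, (up z : (Σ x, (D x).I) → S) = ∑ x, up (jx x (cx z x)))

/-- **RLF** (size 250, deps INJ, TWF; AUL: SEM): restrictions of cocycles of a lattice datum.

PROOF. Apply INJ over `S0` to the module `E.N`, `ι = {s // s ≠ s0}`, `K s = (E.A s).submoduleOf E.N`, `P = C`.
Resolutions: `s = (x, false)`: `D x` (`E.Nx x` is isomorphic to `(E.Nx x).submoduleOf E.N` by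
`Submodule.submoduleOfEquivOfLe`), chain map `u x`. `s = (x, true)`: `m ↦ t_x m` is a `σ_x`-semilinear
bijection `Nx x → t_x Nx x`; SEM (1): `(D x).map σ_x` resolves `L.tr (gen x) (E.Nx x)` with
`pi y = t_x (s x).pi (σ_x⁻¹ y)`; chain map `(w x).map σ_x : (D x).map σ_x → C`, and
`r.pi (y ᵥ* (w x).map σ_x) = r.pi (σ_x ((σ_x⁻¹ y) ᵥ* w x)) = t_x (s x).pi (σ_x⁻¹ y)` (`lw`). `T_(c-1)`:
hypothesis, and SEM (1) (or TWF) for the translates. `⨆ s, K s = (E.Ns s0).submoduleOf E.N` because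
`E.A s ≤ E.N` (`E.le`, `E.tle`; apply `Submodule.map E.N.subtype` to both sides), and `T_c` gives `Gr c`
(the submodule `⊤`, or GRI). For `s = (x, true)`: `y ᵥ* ((w x).map σ_x)ᴴ = σ_x ((σ_x⁻¹ y) ᵥ* (w x)ᴴ) =
σ_x (L.rs u w (x, true) y)` (`Fre.sg_star`), and `σ_x` maps `(D x).dual.B` into `((D x).map σ_x).dual.B`. -/
def SpecRLF : Prop :=
  ∀ (S : Type) [Ring S] [StarRing S] (S0 : Subring S) [StarSub S0] (F X : Type) [Group F]
    [Fintype X] [DecidableEq X] (T : TreeLen F X) (L : Fre S0 T) (d : ℕ),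
    IsNoetherianRing S0 → FinRes S0 d →
    ∀ (M : Type) [AddCommGroup M] [Module S M] (E : LD L M) (c : ℤ),
      (∀ x, Tc S0 (c - 1) (E.Nx x)) →
      (∀ s0, Tc S0 c (E.N ⧸ (E.Ns s0).submoduleOf E.N)) →
      ∀ (C : FC S0) (D : X → FC S0) (r : Res C E.N) (s : ∀ x, Res (D x) (E.Nx x))
        (u w : ∀ x, Matrix (D x).I C.I S0), Dat L E C D r s u w → L.RP u w (c - 1)

/-- **KYB** (size 250, deps CFL, DSM, BCF, RSF): the complex part of the key lemma.

PROOF. Let `(y, y')` be a cocycle of degree `q` of the dual of the cone over `S`, `y_g = L.cor y g`,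
`y'_g = L.cor y' g`. `Φᴴ` has the entries `t_x * star (w x i j) - star (u x i j)`, so for all `g`, `x`:
`L.rs u w (x, true) y_(g * (gen x)⁻¹) - L.rs u w (x, false) y_g = cx y'_g x ᵥ* (D x).eᴴ` (*).
The left side is in degree `q`, so the right side is in `(D x).dual.B q`. CLAIM: `y_g ∈ C.dual.B q` for all
`g`. Otherwise take `g` with `y_g ∉ C.dual.B q` and `T.len g` maximal (only finitely many `y_g` are non-zero).
Let `s` be a direction with `T.len (g * dr s) > T.len g`: `y_(g * dr s) ∈ C.dual.B q`, so its restrictions are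
coboundaries (RSF (2)), and (*) for `(g, x)` if `s = (x, false)`, for `(g * gen x, x)` if `s = (x, true)`, shows
that `L.rs u w s y_g ∈ (D s.1).dual.B q`. By `T.ne` and `T.uniq` this holds for all directions but at most one
(call it `s0`; if there is none take any `s0`, `X` is nonempty). `L.RP u w q`: `y_g ∈ C.dual.B q`,
contradiction. So `y_g = z_g ᵥ* C.eᴴ`, `z_g` of degree `q - 1`, `z_g = 0` if `y_g = 0`; `z` with `L.cor z g = z_g`:
`y = z ᵥ* (bc C).eᴴ`. `y' - z ᵥ* Φᴴ` is a cocycle of `(bc (dsum D)).dual` of degree `q - 1`, which is exact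
there (DSM, BCF): `= z' ᵥ* (bc (dsum D)).eᴴ`, `(y, y') = (z, -z') ᵥ* e`. -/
def SpecKYB : Prop :=
  ∀ (S : Type) [Ring S] [StarRing S] (S0 : Subring S) [StarSub S0] (F X : Type) [Group F]
    [Fintype X] [DecidableEq X] (T : TreeLen F X) (L : Fre S0 T), Nonempty X →
    ∀ (C : FC S0) (D : X → FC S0) (u w : ∀ x, Matrix (D x).I C.I S0),
      (∀ x, IsChain (D x) C (u x)) →
      (∀ x, IsChain (D x) (C.map ((L.sx x).symm : S0 →+* S0)) (w x)) →
      ∀ (hP : IsChain (bc (dsum D)) (bc C) (L.phi u w)) (q : ℤ), L.RP u w q →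
        (∀ x, (D x).dual.ExactAt (q - 1)) →
        (cone (bc C) (bc (dsum D)) (L.phi u w) hP).dual.ExactAt q

/-! ## Part B3: the cokernel -/

section Coker

variable {S : Type} [Ring S] [StarRing S] {S0 : Subring S} [StarSub S0] {F X : Type} [Group F]
  [Fintype X] [DecidableEq X] {T : TreeLen F X}

/-- `g` is the projection of the cocycles of degree `q` of `(bc (dsum D)).dual` onto the cokernel of
`Φᴴ : H^q((bc C).dual) → H^q((bc (dsum D)).dual)`. -/
def KerPhi (L : Fre S0 T) {C : FC S0} {D : X → FC S0} (u w : ∀ x, Matrix (D x).I C.I S0) {q : ℤ}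
    {Q : Type} [AddCommGroup Q] [Module S Q] (g : (bc (dsum D)).dual.Z q →ₗ[S] Q) : Prop :=
  ∀ y : (bc (dsum D)).dual.Z q, g y = 0 ↔
    ∃ (z : C.I → S) (b : (Σ x, (D x).I) → S), z ∈ (bc C).dual.Z q ∧
      b ∈ (bc (dsum D)).dual.B q ∧ y.1 = (z ᵥ* (L.phi u w)ᴴ + b : (Σ x, (D x).I) → S)

/-- The classes `g [y]_x` of the `y ∈ Z`. -/
def Ym {D : X → FC S0} {q : ℤ} {Q : Type} [AddCommGroup Q] [Module S Q]
    (g : (bc (dsum D)).dual.Z q →ₗ[S] Q) (x : X) (Z : Submodule S0 ((D x).I → S0)) :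
    Submodule S0 Q where
  carrier := {m | ∃ y ∈ Z, ∃ z : (bc (dsum D)).dual.Z q, z.1 = up (jx x y) ∧ g z = m}
  add_mem' := by
    rintro a b ⟨y, hy, z, hz, rfl⟩ ⟨y', hy', z', hz', rfl⟩
    refine ⟨y + y', Z.add_mem hy hy', z + z', ?_, map_add g z z'⟩
    funext i
    have h1 : (jx x (y + y') : (Σ x, (D x).I) → S0) i = jx x y i + jx x y' i := by
      unfold jx
      rw [Pi.single_add]
      rfl
    show z.1 i + z'.1 i = ((jx x (y + y') : (Σ x, (D x).I) → S0) i : S)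
    rw [h1, hz, hz']
    rfl
  zero_mem' := by
    refine ⟨0, Z.zero_mem, 0, ?_, map_zero g⟩
    funext i
    have h1 : (jx x (0 : (D x).I → S0) : (Σ x, (D x).I) → S0) i = 0 := by
      unfold jx
      rw [Pi.single_zero]
      rfl
    show (0 : S) = ((jx x (0 : (D x).I → S0) : (Σ x, (D x).I) → S0) i : S)
    rw [h1]
    rfl
  smul_mem' := by
    rintro a b ⟨y, hy, z, hz, rfl⟩
    refine ⟨a • y, Z.smul_mem a hy, (a : S) • z, ?_, map_smul g (a : S) z⟩
    funext i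
    have h1 : (jx x (a • y) : (Σ x, (D x).I) → S0) i = a * jx x y i := by
      unfold jx
      rw [Pi.single_smul]
      rfl
    show (a : S) * z.1 i = ((jx x (a • y) : (Σ x, (D x).I) → S0) i : S)
    rw [h1, hz]
    rfl

/-- The directions of the lattice of the cokernel: `(x, false) ↦ Y_x`, `(x, true) ↦ t_x Y_x`,
`Y_x = {g [y]_x | y a cocycle over S0}`. -/
def YA (L : Fre S0 T) {D : X → FC S0} {q : ℤ} {Q : Type} [AddCommGroup Q] [Module S Q]
    (g : (bc (dsum D)).dual.Z q →ₗ[S] Q) : X × Bool → Submodule S0 Q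
  | (x, true) => L.tr (T.gen x) (Ym g x ((D x).dual.Z q))
  | (x, false) => Ym g x ((D x).dual.Z q)

end Coker

/-- **KID** (size 120, deps RSF): the key identity `∑_x (t_x al_x(z) - be_x(z)) = 0`.

PROOF. `up z ∈ (bc C).dual.Z q`. The component `x` of `up z ᵥ* (L.phi u w)ᴴ` is
`t_x • up ((σ_x⁻¹ z) ᵥ* (w x)ᴴ) - up (z ᵥ* (u x)ᴴ)` (see `ACXM.phi_row` in `AUL/ACX.lean`: the entries of
`(L.phi u w)ᴴ` are `star (w i j * t⁻¹ - u i j) = t * star (w i j) - star (u i j)`, and `z_i t = t σ⁻¹(z_i)`,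
`Fre.mul_un`), so `up z ᵥ* (L.phi u w)ᴴ = ∑ x, (t_x • (a x).1 - (b x).1)`; `KerPhi` with `z = up z`, `b = 0`. -/
def SpecKID : Prop :=
  ∀ (S : Type) [Ring S] [StarRing S] (S0 : Subring S) [StarSub S0] (F X : Type) [Group F]
    [Fintype X] [DecidableEq X] (T : TreeLen F X) (L : Fre S0 T) (C : FC S0) (D : X → FC S0)
    (u w : ∀ x, Matrix (D x).I C.I S0) (q : ℤ) (Q : Type) [AddCommGroup Q] [Module S Q]
    (g : (bc (dsum D)).dual.Z q →ₗ[S] Q), KerPhi L u w g →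
    ∀ z ∈ C.dual.Z q, ∀ (a b : X → (bc (dsum D)).dual.Z q),
      (∀ x, (a x).1 = up (jx x (L.rs u w (x, true) z))) →
      (∀ x, (b x).1 = up (jx x (L.rs u w (x, false) z))) →
      ∑ x, (((L.t x : Sˣ) : S) • g (a x) - g (b x)) = 0

/-- **LDF** (size 200, deps CFL, RSF): the lattice of the cokernel is finitely generated and generates.

PROOF. `Y_x = Ym g x ((D x).dual.Z q)` is the image of the `S0`-module `(D x).dual.Z q` (a submodule of
`S0^I`, finitely generated) under `y ↦ g ⟨up (jx x y), _⟩` (RSF (4)); `L.tr g N` is generated by the `un g • n_i`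
if `N` is generated by the `n_i` (`un g` normalizes `S0`); a finite supremum of finitely generated
submodules. `Gen`: `Q` is generated by the `g y`, and a cocycle `y` of `(bc (dsum D)).dual` of degree `q`
is `∑_h un h • up y_h`, `y_h = L.cor y h ∈ (dsum D).dual.Z q` (CFL), `up y_h = ∑ x, up (jx x (cx y_h x))`
(RSF (6)), `cx y_h x ∈ (D x).dual.Z q`. -/
def SpecLDF : Prop :=
  ∀ (S : Type) [Ring S] [StarRing S] (S0 : Subring S) [StarSub S0] (F X : Type) [Group F]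
    [Fintype X] [DecidableEq X] (T : TreeLen F X) (L : Fre S0 T), IsNoetherianRing S0 →
    ∀ (D : X → FC S0) (q : ℤ) (Q : Type) [AddCommGroup Q] [Module S Q]
      (g : (bc (dsum D)).dual.Z q →ₗ[S] Q), Function.Surjective g →
      (∀ x, (Ym g x ((D x).dual.Z q)).FG) ∧ (⨆ s, YA L g s).FG ∧ Gen (⨆ s, YA L g s)

/-- **LDP** (size 300, deps CFL, RSF, KID): the property `(px)` of the lattice of the cokernel.

PROOF. `N = ⨆ s, YA L g s`. Let `W` be the set of the `n : F →₀ Q` with values in `N` for which `n'` as in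
`PX` exists (`n' x` with values in `Y_x`): closed under addition. For `m ∈ Y_x`:
`single h (t_x • m) - single (h * gen x) m ∈ W` (`n' x = single (h * gen x) m`, `n' x' = 0` for `x' ≠ x`). Let
`n : F →₀ Q` with values in `N`, `∑ un h • n_h = 0`. Since `n_h = ∑_x (m_(x,h) + t_x • m'_(x,h))` with
`m_(x,h), m'_(x,h) ∈ Y_x`, modulo `W` we may suppose that `n_h = ∑_x m_(x,h)`, `m_(x,h) ∈ Y_x` (the sum
`∑ un h • n_h` does not change under elements of `W`), so `n_h = ∑_x g [eta_(x,h)]_x`,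
`eta_(x,h) ∈ (D x).dual.Z q`, zero for almost all `h`. `eta` = the row over `S` with
`L.cor eta h = ∑ x, jx x eta_(x,h)`: a cocycle, `g eta = ∑ un h • n_h = 0`. `KerPhi`: `eta = z ᵥ* Φᴴ + b`. The
component `x` of the coefficient `h` (CFL): `eta_(x,h) = L.rs u w (x, true) z_(h * (gen x)⁻¹) -
L.rs u w (x, false) z_h + b_(x,h)`, `z_h = L.cor z h ∈ C.dual.Z q`, `b_(x,h) ∈ (D x).dual.B q`, and `g` kills
`[b_(x,h)]_x` (RSF (5), `KerPhi` with `z = 0`). So with `al x z0 = g [L.rs u w (x, true) z0]_x` and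
`be x z0 = g [L.rs u w (x, false) z0]_x`: `n_h = ∑_x (al x z_(h * (gen x)⁻¹) - be x z_h) =
∑_x (al x z_(h * (gen x)⁻¹) - t_x • al x z_h)` (KID). So `n' x h = - al x z_(h * (gen x)⁻¹)` does it. -/
def SpecLDP : Prop :=
  ∀ (S : Type) [Ring S] [StarRing S] (S0 : Subring S) [StarSub S0] (F X : Type) [Group F]
    [Fintype X] [DecidableEq X] (T : TreeLen F X) (L : Fre S0 T) (C : FC S0) (D : X → FC S0)
    (u w : ∀ x, Matrix (D x).I C.I S0), (∀ x, IsChain (D x) C (u x)) →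
    (∀ x, IsChain (D x) (C.map ((L.sx x).symm : S0 →+* S0)) (w x)) →
    ∀ (q : ℤ) (Q : Type) [AddCommGroup Q] [Module S Q] (g : (bc (dsum D)).dual.Z q →ₗ[S] Q),
      KerPhi L u w g → L.PX (⨆ s, YA L g s) (fun x => Ym g x ((D x).dual.Z q))

/-- **LDX** (size 40, deps LDF, LDP): assembly. `N = ⨆ s, YA L g s`, `Nx x = Ym g x ((D x).dual.Z q)`;
`E.A s = YA L g s` (cases on `s`). -/
def SpecLDX : Prop :=
  ∀ (S : Type) [Ring S] [StarRing S] (S0 : Subring S) [StarSub S0] (F X : Type) [Group F]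
    [Fintype X] [DecidableEq X] (T : TreeLen F X) (L : Fre S0 T), IsNoetherianRing S0 →
    ∀ (C : FC S0) (D : X → FC S0) (u w : ∀ x, Matrix (D x).I C.I S0),
      (∀ x, IsChain (D x) C (u x)) →
      (∀ x, IsChain (D x) (C.map ((L.sx x).symm : S0 →+* S0)) (w x)) →
      ∀ (q : ℤ) (Q : Type) [AddCommGroup Q] [Module S Q] (g : (bc (dsum D)).dual.Z q →ₗ[S] Q),
        Function.Surjective g → KerPhi L u w g →
        ∃ E : LD L Q, (∀ x, E.Nx x = Ym g x ((D x).dual.Z q)) ∧ E.N = ⨆ s, E.A s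

/-- **GRU** (size 150, AUL: LES, TCS): `Y_x` modulo the image of a chain map.

PROOF. First clause: `y ↦ g ⟨up (jx x y), _⟩` is an `S0`-linear surjection `(D x).dual.Z q → Y_x` which kills
the coboundaries, so `Y_x` is a quotient of `(D x).dual.H q` (TCS). Second clause: LES (3) for
`cone C' (D x) v`: `g' : (D x).dual.Z (c-1) → (cone ..).dual.H c` with kernel `{z ᵥ* vᴴ + b}`, contained in the
kernel of `(D x).dual.Z (c-1) → Y_x ⧸ U`; `ACXM.tc_quot` in `AUL/ACX.lean`. (`up (jx x y)` is a cocycle,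
resp. a coboundary: RSF (4), (5); here without `C`, `u`, `w`: repeat the two lines.) -/
def SpecGRU : Prop :=
  ∀ (S : Type) [Ring S] [StarRing S] (S0 : Subring S) [StarSub S0] (X : Type)
    [Fintype X] [DecidableEq X] (D : X → FC S0) (c : ℤ) (x : X)
    (Q : Type) [AddCommGroup Q] [Module S Q] (g : (bc (dsum D)).dual.Z (c - 1) →ₗ[S] Q),
    (∀ y : (bc (dsum D)).dual.Z (c - 1), y.1 ∈ (bc (dsum D)).dual.B (c - 1) → g y = 0) →
    (∀ c' : ℤ, Tc S0 c' ((D x).dual.H (c - 1)) → Tc S0 c' (Ym g x ((D x).dual.Z (c - 1)))) ∧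
    (∀ (C' : FC S0) (v : Matrix (D x).I C'.I S0) (hv : IsChain (D x) C' v),
      Tc S0 c ((cone C' (D x) v hv).dual.H c) →
      Tc S0 c (Ym g x ((D x).dual.Z (c - 1)) ⧸
        (Ym g x ((C'.dual.Z (c - 1)).map (Matrix.vecMulLinear vᴴ))).submoduleOf
          (Ym g x ((D x).dual.Z (c - 1)))))

/-- **GRX** (size 250, deps TWF, RSF, KID, GRU; AUL: TCS): `T_c` of `N` modulo all directions but one.

PROOF. First clause: GRU (1). Second clause: `E.N = E.Ns s0 ⊔ E.A s0`. CASE `s0 = (x, false)`,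
`E.A s0 = Y_x`. `U` = `Ym g x` of the set of the `z ᵥ* (u x)ᴴ = L.rs u w (x, false) z`, `z ∈ C.dual.Z (c-1)`. KID:
`g [L.rs u w (x, false) z]_x = ∑_x' t_x' • g [L.rs u w (x', true) z]_x' - ∑_(x' ≠ x) g [L.rs u w (x', false) z]_x'`
is in `E.Ns s0` (RSF (1), (4) for the classes). So `U ≤ E.Ns s0`, and `E.N ⧸ E.Ns s0` is a quotient of
`Y_x ⧸ U`: GRU (2) with `C' = C`, `v = u x`, TCS. CASE `s0 = (x, true)`, `E.A s0 = t_x Y_x`. `W` = `Ym g x` of the
set of the `z' ᵥ* (w x)ᴴ`, `z' ∈ (C.map σ⁻¹).dual.Z (c-1)`, that is `z' = σ⁻¹(z)`, `z ∈ C.dual.Z (c-1)`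
(`ACXM.mem_symm`), `z' ᵥ* (w x)ᴴ = L.rs u w (x, true) z`. KID: `t_x • g [L.rs u w (x, true) z]_x` is in `E.Ns s0`, so
`L.tr (gen x) W ≤ E.Ns s0`, and `E.N ⧸ E.Ns s0` is a quotient of `t_x Y_x ⧸ t_x W`: GRU (2) with
`C' = C.map σ⁻¹`, `v = w x`, TWF, TCS. -/
def SpecGRX : Prop :=
  ∀ (S : Type) [Ring S] [StarRing S] (S0 : Subring S) [StarSub S0] (F X : Type) [Group F]
    [Fintype X] [DecidableEq X] (T : TreeLen F X) (L : Fre S0 T) (C : FC S0) (D : X → FC S0)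
    (u w : ∀ x, Matrix (D x).I C.I S0) (hu : ∀ x, IsChain (D x) C (u x))
    (hw : ∀ x, IsChain (D x) (C.map ((L.sx x).symm : S0 →+* S0)) (w x)) (c : ℤ),
    (∀ x, Tc S0 (c - 1) ((D x).dual.H (c - 1))) →
    (∀ x, Tc S0 c ((cone C (D x) (u x) (hu x)).dual.H c)) →
    (∀ x, Tc S0 c ((cone (C.map ((L.sx x).symm : S0 →+* S0)) (D x) (w x) (hw x)).dual.H c)) →
    ∀ (Q : Type) [AddCommGroup Q] [Module S Q] (g : (bc (dsum D)).dual.Z (c - 1) →ₗ[S] Q),
      KerPhi L u w g → ∀ E : LD L Q, (∀ x, E.Nx x = Ym g x ((D x).dual.Z (c - 1))) →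
        E.N = ⨆ s, E.A s →
        (∀ x, Tc S0 (c - 1) (E.Nx x)) ∧ ∀ s0, Tc S0 c (E.N ⧸ (E.Ns s0).submoduleOf E.N)

/-- **ACX** (size 150, deps DSM, TCU, BCF, TWF, MAK, PHC, CHR, RLF, KYB, LDX, GRX; AUL: LES, TCS):
`Ext^q = 0`, `q < c`, for the cokernel.

PROOF. LDX: `E`. GRX: `T_(c-1)(Nx x)`, `T_c(N / Ns s0)`. `T_(c-1)(E.A s)` (TWF for the translates), so
`∀ s, E.A s` has `T_(c-1)` (TCU), and its quotient `E.N` (TCS, `(m_s) ↦ ∑ m_s`). Resolutions `C'` of `E.N`, `D' x` of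
`E.Nx x` with duals exact below `c - 1`; `u'`, `w'` (MAK). CHR: `cone (bc C') (bc (dsum D')) Φ'` resolves `Q`. Its
dual is exact in the degrees `q < c - 1` by LES (1) (DSM, BCF), in the degree `c - 1` by RLF, KYB. -/
def SpecACX : Prop :=
  ∀ (S : Type) [Ring S] [StarRing S] (S0 : Subring S) [StarSub S0] (F X : Type) [Group F]
    [Fintype X] [DecidableEq X] (T : TreeLen F X) (L : Fre S0 T) (d : ℕ),
    IsNoetherianRing S0 → FinRes S0 d → Nonempty X →
    ∀ (C : FC S0) (D : X → FC S0)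
      (u w : ∀ x, Matrix (D x).I C.I S0) (hu : ∀ x, IsChain (D x) C (u x))
      (hw : ∀ x, IsChain (D x) (C.map ((L.sx x).symm : S0 →+* S0)) (w x)) (c : ℤ),
      (∀ x, Tc S0 (c - 1) ((D x).dual.H (c - 1))) →
      (∀ x, Tc S0 c ((cone C (D x) (u x) (hu x)).dual.H c)) →
      (∀ x, Tc S0 c ((cone (C.map ((L.sx x).symm : S0 →+* S0)) (D x) (w x) (hw x)).dual.H c)) →
      ∀ (Q : Type) [AddCommGroup Q] [Module S Q] (g : (bc (dsum D)).dual.Z (c - 1) →ₗ[S] Q),
        Function.Surjective g → KerPhi L u w g → Gr S c Q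

/-- **ACQ** (size 200, deps RFP (in `SpecC`), GRI, EXT, CFP, EXN, MAK, PHC, CHR, COH, FNF, LOC, ACH, ACX; AUL:
IND, CON, LES, SEM): the weak Auslander condition for `S`.

PROOF. `S` is coherent (COH), `FinResP S (d+1)` (FNF). `E` resolves a finitely presented module `X0` (RFP) and
`E.dual.H c` is finitely presented (CFP). `c = 0`: `FinResP`; the dual of a resolution has no rows of negative
degree. `c ≥ 1`: EXN with `Y = ⊥`: a lattice datum for `X0`; resolutions `C` of `N`, `D x` of `Nx x` (`FinRes S0`);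
MAK: `u`, `w`; PHC, CHR: `K = cone (bc C) (bc (dsum D)) Φ` resolves `X0`. IND and GRI: it is enough to show
`Gr S c (K.dual.H c)`. LES (3): `g`, `f`. EXT (`K.dual.H c` is finitely presented: CFP, `FinResP`) with the
submodule `ker f = range g`. (a) `K.dual.H c ⧸ ker f` is isomorphic to `range f ≤ (bc C).dual.H c`, a finitely
generated submodule of a finitely presented module, so finitely presented (CFP); its finitely generated
`S0`-submodules are isomorphic to finitely generated `S0`-submodules of `(bc C).dual.H c`, which have `T_c` (ACH,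
`Aus.aus` for `C`); LOC. (b) `range g`: ACX for the corestriction of `g`; `Aus.aus` for `D x` (`c - 1 ≥ 0`), for
`cone C (D x) (u x)`, which is a resolution (`ACQM.cone_isRes` in `AUL/ACQ.lean`), and for
`cone (C.map σ⁻¹) (D x) (w x)`, a resolution by SEM (1) (`C.map σ⁻¹` resolves `L.tr (gen x)⁻¹ N`) and
`cone_isRes`; `lu`, `lw`. -/
def SpecACQ : Prop :=
  ∀ (S : Type) [Ring S] [StarRing S] (S0 : Subring S) [StarSub S0] (F X : Type) [Group F]
    [Fintype X] [DecidableEq X] (T : TreeLen F X) (_ : Fre S0 T) (d : ℕ), Aus S0 d → Nonempty X →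
    ∀ E : FC S, E.IsRes → ∀ c : ℤ, 0 ≤ c → Gr S c (E.dual.H c)

/-- **STP** (size 20, deps COH, FNF, ACQ; the case `X` empty is in `EMX.lean`). -/
def SpecSTP : Prop :=
  ∀ (S : Type) [Ring S] [StarRing S] (S0 : Subring S) [StarSub S0] (F X : Type) [Group F]
    [Fintype X] [DecidableEq X] (T : TreeLen F X) (_ : Fre S0 T) (d : ℕ), Aus S0 d → Nonempty X →
    CWA S (d + 1)

end Pool.Agent.Lib.MP8a3537.AUF
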