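import Pool.Agent.Lib.MP_8a3537_gt.AUF.Defs
import Pool.Agent.Lib.MP_8a3537_gt.WAB.Defs

/-!
# Group rings of extensions by free groups (MP_8a3537_gt, folder AUF): Specs C, groups and the bridge

Paper: `/team-store/8a3537_WA.md`, block 2.7. Every module `XXX` is a file
`Pool/Agent/Lib/MP_8a3537_gt/AUF/XXX.lean` which imports this file and proves
`theorem specXXX (hypotheses = deps) : SpecXXX` in the namespace `Pool.Agent.Lib.MP8a3537.AUF`, with
its auxiliary declarations in the namespace `XXXM`.
-/

namespace Pool.Agent.Lib.MP8a3537.AUF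

open Matrix
open Pool.Agent.Lib.MP8a3537.AUL

/-! ### Free groups and extensions -/

/-- **FRL** (size 90, no deps): the length function of a free group of finite rank.

PROOF. `len = FreeGroup.norm`. `HTRAux.norm_inv_mul` of `UV/HTR.lean` (`lcp`: length of the longest
common initial segment of the reduced words) with `u = toWord g⁻¹` and the word `[s]`:
`norm (g * s) + 2 * lcp (toWord g⁻¹) [s] = norm g + 1`, and `lcp` is `1` if `s` is the first letter of
`toWord g⁻¹` and `0` otherwise: `ne`, `uniq`. `desc`: `s` the first letter of `toWord h`, the same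
formula for `u = [s]`, `v = toWord h`. `ball`: `toWord` is injective, `List.finite_length_le`. -/
def SpecFRL : Prop :=
  ∀ (X : Type) [Finite X], ∃ T : TreeLen (FreeGroup X) X, T.gen = FreeGroup.of

/-- `K` is the extension of the normal subgroup `N` by `F`, split by `ψ`. -/
def IsExtF {K F : Type} [Group K] [Group F] (N : Subgroup K) (ψ : F →* K) : Prop :=
  N.Normal ∧ (∀ h : K, ∃ g : F, (ψ g)⁻¹ * h ∈ N) ∧ ∀ g : F, ψ g ∈ N → g = 1

/-- **GRPF** (size 150, no deps): `R[K] = R[N] * F`.

PROOF. As `AUL/GRP.lean` (`GRPM.star_emb`, `single_mem`, `coeff_not_mem`, `conj_in`):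
`un g = single (ψ g) 1` (`Units.map (MonoidAlgebra.of R K)` after `toUnits` after `ψ`). The coefficient at
`ψ g * n`, `n ∈ N`, of `∑ un g' * a_g'` is the coefficient of `a_g` at `n`
(`ψ g'⁻¹ ψ g n ∈ N` iff `g' = g`): injectivity; every `single h r` is `un g * single ((ψ g)⁻¹ h) r`:
surjectivity. `σ`: as in `AUL/GRP.lean`. -/
def SpecGRPF : Prop :=
  ∀ (R K F X : Type) [Ring R] [StarRing R] [Group K] [Group F] (T : TreeLen F X)
    (N : Subgroup K) (ψ : F →* K), IsExtF N ψ →
    ∃ _ : StarSub (gsub R N), Nonempty (Fre (gsub R N) T) ∧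
      ∃ σ : MonoidAlgebra R N ≃+* gsub R N, ∀ a, σ (star a) = star (σ a)

/-- Poly-infinite-cyclic groups of length at most `n`. -/
inductive PZL : ℕ → (H : Type) → [Group H] → Prop
  | one (n : ℕ) (H : Type) [Group H] : Subsingleton H → PZL n H
  | step (n : ℕ) (H : Type) [Group H] (N : Subgroup H) (t : H) : PZL n N → IsExt N t →
      PZL (n + 1) H

/-- **PZN** (size 50, deps AUL.SEM, AUL.STP, AUL.GRP).

PROOF. Induction on `PZL n H` as in `AUL/POLG.lean`. Trivial group: `Aus (MonoidAlgebra R H) d0`, and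
`Aus A d → Aus A d'` for `d ≤ d'` (only `fin` depends on `d`). Step: GRP, SEM (2), STP. -/
def SpecPZN : Prop :=
  ∀ (R H : Type) [Ring R] [StarRing R] [Group H] (d0 n : ℕ), Aus R d0 → PZL n H →
    Aus (MonoidAlgebra R H) (d0 + n)

/-- `K` is (poly-infinite-cyclic of length `≤ h`)-by-free. -/
def PF (h : ℕ) (K : Type) [Group K] : Prop :=
  ∃ (N : Subgroup K) (_ : N.Normal), PZL h N ∧ IsFreeGroup (K ⧸ N)

/-- **FGX** (size 90, no deps): the free quotient has a finite basis, which can be lifted.

PROOF. `b` a basis of `K ⧸ N` with index set `X` (`IsFreeGroup.Generators`, `FreeGroupBasis`).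
`X` is finite: `K ⧸ N` is generated by a finite set `s` (`QuotientGroup.fg`), so homomorphisms
`K ⧸ N → Multiplicative (ZMod 2)` are determined by their restrictions to `s`, there are only
finitely many; they correspond to functions `X → Multiplicative (ZMod 2)` (`IsFreeGroup.lift`), so `X`
is finite. `ψ : FreeGroup X →* K`: `FreeGroup.lift` of preimages of the basis; the composition with the
quotient map is the isomorphism `FreeGroup X ≃* K ⧸ N` (compare on generators, `FreeGroup.ext_hom`).
So every class is the class of some `ψ g`, and `ψ g ∈ N` gives `g = 1`. -/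
def SpecFGX : Prop :=
  ∀ (K : Type) [Group K] (N : Subgroup K) [N.Normal], Group.FG K → IsFreeGroup (K ⧸ N) →
    ∃ (X : Type) (_ : Finite X) (ψ : FreeGroup X →* K), IsExtF N ψ

/-- **CLZ** (size 120, no deps): the class is closed under products with `ℤ`.

PROOF. `F ≤ K × Z` (`Z = Multiplicative ℤ`) finitely generated. Its image `F1` in `K` is finitely
generated, `N1 ≤ F1` normal, `PZL h N1`, `F1 ⧸ N1` free. Let `p : F → F1` be the surjective projection,
`N = N1.comap p`. `F ⧸ N ≃* F1 ⧸ N1`: free. Claim: `PZL (h + 1) N`. More generally, for a group `Q`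
and a surjective homomorphism `p : Q → P` with a kernel that embeds into `Z`: `PZL h P → PZL (h+1) Q`,
by induction on `PZL h P`: if `P` is trivial, then `Q` embeds into `Z`, so it is trivial or infinite
cyclic: `Q = ⟨t⟩`, `N = ⊥`, `IsExt ⊥ t` (a subgroup of `Z` is cyclic, `Subgroup.isCyclic`, and
torsion-free). If `P = P1⟨t⟩`, take `Q1 = P1.comap p` and a preimage of `t`; the restriction
`Q1 → P1` is surjective with kernel in the kernel of `p`. -/
def SpecCLZ : Prop :=
  ∀ (K : Type) [Group K] (h : ℕ), (∀ F : Subgroup K, F.FG → PF h F) →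
    ∀ F : Subgroup (K × Multiplicative ℤ), F.FG → PF (h + 1) F

/-! ### The bridge to `WAB.WAR` (right modules, columns) -/

/-- **BRC** (size 60, no deps): coherence.

PROOF. Rows: `f : (Fin n → A) →ₗ[A] (Fin m → A)`, `x ↦ x ᵥ* Mᴴ`. Its range is a finitely generated
submodule of `A^m`, so it is finitely presented (`Coh`) and the kernel of `f` is finitely generated
(`Module.FinitePresentation.fg_ker` for `f.rangeRestrict`), by `k_1, …, k_r`
(`Submodule.fg_iff_exists_fin_generating_family`). `K i j = star (k_j i)`. `M *ᵥ x = 0` iff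
`f (star x) = star (M *ᵥ x) = 0` (`Matrix.star_mulVec`), iff `star x = ∑ c_j • k_j`, iff
`x = K *ᵥ star c`. -/
def SpecBRC : Prop :=
  ∀ (A : Type) [Ring A] [StarRing A], Coh A →
    ∀ (m n : ℕ) (M : Matrix (Fin m) (Fin n) A),
      ∃ (r : ℕ) (K : Matrix (Fin n) (Fin r) A), ∀ x : Fin n → A, M *ᵥ x = 0 ↔ ∃ y, x = K *ᵥ y

/-- **BRR** (size 60, deps AUL.BRL): finite free resolutions of cokernels.

PROOF. `Z = ⊤`, `B = AU.rng M`; the quotient `sR ⊤ ⧸ (sR B).submoduleOf (sR ⊤)` is finitely
presented: the quotient of a finite free module by the submodule generated by the rows `star` of the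
columns of `M` (`Module.finitePresentation_of_surjective` or
`Module.FinitePresentation` of a quotient by a finitely generated submodule). `FinResP`, BRL. As
`AUL/BRF.lean`. -/
def SpecBRR : Prop :=
  ∀ (A : Type) [Ring A] [StarRing A] (d : ℕ), FinResP A d →
    ∀ (m n : ℕ) (M : Matrix (Fin m) (Fin n) A),
      ∃ (C : AU.FC A) (g : Matrix (Fin m) C.I A), C.Resolves (AU.rng M) ⊤ g

/-- **RFP** (size 70, deps AUL.RSM): a module with a resolution is finitely presented.

PROOF. `r : Res C X`: `r.pi : (C.I → A) → X` is surjective, its kernel is generated by the rows `C.e i`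
and the `single i 1`, `C.deg i ≠ 0`: if `r.pi x = 0` then `r.pi (part 0 x) = 0` (`low`),
`part 0 x = y ᵥ* C.e = ∑ y i • C.e i` (`ker`), and `x - part 0 x` is a combination of the `single i 1`,
`C.deg i ≠ 0`. `Module.finitePresentation_of_surjective`. The second part: RSM. -/
def SpecRFP : Prop :=
  ∀ (A : Type) [Ring A] (C : FC A),
    (∀ (X : Type) [AddCommGroup X] [Module A X], Res C X → Module.FinitePresentation A X) ∧
    (C.IsRes → ∃ (X : Type) (_ : AddCommGroup X) (_ : Module A X), Module.FinitePresentation A X ∧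
      Nonempty (Res C X))

/-- **BRJ** (size 100, deps AUL.IND, RFP): the injective dimension. PROOF: as `AUL/BRI.lean`, with RFP
instead of RSM and `FinResP` instead of `Aus.fin`. -/
def SpecBRJ : Prop :=
  ∀ (A : Type) [Ring A] [StarRing A] (d : ℕ), FinResP A d →
    ∀ P : AU.FC A, P.IsRes → P.dual.ExAbove d

/-- **BRV** (size 120, deps AUL.BRL): the weak Auslander condition. PROOF: as `AUL/BRA.lean`, with
`Z = P.dual.Cy c`. -/
def SpecBRV : Prop :=
  ∀ (A : Type) [Ring A] [StarRing A],
    (∀ C : FC A, C.IsRes → ∀ c : ℤ, 0 ≤ c → Gr A c (C.dual.H c)) →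
    ∀ P : AU.FC A, P.IsRes → ∀ c : ℕ,
      ∃ (Q : AU.FC A) (g : Matrix P.dual.I Q.I A),
        Q.Resolves (P.dual.Bd c) (P.dual.Cy c) g ∧ Q.dual.ExBelow c

/-- **BRW** (size 20, deps BRC, BRR, BRJ, BRV): the bridge. -/
def SpecBRW : Prop :=
  ∀ (A : Type) [Ring A] [StarRing A] (d : ℕ), CWA A d → WAB.WAR A d

/-! ### Assembly -/

/-- The main theorem of PART 2 (SpecB: STP; written out here to keep the files independent): `S0`
Auslander regular gives `S = S0 * F` coherent and weakly Auslander regular. -/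
def StpF : Prop :=
  ∀ (S : Type) [Ring S] [StarRing S] (S0 : Subring S) [StarSub S0] (F X : Type) [Group F]
    [Fintype X] [DecidableEq X] (T : TreeLen F X) (_ : Fre S0 T) (d : ℕ), Aus S0 d → CWA S (d + 1)

/-- **WPF** (size 50, deps StpF, AUL.SEM, AUL.PID, FRL, GRPF, PZN, FGX, BRW): one finitely generated
group.

PROOF. `N`, `X`, `ψ` (FGX), `T` (FRL), `Fre` and `σ` (GRPF). `Aus R 1` (PID), `Aus R[N] (1 + h)` (PZN),
`Aus (gsub R N) (1 + h)` (SEM), `CWA R[K] (1 + h + 1)` (StpF), BRW. -/
def SpecWPF : Prop :=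
  ∀ (R K : Type) [CommRing R] [IsDomain R] [IsPrincipalIdealRing R] [StarRing R] [Group K] (h : ℕ),
    Group.FG K → PF h K → WAB.WAR (MonoidAlgebra R K) (h + 2)

/-- **LEN** (size 20, deps WPF): the form used in the folder ROW. -/
def SpecLEN : Prop :=
  ∀ (R K : Type) [CommRing R] [IsDomain R] [IsPrincipalIdealRing R] [StarRing R] [Group K] (h : ℕ),
    (∀ F : Subgroup K, F.FG → PF h F) →
    ∀ F : Subgroup K, F.FG → WAB.WAR (MonoidAlgebra R F) (h + 2)

end Pool.Agent.Lib.MP8a3537.AUF
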