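import Pool.Agent.Lib.MP_8a3537_gt.AUF.SpecA
import Pool.Agent.Lib.MP_8a3537_gt.AUF.SpecB
import Pool.Agent.Lib.MP_8a3537_gt.AUF.SpecC
import Pool.Agent.Lib.MP_8a3537_gt.AUL.Main

/-!
# Group rings of extensions by free groups, module ACQ (helper56): the weak Auslander condition

`Gr S c (E.dual.H c)` for a resolution `E` over `S = S0 * F`: the characteristic resolution of the
module resolved by `E`, the long exact sequence of its dual, LOC and ACH for the quotient, ACX for the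
submodule.
-/

set_option autoImplicit false

namespace Pool.Agent.Lib.MP8a3537.AUF

open Matrix
open Pool.Agent.Lib.MP8a3537.AUL

namespace ACQM

/-- the dual of a resolution is exact in negative degrees. -/
theorem exact_neg {A : Type} [Ring A] [StarRing A] (C : FC A) (hC : C.IsRes) (q : ℤ) (hq : q < 0) :
    C.dual.ExactAt q := by
  intro x hx _
  have h0 : x = 0 := by
    funext i
    have h1 : C.deg i ≤ 0 := hC.1 i
    refine hx i ?_
    show - C.deg i ≠ q
    omega
  refine ⟨0, ?_⟩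
  rw [h0, Matrix.zero_vecMul]

/-- a finitely presented module has `Gr 0`. -/
theorem gr_zero {A : Type} [Ring A] [StarRing A] (d : ℕ) (hF : FinResP A d) (M : Type)
    [AddCommGroup M] [Module A M] (hM : Module.FinitePresentation A M) : Gr A 0 M := by
  obtain ⟨C, ⟨r⟩, -⟩ := hF M hM
  exact ⟨C, ⟨r⟩, fun q hq => exact_neg C r.isRes q hq⟩

section

variable {S : Type} [Ring S] [StarRing S] {S0 : Subring S} {F X : Type} [Group F]
  {T : TreeLen F X} {M : Type} [AddCommGroup M] [Module S M]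

omit [StarRing S] in
/-- the inclusion of a submodule over `S`, as an `S0`-linear map. -/
def inc (S0 : Subring S) (R : Submodule S M) : R →ₗ[S0] M where
  toFun m := (m : M)
  map_add' _ _ := rfl
  map_smul' _ _ := rfl

/-- `T_c` of the finitely generated `S0`-submodules passes to submodules over `S`. -/
theorem tc_sub [StarSub S0] (c : ℤ) (hM : ∀ N : Submodule S0 M, N.FG → Tc S0 c N)
    (R : Submodule S M) (N : Submodule S0 R) (hN : N.FG) : Tc S0 c N := by
  have hinj : Function.Injective (inc S0 R) := fun _ _ h => Subtype.ext h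
  have h1 : Tc S0 c (N.map (inc S0 R)) := hM _ (hN.map _)
  exact (mTCS S0 c N (N.map (inc S0 R))
    (Submodule.equivMapOfInjective (inc S0 R) hinj N).toLinearMap).1
    (Submodule.equivMapOfInjective (inc S0 R) hinj N).injective h1

variable [StarSub S0]

theorem sx_symm_star (L : Fre S0 T) (x : X) (a : S0) :
    (L.sx x).symm (star a) = star ((L.sx x).symm a) := by
  show (L.sg (T.gen x)).symm (star a) = star ((L.sg (T.gen x)).symm a)
  rw [L.sg_symm, L.sg_symm, L.sg_star]

/-- The semilinear bijection `n ↦ t_x⁻¹ n`. -/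
def shift (L : Fre S0 T) (x : X) (N : Submodule S0 M) : N ≃+ L.tr (T.gen x)⁻¹ N where
  toFun n := ⟨(((L.t x)⁻¹ : Sˣ) : S) • (n : M), by
    rw [L.mem_tr, map_inv, inv_inv]
    show ((L.t x : Sˣ) : S) • (((L.t x)⁻¹ : Sˣ) : S) • (n : M) ∈ N
    rw [smul_smul, Units.mul_inv, one_smul]
    exact n.2⟩
  invFun n := ⟨((L.t x : Sˣ) : S) • (n : M), by
    have h := n.2
    rw [L.mem_tr, map_inv, inv_inv] at h
    exact h⟩
  left_inv n := Subtype.ext (by
    show ((L.t x : Sˣ) : S) • (((L.t x)⁻¹ : Sˣ) : S) • (n : M) = n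
    rw [smul_smul, Units.mul_inv, one_smul])
  right_inv n := Subtype.ext (by
    show (((L.t x)⁻¹ : Sˣ) : S) • ((L.t x : Sˣ) : S) • (n : M) = n
    rw [smul_smul, Units.inv_mul, one_smul])
  map_add' x y := Subtype.ext (smul_add _ _ _)

theorem shift_smul (L : Fre S0 T) (x : X) (N : Submodule S0 M) (a : S0) (n : N) :
    shift L x N (a • n) = (L.sx x).symm a • shift L x N n := by
  apply Subtype.ext
  show (((L.t x)⁻¹ : Sˣ) : S) • ((a : S) • (n : M)) =
    (((L.sg (T.gen x)).symm a : S0) : S) • ((((L.t x)⁻¹ : Sˣ) : S) • (n : M))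
  rw [L.coe_sg_symm, smul_smul, smul_smul]
  have h1 : (((L.un (T.gen x))⁻¹ : Sˣ) : S) = (((L.t x)⁻¹ : Sˣ) : S) := rfl
  have h2 : ((L.un (T.gen x) : Sˣ) : S) = ((L.t x : Sˣ) : S) := rfl
  rw [h1, h2, mul_assoc, mul_assoc, Units.mul_inv, mul_one]

variable [Fintype X] [DecidableEq X]

/-- the two cones of an edge are resolutions. -/
theorem cones (L : Fre S0 T) (E : LD L M) (C : FC S0) (D : X → FC S0) (r : Res C E.N)
    (s : ∀ x, Res (D x) (E.Nx x)) (u w : ∀ x, Matrix (D x).I C.I S0) (hD : Dat L E C D r s u w)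
    (x : X) : (cone C (D x) (u x) (hD.hu x)).IsRes ∧
      (cone (C.map ((L.sx x).symm : S0 →+* S0)) (D x) (w x) (hD.hw x)).IsRes := by
  constructor
  · exact AUL.ACQM.cone_isRes specCON (E.Nx x) E.N (E.le x) C (D x) r (s x) (u x) (hD.hu x)
      (hD.lu x)
  · obtain ⟨r2, hr2⟩ := ((AUL.specSEM S0 S0 (L.sx x).symm (sx_symm_star L x)).1 E.N
      (L.tr (T.gen x)⁻¹ E.N) (shift L x E.N) (shift_smul L x E.N)).1 C r
    have hle : E.Nx x ≤ L.tr (T.gen x)⁻¹ E.N := by
      intro m hm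
      rw [L.mem_tr, map_inv, inv_inv]
      exact E.tle x m hm
    refine AUL.ACQM.cone_isRes specCON (E.Nx x) (L.tr (T.gen x)⁻¹ E.N) hle
      (C.map ((L.sx x).symm : S0 →+* S0)) (D x) r2 (s x) (w x) (hD.hw x) (fun z => ?_)
    rw [hr2]
    have h1 := hD.lw x z
    show (((L.t x)⁻¹ : Sˣ) : S) • ((r.pi (fun j => L.sx x ((z ᵥ* w x) j)) : E.N) : M) = _
    rw [← h1, smul_smul, Units.inv_mul, one_smul]

end

end ACQM

open ACQM in
theorem specACQ (hRFP : SpecRFP) (hGRI : SpecGRI) (hEXT : SpecEXT) (hCFP : SpecCFP)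
    (hEXN : SpecEXN) (hMAK : SpecMAK) (hPHC : SpecPHC) (hCHR : SpecCHR) (hCOH : SpecCOH)
    (hFNF : SpecFNF) (hLOC : SpecLOC) (hACH : SpecACH) (hACX : SpecACX) : SpecACQ := by
  intro S _ _ S0 _ F X _ _ _ T L d hA hX E hE c hc
  have hn0 := hA.noeth
  have hF0 := hA.fin
  have hcoh : Coh S := hCOH S S0 F X T L d hn0 hF0
  have hF : FinResP S (d + 1) := hFNF S S0 F X T L d hn0 hF0
  have hfp : ∀ (C : FC S) (q : ℤ), Module.FinitePresentation S (C.H q) := fun C q =>
    ((hCFP S hcoh).2 C q).2.2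
  rcases eq_or_lt_of_le hc with h0 | h0
  · subst h0
    exact gr_zero (d + 1) hF _ (hfp E.dual 0)
  obtain ⟨X0, _, _, hX0, ⟨rE⟩⟩ := (hRFP S E).2 hE
  obtain ⟨E', -⟩ := hEXN S S0 F X T L hn0 X0 hX0 ⊥ Submodule.fg_bot
  obtain ⟨C, ⟨r⟩, -⟩ := hF0 E'.N (Module.Finite.of_fg E'.fg)
  have hDe : ∀ x, ∃ D : FC S0, Nonempty (Res D (E'.Nx x)) := by
    intro x
    obtain ⟨D, h, -⟩ := hF0 (E'.Nx x) (Module.Finite.of_fg (E'.fgx x))
    exact ⟨D, h⟩
  choose D hDn using hDe
  obtain ⟨s⟩ : Nonempty (∀ x, Res (D x) (E'.Nx x)) := ⟨fun x => (hDn x).some⟩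
  obtain ⟨u, w, hD⟩ := hMAK S S0 F X T L X0 E' C D r s
  have hP := hPHC S S0 F X T L C D u w hD.hu hD.hw
  obtain ⟨rK⟩ := hCHR S S0 F X T L X0 E' C D r s u w hD hP
  obtain ⟨e⟩ := (mIND S E (cone (bc C) (bc (dsum D)) (L.phi u w) hP) X0 rE rK).2 c
  refine (hGRI S c _ _).1 e.symm ?_
  obtain ⟨g, f, hgf, hg⟩ := (AUL.specLES S (bc C) (bc (dsum D)) (L.phi u w) hP).2.2 c
  have hK := hfp (cone (bc C) (bc (dsum D)) (L.phi u w) hP).dual c
  refine hEXT S c _ (LinearMap.ker f) ?_ ?_ ?_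
  · obtain ⟨C', hC', -⟩ := hF _ hK
    exact ⟨C', hC'⟩
  · rw [hgf]
    refine hACX S S0 F X T L d hn0 hF0 hX C D u w hD.hu hD.hw c
      (fun x => hA.aus (D x) (s x).isRes (c - 1) (by omega))
      (fun x => hA.aus _ (cones L E' C D r s u w hD x).1 c hc)
      (fun x => hA.aus _ (cones L E' C D r s u w hD x).2 c hc) (LinearMap.range g) g.rangeRestrict
      g.surjective_rangeRestrict (fun y => ?_)
    refine Iff.trans ?_ (hg y)
    constructor
    · intro h
      exact congrArg Subtype.val h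
    · intro h
      exact Subtype.ext h
  · refine (hGRI S c _ _).1 f.quotKerEquivRange.symm ?_
    have hfg : (LinearMap.range f).FG := by
      have h1 : Module.Finite S ((cone (bc C) (bc (dsum D)) (L.phi u w) hP).dual.H c) := by
        have := hK
        infer_instance
      have h2 : Module.Finite S (LinearMap.range f) := Module.Finite.range f
      exact Module.Finite.iff_fg.mp h2
    have hfpr : Module.FinitePresentation S (LinearMap.range f) :=
      (hCFP S hcoh).1 _ (hfp (bc C).dual c) (LinearMap.range f) hfg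
    refine hLOC S S0 F X T L hn0 (LinearMap.range f) hfpr c (fun N hN => ?_)
    exact tc_sub c (hACH S S0 F X T L d hn0 hF0 C c (hA.aus C r.isRes c hc)) (LinearMap.range f) N
      hN

end Pool.Agent.Lib.MP8a3537.AUF
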