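import Pool.Agent.Lib.MP_8a3537_gt.AUF.SpecA
import Pool.Agent.Lib.MP_8a3537_gt.AUF.SpecB
import Pool.Agent.Lib.MP_8a3537_gt.AUL.LES
import Pool.Agent.Lib.MP_8a3537_gt.AUL.TCS

/-! # AUF, module ACX: `Ext^q = 0`, `q < c`, for the cokernel (assembly) -/

set_option linter.unusedSectionVars false

namespace Pool.Agent.Lib.MP8a3537.AUF

open Matrix
open Pool.Agent.Lib.MP8a3537.AUL

namespace ACXM

/-- `T_c` implies `Gr_c`. -/
theorem gr_of_tc {A : Type} [Ring A] [StarRing A] {c : ℤ} {N : Type} [AddCommGroup N]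
    [Module A N] (h : Tc A c N) : Gr A c N :=
  TCSM.gr_equiv Submodule.topEquiv (h ⊤)

end ACXM

open ACXM in
/-- **Module ACX**. -/
theorem specACX (hDSM : SpecDSM) (hTCU : SpecTCU) (hBCF : SpecBCF) (hTWF : SpecTWF)
    (hMAK : SpecMAK) (hPHC : SpecPHC) (hCHR : SpecCHR) (hRLF : SpecRLF) (hKYB : SpecKYB)
    (hLDX : SpecLDX) (hGRX : SpecGRX) : SpecACX := by
  intro S _ _ S0 _ F X _ _ _ T L d hn hfin hne C D u w hu hw c hT1 hT2 hT3 Q _ _ g hgs hg
  obtain ⟨E, hE1, hE2⟩ := hLDX S S0 F X T L hn C D u w hu hw (c - 1) Q g hgs hg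
  obtain ⟨hNx, hNs⟩ := hGRX S S0 F X T L C D u w hu hw c hT1 hT2 hT3 Q g hg E hE1 hE2
  -- `T_(c-1)` of `E.N`
  have hAfg : ∀ s, (E.A s).FG := by
    rintro ⟨x, b⟩
    cases b
    · exact E.fgx x
    · exact (hTWF S S0 F X T L Q (E.Nx x) ⊥ (T.gen x) (c - 1)).2.2.2 (E.fgx x)
  have hAT : ∀ s, Tc S0 (c - 1) (E.A s) := by
    rintro ⟨x, b⟩
    cases b
    · exact hNx x
    · exact (hTWF S S0 F X T L Q (E.Nx x) ⊥ (T.gen x) (c - 1)).1 (hNx x)
  have hN : Tc S0 (c - 1) E.N := by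
    have h1 := (hTCU S0 d hn hfin (c - 1) (X × Bool)).1 Q E.A hAfg hAT
    rw [hE2]
    exact h1
  -- resolutions
  obtain ⟨C', ⟨r'⟩, hC'⟩ := gr_of_tc hN
  choose D' hD' using fun x => gr_of_tc (hNx x)
  have s' : ∀ x, Res (D' x) (E.Nx x) := fun x => (hD' x).1.some
  obtain ⟨u', w', hdat⟩ := hMAK S S0 F X T L Q E C' D' r' s'
  have hP := hPHC S S0 F X T L C' D' u' w' hdat.hu hdat.hw
  have hres := hCHR S S0 F X T L Q E C' D' r' s' u' w' hdat hP
  refine ⟨cone (bc C') (bc (dsum D')) (L.phi u' w') hP, hres, fun q hq => ?_⟩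
  rcases lt_or_eq_of_le (show q ≤ c - 1 by omega) with h | h
  · apply (specLES S (bc C') (bc (dsum D')) (L.phi u' w') hP).1 q
    · rw [bc_dual]
      exact hBCF S S0 F X T L C'.dual q (hC' q h)
    · rw [bc_dual, (hDSM S0 X D').2.2.2.1]
      apply hBCF S S0 F X T L
      exact (hDSM S0 X (fun x => (D' x).dual)).2.1 (q - 1)
        (fun x => (hD' x).2 (q - 1) (by omega))
  · subst h
    exact hKYB S S0 F X T L hne C' D' u' w' hdat.hu hdat.hw hP (c - 1)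
      (hRLF S S0 F X T L d hn hfin Q E c hNx hNs C' D' r' s' u' w' hdat)
      (fun x => (hD' x).2 (c - 1 - 1) (by omega))

end Pool.Agent.Lib.MP8a3537.AUF
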