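import Pool.Agent.Lib.MP_8a3537_gt.AUF.SpecA

/-!
# MP_8a3537_gt, folder AUF, module BCF (helper18): base change keeps exactness
-/

namespace Pool.Agent.Lib.MP8a3537.AUF

open Matrix
open Pool.Agent.Lib.MP8a3537.AUL

theorem specBCF (hCFL : SpecCFL) : SpecBCF := by
  intro S _ _ S0 _ F X _ T L C q h
  change ∀ x : C.I → S, InDeg C.deg q x → x ᵥ* (C.e.map (fun a : S0 => (a : S))) = 0 →
    ∃ y : C.I → S, x = y ᵥ* (C.e.map (fun a : S0 => (a : S)))
  intro x hx hxe
  have hC := hCFL S S0 F X T L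
  -- the coefficient rows are cocycles of degree q
  have hdeg : ∀ g, InDeg C.deg q (L.cor x g) := by
    intro g i hi
    have h0 : x i = 0 := hx i hi
    change L.co (x i) g = 0
    rw [h0, Fre.co, map_zero]
    rfl
  have hcoc : ∀ g, L.cor x g ᵥ* C.e = 0 := by
    intro g
    rw [← hC.mul C.I C.I x C.e g, hxe]
    exact hC.zero C.I g
  have hex : ∀ g, ∃ y : C.I → S0, L.cor x g = y ᵥ* C.e ∧ (L.cor x g = 0 → y = 0) := by
    intro g
    by_cases h0 : L.cor x g = 0
    · refine ⟨0, ?_, fun _ => rfl⟩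
      rw [h0, Matrix.zero_vecMul]
    · obtain ⟨y, hy⟩ := h (L.cor x g) (hdeg g) (hcoc g)
      exact ⟨y, hy, fun h' => absurd h' h0⟩
  choose f hf hf0 using hex
  have hfin : {g | f g ≠ 0}.Finite := by
    refine (hC.fin C.I x).subset ?_
    intro g hg h0
    exact hg (hf0 g h0)
  obtain ⟨y, hy⟩ := hC.ex C.I f hfin
  refine ⟨y, ?_⟩
  apply hC.ext
  intro g
  rw [hf g, hC.mul C.I C.I y C.e g, hy g]

end Pool.Agent.Lib.MP8a3537.AUF
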