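import Pool.Agent.Lib.MP_8a3537_gt.AUF.SpecC

/-!
# Module BRC: coherence, in terms of matrices
-/

namespace Pool.Agent.Lib.MP8a3537.AUF

open Matrix
open Pool.Agent.Lib.MP8a3537.AUL

theorem specBRC : SpecBRC := by
  intro A _ _ hA m n M
  let f : (Fin n → A) →ₗ[A] (Fin m → A) := Mᴴ.vecMulLinear
  have hf : ∀ x, f x = x ᵥ* Mᴴ := fun x => rfl
  have hfg : (LinearMap.range f).FG := by
    rw [LinearMap.range_eq_map]
    exact Module.Finite.fg_top.map f
  have hfp : Module.FinitePresentation A (LinearMap.range f) := hA m _ hfg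
  have hker : (LinearMap.ker f.rangeRestrict).FG :=
    Module.FinitePresentation.fg_ker f.rangeRestrict f.surjective_rangeRestrict
  rw [LinearMap.ker_rangeRestrict] at hker
  obtain ⟨r, k, hk⟩ := Submodule.fg_iff_exists_fin_generating_family.mp hker
  refine ⟨r, Matrix.of fun i j => star (k j i), fun x => ?_⟩
  have h1 : M *ᵥ x = 0 ↔ star x ∈ LinearMap.ker f := by
    rw [LinearMap.mem_ker, hf, ← star_mulVec, star_eq_zero]
  have h2 : ∀ c : Fin r → A, star (∑ j, c j • k j) =
      (Matrix.of fun i j => star (k j i) : Matrix (Fin n) (Fin r) A) *ᵥ star c := by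
    intro c
    ext i
    simp [Matrix.mulVec, dotProduct, Finset.sum_apply, star_sum, star_mul]
  rw [h1, ← hk, Submodule.mem_span_range_iff_exists_fun]
  constructor
  · rintro ⟨c, hc⟩
    refine ⟨star c, ?_⟩
    rw [← h2 c, hc, star_star]
  · rintro ⟨y, hy⟩
    refine ⟨star y, ?_⟩
    have h3 := h2 (star y)
    rw [star_star, ← hy] at h3
    rw [← h3, star_star]

end Pool.Agent.Lib.MP8a3537.AUF
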