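import Pool.Agent.Lib.MP_8a3537_gt.AUF.SpecC
import Pool.Agent.Lib.MP_8a3537_gt.AUL.BRI

/-!
# Module BRJ: finite injective dimension, for finitely presented modules
-/

namespace Pool.Agent.Lib.MP8a3537.AUF

open Matrix
open Pool.Agent.Lib.MP8a3537.AUL
open Pool.Agent.Lib.MP8a3537.AUL.BRIM

theorem specBRJ (hIND : AUL.SpecIND) (hRFP : SpecRFP) : SpecBRJ := by
  intro A _ _ d hA P hP
  have hC := isRes_ofAU P hP
  obtain ⟨X, _, _, hfin, ⟨r⟩⟩ := (hRFP A (ofAU P)).2 hC
  obtain ⟨D, ⟨s⟩, hD⟩ := hA X hfin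
  have hDe : ∀ q : ℤ, (d : ℤ) < q → D.dual.ExactAt q := by
    intro q hq x hx _
    refine ⟨0, ?_⟩
    rw [zero_vecMul]
    ext i
    apply hx i
    have h1 := hD i
    intro h2
    have h3 : D.dual.deg i = - D.deg i := rfl
    omega
  have he : (ofAU P).dual.e = P.d := conjTranspose_conjTranspose P.d
  have hCe : ∀ q : ℤ, (d : ℤ) < q → ∀ x : P.I → A, (∀ i, -P.deg i ≠ q → x i = 0) →
      x ᵥ* P.d = 0 → ∃ y : P.I → A, x = y ᵥ* P.d := by
    intro q hq x hx hx0
    have h1 := (hIND A D (ofAU P) X s r).1 q (hDe q hq) x hx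
    rw [he] at h1
    exact h1 hx0
  suffices key : ∀ x : P.I → A, (∀ i : P.I, x i ≠ 0 → (d : ℤ) < -P.deg i) →
      P.dᴴ *ᵥ x = 0 → ∃ y : P.I → A, x = P.dᴴ *ᵥ y from key
  intro x hx hx0
  have h1 : (star x) ᵥ* P.d = 0 := by
    have h2 := congrArg star hx0
    rw [star_mulVec, star_zero, conjTranspose_conjTranspose] at h2
    exact h2
  have hdeg : ∀ i j, P.d i j ≠ 0 → -P.deg j = -P.deg i + 1 := by
    intro i j hij
    have := P.hd i j hij
    omega
  obtain ⟨y, hy⟩ : ∃ y : P.I → A, star x = y ᵥ* P.d := by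
    apply of_parts (fun i => -P.deg i) P.d (star x)
    intro q
    by_cases hq : (d : ℤ) < q
    · apply hCe q hq
      · intro i hi
        simp [part, hi]
      · rw [part_vecMul (fun i => -P.deg i) P.d hdeg, h1]
        ext i
        simp [part]
    · refine ⟨0, ?_⟩
      rw [zero_vecMul]
      ext i
      simp only [part]
      split_ifs with hi
      · by_contra h0
        apply hq
        have h4 : x i ≠ 0 := by
          intro h5
          apply h0
          rw [Pi.star_apply, h5, star_zero]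
          rfl
        have h6 := hx i h4
        omega
      · rfl
  have h8 : x = P.dᴴ *ᵥ star y := by
    have h9 := congrArg star hy
    rw [star_star, star_vecMul] at h9
    exact h9
  exact ⟨star y, h8⟩

end Pool.Agent.Lib.MP8a3537.AUF
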