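import Pool.Agent.Lib.MP_8a3537_gt.AUF.SpecC

/-!
# AUF, module BRR: finite free resolutions of cokernels, in the form of `AU`
-/

namespace Pool.Agent.Lib.MP8a3537.AUF

open Matrix
open Pool.Agent.Lib.MP8a3537.AUL

namespace BRRM

/-- The rows in the span of the columns of `M` are generated by the stars of these columns. -/
theorem sR_rng {A : Type} [Ring A] [StarRing A] {m n : ℕ} (M : Matrix (Fin m) (Fin n) A) :
    sR (AU.rng M) = Submodule.span A (Set.range fun j : Fin n => fun i : Fin m => star (M i j)) := by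
  apply le_antisymm
  · rintro x ⟨y, hy⟩
    have hx : x = ∑ j, star (y j) • (fun i : Fin m => star (M i j)) := by
      funext i
      have h1 : star (x i) = ∑ j, M i j * y j := congrFun hy i
      rw [Finset.sum_apply, ← star_star (x i), h1, star_sum]
      refine Finset.sum_congr rfl fun j _ => ?_
      rw [star_mul]
      rfl
    rw [hx]
    exact Submodule.sum_mem _ fun j _ =>
      Submodule.smul_mem _ _ (Submodule.subset_span ⟨j, rfl⟩)
  · rw [Submodule.span_le]
    rintro _ ⟨j, rfl⟩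
    refine ⟨Pi.single j 1, ?_⟩
    funext i
    change star (star (M i j)) = ∑ k, M i k * (Pi.single j 1 : Fin n → A) k
    rw [star_star, Finset.sum_eq_single j]
    · rw [Pi.single_eq_same, mul_one]
    · intro k _ hk
      rw [Pi.single_eq_of_ne hk, mul_zero]
    · intro h
      exact absurd (Finset.mem_univ _) h

theorem fp_top {A : Type} [Ring A] [StarRing A] {m : ℕ} (B : Submodule Aᵐᵒᵖ (Fin m → A))
    (hB : (sR B).FG) :
    Module.FinitePresentation A (sR (⊤ : Submodule Aᵐᵒᵖ (Fin m → A)) ⧸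
      (sR B).submoduleOf (sR (⊤ : Submodule Aᵐᵒᵖ (Fin m → A)))) := by
  have h : ∀ x : Fin m → A, (LinearMap.id : (Fin m → A) →ₗ[A] (Fin m → A)) x ∈
      sR (⊤ : Submodule Aᵐᵒᵖ (Fin m → A)) := fun x => Submodule.mem_top
  refine Module.finitePresentation_of_surjective
    ((((sR B).submoduleOf (sR (⊤ : Submodule Aᵐᵒᵖ (Fin m → A)))).mkQ).comp
      (LinearMap.id.codRestrict (sR (⊤ : Submodule Aᵐᵒᵖ (Fin m → A))) h)) ?_ ?_
  · rw [LinearMap.coe_comp]
    refine (Submodule.mkQ_surjective _).comp ?_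
    rintro ⟨x, hx⟩
    exact ⟨x, rfl⟩
  · have hk : LinearMap.ker ((((sR B).submoduleOf
        (sR (⊤ : Submodule Aᵐᵒᵖ (Fin m → A)))).mkQ).comp
        (LinearMap.id.codRestrict (sR (⊤ : Submodule Aᵐᵒᵖ (Fin m → A))) h)) = sR B := by
      ext x
      rw [LinearMap.mem_ker, LinearMap.comp_apply, Submodule.mkQ_apply,
        Submodule.Quotient.mk_eq_zero]
      rfl
    rw [hk]
    exact hB

end BRRM

open BRRM in
theorem specBRR (hBRL : AUL.SpecBRL) : SpecBRR := by
  intro A _ _ d hF m n M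
  have hfg : (sR (AU.rng M)).FG := by
    rw [sR_rng]
    exact Submodule.fg_span (Set.finite_range _)
  obtain ⟨C, ⟨r⟩, _⟩ := hF _ (fp_top (AU.rng M) hfg)
  obtain ⟨g, hg⟩ := hBRL A (Fin m) (AU.rng M) ⊤ le_top C r
  exact ⟨toAU C, g, hg⟩

end Pool.Agent.Lib.MP8a3537.AUF
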