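import Pool.Agent.Lib.MP_8a3537_gt.AUF.SpecC
import Pool.Agent.Lib.MP_8a3537_gt.AUL.BRA

/-!
# BRV: the weak Auslander condition for right modules
-/

namespace Pool.Agent.Lib.MP8a3537.AUF

open Matrix
open Pool.Agent.Lib.MP8a3537.AUL

namespace BRVM

open AUL.BRAM

variable {A : Type} [Ring A] [StarRing A]

/-- The converse of `AUL.BRAM.sR_Cy`. -/
theorem sR_Cy' (P : AU.FC A) (c : ℤ) (x : P.I → A) (hx : x ∈ (ofAU P).dual.Z c) :
    x ∈ sR (P.dual.Cy c) := by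
  obtain ⟨h1, h2⟩ := hx
  refine ⟨fun i hi => ?_, (l1 (P.dᴴ) x).1 h2⟩
  by_contra h3
  exact sne x i hi (h1 i h3)

theorem Bd_le_Cy (P : AU.FC A) (c : ℤ) : P.dual.Bd c ≤ P.dual.Cy c := by
  intro x hx
  obtain ⟨h1, y, hy⟩ := hx
  refine ⟨h1, ?_⟩
  rw [hy, Matrix.mulVec_mulVec]
  have h2 : P.dual.d * P.dual.d = 0 := P.dual.dd
  rw [h2, Matrix.zero_mulVec]

end BRVM

open AUL.BRAM in
theorem specBRV (hBRL : SpecBRL) : SpecBRV := by
  intro A _ _ hwa P hP c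
  have hD : (ofAU P).IsRes := ofAU_isRes P hP
  let inc : sR (P.dual.Cy c) →ₗ[A] (ofAU P).dual.Z c :=
    { toFun := fun z => ⟨z.1, sR_Cy P c z.1 z.2⟩
      map_add' := fun _ _ => rfl
      map_smul' := fun _ _ => rfl }
  let mk : (ofAU P).dual.Z c →ₗ[A] (ofAU P).dual.H c :=
    (((ofAU P).dual.B c).submoduleOf ((ofAU P).dual.Z c)).mkQ
  let phi : sR (P.dual.Cy c) →ₗ[A] (ofAU P).dual.H c := mk ∘ₗ inc
  have hker : LinearMap.ker phi = (sR (P.dual.Bd c)).submoduleOf (sR (P.dual.Cy c)) := by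
    ext z
    rw [LinearMap.mem_ker]
    change Submodule.Quotient.mk (inc z) = 0 ↔ z.1 ∈ sR (P.dual.Bd c)
    rw [Submodule.Quotient.mk_eq_zero]
    exact (sR_Bd P c z.1).symm
  have hsurj : Function.Surjective phi := by
    intro y
    obtain ⟨z, rfl⟩ := Submodule.Quotient.mk_surjective _ y
    exact ⟨⟨z.1, BRVM.sR_Cy' P c z.1 z.2⟩, rfl⟩
  obtain ⟨C, ⟨r⟩, hC⟩ := hwa (ofAU P) hD (c : ℤ) (by positivity)
  have e1 : (sR (P.dual.Cy c) ⧸ LinearMap.ker phi) ≃ₗ[A] (ofAU P).dual.H c :=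
    phi.quotKerEquivOfSurjective hsurj
  have e2 : (sR (P.dual.Cy c) ⧸ LinearMap.ker phi) ≃ₗ[A]
      (sR (P.dual.Cy c) ⧸ (sR (P.dual.Bd c)).submoduleOf (sR (P.dual.Cy c))) :=
    Submodule.quotEquivOfEq _ _ hker
  have r2 : Res C (sR (P.dual.Cy c) ⧸ (sR (P.dual.Bd c)).submoduleOf (sR (P.dual.Cy c))) :=
    resEquiv r (e1.symm.trans e2)
  obtain ⟨g, hg⟩ := hBRL A P.dual.I (P.dual.Bd c) (P.dual.Cy c) (BRVM.Bd_le_Cy P c) C r2
  exact ⟨toAU C, g, hg, toAU_dual_exBelow C c hC⟩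

end Pool.Agent.Lib.MP8a3537.AUF
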