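import Pool.Agent.Lib.MP_8a3537_gt.AUF.SpecC

/-! # AUF, module BRW: the bridge to `WAB.WAR` -/

namespace Pool.Agent.Lib.MP8a3537.AUF

open Pool.Agent.Lib.MP8a3537.AUL

theorem specBRW (hBRC : SpecBRC) (hBRR : SpecBRR) (hBRJ : SpecBRJ) (hBRV : SpecBRV) : SpecBRW := by
  intro A _ _ d h
  exact
    { coh := hBRC A h.coh
      ffr := hBRR A d h.fin
      injdim := hBRJ A d h.fin
      wa := hBRV A h.wa }

end Pool.Agent.Lib.MP8a3537.AUF
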