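import Pool.Agent.Lib.MP_8a3537_gt.AUF.SpecA
import Pool.Agent.Lib.MP_8a3537_gt.AUL.CHR

/-! # AUF, module CHR: the characteristic resolution -/

namespace Pool.Agent.Lib.MP8a3537.AUF

open Matrix
open Pool.Agent.Lib.MP8a3537.AUL

namespace CHRFM

open AUL.CHRM (part_vecMul part_of_inDeg inDeg_part inDeg_vecMul inDeg_add inDeg_sub pi_eq pi_un
  pi_part smul_vecMul')

/-- The component of a row indexed by a sigma type. -/
def sc {X : Type} {I : X → Type} {A : Type} (z : (Σ x, I x) → A) (x : X) : I x → A :=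
  fun i => z ⟨x, i⟩

section Free

variable {S : Type} [Ring S] [StarRing S] {S0 : Subring S} {F X : Type} [Group F]
  {T : TreeLen F X}

theorem cor_sum (L : Fre S0 T) (hL : CFacts L) {I Y : Type} (s : Finset Y) (f : Y → I → S)
    (g : F) : L.cor (∑ y ∈ s, f y) g = ∑ y ∈ s, L.cor (f y) g := by
  classical
  induction s using Finset.induction_on with
  | empty => rw [Finset.sum_empty, Finset.sum_empty, hL.zero]
  | insert a s ha ih => rw [Finset.sum_insert ha, Finset.sum_insert ha, hL.add, ih]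

theorem cor_phi [StarSub S0] [Fintype X] [DecidableEq X] (L : Fre S0 T) (hL : CFacts L)
    {C : FC S0} {D : X → FC S0} (u w : ∀ x, Matrix (D x).I C.I S0)
    (z : (Σ x, (D x).I) → S) (g : F) :
    L.cor (z ᵥ* L.phi u w) g = ∑ x, ((fun j => L.sx x ((L.cor (sc (I := fun x => (D x).I) z x)
      (g * T.gen x) ᵥ* w x) j)) - L.cor (sc (I := fun x => (D x).I) z x) g ᵥ* u x) := by
  have h : z ᵥ* L.phi u w = ∑ x, ((fun j => (sc (I := fun x => (D x).I) z x ᵥ*
      (w x).map (fun a : S0 => (a : S))) j * (((L.un (T.gen x))⁻¹ : Sˣ) : S)) -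
      sc (I := fun x => (D x).I) z x ᵥ* (u x).map (fun a : S0 => (a : S))) := by
    funext j
    rw [Finset.sum_apply]
    change ∑ i : (Σ x, (D x).I), z i * ((w i.1 i.2 j : S) * (((L.un (T.gen i.1))⁻¹ : Sˣ) : S) -
        (u i.1 i.2 j : S)) =
      ∑ x, ((∑ i, z ⟨x, i⟩ * (w x i j : S)) * (((L.un (T.gen x))⁻¹ : Sˣ) : S) -
        ∑ i, z ⟨x, i⟩ * (u x i j : S))
    rw [Fintype.sum_sigma]
    refine Finset.sum_congr rfl fun x _ => ?_
    simp only [mul_sub, Finset.sum_sub_distrib, Finset.sum_mul, mul_assoc]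
  rw [h, cor_sum L hL]
  refine Finset.sum_congr rfl fun x _ => ?_
  rw [hL.sub, hL.mul_inv, hL.mul, hL.mul]
  rfl

/-- If all coefficient rows are in the image then the row is in the image. -/
theorem lift_coef (L : Fre S0 T) (hL : CFacts L) {I J : Type} [Fintype I] [Fintype J]
    (m : Matrix I J S0) (x : J → S) (h : ∀ g, ∃ y : I → S0, L.cor x g = y ᵥ* m) :
    ∃ y : I → S, x = y ᵥ* m.map (fun a : S0 => (a : S)) := by
  classical
  choose y hy using h
  obtain ⟨y', hy'⟩ := hL.ex I (fun g => if L.cor x g = 0 then 0 else y g) (by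
    refine (hL.fin J x).subset fun g hg h0 => hg ?_
    rw [if_pos h0])
  refine ⟨y', hL.ext J _ _ fun g => ?_⟩
  rw [hL.mul, hy']
  by_cases h0 : L.cor x g = 0
  · rw [if_pos h0, h0, Matrix.zero_vecMul]
  · rw [if_neg h0]
    exact hy g

theorem inDeg_cor (L : Fre S0 T) {I : Type} (deg : I → ℤ) (q : ℤ) (x : I → S)
    (hx : InDeg deg q x) (g : F) : InDeg deg q (L.cor x g) := by
  intro i hi
  change L.val.symm (x i) g = 0
  rw [hx i hi, map_zero]
  rfl

end Free

end CHRFM

open AUL.CHRM (part_vecMul part_of_inDeg inDeg_part inDeg_vecMul inDeg_add inDeg_sub pi_eq pi_un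
  pi_part smul_vecMul') in
open CHRFM in
/-- **CHR** -/
theorem specCHR (hDSM : SpecDSM) (hXIN : SpecXIN) (hCFL : SpecCFL) (hBCF : SpecBCF) :
    SpecCHR := by
  classical
  intro S _ _ S0 _ F X _ _ _ T L M _ _ E C D r s u w hd hP
  have hL : CFacts L := hCFL S S0 F X T L
  set P : C.I → M := fun i => ((r.pi (AUL.CHRM.un i) : E.N) : M) with hPdef
  have hpi : ∀ y : C.I → S0, ((r.pi y : E.N) : M) = ∑ i, y i • P i := by
    intro y
    rw [pi_eq r y, AddSubmonoidClass.coe_finsetSum]
    rfl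
  have hpiS : ∀ y : C.I → S0, ∑ i, ((y i : S0) : S) • P i = ((r.pi y : E.N) : M) := by
    intro y
    rw [hpi y]
    rfl
  -- the values on the rows of the differential
  have hrow : ∀ i, ∑ j, ((C.e i j : S0) : S) • P j = 0 := by
    intro i
    rw [hpiS (fun j => C.e i j)]
    have h : (fun j => C.e i j) = AUL.CHRM.un i ᵥ* C.e := by
      funext j
      change C.e i j = ∑ l, (if i = l then (1 : S0) else 0) * C.e l j
      simp
    rw [h, r.zero]
    rfl
  have hphi : ∀ i : (Σ x, (D x).I), ∑ j, L.phi u w i j • P j = 0 := by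
    rintro ⟨x, i⟩
    have h1 : ∀ j, L.phi u w ⟨x, i⟩ j • P j =
        (((L.t x)⁻¹ : Sˣ) : S) • ((L.sx x (w x i j) : S0) : S) • P j
        - ((u x i j : S0) : S) • P j := by
      intro j
      rw [smul_smul, ← sub_smul]
      congr 1
      change (w x i j : S) * (((L.t x)⁻¹ : Sˣ) : S) - (u x i j : S) = _
      rw [Fre.sx, Fre.coe_sg, Fre.t]
      simp [← mul_assoc]
    have hu : (fun j => u x i j) = AUL.CHRM.un i ᵥ* u x := by
      funext j
      change u x i j = ∑ l, (if i = l then (1 : S0) else 0) * u x l j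
      simp
    have hw : (fun j => L.sx x (w x i j)) = fun j => L.sx x ((AUL.CHRM.un i ᵥ* w x) j) := by
      funext j
      congr 1
      change w x i j = ∑ l, (if i = l then (1 : S0) else 0) * w x l j
      simp
    have h2 : ∑ j, ((u x i j : S0) : S) • P j =
        (((s x).pi (AUL.CHRM.un i) : E.Nx x) : M) := by
      rw [hpiS (fun j => u x i j), hu, hd.lu]
    have h3 : ∑ j, ((L.sx x (w x i j) : S0) : S) • P j =
        ((L.t x : Sˣ) : S) • (((s x).pi (AUL.CHRM.un i) : E.Nx x) : M) := by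
      rw [hpiS (fun j => L.sx x (w x i j)), hw, hd.lw]
    simp only [h1]
    rw [Finset.sum_sub_distrib, ← Finset.smul_sum, h2, h3, smul_smul, Units.inv_mul, one_smul,
      sub_self]
  -- plain forms
  set Ds : FC S0 := dsum D with hDs
  set eC : Matrix C.I C.I S := C.e.map (fun a : S0 => (a : S)) with heC
  set eD : Matrix Ds.I Ds.I S := Ds.e.map (fun a : S0 => (a : S)) with heD
  set Φ : Matrix Ds.I C.I S := L.phi u w with hΦ
  have hPdeg : ∀ (i : Ds.I) (j : C.I), Φ i j ≠ 0 → C.deg j = Ds.deg i := hP.deg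
  have hPcomm : eD * Φ = Φ * eC := hP.comm
  have hDsx : ∀ q, (∀ x, (D x).ExactAt q) → Ds.ExactAt q := (hDSM S0 X D).2.1
  have hCex : ∀ q < 0, ∀ x : C.I → S, InDeg C.deg q x → x ᵥ* eC = 0 → ∃ y : C.I → S, x = y ᵥ* eC :=
    fun q hq => hBCF S S0 F X T L C q (r.isRes.2 q hq)
  have hDex : ∀ q < 0, ∀ x : Ds.I → S, InDeg Ds.deg q x → x ᵥ* eD = 0 →
      ∃ y : Ds.I → S, x = y ᵥ* eD :=
    fun q hq => hBCF S S0 F X T L Ds q (hDsx q fun x => (s x).isRes.2 q hq)
  have hDe : ∀ i j, eD i j ≠ 0 → Ds.deg j = Ds.deg i + 1 := (bc Ds).he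
  have hDle : ∀ i, Ds.deg i ≤ 0 := fun i => (s i.1).isRes.1 i.2
  -- the augmentation
  let aug : (C.I ⊕ Ds.I → S) →ₗ[S] M :=
    { toFun := fun x => ∑ i, x (Sum.inl i) • P i
      map_add' := fun x y => by
        simp only [Pi.add_apply, add_smul, Finset.sum_add_distrib]
      map_smul' := fun a x => by
        simp only [Pi.smul_apply, smul_eq_mul, mul_smul, RingHom.id_apply, Finset.smul_sum] }
  have haug : ∀ x, aug x = ∑ i, x (Sum.inl i) • P i := fun x => rfl
  -- the differential in components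
  set Ee : Matrix (C.I ⊕ Ds.I) (C.I ⊕ Ds.I) S := fromBlocks eC 0 Φ (-eD) with hE
  have hmul : ∀ x : C.I ⊕ Ds.I → S, x ᵥ* Ee =
      Sum.elim ((x ∘ Sum.inl) ᵥ* eC + (x ∘ Sum.inr) ᵥ* Φ) (-((x ∘ Sum.inr) ᵥ* eD)) := by
    intro x
    rw [hE, Matrix.vecMul_fromBlocks, Matrix.vecMul_zero, Matrix.vecMul_neg, zero_add]
  have hcone : ∀ (q : ℤ) (x : C.I ⊕ Ds.I → S),
      InDeg (Sum.elim C.deg (fun i => Ds.deg i - 1)) q x →
      InDeg C.deg q (x ∘ Sum.inl) ∧ InDeg Ds.deg (q + 1) (x ∘ Sum.inr) := by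
    intro q x hx
    constructor
    · intro i hi
      exact hx (Sum.inl i) hi
    · intro i hi
      refine hx (Sum.inr i) ?_
      change Ds.deg i - 1 ≠ q
      omega
  -- coefficients and the augmentation
  have hcoef : ∀ (z : Ds.I → S) (g : F), ((r.pi (L.cor (z ᵥ* Φ) g) : E.N) : M) =
      ∑ x, (((L.t x : Sˣ) : S) • (((s x).pi (L.cor (sc (I := fun x => (D x).I) z x) (g * T.gen x)) :
        E.Nx x) : M) - (((s x).pi (L.cor (sc (I := fun x => (D x).I) z x) g) : E.Nx x) : M)) := by
    intro z g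
    have h1 : L.cor (z ᵥ* Φ) g = ∑ x, ((fun j => L.sx x ((L.cor (sc (I := fun x => (D x).I) z x)
      (g * T.gen x) ᵥ* w x) j)) - L.cor (sc (I := fun x => (D x).I) z x) g ᵥ* u x) :=
        cor_phi L hL u w z g
    rw [h1, map_sum, AddSubmonoidClass.coe_finsetSum]
    refine Finset.sum_congr rfl fun x _ => ?_
    rw [map_sub, AddSubgroupClass.coe_sub, ← hd.lw, hd.lu]
  -- exactness below degree 0
  have F1 : ∀ q < 0, ∀ x : C.I ⊕ Ds.I → S, InDeg (Sum.elim C.deg (fun i => Ds.deg i - 1)) q x →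
      x ᵥ* Ee = 0 → ∃ y : C.I ⊕ Ds.I → S, x = y ᵥ* Ee := by
    intro q hq x hx hxe
    obtain ⟨hx1, hx2⟩ := hcone q x hx
    rw [hmul x] at hxe
    have e1 : (x ∘ Sum.inl) ᵥ* eC + (x ∘ Sum.inr) ᵥ* Φ = 0 := by
      funext i
      exact congrFun hxe (Sum.inl i)
    have e2 : (x ∘ Sum.inr) ᵥ* eD = 0 := by
      funext i
      have := congrFun hxe (Sum.inr i)
      exact neg_eq_zero.mp this
    have hz : ∃ z : Ds.I → S, x ∘ Sum.inr = z ᵥ* eD := by
      by_cases hq1 : q + 1 < 0
      · exact hDex (q + 1) hq1 _ hx2 e2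
      · have hq0 : q + 1 = 0 := by omega
        rw [hq0] at hx2
        set v : Ds.I → S := x ∘ Sum.inr with hv
        -- the images vanish
        have hA : ∀ g, ∑ y, (((L.t y : Sˣ) : S) • (((s y).pi (L.cor (sc (I := fun x => (D x).I) v y)
            (g * T.gen y)) : E.Nx y) : M) - (((s y).pi (L.cor (sc (I := fun x => (D x).I) v y) g) :
              E.Nx y) : M)) = 0 := by
          intro g
          have hk := hL.add C.I ((x ∘ Sum.inl) ᵥ* eC) (v ᵥ* Φ) g
          rw [e1, hL.zero, heC, hL.mul] at hk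
          have hk3 := congrArg (fun v => ((r.pi v : E.N) : M)) hk
          simp only [map_add, map_zero, r.zero, zero_add] at hk3
          rw [hcoef] at hk3
          exact hk3.symm
        have hfin : ∀ y : X, {g | L.cor (sc (I := fun x => (D x).I) v y) g ≠ 0}.Finite :=
          fun y => hL.fin _ _
        let n : X → F →₀ M := fun y => Finsupp.onFinset (hfin y).toFinset
          (fun g => (((s y).pi (L.cor (sc (I := fun x => (D x).I) v y) g) : E.Nx y) : M)) (by
            intro g hg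
            rw [Set.Finite.mem_toFinset]
            intro h0
            apply hg
            rw [h0, map_zero]
            rfl)
        have hall0 := hXIN S S0 F X T L M n (fun g => hA g)
        have hall : ∀ y g, (s y).pi (L.cor (sc (I := fun x => (D x).I) v y) g) = 0 :=
          fun y g => Subtype.ext (hall0 y g)
        refine lift_coef L hL Ds.e _ fun g => ?_
        have hcomp : ∀ y, ∃ z : (D y).I → S0, L.cor (sc (I := fun x => (D x).I) v y) g = z ᵥ* (D y).e := by
          intro y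
          refine (s y).ker _ ?_ (hall y g)
          refine inDeg_cor L (D y).deg 0 _ ?_ g
          intro i hi
          exact hx2 ⟨y, i⟩ hi
        choose zc hzc using hcomp
        refine ⟨fun i => zc i.1 i.2, ?_⟩
        funext i
        obtain ⟨y, i⟩ := i
        have h5 := (hDSM S0 X D).1 (fun i => zc i.1 i.2) y
        have h6 := congrFun h5 i
        have h7 := congrFun (hzc y) i
        exact h7.trans h6.symm
    obtain ⟨z, hz⟩ := hz
    -- reduce `z` to degree `q`
    have hzq : x ∘ Sum.inr = part Ds.deg q z ᵥ* eD := by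
      have := part_vecMul Ds.deg eD hDe q z
      rw [← hz, part_of_inDeg _ _ _ hx2] at this
      exact this
    set z' : Ds.I → S := part Ds.deg q z with hz'
    have hz'd : InDeg Ds.deg q z' := inDeg_part _ _ _
    have e3 : (x ∘ Sum.inl + z' ᵥ* Φ) ᵥ* eC = 0 := by
      rw [Matrix.add_vecMul, Matrix.vecMul_vecMul, ← hPcomm, ← Matrix.vecMul_vecMul, ← hzq, e1]
    obtain ⟨y, hy⟩ := hCex q hq (x ∘ Sum.inl + z' ᵥ* Φ)
      (inDeg_add _ _ _ _ hx1 (inDeg_vecMul Ds.deg C.deg Φ hPdeg q z' hz'd)) e3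
    refine ⟨Sum.elim y (-z'), ?_⟩
    rw [hmul]
    funext i
    rcases i with i | i
    · have h := congrFun hy i
      change x (Sum.inl i) + (z' ᵥ* Φ) i = (y ᵥ* eC) i at h
      change x (Sum.inl i) = (y ᵥ* eC) i + ((-z') ᵥ* Φ) i
      rw [Matrix.neg_vecMul, Pi.neg_apply, ← h]
      abel
    · have h := congrFun hzq i
      change x (Sum.inr i) = (z' ᵥ* eD) i at h
      change x (Sum.inr i) = -(((-z') ᵥ* eD) i)
      rw [Matrix.neg_vecMul, Pi.neg_apply, neg_neg, h]
  have F2 : ∀ (q : ℤ) (x : C.I ⊕ Ds.I → S), q ≠ 0 →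
      InDeg (Sum.elim C.deg (fun i => Ds.deg i - 1)) q x → aug x = 0 := by
    intro q x hq hx
    rw [haug]
    refine Finset.sum_eq_zero fun i _ => ?_
    by_cases h : C.deg i = 0
    · have : x (Sum.inl i) = 0 := (hcone q x hx).1 i (by omega)
      rw [this, zero_smul]
    · have : P i = 0 := by
        rw [hPdef]
        change ((r.pi (AUL.CHRM.un i) : E.N) : M) = 0
        rw [pi_un r i h]
        rfl
      rw [this, smul_zero]
  have F3 : Function.Surjective aug := by
    rw [← LinearMap.range_eq_top, eq_top_iff, ← (show _ = _ from E.gen)]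
    apply Submodule.span_le.mpr
    intro n hn
    obtain ⟨y, hy⟩ := r.surj ⟨n, hn⟩
    refine ⟨Sum.elim (fun i => (y i : S)) 0, ?_⟩
    rw [haug]
    change ∑ i, ((y i : S0) : S) • P i = n
    rw [hpiS, hy]
  have F4 : ∀ y : C.I ⊕ Ds.I → S, aug (y ᵥ* Ee) = 0 := by
    intro y
    rw [haug, hmul]
    change ∑ i, (((y ∘ Sum.inl) ᵥ* eC) i + ((y ∘ Sum.inr) ᵥ* Φ) i) • P i = 0
    simp only [add_smul]
    rw [Finset.sum_add_distrib, smul_vecMul', smul_vecMul']
    have a1 : ∑ i : C.I, (y ∘ Sum.inl) i • ∑ j, eC i j • P j = 0 := by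
      refine Finset.sum_eq_zero fun i _ => ?_
      rw [show ∑ j, eC i j • P j = 0 from hrow i, smul_zero]
    have a2 : ∑ i, (y ∘ Sum.inr) i • ∑ j, Φ i j • P j = 0 := by
      refine Finset.sum_eq_zero fun i _ => ?_
      rw [hphi i, smul_zero]
    rw [a1, a2, add_zero]
  have F5 : ∀ x : C.I ⊕ Ds.I → S, InDeg (Sum.elim C.deg (fun i => Ds.deg i - 1)) 0 x →
      aug x = 0 → ∃ y : C.I ⊕ Ds.I → S, x = y ᵥ* Ee := by
    intro x hx hx0
    obtain ⟨hx1, hx2⟩ := hcone 0 x hx
    have hxr : x ∘ Sum.inr = 0 := by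
      funext i
      exact hx2 i (by have := hDle i; omega)
    have hxl : ∀ g, ((r.pi (L.cor (x ∘ Sum.inl) g) : E.N) : M) =
        ∑ i, L.cor (x ∘ Sum.inl) g i • P i := fun g => hpi _
    have hfin : {g | L.cor (x ∘ Sum.inl) g ≠ 0}.Finite := hL.fin _ (x ∘ Sum.inl)
    let n : F →₀ M := Finsupp.onFinset hfin.toFinset
      (fun g => ((r.pi (L.cor (x ∘ Sum.inl) g) : E.N) : M)) (by
        intro g hg
        rw [Set.Finite.mem_toFinset]
        intro h0
        apply hg
        rw [h0, map_zero]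
        rfl)
    have hn : ∀ g, n g = ((r.pi (L.cor (x ∘ Sum.inl) g) : E.N) : M) := fun g => rfl
    have hsum : (n.sum fun g m => ((L.un g : Sˣ) : S) • m) = 0 := by
      have hsub : n.sum (fun g m => ((L.un g : Sˣ) : S) • m) =
          ∑ g ∈ hfin.toFinset, ((L.un g : Sˣ) : S) • n g := by
        apply Finsupp.sum_of_support_subset
        · exact Finsupp.support_onFinset_subset
        · intro g _
          exact smul_zero _
      rw [hsub]
      have hk := hL.sum C.I M P (x ∘ Sum.inl) hfin.toFinset (fun g hg => by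
        rw [Set.Finite.mem_toFinset]
        exact hg)
      rw [← hx0, haug]
      refine Eq.trans ?_ hk.symm
      refine Finset.sum_congr rfl fun g _ => ?_
      rw [hn, hxl]
    obtain ⟨n', hn', hnn'⟩ := E.px n (fun g => by rw [hn]; exact (r.pi _).2) hsum
    -- preimages
    have hzk : ∀ (y : X) (g : F), ∃ z : (D y).I → S0, InDeg (D y).deg 0 z ∧
        (((s y).pi z : E.Nx y) : M) = n' y g ∧ (n' y g = 0 → z = 0) := by
      intro y g
      by_cases h0 : n' y g = 0
      · refine ⟨0, fun _ _ => rfl, ?_, fun _ => rfl⟩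
        rw [map_zero, h0]
        rfl
      · obtain ⟨z, hz⟩ := (s y).surj ⟨n' y g, hn' y g⟩
        refine ⟨part (D y).deg 0 z, inDeg_part _ _ _, ?_, fun h => absurd h h0⟩
        rw [pi_part, hz]
    choose zk hz1 hz2 hz3 using hzk
    have hzx : ∀ y : X, ∃ z : (D y).I → S, ∀ g, L.cor z g = zk y g := by
      intro y
      refine hL.ex (D y).I (zk y) ?_
      refine ((n' y).support.finite_toSet).subset fun g hg => ?_
      rw [Finset.mem_coe, Finsupp.mem_support_iff]
      exact fun h0 => hg (hz3 y g h0)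
    choose zx hzx using hzx
    set z : Ds.I → S := fun i => zx i.1 i.2 with hzdef
    have hcxz : ∀ y, sc (I := fun x => (D x).I) z y = zx y := fun y => rfl
    have hzd : InDeg Ds.deg 0 z := by
      rintro ⟨y, i⟩ hi
      have : (fun _ : (D y).I => zx y i) = 0 := by
        apply hL.ext
        intro g
        rw [hL.zero]
        funext _
        change L.cor (zx y) g i = 0
        rw [hzx]
        exact hz1 y g i hi
      exact congrFun this i
    have hker : ∀ g, ∃ y : C.I → S0, L.cor (x ∘ Sum.inl - z ᵥ* Φ) g = y ᵥ* C.e := by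
      intro g
      apply r.ker
      · exact inDeg_cor L C.deg 0 _ (inDeg_sub _ _ _ _ hx1
          (inDeg_vecMul Ds.deg C.deg Φ hPdeg 0 z hzd)) g
      · apply Subtype.ext
        have h5 : ∀ y : X, ((L.t y : Sˣ) : S) • (((s y).pi (L.cor (sc (I := fun x => (D x).I) z y)
            (g * T.gen y)) : E.Nx y) : M) - (((s y).pi (L.cor (sc (I := fun x => (D x).I) z y) g) :
              E.Nx y) : M) = ((L.t y : Sˣ) : S) • n' y (g * T.gen y) - n' y g := by
          intro y
          rw [hcxz, hzx, hzx, hz2, hz2]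
        rw [hL.sub, map_sub, AddSubgroupClass.coe_sub, hcoef, ← hn, hnn',
          Finset.sum_congr rfl fun y _ => h5 y]
        simp
    obtain ⟨y, hy⟩ := lift_coef L hL C.e _ hker
    refine ⟨Sum.elim y z, ?_⟩
    rw [hmul]
    funext i
    rcases i with i | i
    · have h := congrFun hy i
      change x (Sum.inl i) - (z ᵥ* Φ) i = (y ᵥ* eC) i at h
      change x (Sum.inl i) = (y ᵥ* eC) i + (z ᵥ* Φ) i
      rw [← h]
      abel
    · have h := congrFun hxr i
      change x (Sum.inr i) = 0 at h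
      change x (Sum.inr i) = -((z ᵥ* eD) i)
      rw [h]
      symm
      rw [neg_eq_zero]
      change ∑ l, z l * eD l i = 0
      refine Finset.sum_eq_zero fun l _ => ?_
      by_cases hl : Ds.deg l = 0
      · have : eD l i = 0 := by
          by_contra hne
          have h1 := hDe l i hne
          have h2 := hDle i
          omega
        rw [this, mul_zero]
      · rw [hzd l hl, zero_mul]
  refine ⟨⟨aug, ⟨?_, F1⟩, F2, F3, F4, F5⟩⟩
  rintro (i | i)
  · exact r.isRes.1 i
  · have := hDle i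
    change Ds.deg i - 1 ≤ 0
    omega

end Pool.Agent.Lib.MP8a3537.AUF
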