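import Pool.Agent.Lib.MP_8a3537_gt.AUF.SpecC

/-! # AUF, module CLZ: the class of (poly-infinite-cyclic)-by-free groups and products with `ℤ` -/

namespace Pool.Agent.Lib.MP8a3537.AUF

open Pool.Agent.Lib.MP8a3537.AUL

namespace CLZM

theorem zpow_eq_one {Q : Type} [Group Q] (j : Q →* Multiplicative ℤ) (hj : Function.Injective j)
    (t : Q) (ht : t ≠ 1) (k : ℤ) (hk : t ^ k = 1) : k = 0 := by
  have h1 : (j t) ^ k = 1 := by rw [← map_zpow, hk, map_one]
  have h2 : k * Multiplicative.toAdd (j t) = 0 := by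
    have := congrArg Multiplicative.toAdd h1
    simpa [toAdd_zpow] using this
  rcases mul_eq_zero.mp h2 with h3 | h3
  · exact h3
  · exfalso
    apply ht
    apply hj
    rw [map_one]
    exact Multiplicative.toAdd.injective h3

theorem pzl_of_injective (n : ℕ) (Q : Type) [Group Q] (j : Q →* Multiplicative ℤ)
    (hj : Function.Injective j) : PZL (n + 1) Q := by
  haveI hc : IsCyclic Q := isCyclic_of_injective j hj
  obtain ⟨t, ht⟩ := hc.exists_generator
  by_cases h1 : t = 1
  · refine PZL.one (n + 1) Q ⟨fun a b => ?_⟩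
    have ha : ∀ a : Q, a = 1 := by
      intro a
      have h := ht a
      rw [h1, Subgroup.mem_zpowers_iff] at h
      obtain ⟨k, hk⟩ := h
      rw [← hk, one_zpow]
    rw [ha a, ha b]
  · refine PZL.step n Q ⊥ t (PZL.one n _ inferInstance) ⟨inferInstance, ?_, ?_⟩
    · intro h
      obtain ⟨k, hk⟩ := Subgroup.mem_zpowers_iff.mp (ht h)
      refine ⟨k, ?_⟩
      rw [← hk, ← zpow_add, neg_add_cancel, zpow_zero]
      exact Subgroup.one_mem _
    · intro k hk
      exact zpow_eq_one j hj t h1 k (Subgroup.mem_bot.mp hk)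

theorem pzl_of_surjective {n : ℕ} {P : Type} [Group P] (hP : PZL n P) :
    ∀ (Q : Type) [Group Q] (p : Q →* P) (j : Q →* Multiplicative ℤ), Function.Surjective p →
      (∀ q, p q = 1 → j q = 1 → q = 1) → PZL (n + 1) Q := by
  induction hP with
  | one n H hs =>
    intro Q _ p j _ hpj
    refine pzl_of_injective n Q j ?_
    rw [injective_iff_map_eq_one]
    intro q hq
    exact hpj q (Subsingleton.elim _ _) hq
  | step n H N t hN he ih =>
    intro Q _ p j hp hpj
    obtain ⟨hNn, he1, he2⟩ := he
    obtain ⟨t', ht'⟩ := hp t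
    refine PZL.step (n + 1) Q (N.comap p) t' (ih _ (p.subgroupComap N)
      (j.comp (N.comap p).subtype) (p.subgroupComap_surjective_of_surjective N hp) ?_) ⟨?_, ?_, ?_⟩
    · intro q h1 h2
      have h3 : p (q : Q) = 1 := by
        have := congrArg Subtype.val h1
        simpa using this
      exact Subtype.ext (hpj q h3 h2)
    · exact hNn.comap p
    · intro h
      obtain ⟨k, hk⟩ := he1 (p h)
      refine ⟨k, ?_⟩
      rw [Subgroup.mem_comap, map_mul, map_zpow, ht']
      exact hk
    · intro k hk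
      rw [Subgroup.mem_comap, map_zpow, ht'] at hk
      exact he2 k hk

end CLZM

theorem specCLZ : SpecCLZ := by
  intro K _ h hK F hF
  have hF1 : (F.map (MonoidHom.fst K (Multiplicative ℤ))).FG := by
    classical
    obtain ⟨S, hS⟩ := hF
    refine ⟨S.image (MonoidHom.fst K (Multiplicative ℤ)), ?_⟩
    rw [Finset.coe_image, ← MonoidHom.map_closure, hS]
  obtain ⟨N1, hN1, hPZ, hfree⟩ := hK _ hF1
  let p := (MonoidHom.fst K (Multiplicative ℤ)).subgroupMap F
  have hp : Function.Surjective p := MonoidHom.subgroupMap_surjective _ _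
  refine ⟨N1.comap p, hN1.comap p, ?_, ?_⟩
  · refine CLZM.pzl_of_surjective hPZ _ (p.subgroupComap N1)
      ((MonoidHom.snd K (Multiplicative ℤ)).comp (F.subtype.comp (N1.comap p).subtype))
      (p.subgroupComap_surjective_of_surjective N1 hp) ?_
    intro q h1 h2
    have h3 : ((q : F) : K × Multiplicative ℤ).1 = 1 := by
      have h4 := congrArg Subtype.val h1
      have h5 := congrArg Subtype.val h4
      exact h5
    exact Subtype.ext (Subtype.ext (Prod.ext h3 h2))
  · let φ : F →* _ ⧸ N1 := (QuotientGroup.mk' N1).comp p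
    have hφ : Function.Surjective φ := (QuotientGroup.mk'_surjective N1).comp hp
    have hker : φ.ker = N1.comap p := by
      ext x
      simp [φ, MonoidHom.mem_ker]
    have e1 : F ⧸ φ.ker ≃* _ ⧸ N1 := QuotientGroup.quotientKerEquivOfSurjective φ hφ
    have e2 : F ⧸ N1.comap p ≃* F ⧸ φ.ker := QuotientGroup.quotientMulEquivOfEq hker.symm
    exact IsFreeGroup.ofMulEquiv (e2.trans e1).symm

end Pool.Agent.Lib.MP8a3537.AUF
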