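import Pool.Agent.Lib.MP_8a3537_gt.AUF.SpecA

/-!
# Group rings of extensions by free groups, module COH (helper56): the ring `S0 * F` is coherent

A finitely generated submodule `M'` of `S^n` has a lattice datum obtained by intersecting the lattice
datum of `S^n` with `M'`; the edge parts are in `M'` because the boundary map of the tree is injective
in `S^n / M'`. The characteristic resolution of this datum is a finite free resolution of `M'`.
-/

namespace Pool.Agent.Lib.MP8a3537.AUF

open Matrix
open Pool.Agent.Lib.MP8a3537.AUL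

namespace COHM

section

variable {S : Type} [Ring S] [StarRing S] {S0 : Subring S} {F X : Type} [Group F]
  {T : TreeLen F X} {V : Type} [AddCommGroup V] [Module S V]

/-- the inclusion of a submodule over `S`, as an `S0`-linear map. -/
def inc (S0 : Subring S) (M' : Submodule S V) : M' →ₗ[S0] V where
  toFun m := (m : V)
  map_add' _ _ := rfl
  map_smul' _ _ := rfl

theorem inc_apply (M' : Submodule S V) (m : M') : inc S0 M' m = (m : V) := rfl

omit [StarRing S] in
theorem inc_inj (M' : Submodule S V) : Function.Injective (inc S0 M') := fun _ _ h => Subtype.ext h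

omit [StarRing S] in
/-- a subset of a finitely generated `S0`-module pulls back to a finitely generated one. -/
theorem fg_comap (hN : IsNoetherianRing S0) (M' : Submodule S V) (P Q : Submodule S0 V) (hP : P.FG)
    (hQ : Q ≤ P) : (Q.comap (inc S0 M')).FG := by
  have h1 : IsNoetherian S0 P := isNoetherian_of_fg_of_noetherian P hP
  refine Submodule.fg_of_fg_map_injective (inc S0 M') (inc_inj M') ?_
  exact isNoetherian_submodule.1 h1 _ ((Submodule.map_comap_le _ _).trans hQ)

variable [StarSub S0]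

/-- the span of the translates is finitely generated. -/
theorem fg_EW (hTWF : SpecTWF) (L : Fre S0 T) (w n : ℕ) (p : Fin n → V) : (L.EW w p).FG := by
  have : Finite {h : F // T.len h ≤ w} := (T.ball w).to_subtype
  refine Submodule.fg_iSup _ fun h => ?_
  refine (hTWF S S0 F X T L V _ ⊥ h.1 0).2.2.2 ?_
  exact Submodule.fg_span (Set.finite_range p)

/-- a vector is in `EW w p` if its coefficients vanish beyond `w`. -/
theorem mem_EW (hCFL : SpecCFL) (L : Fre S0 T) (n : ℕ) (p : Fin n → V) (x : Fin n → S) :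
    ∃ w : ℕ, ∀ w', w ≤ w' → ∑ i, x i • p i ∈ L.EW w' p := by
  have hC := hCFL S S0 F X T L
  have hfin := hC.fin (Fin n) x
  obtain ⟨w, hw⟩ : ∃ w : ℕ, ∀ g ∈ hfin.toFinset, T.len g ≤ w :=
    ⟨hfin.toFinset.sup T.len, fun g hg => Finset.le_sup (f := T.len) hg⟩
  refine ⟨w, fun w' hw' => ?_⟩
  rw [hC.sum (Fin n) V p x hfin.toFinset (fun g hg => by
    rw [Set.Finite.mem_toFinset]
    exact hg)]
  refine Submodule.sum_mem _ fun g hg => ?_
  have h1 : L.tr g (Submodule.span S0 (Set.range p)) ≤ L.EW w' p :=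
    le_iSup (fun h : {h : F // T.len h ≤ w'} => L.tr h.1 (Submodule.span S0 (Set.range p)))
      ⟨g, (hw g hg).trans hw'⟩
  refine h1 ?_
  rw [Fre.mem_tr, smul_smul, Units.inv_mul, one_smul]
  exact Submodule.sum_mem _ fun i _ => Submodule.smul_mem _ _ (Submodule.subset_span ⟨i, rfl⟩)

/-- the same for finitely many vectors. -/
theorem mem_EW_fin (hCFL : SpecCFL) (L : Fre S0 T) (n : ℕ) (p : Fin n → V)
    (hs : ∀ v : V, ∃ x : Fin n → S, ∑ i, x i • p i = v) (G : Finset V) :
    ∃ w : ℕ, ∀ v ∈ G, v ∈ L.EW w p := by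
  classical
  have h : ∀ v : V, ∃ w : ℕ, ∀ w', w ≤ w' → v ∈ L.EW w' p := by
    intro v
    obtain ⟨x, hx⟩ := hs v
    rw [← hx]
    exact mem_EW hCFL L n p x
  choose w hw using h
  exact ⟨G.sup w, fun v hv => hw v _ (Finset.le_sup (f := w) hv)⟩

variable [Fintype X] [DecidableEq X]

/-- the lattice datum of a finitely generated submodule of a free module. -/
theorem datum (hXIN : SpecXIN) (hCFL : SpecCFL) (hTWF : SpecTWF) (hEXC : SpecEXC) (L : Fre S0 T)
    (hN : IsNoetherianRing S0) (n : ℕ) (p : Fin n → V)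
    (hi : ∀ x : Fin n → S, ∑ i, x i • p i = 0 → x = 0)
    (hs : ∀ v : V, ∃ x : Fin n → S, ∑ i, x i • p i = v) (M' : Submodule S V) (hM : M'.FG) :
    Nonempty (LD L M') := by
  classical
  obtain ⟨G, hG⟩ := hM
  obtain ⟨w, hw⟩ := mem_EW_fin hCFL L n p hs G
  have hP : (L.EW w p).FG := fg_EW hTWF L w n p
  have hPX : L.PX (L.EW w p) fun x => L.EW w p ⊓ L.tr (T.gen x)⁻¹ (L.EW w p) := by
    refine hEXC S S0 F X T L V n 0 p (fun i => i.elim0) w (fun x => ?_) (fun l => l.elim0)
    constructor
    · intro h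
      rw [hi x h]
      exact Submodule.zero_mem _
    · intro h
      have h1 : Set.range (fun i : Fin 0 => (i.elim0 : Fin n → S)) = ∅ := by
        rw [Set.range_eq_empty_iff]
        infer_instance
      have h2 : x = 0 := by
        rw [h1, Submodule.span_empty, Submodule.mem_bot] at h
        exact h
      rw [h2]
      simp
  obtain ⟨P, hPe⟩ : ∃ P : Submodule S0 V, P = L.EW w p := ⟨_, rfl⟩
  rw [← hPe] at hP hPX hw
  refine ⟨{ N := P.comap (inc S0 M'), Nx := fun x => (P ⊓ L.tr (T.gen x)⁻¹ P).comap (inc S0 M')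
            fg := fg_comap hN M' P P hP le_rfl
            fgx := fun x => fg_comap hN M' P _ hP inf_le_left
            gen := ?_, le := fun x => Submodule.comap_mono inf_le_left
            tle := ?_, px := ?_ }⟩
  · -- generators
    show Submodule.span S _ = ⊤
    rw [eq_top_iff]
    have h1 : Submodule.span S ((fun m : M' => (m : V)) ⁻¹' (G : Set V)) = ⊤ := by
      subst hG
      exact Submodule.span_span_coe_preimage
    rw [← h1]
    refine Submodule.span_mono fun m hm => ?_
    exact hw _ hm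
  · -- edges
    rintro x m ⟨_, hm⟩
    have h1 : (((L.un (T.gen x)⁻¹)⁻¹ : Sˣ) : S) • (m : V) ∈ P := hm
    rw [map_inv, inv_inv] at h1
    exact h1
  · -- relations
    intro f hf h0
    have hV : ((f.mapRange (fun m : M' => (m : V)) rfl).sum fun g m => ((L.un g : Sˣ) : S) • m) =
        0 := by
      rw [Finsupp.sum_mapRange_index (fun g => smul_zero _)]
      have h1 := congrArg (fun m : M' => (m : V)) h0
      simp only [Finsupp.sum, Submodule.coe_sum, Submodule.coe_smul, Submodule.coe_zero] at h1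
      exact h1
    obtain ⟨f', hf1, hf2⟩ := hPX (f.mapRange (fun m : M' => (m : V)) rfl) (fun g => hf g) hV
    have hmem : ∀ x g, f' x g ∈ M' := by
      have h1 := hXIN S S0 F X T L (V ⧸ M') (fun x => (f' x).mapRange (M'.mkQ) (map_zero _))
        (fun g => by
          have h2 : ∑ x, (((L.t x : Sˣ) : S) • (M'.mkQ (f' x (g * T.gen x))) - M'.mkQ (f' x g)) =
              M'.mkQ (∑ x, (((L.t x : Sˣ) : S) • f' x (g * T.gen x) - f' x g)) := by
            rw [map_sum]
            refine Finset.sum_congr rfl fun x _ => ?_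
            rw [map_sub, map_smul]
          simp only [Finsupp.mapRange_apply]
          rw [h2, ← hf2 g, Finsupp.mapRange_apply, Submodule.mkQ_apply,
            Submodule.Quotient.mk_eq_zero]
          exact (f g).2)
      intro x g
      have h3 := h1 x g
      rw [Finsupp.mapRange_apply, Submodule.mkQ_apply, Submodule.Quotient.mk_eq_zero] at h3
      exact h3
    refine ⟨fun x => Finsupp.onFinset (f' x).support (fun g => ⟨f' x g, hmem x g⟩) (fun g hg => ?_),
      fun x g => ?_, fun g => ?_⟩
    · rw [Finsupp.mem_support_iff]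
      intro h
      exact hg (Subtype.ext h)
    · exact hf1 x g
    · refine Subtype.ext ?_
      have h2 := hf2 g
      rw [Finsupp.mapRange_apply] at h2
      rw [h2]
      simp only [Finsupp.onFinset_apply, Submodule.coe_sum, Submodule.coe_sub, Submodule.coe_smul]

/-- finitely generated submodules of free modules are finitely presented. -/
theorem fp (hRF1 : SpecRF1) (hXIN : SpecXIN) (hCFL : SpecCFL) (hTWF : SpecTWF) (hEXC : SpecEXC)
    (hMAK : SpecMAK) (hPHC : SpecPHC) (hCHR : SpecCHR) (L : Fre S0 T)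
    (hN : IsNoetherianRing S0) (d : ℕ) (hd : FinRes S0 d) (n : ℕ) (p : Fin n → V)
    (hi : ∀ x : Fin n → S, ∑ i, x i • p i = 0 → x = 0)
    (hs : ∀ v : V, ∃ x : Fin n → S, ∑ i, x i • p i = v) (M' : Submodule S V) (hM : M'.FG) :
    Module.FinitePresentation S M' := by
  obtain ⟨E⟩ := datum hXIN hCFL hTWF hEXC L hN n p hi hs M' hM
  obtain ⟨C, ⟨r⟩, -⟩ := hd E.N (Module.Finite.of_fg E.fg)
  have hD : ∀ x, ∃ D : FC S0, Nonempty (Res D (E.Nx x)) := by
    intro x
    obtain ⟨D, h, -⟩ := hd (E.Nx x) (Module.Finite.of_fg (E.fgx x))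
    exact ⟨D, h⟩
  choose D hD using hD
  have s : ∀ x, Res (D x) (E.Nx x) := fun x => (hD x).some
  obtain ⟨u, v, hu⟩ := hMAK S S0 F X T L M' E C D r s
  have hP := hPHC S S0 F X T L C D u v hu.hu hu.hw
  obtain ⟨R⟩ := hCHR S S0 F X T L M' E C D r s u v hu hP
  exact hRF1 S _ M' R

end

end COHM

theorem specCOH (hRF1 : SpecRF1) (hXIN : SpecXIN) (hCFL : SpecCFL) (hTWF : SpecTWF)
    (hEXC : SpecEXC) (hMAK : SpecMAK) (hPHC : SpecPHC) (hCHR : SpecCHR) : SpecCOH := by
  intro S _ _ S0 _ F X _ _ _ T L d hN hd n M' hM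
  refine COHM.fp hRF1 hXIN hCFL hTWF hEXC hMAK hPHC hCHR L hN d hd n
    (fun i => Pi.single i (1 : S)) (fun x hx => ?_) (fun v => ⟨v, ?_⟩) M' hM
  · rw [← pi_eq_sum_univ' x] at hx
    exact hx
  · exact (pi_eq_sum_univ' v).symm

end Pool.Agent.Lib.MP8a3537.AUF
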