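import Pool.Agent.Lib.MP_8a3537_gt.AUF.SpecA

/-!
# MP_8a3537_gt, folder AUF, module DSM (helper94): direct sums of complexes
-/

namespace Pool.Agent.Lib.MP8a3537.AUF

open Matrix
open Pool.Agent.Lib.MP8a3537.AUL

namespace DSMM

section

variable {A : Type} [Ring A] {X : Type} [Fintype X] [DecidableEq X] {D : X → FC A}

/-- the row with the given components. -/
def glue (y : ∀ x, (D x).I → A) : (dsum D).I → A := fun i => y i.1 i.2

theorem cx_glue (y : ∀ x, (D x).I → A) (x : X) : cx (D := D) (glue y) x = y x := rfl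

theorem ext_cx {z z' : (dsum D).I → A} (h : ∀ x, cx (D := D) z x = cx (D := D) z' x) : z = z' := by
  funext i
  exact congrFun (h i.1) i.2

theorem cx_mul (z : (dsum D).I → A) (x : X) :
    cx (D := D) (z ᵥ* (dsum D).e) x = cx (D := D) z x ᵥ* (D x).e := by
  funext j
  show ∑ i : (Σ x, (D x).I), z i * blockDiagonal' (fun x => (D x).e) i ⟨x, j⟩ =
    ∑ i : (D x).I, z ⟨x, i⟩ * (D x).e i j
  rw [Fintype.sum_sigma, Finset.sum_eq_single x]
  · refine Finset.sum_congr rfl fun i _ => ?_
    rw [blockDiagonal'_apply_eq]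
  · intro y _ hy
    refine Finset.sum_eq_zero fun i _ => ?_
    rw [blockDiagonal'_apply_ne _ _ _ hy, mul_zero]
  · intro h
    exact absurd (Finset.mem_univ x) h

theorem inDeg_cx {q : ℤ} {z : (dsum D).I → A} (h : InDeg (dsum D).deg q z) (x : X) :
    InDeg (D x).deg q (cx (D := D) z x) := fun i hi => h ⟨x, i⟩ hi

theorem exact_lift {z : (dsum D).I → A}
    (h : ∀ x, ∃ y : (D x).I → A, cx (D := D) z x = y ᵥ* (D x).e) :
    ∃ y : (dsum D).I → A, z = y ᵥ* (dsum D).e := by
  choose y hy using h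
  exact ⟨glue y, ext_cx fun x => (hy x).trans (cx_mul (glue y) x).symm⟩

theorem exactAt {q : ℤ} (h : ∀ x, (D x).ExactAt q) : (dsum D).ExactAt q := by
  intro z hz hze
  refine exact_lift fun x => h x _ (inDeg_cx hz x) ((cx_mul z x).symm.trans ?_)
  exact congrArg (fun w : (dsum D).I → A => cx (D := D) w x) hze

/-- the component map. -/
def cxL (x : X) : ((dsum D).I → A) →ₗ[A] ((D x).I → A) where
  toFun z := cx (D := D) z x
  map_add' _ _ := rfl
  map_smul' _ _ := rfl

/-- the direct sum of resolutions. -/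
def dres {N : X → Type} [∀ x, AddCommGroup (N x)] [∀ x, Module A (N x)]
    (s : ∀ x, Res (D x) (N x)) : Res (dsum D) (∀ x, N x) where
  pi := LinearMap.pi fun x => (s x).pi ∘ₗ cxL x
  isRes := ⟨fun i => (s i.1).isRes.1 i.2, fun q hq => exactAt fun x => (s x).isRes.2 q hq⟩
  low := by
    intro q z hq hz
    funext x
    exact (s x).low q _ hq (inDeg_cx hz x)
  surj := by
    intro n
    choose y hy using fun x => (s x).surj (n x)
    exact ⟨glue y, funext hy⟩
  zero := by
    intro z
    funext x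
    exact (congrArg (s x).pi (cx_mul z x)).trans ((s x).zero _)
  ker := by
    intro z hz h
    refine exact_lift fun x => (s x).ker _ (inDeg_cx hz x) ?_
    exact congrFun h x

end

theorem mk_eq {A : Type} [Ring A] {I : Type} {fin : Fintype I} {dec : DecidableEq I} {deg : I → ℤ}
    {e e' : Matrix I I A} (h : e = e') (he : ∀ i j, e i j ≠ 0 → deg j = deg i + 1)
    (hee : ∀ i k, ∑ j, e i j * e j k = 0) (he' : ∀ i j, e' i j ≠ 0 → deg j = deg i + 1)
    (hee' : ∀ i k, ∑ j, e' i j * e' j k = 0) :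
    (⟨I, fin, dec, deg, e, he, hee⟩ : FC A) = ⟨I, fin, dec, deg, e', he', hee'⟩ := by
  subst h
  rfl

end DSMM

/-- **DSM.** -/
theorem specDSM : SpecDSM := by
  intro A _ X _ _ D
  refine ⟨DSMM.cx_mul, fun q h => DSMM.exactAt h, ?_, ?_, ?_⟩
  · intro N _ _ s
    exact ⟨DSMM.dres s, fun z x => rfl⟩
  · intro _
    exact DSMM.mk_eq (blockDiagonal'_conjTranspose fun x => (D x).e) _ _ _ _
  · intro B _ f
    exact DSMM.mk_eq (blockDiagonal'_map (fun x => (D x).e) f (map_zero f)) _ _ _ _

end Pool.Agent.Lib.MP8a3537.AUF
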