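import Pool.Agent.Lib.MP_8a3537_gt.AUF.SpecC

/-! # AUF, module EMX: the step for the free group of rank zero -/

namespace Pool.Agent.Lib.MP8a3537.AUF

open Matrix
open Pool.Agent.Lib.MP8a3537.AUL

namespace EMXM

/-- A resolution of a module resolves the isomorphic modules. -/
def resEquiv {A : Type} [Ring A] {C : FC A} {N N' : Type} [AddCommGroup N] [Module A N]
    [AddCommGroup N'] [Module A N'] (e : N ≃ₗ[A] N') (r : Res C N) : Res C N' where
  pi := e.toLinearMap.comp r.pi
  isRes := r.isRes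
  low := by
    intro q x hq hx
    rw [LinearMap.comp_apply, r.low q x hq hx, map_zero]
  surj := by
    rw [LinearMap.coe_comp]
    exact e.surjective.comp r.surj
  zero := by
    intro y
    rw [LinearMap.comp_apply, r.zero, map_zero]
  ker := by
    intro x hx h
    apply r.ker x hx
    rw [LinearMap.comp_apply] at h
    exact e.injective (by rw [map_zero]; exact h)

theorem gr_equiv {A : Type} [Ring A] [StarRing A] {c : ℤ} {N N' : Type} [AddCommGroup N]
    [Module A N] [AddCommGroup N'] [Module A N'] (e : N ≃ₗ[A] N') (h : Gr A c N) : Gr A c N' := by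
  obtain ⟨C, ⟨r⟩, hC⟩ := h
  exact ⟨C, ⟨resEquiv e r⟩, hC⟩

theorem gr_of_tc {A : Type} [Ring A] [StarRing A] {c : ℤ} {N : Type} [AddCommGroup N]
    [Module A N] (h : Tc A c N) : Gr A c N :=
  gr_equiv (Submodule.topEquiv (R := A) (M := N)) (h ⊤)

/-- Auslander regular rings are coherent and weakly Auslander regular. -/
theorem cwa_of_aus {A : Type} [Ring A] [StarRing A] {d d' : ℕ} (hd : d ≤ d') (h : Aus A d) :
    CWA A d' := by
  have hn : IsNoetherianRing A := h.noeth
  refine ⟨?_, ?_, ?_⟩
  · intro n N hN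
    have : Module.Finite A N := Module.Finite.iff_fg.mpr hN
    exact Module.finitePresentation_of_finite A N
  · intro N _ _ hN
    obtain ⟨C, hC, hdeg⟩ := h.fin N inferInstance
    refine ⟨C, hC, fun i => ?_⟩
    have := hdeg i
    omega
  · intro C hC c hc
    exact gr_of_tc (h.aus C hC c hc)

theorem all_one {F X : Type} [Group F] [IsEmpty X] (T : TreeLen F X) (g : F) : g = 1 := by
  by_contra hg
  obtain ⟨⟨x, _⟩, _⟩ := T.desc g hg
  exact IsEmpty.false x

theorem mem_top {S : Type} [Ring S] [StarRing S] {S0 : Subring S} {F X : Type} [Group F]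
    [IsEmpty X] {T : TreeLen F X} (L : Fre S0 T) (s : S) : s ∈ S0 := by
  obtain ⟨f, rfl⟩ := L.bij.2 s
  change (f.sum fun g a => ((L.un g : Sˣ) : S) * (a : S)) ∈ S0
  refine sum_mem fun g _ => ?_
  change ((L.un g : Sˣ) : S) * (f g : S) ∈ S0
  rw [all_one T g, map_one L.un, Units.val_one, one_mul]
  exact (f 1).2

theorem step {S : Type} [Ring S] [StarRing S] {S0 : Subring S} [StarSub S0] {F X : Type}
    [Group F] [IsEmpty X] {T : TreeLen F X} (L : Fre S0 T) (hSEM : AUL.SpecSEM) {d : ℕ}
    (h : Aus S0 d) : CWA S (d + 1) := by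
  have hb : Function.Bijective (S0.subtype : S0 →+* S) :=
    ⟨Subtype.val_injective, fun s => ⟨⟨s, mem_top L s⟩, rfl⟩⟩
  have h1 : Aus S d := (hSEM S0 S (RingEquiv.ofBijective S0.subtype hb) (fun a => rfl)).2 d h
  exact cwa_of_aus (Nat.le_succ d) h1

end EMXM

/-- The step for nonempty `X` is enough. -/
theorem stpF_of_nonempty (hSEM : AUL.SpecSEM)
    (h : ∀ (S : Type) [Ring S] [StarRing S] (S0 : Subring S) [StarSub S0] (F X : Type) [Group F]
      [Fintype X] [DecidableEq X] [Nonempty X] (T : TreeLen F X) (_ : Fre S0 T) (d : ℕ),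
      Aus S0 d → CWA S (d + 1)) : StpF := by
  intro S _ _ S0 _ F X _ _ _ T L d h0
  rcases isEmpty_or_nonempty X with hX | hX
  · exact EMXM.step L hSEM h0
  · exact h S S0 F X T L d h0

end Pool.Agent.Lib.MP8a3537.AUF
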