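import Pool.Agent.Lib.MP_8a3537_gt.AUF.SpecA

/-! # AUF, module EXC: the property `(px)` of `EW w p` -/

set_option linter.unusedSectionVars false

namespace Pool.Agent.Lib.MP8a3537.AUF

open Matrix
open Pool.Agent.Lib.MP8a3537.AUL

namespace EXCM

variable {S : Type} [Ring S] [StarRing S] {S0 : Subring S} {F X : Type} [Group F]
  [Fintype X] [DecidableEq X] {T : TreeLen F X} {M : Type} [AddCommGroup M] [Module S M]

/-- The families for which `n'` exists. -/
def W (L : Fre S0 T) (Nx : X → Submodule S0 M) : AddSubgroup (F →₀ M) where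
  carrier := {n | ∃ n' : X → F →₀ M, (∀ x g, n' x g ∈ Nx x) ∧
    ∀ g, n g = ∑ x, (((L.t x : Sˣ) : S) • n' x (g * T.gen x) - n' x g)}
  add_mem' := by
    rintro a b ⟨a', ha1, ha2⟩ ⟨b', hb1, hb2⟩
    refine ⟨fun x => a' x + b' x, fun x g => (Nx x).add_mem (ha1 x g) (hb1 x g), fun g => ?_⟩
    rw [Finsupp.add_apply, ha2, hb2, ← Finset.sum_add_distrib]
    refine Finset.sum_congr rfl fun x _ => ?_
    rw [Finsupp.add_apply, Finsupp.add_apply, smul_add]
    abel
  zero_mem' := ⟨fun _ => 0, fun x _ => (Nx x).zero_mem, fun g => by simp⟩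
  neg_mem' := by
    rintro a ⟨a', ha1, ha2⟩
    refine ⟨fun x => -a' x, fun x g => (Nx x).neg_mem (ha1 x g), fun g => ?_⟩
    rw [Finsupp.neg_apply, ha2, ← Finset.sum_neg_distrib]
    refine Finset.sum_congr rfl fun x _ => ?_
    rw [Finsupp.neg_apply, Finsupp.neg_apply, smul_neg]
    abel

/-- The shift. -/
noncomputable def sh (h : F) (n : F →₀ M) : F →₀ M := Finsupp.equivMapDomain (Equiv.mulLeft h) n

theorem sh_apply (h : F) (n : F →₀ M) (g : F) : sh h n g = n (h⁻¹ * g) := rfl

/-- The twist. -/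
noncomputable def tw (L : Fre S0 T) (a : S0) (n : F →₀ M) : F →₀ M :=
  Finsupp.onFinset n.support (fun g => (L.sg g).symm a • n g) (by
    intro g hg
    rw [Finsupp.mem_support_iff]
    intro h0
    apply hg
    rw [h0, smul_zero])

theorem tw_apply (L : Fre S0 T) (a : S0) (n : F →₀ M) (g : F) :
    tw L a n g = (L.sg g).symm a • n g := rfl

theorem W_sh {L : Fre S0 T} {Nx : X → Submodule S0 M} {n : F →₀ M} (h : n ∈ W L Nx) (k : F) :
    sh k n ∈ W L Nx := by
  obtain ⟨n', h1, h2⟩ := h
  refine ⟨fun x => sh k (n' x), fun x g => h1 x _, fun g => ?_⟩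
  rw [sh_apply, h2]
  refine Finset.sum_congr rfl fun x _ => ?_
  rw [sh_apply, sh_apply, mul_assoc]

theorem sg_symm_mul (L : Fre S0 T) (g h : F) (a : S0) :
    (L.sg (g * h)).symm a = (L.sg h).symm ((L.sg g).symm a) := by
  apply (L.sg (g * h)).injective
  rw [RingEquiv.apply_symm_apply, L.sg_mul, RingEquiv.apply_symm_apply,
    RingEquiv.apply_symm_apply]

theorem W_tw {L : Fre S0 T} {Nx : X → Submodule S0 M} {n : F →₀ M} (h : n ∈ W L Nx) (a : S0) :
    tw L a n ∈ W L Nx := by
  obtain ⟨n', h1, h2⟩ := h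
  refine ⟨fun x => tw L a (n' x), fun x g => (Nx x).smul_mem _ (h1 x g), fun g => ?_⟩
  rw [tw_apply, h2, Finset.smul_sum]
  refine Finset.sum_congr rfl fun x _ => ?_
  rw [tw_apply, tw_apply, smul_sub]
  congr 1
  rw [Subring.smul_def, Subring.smul_def, smul_smul, smul_smul, sg_symm_mul]
  congr 1
  exact L.mul_un (T.gen x) ((L.sg g).symm a)

/-- The sum `∑ un g • n_g`. -/
noncomputable def sig (L : Fre S0 T) : (F →₀ M) →+ M :=
  Finsupp.liftAddHom fun g => DistribSMul.toAddMonoidHom M ((L.un g : Sˣ) : S)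

theorem sig_apply (L : Fre S0 T) (n : F →₀ M) :
    sig L n = n.sum fun g m => ((L.un g : Sˣ) : S) • m := by
  rw [sig, Finsupp.liftAddHom_apply]
  rfl

theorem sig_single (L : Fre S0 T) (g : F) (m : M) :
    sig L (Finsupp.single g m) = ((L.un g : Sˣ) : S) • m := by
  rw [sig, Finsupp.liftAddHom_apply_single]
  rfl

/-- `(A_x n) g = t_x n (g * gen x)`. -/
noncomputable def Ax (L : Fre S0 T) (x : X) : (F →₀ M) →+ (F →₀ M) :=
  (Finsupp.mapRange.addMonoidHom (DistribSMul.toAddMonoidHom M ((L.t x : Sˣ) : S))).comp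
    (Finsupp.mapDomain.addMonoidHom (fun k : F => k * (T.gen x)⁻¹))

theorem Ax_apply (L : Fre S0 T) (x : X) (n : F →₀ M) (g : F) :
    Ax L x n g = ((L.t x : Sˣ) : S) • n (g * T.gen x) := by
  have h : Ax L x n g = ((L.t x : Sˣ) : S) • (Finsupp.mapDomain (fun k : F => k * (T.gen x)⁻¹) n) g :=
    rfl
  rw [h]
  congr 1
  have hinj : Function.Injective (fun k : F => k * (T.gen x)⁻¹) := mul_left_injective _
  have h2 := Finsupp.mapDomain_apply hinj n (g * T.gen x)
  simpa using h2

theorem Ax_single (L : Fre S0 T) (x : X) (k : F) (m : M) :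
    Ax L x (Finsupp.single k m) = Finsupp.single (k * (T.gen x)⁻¹) (((L.t x : Sˣ) : S) • m) := by
  have h : Ax L x (Finsupp.single k m) = Finsupp.mapRange (fun m => ((L.t x : Sˣ) : S) • m)
    (smul_zero _) (Finsupp.mapDomain (fun k : F => k * (T.gen x)⁻¹) (Finsupp.single k m)) := rfl
  rw [h, Finsupp.mapDomain_single, Finsupp.mapRange_single]

theorem sig_Ax (L : Fre S0 T) (x : X) (n : F →₀ M) : sig L (Ax L x n) = sig L n := by
  induction n using Finsupp.induction_linear with
  | zero => simp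
  | add f g hf hg => rw [map_add, map_add, map_add, hf, hg]
  | single k m =>
    rw [Ax_single, sig_single, sig_single, smul_smul, ← Units.val_mul, Fre.t, ← map_mul,
      inv_mul_cancel_right]

theorem sig_W {L : Fre S0 T} {Nx : X → Submodule S0 M} {n : F →₀ M} (h : n ∈ W L Nx) :
    sig L n = 0 := by
  obtain ⟨n', h1, h2⟩ := h
  have h3 : n = ∑ x, (Ax L x (n' x) - n' x) := by
    ext g
    rw [h2, Finsupp.finsetSum_apply]
    refine Finset.sum_congr rfl fun x _ => ?_
    rw [Finsupp.sub_apply, Ax_apply]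
  rw [h3, map_sum]
  refine Finset.sum_eq_zero fun x _ => ?_
  rw [map_sub, sig_Ax, sub_self]

theorem W_step {L : Fre S0 T} {N : Submodule S0 M} (x : X) (g : F) (m : M) (h0 : m ∈ N)
    (h1 : ((L.t x : Sˣ) : S) • m ∈ N) :
    (Finsupp.single g (((L.t x : Sˣ) : S) • m) - Finsupp.single (g * T.gen x) m : F →₀ M) ∈
      W L fun x => N ⊓ L.tr (T.gen x)⁻¹ N := by
  classical
  refine ⟨fun y => if y = x then Finsupp.single (g * T.gen x) m else 0, ?_, ?_⟩
  · intro y k
    dsimp only
    by_cases hy : y = x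
    · subst hy
      rw [if_pos rfl]
      have hm : m ∈ N ⊓ L.tr (T.gen y)⁻¹ N := by
        refine ⟨h0, ?_⟩
        rw [SetLike.mem_coe, Fre.mem_tr, map_inv, inv_inv]
        exact h1
      by_cases hk : k = g * T.gen y
      · rw [hk, Finsupp.single_eq_same]
        exact hm
      · rw [Finsupp.single_apply, if_neg (Ne.symm hk)]
        exact zero_mem _
    · rw [if_neg hy]
      exact zero_mem _
  · intro k
    dsimp only
    rw [Finset.sum_eq_single x]
    · rw [if_pos rfl, Finsupp.sub_apply]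
      congr 1
      by_cases hk : k = g
      · rw [hk, Finsupp.single_eq_same, Finsupp.single_eq_same]
      · rw [Finsupp.single_apply, if_neg (Ne.symm hk), Finsupp.single_apply, if_neg, smul_zero]
        intro h
        exact hk (mul_right_cancel h).symm
    · intro y _ hy
      rw [if_neg hy]
      simp
    · intro h
      exact absurd (Finset.mem_univ x) h

theorem W_all {L : Fre S0 T} {N : Submodule S0 M} (m : M) (w : ℕ)
    (h : ∀ k : F, T.len k ≤ w → ((L.un k : Sˣ) : S) • m ∈ N) (c : ℕ) :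
    ∀ k : F, T.len k ≤ c → c ≤ w → ∀ g : F,
    (Finsupp.single g (((L.un k : Sˣ) : S) • m) - Finsupp.single (g * k) m : F →₀ M) ∈
      W L fun x => N ⊓ L.tr (T.gen x)⁻¹ N := by
  induction c using Nat.strong_induction_on with
  | _ c ih =>
    intro k hk hc g
    by_cases hk1 : k = 1
    · rw [hk1, map_one, Units.val_one, one_smul, mul_one, sub_self]
      exact zero_mem _
    obtain ⟨s, hs⟩ := T.desc k hk1
    set k' := (dr T.gen s)⁻¹ * k with hk'
    have hkk : k = dr T.gen s * k' := by rw [hk', mul_inv_cancel_left]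
    have h2 := ih (T.len k') (by omega) k' le_rfl (by omega) (g * dr T.gen s)
    rw [mul_assoc g, ← hkk] at h2
    have key : (Finsupp.single g (((L.un k : Sˣ) : S) • m) -
        Finsupp.single (g * dr T.gen s) (((L.un k' : Sˣ) : S) • m) : F →₀ M) ∈
        W L fun x => N ⊓ L.tr (T.gen x)⁻¹ N := by
      have hm := h k (by omega)
      have hm' := h k' (by omega)
      obtain ⟨x, b⟩ := s
      cases b
      · -- the inverse direction
        have e1 : k' = T.gen x * k := by
          rw [hk']
          change ((T.gen x)⁻¹)⁻¹ * k = _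
          rw [inv_inv]
        have e2 : ((L.t x : Sˣ) : S) • (((L.un k : Sˣ) : S) • m) = ((L.un k' : Sˣ) : S) • m := by
          rw [smul_smul, ← Units.val_mul, Fre.t, ← map_mul, ← e1]
        have h3 := W_step (L := L) (N := N) x (g * (T.gen x)⁻¹) (((L.un k : Sˣ) : S) • m) hm
          (by rw [e2]; exact hm')
        rw [e2, inv_mul_cancel_right] at h3
        have h4 := neg_mem h3
        rw [neg_sub] at h4
        exact h4
      · have e1 : k = T.gen x * k' := hkk
        have e2 : ((L.t x : Sˣ) : S) • (((L.un k' : Sˣ) : S) • m) = ((L.un k : Sˣ) : S) • m := by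
          rw [smul_smul, ← Units.val_mul, Fre.t, ← map_mul, ← e1]
        have h3 := W_step (L := L) (N := N) x g (((L.un k' : Sˣ) : S) • m) hm'
          (by rw [e2]; exact hm)
        rw [e2] at h3
        exact h3
    have h3 := add_mem key h2
    rw [sub_add_sub_cancel] at h3
    exact h3

/-- an induction principle for `S` -/
theorem ind (L : Fre S0 T) (P : S → Prop) (h0 : P 0) (hadd : ∀ a b, P a → P b → P (a + b))
    (hs : ∀ (g : F) (a : S0), P (((L.un g : Sˣ) : S) * (a : S))) (s : S) : P s := by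
  obtain ⟨f, rfl⟩ := L.val.surjective s
  induction f using Finsupp.induction_linear with
  | zero => rw [map_zero]; exact h0
  | add f g hf hg => rw [map_add]; exact hadd _ _ hf hg
  | single g a =>
    have e : L.val (Finsupp.single g a) = ((L.un g : Sˣ) : S) * (a : S) := by
      change (Finsupp.single g a).sum (fun g a => ((L.un g : Sˣ) : S) * (a : S)) = _
      rw [Finsupp.sum_single_index]
      simp
    rw [e]
    exact hs g a

section nx

variable (L : Fre S0 T) (hL : CFacts L) {m : ℕ} (p : Fin m → M)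

/-- The family `∑_i x_(i,g) p_i`. -/
noncomputable def nx (x : Fin m → S) : F →₀ M :=
  Finsupp.onFinset (hL.fin (Fin m) x).toFinset (fun g => ∑ i, L.cor x g i • p i) (by
    intro g hg
    rw [Set.Finite.mem_toFinset]
    intro h0
    apply hg
    rw [h0]
    simp)

theorem nx_apply (x : Fin m → S) (g : F) : nx L hL p x g = ∑ i, L.cor x g i • p i := rfl

theorem nx_zero : nx L hL p 0 = 0 := by
  ext g
  rw [nx_apply, hL.zero]
  simp

theorem nx_add (x y : Fin m → S) : nx L hL p (x + y) = nx L hL p x + nx L hL p y := by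
  ext g
  rw [Finsupp.add_apply, nx_apply, nx_apply, nx_apply, hL.add, ← Finset.sum_add_distrib]
  refine Finset.sum_congr rfl fun i _ => ?_
  rw [Pi.add_apply, add_smul]

theorem nx_un (h : F) (x : Fin m → S) :
    nx L hL p (((L.un h : Sˣ) : S) • x) = sh h (nx L hL p x) := by
  ext g
  rw [sh_apply, nx_apply, nx_apply]
  have e := hL.un_mul (Fin m) x h g
  change L.cor (((L.un h : Sˣ) : S) • x) g = L.cor x (h⁻¹ * g) at e
  rw [e]

theorem nx_coe (a : S0) (x : Fin m → S) :
    nx L hL p ((a : S) • x) = tw L a (nx L hL p x) := by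
  ext g
  rw [tw_apply, nx_apply, nx_apply]
  have e := hL.coe_mul (Fin m) x a g
  change L.cor ((a : S) • x) g = _ at e
  rw [e, Finset.smul_sum]
  refine Finset.sum_congr rfl fun i _ => ?_
  rw [mul_smul]

theorem sig_nx (x : Fin m → S) : sig L (nx L hL p x) = ∑ i, x i • p i := by
  have h1 := hL.sum (Fin m) M p x (hL.fin (Fin m) x).toFinset
    (fun g hg => by rw [Set.Finite.mem_toFinset]; exact hg)
  rw [h1, sig_apply]
  have h2 : (nx L hL p x).support ⊆ (hL.fin (Fin m) x).toFinset := Finsupp.support_onFinset_subset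
  rw [Finsupp.sum_of_support_subset _ h2]
  · rfl
  · intro g _
    exact smul_zero _

end nx

end EXCM

open EXCM in
/-- **Module EXC**. -/
theorem specEXC (hCFL : SpecCFL) : SpecEXC := by
  classical
  intro S _ _ S0 _ F X _ _ _ T L M _ _ m r p κ w hκ hw
  have hL := hCFL S S0 F X T L
  set N : Submodule S0 M := L.EW w p with hN
  set N0 : Submodule S0 M := Submodule.span S0 (Set.range p) with hN0
  have hle : ∀ h : F, T.len h ≤ w → L.tr h N0 ≤ N := by
    intro h hh
    exact le_iSup (fun h : {h : F // T.len h ≤ w} => L.tr h.1 N0) ⟨h, hh⟩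
  have hun : ∀ m0 ∈ N0, ∀ h : F, T.len h ≤ w → ((L.un h : Sˣ) : S) • m0 ∈ N := by
    intro m0 hm0 h hh
    apply hle h hh
    rw [Fre.mem_tr, smul_smul, ← Units.val_mul, inv_mul_cancel, Units.val_one, one_smul]
    exact hm0
  have hall : ∀ m0 ∈ N0, ∀ h : F, T.len h ≤ w → ∀ g : F,
      (Finsupp.single g (((L.un h : Sˣ) : S) • m0) - Finsupp.single (g * h) m0 : F →₀ M) ∈
      W L fun x => N ⊓ L.tr (T.gen x)⁻¹ N := by
    intro m0 hm0 h hh g
    exact W_all m0 w (hun m0 hm0) w h hh le_rfl g
  have hnx0 : ∀ (x : Fin m → S) (g : F), nx L hL p x g ∈ N0 := by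
    intro x g
    rw [nx_apply]
    exact N0.sum_mem fun i _ => N0.smul_mem _ (Submodule.subset_span ⟨i, rfl⟩)
  -- Claim B
  have hB : ∀ x : Fin m → S, ∑ i, x i • p i = 0 →
      nx L hL p x ∈ W L fun x => N ⊓ L.tr (T.gen x)⁻¹ N := by
    intro x hx
    have hx2 := (hκ x).1 hx
    clear hx
    induction hx2 using Submodule.span_induction with
    | mem y hy =>
      obtain ⟨l, rfl⟩ := hy
      have h1 : (∑ g ∈ (nx L hL p (κ l)).support,
          (Finsupp.single 1 (((L.un g : Sˣ) : S) • nx L hL p (κ l) g) -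
            Finsupp.single (1 * g) (nx L hL p (κ l) g) : F →₀ M)) ∈
          W L fun x => N ⊓ L.tr (T.gen x)⁻¹ N := by
        refine sum_mem fun g hg => ?_
        apply hall _ (hnx0 _ _)
        by_contra hlt
        rw [not_le] at hlt
        rw [Finsupp.mem_support_iff] at hg
        apply hg
        rw [nx_apply, hw l g hlt]
        simp
      rw [Finset.sum_sub_distrib] at h1
      have e1 : (∑ g ∈ (nx L hL p (κ l)).support,
          (Finsupp.single (1 * g) (nx L hL p (κ l) g) : F →₀ M)) = nx L hL p (κ l) := by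
        simp only [one_mul]
        exact Finsupp.sum_single _
      have e2 : (∑ g ∈ (nx L hL p (κ l)).support,
          (Finsupp.single 1 (((L.un g : Sˣ) : S) • nx L hL p (κ l) g) : F →₀ M)) = 0 := by
        have e3 : (∑ g ∈ (nx L hL p (κ l)).support,
          (Finsupp.single (1 : F) (((L.un g : Sˣ) : S) • nx L hL p (κ l) g) : F →₀ M)) =
          Finsupp.single 1 (∑ g ∈ (nx L hL p (κ l)).support,
            ((L.un g : Sˣ) : S) • nx L hL p (κ l) g) :=
          (map_sum (Finsupp.singleAddHom (1 : F)) _ _).symm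
        rw [e3]
        have e4 : (∑ g ∈ (nx L hL p (κ l)).support, ((L.un g : Sˣ) : S) • nx L hL p (κ l) g) =
            sig L (nx L hL p (κ l)) := (sig_apply L _).symm
        rw [e4, sig_nx, (hκ (κ l)).2 (Submodule.subset_span ⟨l, rfl⟩), Finsupp.single_zero]
      rw [e1, e2, zero_sub] at h1
      simpa using neg_mem h1
    | zero => rw [nx_zero]; exact zero_mem _
    | add x y _ _ ihx ihy => rw [nx_add]; exact add_mem ihx ihy
    | smul s x _ ih =>
      refine ind L (fun s => nx L hL p (s • x) ∈ W L fun x => N ⊓ L.tr (T.gen x)⁻¹ N) ?_ ?_ ?_ s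
      · rw [zero_smul, nx_zero]; exact zero_mem _
      · intro s s' h h'
        rw [add_smul, nx_add]
        exact add_mem h h'
      · intro g a
        rw [mul_smul, nx_un, nx_coe]
        exact W_sh (W_tw ih a) g
  -- Claim A
  have hA : ∀ m0 ∈ N, ∀ k : F, ∃ x : Fin m → S,
      Finsupp.single k m0 - nx L hL p x ∈ W L fun x => N ⊓ L.tr (T.gen x)⁻¹ N := by
    intro m0 hm0 k
    refine Submodule.iSup_induction (fun h : {h : F // T.len h ≤ w} => L.tr h.1 N0)
      (motive := fun m0 => ∃ x : Fin m → S,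
        Finsupp.single k m0 - nx L hL p x ∈ W L fun x => N ⊓ L.tr (T.gen x)⁻¹ N) hm0 ?_ ?_ ?_
    · rintro ⟨h, hh⟩ m1 hm1
      have hm2 : (((L.un h)⁻¹ : Sˣ) : S) • m1 ∈ N0 := hm1
      have e1 : m1 = ((L.un h : Sˣ) : S) • ((((L.un h)⁻¹ : Sˣ) : S) • m1) := by
        rw [smul_smul, ← Units.val_mul, mul_inv_cancel, Units.val_one, one_smul]
      set m2 := (((L.un h)⁻¹ : Sˣ) : S) • m1 with hm2d
      rw [hN0, Submodule.mem_span_range_iff_exists_fun] at hm2
      obtain ⟨c, hc⟩ := hm2
      obtain ⟨x, hx⟩ := hL.ex (Fin m) (fun g => if g = k * h then c else 0)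
        ((Set.finite_singleton (k * h)).subset (by
          intro g hg
          by_contra hne
          apply hg
          exact if_neg hne))
      refine ⟨x, ?_⟩
      have e2 : nx L hL p x = Finsupp.single (k * h) m2 := by
        ext g
        rw [nx_apply, hx, Finsupp.single_apply]
        by_cases hg : g = k * h
        · rw [if_pos hg, if_pos hg.symm, hc]
        · rw [if_neg hg, if_neg (Ne.symm hg)]
          simp
      rw [e2, e1]
      refine hall m2 ?_ h hh k
      rw [← hc]
      exact N0.sum_mem fun i _ => N0.smul_mem _ (Submodule.subset_span ⟨i, rfl⟩)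
    · refine ⟨0, ?_⟩
      rw [nx_zero, Finsupp.single_zero, sub_zero]
      exact zero_mem _
    · rintro a b ⟨x, hx⟩ ⟨y, hy⟩
      refine ⟨x + y, ?_⟩
      rw [nx_add, Finsupp.single_add, add_sub_add_comm]
      exact add_mem hx hy
  -- the property
  intro n hn hsum
  have hA2 : ∀ E : Finset F, ∃ x : Fin m → S,
      (∑ k ∈ E, Finsupp.single k (n k)) - nx L hL p x ∈
        W L fun x => N ⊓ L.tr (T.gen x)⁻¹ N := by
    intro E
    induction E using Finset.induction_on with
    | empty =>
      refine ⟨0, ?_⟩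
      rw [nx_zero, Finset.sum_empty, sub_zero]
      exact zero_mem _
    | insert k E hk ih =>
      obtain ⟨x, hx⟩ := ih
      obtain ⟨y, hy⟩ := hA (n k) (hn k) k
      refine ⟨y + x, ?_⟩
      rw [nx_add, Finset.sum_insert hk, add_sub_add_comm]
      exact add_mem hy hx
  obtain ⟨x, hx⟩ := hA2 n.support
  have hn2 : (∑ k ∈ n.support, Finsupp.single k (n k) : F →₀ M) = n := Finsupp.sum_single n
  rw [hn2] at hx
  have hs1 := sig_W hx
  rw [map_sub, sig_nx, sig_apply, hsum, zero_sub, neg_eq_zero] at hs1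
  have hfin := add_mem hx (hB x hs1)
  rw [sub_add_cancel] at hfin
  exact hfin

end Pool.Agent.Lib.MP8a3537.AUF
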