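import Pool.Agent.Lib.MP_8a3537_gt.AUF.SpecA

/-! # AUF, module EXN: lattice data exist -/

namespace Pool.Agent.Lib.MP8a3537.AUF

open Matrix
open Pool.Agent.Lib.MP8a3537.AUL

namespace EXNM

variable {S : Type} [Ring S] [StarRing S] {S0 : Subring S} [StarSub S0] {F X : Type} [Group F]
  [Fintype X] [DecidableEq X] {T : TreeLen F X} {M : Type} [AddCommGroup M] [Module S M]

omit [StarSub S0] [Fintype X] [DecidableEq X] in
theorem tr_one (L : Fre S0 T) (N : Submodule S0 M) : L.tr 1 N = N := by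
  ext m
  rw [Fre.mem_tr, map_one, inv_one, Units.val_one, one_smul]

omit [StarSub S0] [Fintype X] [DecidableEq X] in
theorem span_le_EW (L : Fre S0 T) (w : ℕ) {ι : Type} (p : ι → M) :
    Submodule.span S0 (Set.range p) ≤ L.EW w p := by
  have h := le_iSup (fun h : {h : F // T.len h ≤ w} => L.tr h.1 (Submodule.span S0 (Set.range p)))
    ⟨1, by rw [T.len_one]; exact Nat.zero_le w⟩
  rw [tr_one] at h
  exact h

omit [Fintype X] [DecidableEq X] in
theorem EW_fg (L : Fre S0 T) (hTWF : SpecTWF) (w : ℕ) {ι : Type} [Finite ι] (p : ι → M) :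
    (L.EW w p).FG := by
  have hfin : Finite {h : F // T.len h ≤ w} := (T.ball w).to_subtype
  refine Submodule.fg_iSup _ fun h => ?_
  exact (hTWF S S0 F X T L M _ ⊥ h.1 0).2.2.2 (Submodule.fg_span (Set.finite_range p))

omit [StarSub S0] [Fintype X] [DecidableEq X] in
theorem exists_w (L : Fre S0 T) (hC : CFacts L) {m r : ℕ} (κ : Fin r → Fin m → S) :
    ∃ w : ℕ, ∀ l g, w < T.len g → L.cor (κ l) g = 0 := by
  have h1 : ∀ l : Fin r, ∃ w : ℕ, ∀ g, w < T.len g → L.cor (κ l) g = 0 := by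
    intro l
    have hf := hC.fin (Fin m) (κ l)
    obtain ⟨w, hw⟩ := (hf.image T.len).bddAbove
    refine ⟨w, fun g hg => ?_⟩
    by_contra hne
    have : T.len g ≤ w := hw ⟨g, hne, rfl⟩
    omega
  choose w hw using h1
  refine ⟨Finset.univ.sup w, fun l g hg => hw l g ?_⟩
  exact lt_of_le_of_lt (Finset.le_sup (Finset.mem_univ l)) hg

end EXNM

open EXNM in
theorem specEXN (hCFL : SpecCFL) (hTWF : SpecTWF) (hEXC : SpecEXC) : SpecEXN := by
  classical
  intro S _ _ S0 _ F X _ _ _ T L hS0 M _ _ hM Y hY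
  have hfin : Module.Finite S M := inferInstance
  obtain ⟨G, hG⟩ := hfin.fg_top
  obtain ⟨Q, hQ⟩ := hY
  -- the generators
  let ι : Type := {g : M // g ∈ G ∪ Q}
  obtain ⟨m, ⟨e⟩⟩ : ∃ m : ℕ, Nonempty (Fin m ≃ ι) := ⟨Fintype.card ι, ⟨(Fintype.equivFin ι).symm⟩⟩
  let p : Fin m → M := fun i => (e i : M)
  have hp : ∀ g ∈ G ∪ Q, ∃ i, p i = g := by
    intro g hg
    refine ⟨e.symm ⟨g, hg⟩, ?_⟩
    change ((e (e.symm ⟨g, hg⟩) : ι) : M) = g
    rw [Equiv.apply_symm_apply]
  have hspan : Submodule.span S (Set.range p) = ⊤ := by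
    rw [eq_top_iff, ← hG]
    apply Submodule.span_mono
    intro g hg
    obtain ⟨i, hi⟩ := hp g (Finset.mem_union_left _ hg)
    exact ⟨i, hi⟩
  -- the relations
  let φ : (Fin m → S) →ₗ[S] M := Fintype.linearCombination S p
  have hφ : ∀ x, φ x = ∑ i, x i • p i := fun x => Fintype.linearCombination_apply S p x
  have hsurj : Function.Surjective φ := by
    rw [← LinearMap.range_eq_top]
    change LinearMap.range (Fintype.linearCombination S p) = ⊤
    rw [Fintype.range_linearCombination, hspan]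
  have hker := Module.FinitePresentation.fg_ker φ hsurj
  obtain ⟨r, κ, hκ⟩ := Submodule.fg_iff_exists_fin_generating_family.mp hker
  have hrel : ∀ x : Fin m → S, ∑ i, x i • p i = 0 ↔ x ∈ Submodule.span S (Set.range κ) := by
    intro x
    rw [hκ, LinearMap.mem_ker, hφ]
  obtain ⟨w, hw⟩ := exists_w L (hCFL S S0 F X T L) κ
  have hpx := hEXC S S0 F X T L M m r p κ w hrel hw
  have hNfg : (L.EW w p).FG := EW_fg L hTWF w p
  have hpN : ∀ i, p i ∈ L.EW w p := fun i => span_le_EW L w p (Submodule.subset_span ⟨i, rfl⟩)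
  refine ⟨{ N := L.EW w p
            Nx := fun x => L.EW w p ⊓ L.tr (T.gen x)⁻¹ (L.EW w p)
            fg := hNfg
            fgx := fun x => hNfg.of_le inf_le_left
            gen := ?_
            le := fun x => inf_le_left
            tle := ?_
            px := hpx }, ?_⟩
  · rw [Gen, eq_top_iff, ← hspan, Submodule.span_le]
    rintro _ ⟨i, rfl⟩
    exact Submodule.subset_span (hpN i)
  · intro x y hy
    have h := hy.2
    rw [SetLike.mem_coe, Fre.mem_tr, map_inv, inv_inv] at h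
    exact h
  · change Y ≤ L.EW w p
    rw [← hQ, Submodule.span_le]
    intro y hy
    obtain ⟨i, hi⟩ := hp y (Finset.mem_union_right _ hy)
    rw [← hi]
    exact hpN i

end Pool.Agent.Lib.MP8a3537.AUF
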