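import Pool.Agent.Lib.MP_8a3537_gt.AUF.SpecA
import Pool.Agent.Lib.MP_8a3537_gt.AUL.Main

/-! # AUF, module EXT: `Gr` of an extension -/

namespace Pool.Agent.Lib.MP8a3537.AUF

open Matrix
open Pool.Agent.Lib.MP8a3537.AUL

theorem specEXT : SpecEXT := by
  intro A _ _ c X _ _ K hX hK hQ
  obtain ⟨C, ⟨r⟩⟩ := hX
  obtain ⟨D, ⟨s⟩, hD⟩ := hK
  obtain ⟨E, ⟨t⟩, hE⟩ := hQ
  obtain ⟨u, hu, hl⟩ := specLFT A D C K X s r K.subtype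
  obtain ⟨t'⟩ := specCON A C D X K r s u hu hl
  obtain ⟨-, h2, -⟩ := specLES A C D u hu
  refine ⟨C, ⟨r⟩, fun q hq => h2 q ?_ (hD q hq)⟩
  exact (mIND A E (cone C D u hu) (X ⧸ K) t t').1 q (hE q hq)

end Pool.Agent.Lib.MP8a3537.AUF
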