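import Pool.Agent.Lib.MP_8a3537_gt.AUF.SpecC

/-!
# FGX: the free quotient has a finite basis, which can be lifted
-/

namespace Pool.Agent.Lib.MP8a3537.AUF

namespace FGXM

/-- A finitely generated group has finitely many homomorphisms to a finite group. -/
theorem finite_hom (Q Z : Type) [Group Q] (hQ : Group.FG Q) [Group Z] [Finite Z] :
    Finite (Q →* Z) := by
  obtain ⟨s, hs⟩ := Group.fg_def.mp hQ
  refine Finite.of_injective (fun (f : Q →* Z) (x : s) => f x) ?_
  intro f g h
  refine MonoidHom.eq_of_eqOn_dense hs ?_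
  intro x hx
  exact congrFun h ⟨x, hx⟩

theorem finite_of_fun (X Z : Type) (a b : Z) (hab : a ≠ b) (h : Finite (X → Z)) : Finite X := by
  classical
  refine Finite.of_injective (fun (x : X) (y : X) => if x = y then a else b) ?_
  intro x y hxy
  by_contra hne
  have h1 := congrFun hxy y
  simp only [if_neg hne, if_pos] at h1
  exact hab h1.symm

/-- A finitely generated free group has a finite basis. -/
theorem finite_gen (Q : Type) [Group Q] [IsFreeGroup Q] (hQ : Group.FG Q) :
    Finite (IsFreeGroup.Generators Q) := by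
  have h1 : Finite (Q →* Multiplicative (ZMod 2)) := finite_hom Q _ hQ
  have h2 : Finite (IsFreeGroup.Generators Q → Multiplicative (ZMod 2)) :=
    Finite.of_equiv _ (IsFreeGroup.lift (G := Q) (H := Multiplicative (ZMod 2))).symm
  exact finite_of_fun _ _ (Multiplicative.ofAdd (0 : ZMod 2)) (Multiplicative.ofAdd (1 : ZMod 2))
    (by decide) h2

end FGXM

theorem specFGX : SpecFGX := by
  intro K _ N _ hK hF
  have hQ : Group.FG (K ⧸ N) := @QuotientGroup.fg K _ hK N _
  refine ⟨IsFreeGroup.Generators (K ⧸ N), FGXM.finite_gen _ hQ,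
    FreeGroup.lift fun x => (IsFreeGroup.of (G := K ⧸ N) x).out, inferInstance, ?_, ?_⟩
  all_goals
    set ψ : FreeGroup (IsFreeGroup.Generators (K ⧸ N)) →* K :=
      FreeGroup.lift fun x => (IsFreeGroup.of (G := K ⧸ N) x).out with hψ
    have key : ∀ g, (QuotientGroup.mk (ψ g) : K ⧸ N) = IsFreeGroup.mulEquiv (K ⧸ N) g := by
      have h : (QuotientGroup.mk' N).comp ψ = (IsFreeGroup.mulEquiv (K ⧸ N)).toMonoidHom := by
        ext x
        simp [hψ, IsFreeGroup.of]
      intro g
      exact DFunLike.congr_fun h g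
  · intro h
    refine ⟨(IsFreeGroup.mulEquiv (K ⧸ N)).symm (QuotientGroup.mk h), ?_⟩
    rw [← QuotientGroup.eq, key, MulEquiv.apply_symm_apply]
  · intro g hg
    have h1 := key g
    rw [(QuotientGroup.eq_one_iff _).mpr hg] at h1
    exact (map_eq_one_iff _ (IsFreeGroup.mulEquiv (K ⧸ N)).injective).mp h1.symm

end Pool.Agent.Lib.MP8a3537.AUF
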