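import Pool.Agent.Lib.MP_8a3537_gt.AUF.SpecC
import Pool.Agent.Lib.MP_8a3537_gt.UV.HTR

/-!
# MP_8a3537_gt, folder AUF, module FRL (helper94): the length function of a free group
-/

namespace Pool.Agent.Lib.MP8a3537.AUF

open Pool.Agent.Lib.MP8a3537.AUL

namespace FRLM

open FreeGroup UV.HTRAux

variable {X : Type} [DecidableEq X]

omit [DecidableEq X] in
theorem dr_of (s : X × Bool) : dr (FreeGroup.of : X → FreeGroup X) s = mk [s] := by
  rcases s with ⟨x, b⟩
  cases b
  · show (FreeGroup.of x)⁻¹ = mk [(x, false)]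
    rw [FreeGroup.of, inv_mk]
    rfl
  · rfl

omit [DecidableEq X] in
theorem red1 (s : X × Bool) : IsReduced [s] := List.isChain_singleton s

theorem norm_right (g : FreeGroup X) (s : X × Bool) :
    norm (g * mk [s]) + 2 * lcp (toWord g⁻¹) [s] = norm g + 1 := by
  have h := norm_inv_mul (toWord g⁻¹) [s] isReduced_toWord (red1 s)
  rw [mk_toWord, inv_inv] at h
  have h2 : (toWord g⁻¹).length = norm g := by
    have := norm_inv_eq (x := g)
    exact this
  rw [h2] at h
  exact h

theorem lcp_pos {u : List (X × Bool)} {s : X × Bool} (h : 0 < lcp u [s]) : ∃ l, u = s :: l := by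
  cases u with
  | nil =>
    rw [lcp_nil_left] at h
    exact absurd h (lt_irrefl _)
  | cons a l =>
    unfold lcp at h
    by_cases hs : a = s
    · exact ⟨l, by rw [hs]⟩
    · rw [if_neg hs] at h
      exact absurd h (lt_irrefl _)

end FRLM

open FreeGroup UV.HTRAux FRLM in
/-- **FRL.** -/
theorem specFRL : SpecFRL := by
  intro X _
  classical
  refine ⟨⟨FreeGroup.of, norm, norm_one, ?_, ?_, ?_, ?_⟩, rfl⟩
  · intro g s h
    rw [dr_of] at h
    have := norm_right g s
    omega
  · intro g s s' h h'
    rw [dr_of] at h h'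
    have h1 := norm_right g s
    have h2 := norm_right g s'
    obtain ⟨l, hl⟩ := lcp_pos (u := toWord g⁻¹) (s := s) (by omega)
    obtain ⟨l', hl'⟩ := lcp_pos (u := toWord g⁻¹) (s := s') (by omega)
    rw [hl] at hl'
    exact (List.cons.inj hl').1
  · intro h hh
    obtain ⟨w, hw⟩ : ∃ w, w = toWord h := ⟨_, rfl⟩
    cases w with
    | nil =>
      exact absurd (toWord_eq_nil_iff.1 hw.symm) hh
    | cons s l =>
      refine ⟨s, ?_⟩
      rw [dr_of]
      have h1 := norm_inv_mul [s] (toWord h) (red1 s) isReduced_toWord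
      rw [mk_toWord, ← hw] at h1
      have h2 : norm h = (s :: l).length := by
        rw [hw]
        rfl
      unfold lcp at h1
      rw [if_pos rfl, lcp_nil_left] at h1
      simp only [List.length_cons, List.length_nil] at h1 h2
      omega
  · intro n
    have h1 : {g : FreeGroup X | norm g ≤ n} = toWord ⁻¹' {l : List (X × Bool) | l.length ≤ n} := rfl
    rw [h1]
    exact Set.Finite.preimage toWord_injective.injOn (List.finite_length_le (X × Bool) n)

end Pool.Agent.Lib.MP8a3537.AUF
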