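import Pool.Agent.Lib.MP_8a3537_gt.AUF.SpecA

/-!
# MP_8a3537_gt, folder AUF, module GRI (helper94): first properties of `Gr`
-/

namespace Pool.Agent.Lib.MP8a3537.AUF

open Matrix
open Pool.Agent.Lib.MP8a3537.AUL

namespace GRIM

variable {A : Type} [Ring A]

/-- a linear equivalence transports a resolution. -/
def resEquiv {C : FC A} {X Y : Type} [AddCommGroup X] [Module A X] [AddCommGroup Y] [Module A Y]
    (r : Res C X) (φ : X ≃ₗ[A] Y) : Res C Y where
  pi := φ.toLinearMap ∘ₗ r.pi
  isRes := r.isRes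
  low := by
    intro q x hq hx
    rw [LinearMap.comp_apply, r.low q x hq hx, map_zero]
  surj := by
    intro y
    obtain ⟨z, hz⟩ := r.surj (φ.symm y)
    refine ⟨z, ?_⟩
    rw [LinearMap.comp_apply, hz]
    exact φ.apply_symm_apply y
  zero := by
    intro y
    rw [LinearMap.comp_apply, r.zero, map_zero]
  ker := by
    intro x hx h
    apply r.ker x hx
    rw [LinearMap.comp_apply] at h
    have h2 : φ (r.pi x) = φ 0 := by
      rw [map_zero]
      exact h
    exact φ.injective h2

theorem gr_equiv [StarRing A] {c : ℤ} {X Y : Type} [AddCommGroup X] [Module A X] [AddCommGroup Y]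
    [Module A Y] (φ : X ≃ₗ[A] Y) (h : Gr A c X) : Gr A c Y := by
  obtain ⟨C, ⟨r⟩, hC⟩ := h
  exact ⟨C, ⟨resEquiv r φ⟩, hC⟩

variable (A) in
/-- the zero complex. -/
def zc : FC A where
  I := Empty
  fin := inferInstance
  dec := inferInstance
  deg := fun i => i.elim
  e := fun i => i.elim
  he := fun i => i.elim
  hee := fun i => i.elim

theorem zc_exact (q : ℤ) : (zc A).ExactAt q := by
  intro x _ _
  refine ⟨0, ?_⟩
  funext i
  exact Empty.elim i

theorem zc_dual_exact [StarRing A] (q : ℤ) : (zc A).dual.ExactAt q := by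
  intro x _ _
  refine ⟨0, ?_⟩
  funext i
  exact Empty.elim i

/-- it resolves a trivial module. -/
def zres {X : Type} [AddCommGroup X] [Module A X] (hX : Subsingleton X) : Res (zc A) X where
  pi := 0
  isRes := ⟨fun i => Empty.elim i, fun q _ => zc_exact q⟩
  low := fun _ _ _ _ => rfl
  surj := fun y => ⟨0, hX.elim _ _⟩
  zero := fun _ => rfl
  ker := by
    intro x _ _
    refine ⟨0, ?_⟩
    funext i
    exact Empty.elim i

end GRIM

/-- **GRI.** -/
theorem specGRI : SpecGRI := by
  intro A _ _ c X Y _ _ _ _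
  refine ⟨fun φ h => GRIM.gr_equiv φ h, fun h => ?_, fun h => ?_⟩
  · exact ⟨GRIM.zc A, ⟨GRIM.zres h⟩, fun q _ => GRIM.zc_dual_exact q⟩
  · exact GRIM.gr_equiv Submodule.topEquiv (h ⊤)

end Pool.Agent.Lib.MP8a3537.AUF
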