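import Pool.Agent.Lib.MP_8a3537_gt.AUF.SpecC
import Pool.Agent.Lib.MP_8a3537_gt.AUL.GRP

/-! # AUF, module GRPF: group rings of extensions by free groups (helper21) -/

namespace Pool.Agent.Lib.MP8a3537.AUF

open Matrix
open Pool.Agent.Lib.MP8a3537.AUL

namespace GRPFM

open UV

variable {R K F : Type} [Ring R] [Group K] [Group F]

/-- The units. -/
noncomputable def unF (R : Type) {K F : Type} [Ring R] [Group K] [Group F] (ψ : F →* K) :
    F →* (MonoidAlgebra R K)ˣ :=
  (Units.map (MonoidAlgebra.of R K)).comp ((toUnits (G := K)).toMonoidHom.comp ψ)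

theorem unF_val (ψ : F →* K) (g : F) :
    ((unF R ψ g : (MonoidAlgebra R K)ˣ) : MonoidAlgebra R K) = MonoidAlgebra.single (ψ g) 1 := rfl

theorem unF_inv (ψ : F →* K) (g : F) :
    (((unF R ψ g)⁻¹ : (MonoidAlgebra R K)ˣ) : MonoidAlgebra R K) =
      MonoidAlgebra.single (ψ g)⁻¹ 1 := by
  rw [← map_inv, unF_val, map_inv]

theorem coeff_sumF (N : Subgroup K) (ψ : F →* K) (hψ : ∀ g : F, ψ g ∈ N → g = 1)
    (f : F →₀ gsub R N) (k : F) (n : K) (hn : n ∈ N) :
    (f.sum fun k a => ((unF R ψ k : (MonoidAlgebra R K)ˣ) : MonoidAlgebra R K) *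
      (a : MonoidAlgebra R K)).coeff (ψ k * n) = (f k : MonoidAlgebra R K).coeff n := by
  classical
  rw [Finsupp.sum, MonoidAlgebra.coeff_sum, Finsupp.finsetSum_apply]
  have h1 : ∀ j : F, (((unF R ψ j : (MonoidAlgebra R K)ˣ) : MonoidAlgebra R K) *
      (f j : MonoidAlgebra R K)).coeff (ψ k * n) =
      if j = k then (f k : MonoidAlgebra R K).coeff n else 0 := by
    intro j
    rw [unF_val, MonoidAlgebra.coeff_single_mul_apply, one_mul]
    by_cases hj : j = k
    · rw [if_pos hj, hj, ← mul_assoc, inv_mul_cancel, one_mul]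
    · rw [if_neg hj]
      apply GRPM.coeff_not_mem N _ (f j).2
      intro hmem
      rw [← mul_assoc, N.mul_mem_cancel_right hn, ← map_inv, ← map_mul] at hmem
      have h2 := hψ _ hmem
      exact hj (inv_mul_eq_one.1 h2)
  rw [Finset.sum_congr rfl fun j _ => h1 j, Finset.sum_ite_eq']
  split_ifs with h
  · rfl
  · rw [Finsupp.notMem_support_iff.mp h]
    simp

end GRPFM

open GRPFM UV in
theorem specGRPF : SpecGRPF := by
  classical
  intro R K F X _ _ _ _ T N ψ hext
  obtain ⟨hN, h1, h2⟩ := hext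
  have hss : StarSub (gsub R N) := ⟨by
    rintro a ⟨x, rfl⟩
    exact ⟨star x, (GRPM.star_emb N x).symm⟩⟩
  refine ⟨hss, ⟨?_⟩, ?_⟩
  · refine
      { un := unF R ψ
        star_un := ?_
        conj_mem := ?_
        bij := ⟨?_, ?_⟩ }
    · intro g
      rw [unF_val, unF_inv, star_single, star_one]
    · intro g a ha
      rw [unF_val, unF_inv]
      exact GRPM.conj_in N hN (ψ g) a ha
    · intro f g hfg
      ext1 k
      apply Subtype.ext
      ext n
      by_cases hn : n ∈ N
      · rw [← coeff_sumF N ψ h2 f k n hn, ← coeff_sumF N ψ h2 g k n hn]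
        exact congrArg (fun z : MonoidAlgebra R K => z.coeff (ψ k * n)) hfg
      · rw [GRPM.coeff_not_mem N _ (f k).2 n hn, GRPM.coeff_not_mem N _ (g k).2 n hn]
    · intro x
      induction x using MonoidAlgebra.induction_linear with
      | zero => exact ⟨0, Finsupp.sum_zero_index⟩
      | add x y hx hy =>
        obtain ⟨f, hf⟩ := hx
        obtain ⟨g, hg⟩ := hy
        refine ⟨f + g, ?_⟩
        rw [← hf, ← hg]
        exact Finsupp.sum_add_index' (fun k => by simp) (fun k a b => by simp [mul_add])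
      | single h r =>
        obtain ⟨k, hk⟩ := h1 h
        refine ⟨Finsupp.single k ⟨MonoidAlgebra.single ((ψ k)⁻¹ * h) r,
          GRPM.single_mem N _ hk r⟩, ?_⟩
        change (Finsupp.single k _).sum _ = _
        rw [Finsupp.sum_single_index (by simp), unF_val, MonoidAlgebra.single_mul_single,
          one_mul, ← mul_assoc, mul_inv_cancel, one_mul]
  · refine ⟨RingEquiv.ofBijective (emb R N).rangeRestrict ⟨?_, ?_⟩, ?_⟩
    · intro x y hxy
      have h3 : emb R N x = emb R N y := congrArg Subtype.val hxy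
      ext n
      rw [← RESAux.emb_coeff_mem N x n, ← RESAux.emb_coeff_mem N y n, h3]
    · exact RingHom.rangeRestrict_surjective _
    · intro a
      apply Subtype.ext
      exact (GRPM.star_emb N a).symm

end Pool.Agent.Lib.MP8a3537.AUF
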