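import Pool.Agent.Lib.MP_8a3537_gt.AUF.RSF
import Pool.Agent.Lib.MP_8a3537_gt.AUL.Main

/-!
# AUF, module GRU: `Y_x` modulo the image of a chain map
-/

set_option autoImplicit false

namespace Pool.Agent.Lib.MP8a3537.AUF

open Matrix
open Pool.Agent.Lib.MP8a3537.AUL

namespace GRUM

section General

variable {S : Type} [Ring S] [StarRing S] {S0 : Subring S} [StarSub S0] {X : Type}
  [Fintype X] [DecidableEq X]

omit [StarRing S] [StarSub S0] [Fintype X] in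
theorem jx_add (D : X → FC S0) (x : X) (y y' : (D x).I → S0) (i : Σ x, (D x).I) :
    (jx x (y + y') : (Σ x, (D x).I) → S0) i = jx x y i + jx x y' i := by
  unfold jx
  rw [Pi.single_add]
  rfl

omit [StarRing S] [StarSub S0] [Fintype X] in
theorem jx_smul (D : X → FC S0) (x : X) (a : S0) (y : (D x).I → S0) (i : Σ x, (D x).I) :
    (jx x (a • y) : (Σ x, (D x).I) → S0) i = a * jx x y i := by
  unfold jx
  rw [Pi.single_smul]
  rfl

/-- The inclusion of the cocycles of the component `x`. -/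
def jxl (D : X → FC S0) (x : X) (q : ℤ) : (D x).dual.Z q →ₗ[S0] (dsum D).dual.Z q where
  toFun y := ⟨jx x y.1, RSFM.jx_Z x y.1 y.2⟩
  map_add' a b := by
    apply Subtype.ext
    funext i
    exact jx_add D x a.1 b.1 i
  map_smul' a b := by
    apply Subtype.ext
    funext i
    exact jx_smul D x a b.1 i

/-- The projection onto `Y_x`. -/
def pj (D : X → FC S0) (x : X) {q : ℤ} {Q : Type} [AddCommGroup Q] [Module S Q]
    (g : (bc (dsum D)).dual.Z q →ₗ[S] Q) : (D x).dual.Z q →ₗ[S0] Ym g x ((D x).dual.Z q) :=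
  ((ACXM.lin g).comp (jxl D x q)).codRestrict (Ym g x ((D x).dual.Z q))
    (fun y => ⟨y.1, y.2, ⟨up (jx x y.1), ACXM.emb_mem (dsum D).dual q _ (RSFM.jx_Z x y.1 y.2)⟩,
      rfl, rfl⟩)

theorem pj_coe (D : X → FC S0) (x : X) {q : ℤ} {Q : Type} [AddCommGroup Q] [Module S Q]
    (g : (bc (dsum D)).dual.Z q →ₗ[S] Q) (y : (D x).dual.Z q) :
    ((pj D x g y : Ym g x ((D x).dual.Z q)) : Q) =
      g ⟨up (jx x y.1), ACXM.emb_mem (dsum D).dual q _ (RSFM.jx_Z x y.1 y.2)⟩ := rfl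

theorem pj_surj (D : X → FC S0) (x : X) {q : ℤ} {Q : Type} [AddCommGroup Q] [Module S Q]
    (g : (bc (dsum D)).dual.Z q →ₗ[S] Q) : Function.Surjective (pj D x g) := by
  rintro ⟨m, y, hy, z, hz, rfl⟩
  refine ⟨⟨y, hy⟩, Subtype.ext ?_⟩
  rw [pj_coe]
  congr 1
  exact Subtype.ext hz.symm

theorem pj_B (D : X → FC S0) (x : X) {q : ℤ} {Q : Type} [AddCommGroup Q] [Module S Q]
    (g : (bc (dsum D)).dual.Z q →ₗ[S] Q)
    (hg : ∀ y : (bc (dsum D)).dual.Z q, y.1 ∈ (bc (dsum D)).dual.B q → g y = 0)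
    (y : (D x).dual.Z q) (hy : y.1 ∈ (D x).dual.B q) : pj D x g y = 0 := by
  apply Subtype.ext
  rw [pj_coe]
  exact hg _ (RSFM.up_B (dsum D).dual q _ (RSFM.jx_B x y.1 hy))

end General

end GRUM

open GRUM in
theorem specGRU : SpecGRU := by
  intro S _ _ S0 _ X _ _ D c x Q _ _ g hg
  constructor
  · intro c' hT
    refine ACXM.tc_quot mTCS c' (((D x).dual.B (c - 1)).submoduleOf ((D x).dual.Z (c - 1))).mkQ
      (pj D x g) (pj_surj D x g) ?_ hT
    intro y hy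
    rw [Submodule.ker_mkQ] at hy
    exact pj_B D x g hg y hy
  · intro C' v hv hT
    obtain ⟨g', f', -, hg'⟩ := (specLES S0 C' (D x) v hv).2.2 c
    refine ACXM.tc_quot mTCS c g' ((Submodule.mkQ _).comp (pj D x g))
      ((Submodule.mkQ_surjective _).comp (pj_surj D x g)) ?_ hT
    intro y hy
    obtain ⟨z, b, hz, hb, hy'⟩ := (hg' y).1 hy
    have hbZ : b ∈ (D x).dual.Z (c - 1) := ACXM.b_mem (D x).dual (c - 1) b hb
    have hzZ : (z ᵥ* vᴴ : (D x).I → S0) ∈ (D x).dual.Z (c - 1) :=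
      ACXM.dual_mem C' (D x) v hv _ z hz
    have e2 : y = (⟨z ᵥ* vᴴ, hzZ⟩ : (D x).dual.Z (c - 1)) + ⟨b, hbZ⟩ := Subtype.ext hy'
    show Submodule.Quotient.mk (pj D x g y) = 0
    apply (Submodule.Quotient.mk_eq_zero _).2
    rw [e2, map_add, pj_B D x g hg ⟨b, hbZ⟩ hb, add_zero]
    show ((pj D x g ⟨z ᵥ* vᴴ, hzZ⟩ : Ym g x ((D x).dual.Z (c - 1))) : Q) ∈
      Ym g x ((C'.dual.Z (c - 1)).map (Matrix.vecMulLinear vᴴ))
    rw [pj_coe]
    exact ⟨z ᵥ* vᴴ, ⟨z, hz, rfl⟩, _, rfl, rfl⟩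

end Pool.Agent.Lib.MP8a3537.AUF
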