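import Pool.Agent.Lib.MP_8a3537_gt.AUF.Defs

/-!
# Group rings of extensions by free groups: Specs, part A

Paper: `/team-store/8a3537_WA.md`, PART 2. Every module `XXX` is a file
`Pool/Agent/Lib/MP_8a3537_gt/AUF/XXX.lean` which imports this file (and, if wanted, landed modules of
the folder `AUL`, all of them through `AUL.Main`) and proves
`theorem specXXX (hypotheses = deps, in the order of the docstring) : SpecXXX` in the namespace
`Pool.Agent.Lib.MP8a3537.AUF`, with its auxiliary declarations in the namespace `XXXM`.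
`AUL: ...` names landed theorems of the folder `AUL` which may be used directly: `AUL.specLFT`,
`AUL.specHTP`, `AUL.mIND`, `AUL.specCON`, `AUL.specLES`, `AUL.specRSM`, `AUL.specSEM`, `AUL.mTCS`,
`AUL.mTCE`, `AUL.specTCZ` (statements and conventions in `AUL/Spec.lean`).

All modules are LEFT modules and all types are in `Type`. A complex `C : FC A` has rows
`x : C.I → A` and the differential `x ↦ x ᵥ* C.e`. `InDeg C.deg q x`: the row `x` is supported in
degree `q`; `part C.deg q x`: its part of degree `q`.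
-/

namespace Pool.Agent.Lib.MP8a3537.AUF

open Matrix
open Pool.Agent.Lib.MP8a3537.AUL

/-! ## Rings and modules -/

/-- **GRI** (size 60, no deps): first properties of `Gr`.

PROOF. Linear equivalence `φ`: the same complex, `pi` composed with `φ` (all the clauses of `Res`
transport). `X` a subsingleton: the zero complex (index set `Empty`). `Tc`: the submodule `⊤` and
`Submodule.topEquiv`. -/
def SpecGRI : Prop :=
  ∀ (A : Type) [Ring A] [StarRing A] (c : ℤ) (X Y : Type) [AddCommGroup X] [Module A X]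
    [AddCommGroup Y] [Module A Y],
    (∀ _ : X ≃ₗ[A] Y, Gr A c X → Gr A c Y) ∧ (Subsingleton X → Gr A c X) ∧ (Tc A c X → Gr A c X)

/-- **RF1** (NOT a module: it is the first half of `SpecRFP` of `SpecC.lean`): a module with a
resolution is finitely presented. -/
def SpecRF1 : Prop :=
  ∀ (A : Type) [Ring A] (C : FC A) (X : Type) [AddCommGroup X] [Module A X], Res C X →
    Module.FinitePresentation A X

/-- **DSM** (size 200, no deps): direct sums of complexes.

PROOF. `blockDiagonal'`: the first clause by `Matrix.vecMul`, `Finset.sum_sigma'` (`Fintype.sum_sigma`)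
and `Finset.sum_eq_single`. A row of the sum is in degree `q` iff its components are. The third
clause: `r.pi z = fun x => (s x).pi (cx z x)`, every clause of `Res` componentwise (for `ker` and
exactness choose the preimages componentwise). The last two: structure equality,
`blockDiagonal'_conjTranspose`, `blockDiagonal'_map` (or entrywise). -/
def SpecDSM : Prop :=
  ∀ (A : Type) [Ring A] (X : Type) [Fintype X] [DecidableEq X] (D : X → FC A),
    (∀ (z : (dsum D).I → A) (x : X), cx (D := D) (z ᵥ* (dsum D).e) x = cx (D := D) z x ᵥ* (D x).e) ∧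
    (∀ q, (∀ x, (D x).ExactAt q) → (dsum D).ExactAt q) ∧
    (∀ (N : X → Type) [∀ x, AddCommGroup (N x)] [∀ x, Module A (N x)] (s : ∀ x, Res (D x) (N x)),
      ∃ r : Res (dsum D) (∀ x, N x), ∀ z x, r.pi z x = (s x).pi (cx (D := D) z x)) ∧
    (∀ [StarRing A], (dsum D).dual = dsum fun x => (D x).dual) ∧
    (∀ (B : Type) [Ring B] (f : A →+* B), (dsum D).map f = dsum fun x => (D x).map f)

/-- **EXT** (size 60, no deps; AUL: LFT, CON, LES, mIND).

PROOF. `C` resolves `X`, `D` resolves `K` and `E` resolves `X ⧸ K` with duals exact below `c`.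
`u : D → C` (LFT) lifts the inclusion, `cone C D u` resolves `X ⧸ K` (CON), so its dual is exact below
`c` (mIND with `E`); LES (2). -/
def SpecEXT : Prop :=
  ∀ (A : Type) [Ring A] [StarRing A] (c : ℤ) (X : Type) [AddCommGroup X] [Module A X]
    (K : Submodule A X), (∃ C : FC A, Nonempty (Res C X)) → Gr A c K → Gr A c (X ⧸ K) → Gr A c X

/-- **TCU** (size 150, deps GRI; AUL: mTCS, mTCE): `T_c` of finite sums and products.

PROOF. (1) By induction on a finset `s`: `Tc A c (⨆ i ∈ s, P i)`. Empty: all submodules are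
subsingletons (GRI). Step: `P ⊔ Q` is finite, `(P ⊔ Q)/P` is a quotient of `Q` (second isomorphism
theorem; or: the composition `Q → P ⊔ Q → (P ⊔ Q)/P` is onto): mTCE, mTCS. (2) The product is the
supremum of the ranges of the `LinearMap.single`, each is a quotient of `P i` (mTCS), and `⊤` is
equivalent to the product (mTCS, injective map). -/
def SpecTCU : Prop :=
  ∀ (A : Type) [Ring A] [StarRing A] (d : ℕ), IsNoetherianRing A → FinRes A d →
    ∀ (c : ℤ) (ι : Type) [Fintype ι] [DecidableEq ι],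
    (∀ (X : Type) [AddCommGroup X] [Module A X] (P : ι → Submodule A X), (∀ i, (P i).FG) →
      (∀ i, Tc A c (P i)) → Tc A c (⨆ i, P i : Submodule A X)) ∧
    (∀ (P : ι → Type) [∀ i, AddCommGroup (P i)] [∀ i, Module A (P i)],
      (∀ i, Module.Finite A (P i)) → (∀ i, Tc A c (P i)) → Tc A c (∀ i, P i))

/-- **CFP** (size 150, no deps): coherent rings.

PROOF. (1) `p : A^n → M` onto with finitely generated kernel `K`; `N' = N.comap p` is finitely
generated (by `K` and lifts of generators of `N`), so it is finitely presented; `N` is the quotient of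
`N'` by `K` (`Module.finitePresentation_of_surjective`). (2) The kernel of `f : A^m → A^n` is finitely
generated: the range is finitely generated, so finitely presented, `Module.FinitePresentation.fg_ker`.
`C.Z q` is the kernel of the map from the rows of degree `q` (free on the indices of degree `q`) given
by `C.e`; `C.B q` is the image of the rows of degree `q - 1`. `C.Z q` is finitely presented by (1), and
`C.H q` is its quotient by a finitely generated submodule. (`C.I` is a finite type: transport along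
`Fintype.equivFin`.) -/
def SpecCFP : Prop :=
  ∀ (A : Type) [Ring A], Coh A →
    (∀ (M : Type) [AddCommGroup M] [Module A M], Module.FinitePresentation A M →
      ∀ N : Submodule A M, N.FG → Module.FinitePresentation A N) ∧
    (∀ (C : FC A) (q : ℤ), (C.Z q).FG ∧ (C.B q).FG ∧ Module.FinitePresentation A (C.H q))

/-! ## Trees -/

/-- **XTR** (size 100, no deps): extremal vertices.

PROOF. (1) Let `v` be a vertex of maximal length among the `v` such that `T.ed v s ∈ E` for some `s`
(finitely many: `v = g` or `v = g * (T.gen x)⁻¹` with `(g, x) ∈ E`). If `T.ed v s ∈ E` then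
`w = v * dr T.gen s` is such a vertex too (`T.ed v s = T.ed w s'` with `s'` the opposite direction),
so `len w ≤ len v`, so `len w < len v` (`ne`); `uniq`. (2) `v ∈ V` of maximal length, `ne`, `uniq`. -/
def SpecXTR : Prop :=
  ∀ (F X : Type) [Group F] (T : TreeLen F X),
    (∀ E : Set (F × X), E.Finite → E.Nonempty →
      ∃ (v : F) (s : X × Bool), T.ed v s ∈ E ∧ ∀ s', s' ≠ s → T.ed v s' ∉ E) ∧
    (∀ V : Set F, V.Finite → V.Nonempty →
      ∃ v ∈ V, ∀ s s', v * dr T.gen s ∈ V → v * dr T.gen s' ∈ V → s = s')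

/-- **XIN** (size 80, deps XTR): the boundary map of the tree is injective.

PROOF. Otherwise XTR (1) for `E = {(g, x) | n x g ≠ 0}`: `v`, `s`. In the equation at `g = v` the term
`t_y n_y (v * gen y)` belongs to the edge `T.ed v (y, true)` and `n_y v` to `T.ed v (y, false)`; all of
them vanish except the one of the edge `T.ed v s`, so that one vanishes too (`t_y` is a unit). -/
def SpecXIN : Prop :=
  ∀ (S : Type) [Ring S] [StarRing S] (S0 : Subring S) [StarSub S0] (F X : Type) [Group F]
    [Fintype X] [DecidableEq X] (T : TreeLen F X) (L : Fre S0 T) (M : Type) [AddCommGroup M]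
    [Module S M] (n : X → F →₀ M),
    (∀ g, ∑ x, (((L.t x : Sˣ) : S) • n x (g * T.gen x) - n x g) = 0) → ∀ x g, n x g = 0

/-! ## The ring `S0 * F` -/

/-- The rules for coefficient rows. -/
structure CFacts {S : Type} [Ring S] [StarRing S] {S0 : Subring S} {F X : Type} [Group F]
    {T : TreeLen F X} (L : Fre S0 T) : Prop where
  fin : ∀ (I : Type) [Finite I] (x : I → S), {g | L.cor x g ≠ 0}.Finite
  ext : ∀ (I : Type) (x y : I → S), (∀ g, L.cor x g = L.cor y g) → x = y
  add : ∀ (I : Type) (x y : I → S) g, L.cor (x + y) g = L.cor x g + L.cor y g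
  sub : ∀ (I : Type) (x y : I → S) g, L.cor (x - y) g = L.cor x g - L.cor y g
  zero : ∀ (I : Type) g, L.cor (0 : I → S) g = 0
  ex : ∀ (I : Type) (f : F → I → S0), {g | f g ≠ 0}.Finite → ∃ x : I → S, ∀ g, L.cor x g = f g
  coe1 : ∀ (I : Type) (x : I → S0), L.cor (fun i => (x i : S)) 1 = x
  coe0 : ∀ (I : Type) (x : I → S0) g, g ≠ 1 → L.cor (fun i => (x i : S)) g = 0
  mul : ∀ (I J : Type) [Fintype I] (x : I → S) (m : Matrix I J S0) g,
    L.cor (x ᵥ* m.map (fun a : S0 => (a : S))) g = L.cor x g ᵥ* m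
  un_mul : ∀ (I : Type) (x : I → S) (h g : F),
    L.cor (fun i => ((L.un h : Sˣ) : S) * x i) g = L.cor x (h⁻¹ * g)
  mul_inv : ∀ (I : Type) (x : I → S) (h g : F),
    L.cor (fun i => x i * (((L.un h)⁻¹ : Sˣ) : S)) g = fun i => L.sg h (L.cor x (g * h) i)
  mul_un : ∀ (I : Type) (x : I → S) (h g : F),
    L.cor (fun i => x i * ((L.un h : Sˣ) : S)) g = fun i => (L.sg h).symm (L.cor x (g * h⁻¹) i)
  coe_mul : ∀ (I : Type) (x : I → S) (a : S0) (g : F),
    L.cor (fun i => (a : S) * x i) g = fun i => (L.sg g).symm a * L.cor x g i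
  sum : ∀ (I : Type) [Fintype I] (M : Type) [AddCommGroup M] [Module S M] (p : I → M)
    (x : I → S) (E : Finset F), (∀ g, L.cor x g ≠ 0 → g ∈ E) →
    ∑ i, x i • p i = ∑ g ∈ E, ((L.un g : Sˣ) : S) • ∑ i, L.cor x g i • p i

/-- **CFL** (size 200, no deps; copy of AUL/LAU): the rules for coefficient rows.

PROOF. `L.val` is an additive bijection, `L.co = L.val.symm`; it is enough to check everything for
`s = un k * a`: `un h * (un k * a) = un (h * k) * a`, `(un k * a) * (un h)⁻¹ = un (k * h⁻¹) * sg h a`,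
`(un k * a) * un h = un (k * h) * (sg h)⁻¹ a`, `b * (un k * a) = un k * ((sg k)⁻¹ b * a)`. -/
def SpecCFL : Prop :=
  ∀ (S : Type) [Ring S] [StarRing S] (S0 : Subring S) [StarSub S0] (F X : Type) [Group F]
    (T : TreeLen F X) (L : Fre S0 T), CFacts L

/-- **BCF** (size 60, deps CFL; copy of AUL/BCE): base change keeps exactness.

PROOF. A row over `S` is in degree `q` iff all its coefficient rows are; `x ᵥ* (bc C).e` has the
coefficients `L.cor x g ᵥ* C.e`. Choose `y_g` with `L.cor x g = y_g ᵥ* C.e`, `y_g = 0` if `L.cor x g = 0`,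
and `y` with the coefficients `y_g`. -/
def SpecBCF : Prop :=
  ∀ (S : Type) [Ring S] [StarRing S] (S0 : Subring S) [StarSub S0] (F X : Type) [Group F]
    (T : TreeLen F X) (_ : Fre S0 T) (C : FC S0) (q : ℤ), C.ExactAt q → (bc C).ExactAt q

/-- **TWF** (size 150, no deps; AUL: SEM; cf. AUL/TWI): translates.

PROOF. `m ↦ un g • m` is an additive bijection `N → L.tr g N`, semilinear for `L.sg g`, which is
compatible with `star` (`Fre.sg_star`). SEM (1), (2). Also `N ⧸ N0 → tr g N ⧸ tr g N0`. -/
def SpecTWF : Prop :=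
  ∀ (S : Type) [Ring S] [StarRing S] (S0 : Subring S) [StarSub S0] (F X : Type) [Group F]
    (T : TreeLen F X) (L : Fre S0 T) (M : Type) [AddCommGroup M] [Module S M]
    (N N0 : Submodule S0 M) (g : F) (c : ℤ),
    (Tc S0 c N → Tc S0 c (L.tr g N)) ∧
    (N0 ≤ N → Tc S0 c (N ⧸ N0.submoduleOf N) →
      Tc S0 c (L.tr g N ⧸ (L.tr g N0).submoduleOf (L.tr g N))) ∧
    (∀ (C : FC S0) (r : Res C N), ∃ s : Res (C.map (L.sg g : S0 →+* S0)) (L.tr g N),
      ∀ y, ((s.pi y : L.tr g N) : M) =
        ((L.un g : Sˣ) : S) • ((r.pi (fun i => (L.sg g).symm (y i)) : N) : M)) ∧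
    (N.FG → (L.tr g N).FG)

/-- **EXC** (size 500, deps CFL; cf. the second half of AUL/EXN): the property `(px)` of `EW w p`.

PROOF. `N0` = the `S0`-span of the `p i`, `N = L.EW w p ≥ L.tr h N0` for `T.len h ≤ w`,
`N' x = N ⊓ L.tr (T.gen x)⁻¹ N` (`m ∈ N' x` iff `m ∈ N` and `t_x m ∈ N`). Let `W` be the set of the
`n : F →₀ M` for which there is `n' : X → F →₀ M` with values in `N' x` and
`n g = ∑ x, (t_x n' x (g * gen x) - n' x g)`. (a) `W` is an additive subgroup, stable under the shifts
`(h n) g = n (h⁻¹ g)` (shift the `n' x`) and under `n ↦ (sg_g⁻¹(a) n_g)_g`, `a ∈ S0` (take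
`sg_g⁻¹(a) n'_x g`; `sg_g⁻¹(a) t_x = t_x sg_(g gen x)⁻¹(a)`). (b) For `m ∈ N0`, `T.len h ≤ w` and all `g`:
`δ_g (un h m) - δ_(g h) m ∈ W`. Induction on `T.len h`; `h = 1` clear; otherwise `desc`: `h = s h'`,
`T.len h' < T.len h`, and it is enough that `δ_g (un h m) - δ_(g s) (un h' m) ∈ W`: for `s = (x, true)`
take `n' x = δ_(g gen x) (un h' m)`, for `s = (x, false)` take `n' x = - δ_g (un h m)`, the others `0`;
`un h m`, `un h' m ∈ N`. (c) Elements of `W` satisfy `∑ un g • n_g = 0` (telescoping: `un g t_x =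
un (g gen x)`). (d) Let `n` have values in `N` and `∑ un g • n_g = 0`. Every element of `N` is a finite
sum of `un h m`, `m ∈ N0`, so by (b) `n` is congruent modulo `W` to some `n0` with values in `N0`, and
`∑ un g • n0_g = 0` by (c). `n0_g = ∑ i, L.cor x g i • p i` for a row `x : Fin m → S` (`CFacts.ex`), so
`∑ i, x i • p i = 0` (`CFacts.sum`): `x ∈ span κ`. (e) The set of the rows `x` with
`(∑ i, L.cor x g i • p i)_g ∈ W` is an `S`-submodule by (a) (every element of `S` is a sum of
`un h * a`; `un_mul`, `coe_mul`), and it contains `κ l`: modulo `W`, by (b) with `g = 1`,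
`∑_g δ_g (κ_(l,g) p) = ∑_g δ_1 (un g κ_(l,g) p) = δ_1 (∑ i, κ l i • p i) = 0` (only `T.len g ≤ w`
occur). -/
def SpecEXC : Prop :=
  ∀ (S : Type) [Ring S] [StarRing S] (S0 : Subring S) [StarSub S0] (F X : Type) [Group F]
    [Fintype X] [DecidableEq X] (T : TreeLen F X) (L : Fre S0 T) (M : Type) [AddCommGroup M]
    [Module S M] (m r : ℕ) (p : Fin m → M) (κ : Fin r → Fin m → S) (w : ℕ),
    (∀ x : Fin m → S, ∑ i, x i • p i = 0 ↔ x ∈ Submodule.span S (Set.range κ)) →
    (∀ l g, w < T.len g → L.cor (κ l) g = 0) →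
    L.PX (L.EW w p) fun x => L.EW w p ⊓ L.tr (T.gen x)⁻¹ (L.EW w p)

/-- **EXN** (size 150, deps CFL, TWF, EXC): lattice data exist.

PROOF. `p : Fin m → M` generates `M` over `S` and its `S0`-span contains `Y`. The kernel of
`S^m → M`, `x ↦ ∑ x i • p i`, is finitely generated (`Module.FinitePresentation.fg_ker`) by
`κ : Fin r → Fin m → S`; `w` bounds the lengths of the finitely many `g` with `L.cor (κ l) g ≠ 0`.
`E.N = L.EW w p`: finitely generated (a finite supremum by `T.ball`; `L.tr h` of a finitely generated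
module is finitely generated, TWF), contains the span of the `p i` (`h = 1`), generates `M`;
`E.Nx x = E.N ⊓ L.tr (T.gen x)⁻¹ E.N` is finitely generated since `S0` is noetherian. EXC. -/
def SpecEXN : Prop :=
  ∀ (S : Type) [Ring S] [StarRing S] (S0 : Subring S) [StarSub S0] (F X : Type) [Group F]
    [Fintype X] [DecidableEq X] (T : TreeLen F X) (L : Fre S0 T), IsNoetherianRing S0 →
    ∀ (M : Type) [AddCommGroup M] [Module S M], Module.FinitePresentation S M →
      ∀ Y : Submodule S0 M, Y.FG → ∃ E : LD L M, Y ≤ E.N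

/-- **MAK** (size 80, deps TWF; AUL: LFT; cf. AUL/MAK): existence of `u` and `w`.

PROOF. `u x`: LFT for the inclusion `E.Nx x → E.N`. `w x`: TWF (3) with `g = (T.gen x)⁻¹` gives a
resolution `C.map (L.sg (T.gen x)⁻¹)` of `L.tr (T.gen x)⁻¹ E.N` (`C.map (L.sg g⁻¹) =
C.map (L.sg g).symm`, by `Fre.sg_symm`); LFT for the inclusion `E.Nx x → L.tr (T.gen x)⁻¹ E.N`
(`E.tle`). -/
def SpecMAK : Prop :=
  ∀ (S : Type) [Ring S] [StarRing S] (S0 : Subring S) [StarSub S0] (F X : Type) [Group F]
    [Fintype X] [DecidableEq X] (T : TreeLen F X) (L : Fre S0 T) (M : Type) [AddCommGroup M]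
    [Module S M] (E : LD L M) (C : FC S0) (D : X → FC S0) (r : Res C E.N)
    (s : ∀ x, Res (D x) (E.Nx x)), ∃ u w : ∀ x, Matrix (D x).I C.I S0, Dat L E C D r s u w

/-- **PHC** (size 80, no deps; cf. AUL/PHC): `Φ` is a chain map.

PROOF. `(D x).e * w x = w x * σ_x⁻¹(C.e)` and `σ_x⁻¹(a) t_x⁻¹ = t_x⁻¹ a`. -/
def SpecPHC : Prop :=
  ∀ (S : Type) [Ring S] [StarRing S] (S0 : Subring S) [StarSub S0] (F X : Type) [Group F]
    [Fintype X] [DecidableEq X] (T : TreeLen F X) (L : Fre S0 T) (C : FC S0) (D : X → FC S0)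
    (u w : ∀ x, Matrix (D x).I C.I S0), (∀ x, IsChain (D x) C (u x)) →
    (∀ x, IsChain (D x) (C.map ((L.sx x).symm : S0 →+* S0)) (w x)) →
    IsChain (bc (dsum D)) (bc C) (L.phi u w)

/-- **CHR** (size 450, deps DSM, XIN, CFL, BCF; cf. AUL/CHR): the characteristic resolution.

PROOF. Augmentation: `(x, x') ↦ ∑ i, x i • r.pi (single i 1)`, equal to `∑_g un g • r.pi (L.cor x g)`.
For `z : (dsum D).I → S` write `z_(x,g) = L.cor (cx z x) g`:
`L.cor (z ᵥ* Φ) g = ∑ x, (σ_x (z_(x, g gen x) ᵥ* w x) - z_(x,g) ᵥ* u x)`, so `r.pi` of it is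
`∑ x, (t_x s.pi(z_(x, g gen x)) - s.pi(z_(x,g)))` (`lu`, `lw`). `zero`: telescoping sum. `surj`: `E.gen`.
`ker`: `(x, 0)` of degree 0 with `∑ un g • n_g = 0`, `n_g = r.pi (L.cor x g)`: by `E.px`
`n_g = ∑ x, (t_x n'_x (g gen x) - n'_x g)`; choose `z` with `s.pi (z_(x,g)) = n'_x g`, of degree `0`,
finitely many non-zero; then `r.pi (L.cor (x - z ᵥ* Φ) g) = 0` for all `g`, so
`x - z ᵥ* Φ = y ᵥ* (bc C).e` (choose `y` coefficientwise). Exactness in degree `q < 0`, `(x, z)`:
`z ᵥ* (bc (dsum D)).e = 0`, `x ᵥ* (bc C).e + z ᵥ* Φ = 0`, `z` of degree `q + 1`. If `q + 1 < 0`: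
`z = z' ᵥ* e` (DSM, BCF). If `q + 1 = 0`: applying `r.pi` to the coefficients and XIN for
`n x g = s.pi (z_(x,g))`: all `s.pi (z_(x,g)) = 0`, so again `z = z' ᵥ* e`. Then as in `AUL.SpecCON`:
`x + z' ᵥ* Φ` is a cocycle of degree `q < 0`, `= y ᵥ* (bc C).e`, `(x, z) = (y, -z') ᵥ* e`. -/
def SpecCHR : Prop :=
  ∀ (S : Type) [Ring S] [StarRing S] (S0 : Subring S) [StarSub S0] (F X : Type) [Group F]
    [Fintype X] [DecidableEq X] (T : TreeLen F X) (L : Fre S0 T) (M : Type) [AddCommGroup M]
    [Module S M] (E : LD L M) (C : FC S0) (D : X → FC S0) (r : Res C E.N)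
    (s : ∀ x, Res (D x) (E.Nx x)) (u w : ∀ x, Matrix (D x).I C.I S0), Dat L E C D r s u w →
    ∀ hP : IsChain (bc (dsum D)) (bc C) (L.phi u w),
      Nonempty (Res (cone (bc C) (bc (dsum D)) (L.phi u w) hP) M)

/-- **COH** (size 250, deps RF1, XIN, CFL, TWF, EXC, MAK, PHC, CHR): `S` is coherent.

PROOF. `M' ≤ (Fin n → S)` finitely generated. Let `p : Fin n → (Fin n → S)` be the standard basis and
`κ : Fin 0 → _`; `w` so large that the generators `m_j` of `M'` have `L.cor m_j g = 0` for
`w < T.len g`: then `m_j ∈ L.EW w p` (`m = ∑_g un g (L.cor m g)`, `CFacts.sum` with `p`), `P = L.EW w p`,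
finitely generated over `S0`. EXC gives `(px)` for `P` and `P' x = P ⊓ L.tr (T.gen x)⁻¹ P`. LD for the
`S`-module `M'`: `N = {m : M' | m ∈ P}`, `Nx x = {m ∈ N | t_x m ∈ N}`, finitely generated since `S0`
is noetherian and they embed in `P`; `Gen`: the `m_j`. `(px)`: for `n : F →₀ M'` with values in `N` take
`n' : X → F →₀ (Fin n → S)` from EXC; the values of `n'` are in `M'`: in the quotient module
`(Fin n → S) ⧸ M'` their classes satisfy the equation of XIN. Resolutions `C`, `D x` (`FinRes`), MAK,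
PHC, CHR: `M'` has a resolution; RF1. -/
def SpecCOH : Prop :=
  ∀ (S : Type) [Ring S] [StarRing S] (S0 : Subring S) [StarSub S0] (F X : Type) [Group F]
    [Fintype X] [DecidableEq X] (T : TreeLen F X) (_ : Fre S0 T) (d : ℕ), IsNoetherianRing S0 →
    FinRes S0 d → Coh S

/-- **FNF** (size 80, deps EXN, MAK, PHC, CHR): finite free resolutions over `S`.

PROOF. EXN with `Y = ⊥`; `N`, `Nx x` are finite over `S0`, take resolutions of length `≤ d`; the cone
has degrees `≥ -(d+1)`. -/
def SpecFNF : Prop :=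
  ∀ (S : Type) [Ring S] [StarRing S] (S0 : Subring S) [StarSub S0] (F X : Type) [Group F]
    [Fintype X] [DecidableEq X] (T : TreeLen F X) (_ : Fre S0 T) (d : ℕ), IsNoetherianRing S0 →
    FinRes S0 d → FinResP S (d + 1)

/-- **LAT** (size 250, deps TCU, CFL, TWF; AUL: mTCS; cf. AUL/LAT): finitely generated
`S0`-submodules of `M`.

PROOF. `Y_k = ⨆_(|h| ≤ k) L.tr h Y`, a finite supremum (`T.ball`), finitely generated, `T_c` by TCU and
TWF. The union of the `Y_k` is stable under `S0` and under all `un h` (`h g` ranges over finitely many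
lengths as `|g| ≤ k`, so `un h Y_k ≤ Y_k'`), so it is an `S`-submodule (every element of `S` is a finite
sum of `un h * a`) containing `Y`: it is `M`. A finitely generated `N` is contained in some `Y_k`
(directed union), mTCS. -/
def SpecLAT : Prop :=
  ∀ (S : Type) [Ring S] [StarRing S] (S0 : Subring S) [StarSub S0] (F X : Type) [Group F]
    (T : TreeLen F X) (_ : Fre S0 T) (d : ℕ), IsNoetherianRing S0 → FinRes S0 d →
    ∀ (M : Type) [AddCommGroup M] [Module S M] (Y : Submodule S0 M), Y.FG → Gen Y →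
      ∀ (c : ℤ), Tc S0 c Y → ∀ N : Submodule S0 M, N.FG → Tc S0 c N

/-- **LOC** (size 120, deps GRI, DSM, BCF, EXN, MAK, PHC, CHR; AUL: LES): from `T_c` of the finitely
generated `S0`-submodules to `Gr` over `S`.

PROOF. EXN with `Y = ⊥`: `E`. `Gr S0 c` of `E.N` and `E.Nx x` (GRI): resolutions `C`, `D x` with duals
exact below `c`; MAK, PHC, CHR: `cone (bc C) (bc (dsum D)) Φ` resolves `M`. `(bc C).dual = bc C.dual`
(`AUL.bc_dual`), `(dsum D).dual = dsum ..` (DSM), BCF, DSM (2) and LES (1): its dual is exact below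
`c`. -/
def SpecLOC : Prop :=
  ∀ (S : Type) [Ring S] [StarRing S] (S0 : Subring S) [StarSub S0] (F X : Type) [Group F]
    [Fintype X] [DecidableEq X] (T : TreeLen F X) (_ : Fre S0 T), IsNoetherianRing S0 →
    ∀ (M : Type) [AddCommGroup M] [Module S M], Module.FinitePresentation S M →
      ∀ c : ℤ, (∀ N : Submodule S0 M, N.FG → Tc S0 c N) → Gr S c M

/-- **ACH** (size 100, deps CFL, LAT; AUL: mTCS; cf. AUL/ACH): the cohomology of a base change.

PROOF. `M = (bc C).dual.H c`, `Y` = the set of the classes of the cocycles `x : C.I → S` of the form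
`x i = (x0 i : S)`, `x0` a cocycle of `C.dual` over `S0`. It is the image of the `S0`-module
`C.dual.Z c`, and coboundaries go to `0`, so it is a quotient of `C.dual.H c`: `T_c(Y)` (mTCS), and
finitely generated (`S0` noetherian). It generates `M`: `x = ∑_g un g x_g` with `x_g = L.cor x g`
cocycles over `S0`. LAT. -/
def SpecACH : Prop :=
  ∀ (S : Type) [Ring S] [StarRing S] (S0 : Subring S) [StarSub S0] (F X : Type) [Group F]
    (T : TreeLen F X) (_ : Fre S0 T) (d : ℕ), IsNoetherianRing S0 → FinRes S0 d →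
    ∀ (C : FC S0) (c : ℤ), Tc S0 c (C.dual.H c) →
      ∀ N : Submodule S0 ((bc C).dual.H c), N.FG → Tc S0 c N

end Pool.Agent.Lib.MP8a3537.AUF
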