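import Pool.Agent.Lib.MP_8a3537_gt.AUF.SpecB
import Pool.Agent.Lib.MP_8a3537_gt.AUF.SpecA
import Pool.Agent.Lib.MP_8a3537_gt.AUL.Main

/-!
# AUF, module GRX: `T_c` of the lattice of the cokernel modulo all directions but one
-/

set_option autoImplicit false

namespace Pool.Agent.Lib.MP8a3537.AUF

open Matrix
open Pool.Agent.Lib.MP8a3537.AUL

namespace GRXM

/-- `N / N'` is a quotient of `Y / U` if `N = N' + Y` and `U ≤ N'`. -/
theorem tc_sup (hTCS : SpecTCS) {A : Type} [Ring A] [StarRing A] {M : Type} [AddCommGroup M]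
    [Module A M] (c : ℤ) (N N' Y U : Submodule A M) (hYN : Y ≤ N) (hsup : N ≤ N' ⊔ Y)
    (hU : U ≤ N') (hT : Tc A c (Y ⧸ U.submoduleOf Y)) : Tc A c (N ⧸ N'.submoduleOf N) := by
  have hle : U.submoduleOf Y ≤ (N'.submoduleOf N).comap (Submodule.inclusion hYN) := by
    intro y hy
    have h1 : (y : M) ∈ U := hy
    show (y : M) ∈ N'
    exact hU h1
  refine (hTCS A c _ _ (Submodule.mapQ (U.submoduleOf Y) (N'.submoduleOf N)
    (Submodule.inclusion hYN) hle)).2.1 ?_ hT
  intro q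
  obtain ⟨n, rfl⟩ := Submodule.Quotient.mk_surjective _ q
  obtain ⟨n', hn', y, hy, hny⟩ := Submodule.mem_sup.1 (hsup n.2)
  refine ⟨Submodule.Quotient.mk ⟨y, hy⟩, ?_⟩
  rw [Submodule.mapQ_apply, Submodule.Quotient.eq]
  show y - (n : M) ∈ N'
  rw [← hny]
  have h2 : y - (n' + y) = -n' := by abel
  rw [h2]
  exact N'.neg_mem hn'

section Free

variable {S : Type} [Ring S] [StarRing S] {S0 : Subring S} [StarSub S0] {F X : Type} [Group F]
  [Fintype X] [DecidableEq X] {T : TreeLen F X} {Q : Type} [AddCommGroup Q] [Module S Q]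

omit [StarSub S0] [StarRing S] in
theorem mem_tr_smul [StarRing S] (L : Fre S0 T) (x : X) (N : Submodule S0 Q) (m : Q) (hm : m ∈ N) :
    ((L.t x : Sˣ) : S) • m ∈ L.tr (T.gen x) N := by
  rw [Fre.mem_tr]
  show (((L.un (T.gen x))⁻¹ : Sˣ) : S) • (((L.un (T.gen x) : Sˣ) : S) • m) ∈ N
  rw [smul_smul, Units.inv_mul, one_smul]
  exact hm

theorem symm_star (L : Fre S0 T) (x : X) (a : S0) :
    (L.sx x).symm (star a) = star ((L.sx x).symm a) := by
  apply (L.sx x).injective
  rw [RingEquiv.apply_symm_apply]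
  have h := L.sg_star (T.gen x) ((L.sx x).symm a)
  have h2 : L.sg (T.gen x) ((L.sx x).symm a) = a := (L.sx x).apply_symm_apply a
  rw [h2] at h
  exact h.symm

/-- the rows `σ (z)` of the cocycles `z` of `C.map σ⁻¹` -/
theorem mem_symm (L : Fre S0 T) (C : FC S0) (x : X) (q : ℤ)
    (z : (C.map ((L.sx x).symm : S0 →+* S0)).I → S0)
    (hz : z ∈ (C.map ((L.sx x).symm : S0 →+* S0)).dual.Z q) :
    ((fun i => L.sx x (z i)) : C.I → S0) ∈ C.dual.Z q := by
  obtain ⟨h1, h2⟩ := hz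
  constructor
  · intro i hi
    show L.sx x (z i) = 0
    rw [h1 i hi, map_zero]
  · funext j
    show ∑ i, L.sx x (z i) * star (C.e j i) = 0
    have h3 : ∑ i, z i * star ((L.sx x).symm (C.e j i)) = 0 := congrFun h2 j
    apply (L.sx x).symm.injective
    rw [map_sum, map_zero, ← h3]
    refine Finset.sum_congr rfl fun i _ => ?_
    rw [map_mul, symm_star, RingEquiv.symm_apply_apply]

theorem rs_true (L : Fre S0 T) {C : FC S0} {D : X → FC S0} (u w : ∀ x, Matrix (D x).I C.I S0)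
    (x : X) (z : C.I → S0) :
    L.rs u w (x, true) (fun i => L.sx x (z i)) = z ᵥ* (w x)ᴴ := by
  show (fun j => (L.sx x).symm (L.sx x (z j))) ᵥ* (w x)ᴴ = z ᵥ* (w x)ᴴ
  congr 1
  funext j
  exact (L.sx x).symm_apply_apply (z j)

end Free

end GRXM

open GRXM in
theorem specGRX (hTWF : SpecTWF) (hRSF : SpecRSF) (hKID : SpecKID) (hGRU : SpecGRU) :
    SpecGRX := by
  intro S _ _ S0 _ F X _ _ _ T L C D u w hu hw c hT1 hT2 hT3 Q _ _ g hK E hNx hN
  obtain ⟨hR1, -, -, hR4, -, -⟩ := hRSF S S0 F X T L C D u w hu hw (c - 1)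
  have hgB : ∀ y : (bc (dsum D)).dual.Z (c - 1), y.1 ∈ (bc (dsum D)).dual.B (c - 1) → g y = 0 := by
    intro y hy
    refine (hK y).2 ⟨0, y.1, Submodule.zero_mem _, hy, ?_⟩
    rw [zero_vecMul, zero_add]
  -- the classes of the restrictions of a cocycle
  have hkey : ∀ z0 ∈ C.dual.Z (c - 1), ∃ a b : X → Q,
      (∀ x, ∀ z : (bc (dsum D)).dual.Z (c - 1), z.1 = up (jx x (L.rs u w (x, true) z0)) →
        g z = a x) ∧
      (∀ x, ∀ z : (bc (dsum D)).dual.Z (c - 1), z.1 = up (jx x (L.rs u w (x, false) z0)) →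
        g z = b x) ∧
      (∀ x, a x ∈ E.Nx x) ∧ (∀ x, b x ∈ E.Nx x) ∧
      ∑ x, (((L.t x : Sˣ) : S) • a x - b x) = 0 := by
    intro z0 hz0
    let a : X → (bc (dsum D)).dual.Z (c - 1) := fun x =>
      ⟨up (jx x (L.rs u w (x, true) z0)), hR4 x _ (hR1 (x, true) z0 hz0)⟩
    let b : X → (bc (dsum D)).dual.Z (c - 1) := fun x =>
      ⟨up (jx x (L.rs u w (x, false) z0)), hR4 x _ (hR1 (x, false) z0 hz0)⟩
    refine ⟨fun x => g (a x), fun x => g (b x), ?_, ?_, ?_, ?_, ?_⟩
    · intro x z hz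
      exact congrArg g (Subtype.ext hz)
    · intro x z hz
      exact congrArg g (Subtype.ext hz)
    · intro x
      rw [hNx x]
      exact ⟨L.rs u w (x, true) z0, hR1 (x, true) z0 hz0, a x, rfl, rfl⟩
    · intro x
      rw [hNx x]
      exact ⟨L.rs u w (x, false) z0, hR1 (x, false) z0 hz0, b x, rfl, rfl⟩
    · exact hKID S S0 F X T L C D u w (c - 1) Q g hK z0 hz0 a b (fun _ => rfl) (fun _ => rfl)
  -- membership in the sum of the other directions
  have hmt : ∀ (s0 : X × Bool) (x : X) (m : Q), m ∈ E.Nx x → (x, true) ≠ s0 →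
      ((L.t x : Sˣ) : S) • m ∈ E.Ns s0 := by
    intro s0 x m hm hne
    have h1 : E.A (x, true) ≤ E.Ns s0 :=
      le_iSup (fun s : {s : X × Bool // s ≠ s0} => E.A s.1) ⟨(x, true), hne⟩
    exact h1 (mem_tr_smul L x (E.Nx x) m hm)
  have hmf : ∀ (s0 : X × Bool) (x : X) (m : Q), m ∈ E.Nx x → (x, false) ≠ s0 →
      m ∈ E.Ns s0 := by
    intro s0 x m hm hne
    have h1 : E.A (x, false) ≤ E.Ns s0 :=
      le_iSup (fun s : {s : X × Bool // s ≠ s0} => E.A s.1) ⟨(x, false), hne⟩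
    exact h1 hm
  have hAN : ∀ s, E.A s ≤ E.N := by
    intro s
    rw [hN]
    exact le_iSup (fun s => E.A s) s
  have hsup : ∀ s0, E.N ≤ E.Ns s0 ⊔ E.A s0 := by
    intro s0
    rw [hN]
    refine iSup_le fun s => ?_
    by_cases hs : s = s0
    · subst hs
      exact le_sup_right
    · exact le_sup_of_le_left (le_iSup (fun s : {s : X × Bool // s ≠ s0} => E.A s.1) ⟨s, hs⟩)
  refine ⟨fun x => ?_, fun s0 => ?_⟩
  · rw [hNx x]
    exact (hGRU S S0 X D c x Q g hgB).1 (c - 1) (hT1 x)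
  · obtain ⟨x, bb⟩ := s0
    obtain ⟨-, hG2⟩ := hGRU S S0 X D c x Q g hgB
    cases bb with
    | false =>
      have hT := hG2 C (u x) (hu x) (hT2 x)
      rw [← hNx x] at hT
      refine tc_sup mTCS c E.N (E.Ns (x, false)) (E.Nx x) _ (hAN (x, false)) (hsup (x, false)) ?_ hT
      rintro m ⟨y, hy, z, hz, rfl⟩
      obtain ⟨z0, hz0, hy0⟩ := hy
      have hy1 : y = L.rs u w (x, false) z0 := hy0.symm
      obtain ⟨a, b, ha, hb, haN, hbN, hsum⟩ := hkey z0 hz0
      rw [hb x z (by rw [hz, hy1])]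
      -- `b x = ∑ t a - ∑_{x' ≠ x} b`
      rw [Finset.sum_sub_distrib, sub_eq_zero,
        ← Finset.add_sum_erase Finset.univ b (Finset.mem_univ x)] at hsum
      have hbx : b x = ∑ x', ((L.t x' : Sˣ) : S) • a x' - ∑ x' ∈ Finset.univ.erase x, b x' := by
        rw [hsum]
        abel
      rw [hbx]
      refine Submodule.sub_mem _ (Submodule.sum_mem _ fun x' _ => ?_) (Submodule.sum_mem _ fun x' hx' => ?_)
      · exact hmt _ x' _ (haN x') (by simp)
      · refine hmf _ x' _ (hbN x') ?_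
        intro h
        exact (Finset.mem_erase.1 hx').1 (congrArg Prod.fst h)
    | true =>
      have hT := hG2 (C.map ((L.sx x).symm : S0 →+* S0)) (w x) (hw x) (hT3 x)
      rw [← hNx x] at hT
      have hWle : Ym g x (((C.map ((L.sx x).symm : S0 →+* S0)).dual.Z (c - 1)).map
          (Matrix.vecMulLinear (w x)ᴴ)) ≤ E.Nx x := by
        rw [hNx x]
        rintro m ⟨y, hy, z, hz, rfl⟩
        obtain ⟨z', hz', hy0⟩ := hy
        refine ⟨y, ?_, z, hz, rfl⟩
        have h1 := hR1 (x, true) _ (mem_symm L C x (c - 1) z' hz')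
        rw [rs_true] at h1
        rw [← hy0]
        exact h1
      have hT' := (hTWF S S0 F X T L Q (E.Nx x) _ (T.gen x) c).2.1 hWle hT
      refine tc_sup mTCS c E.N (E.Ns (x, true)) (L.tr (T.gen x) (E.Nx x)) _ (hAN (x, true))
        (hsup (x, true)) ?_ hT'
      intro m hm
      rw [Fre.mem_tr] at hm
      obtain ⟨y, hy, z, hz, hgz⟩ := hm
      obtain ⟨z', hz', hy0⟩ := hy
      have hz0 := mem_symm L C x (c - 1) z' hz'
      have hy1 : y = L.rs u w (x, true) (fun i => L.sx x (z' i)) := by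
        rw [rs_true, ← hy0]
        rfl
      obtain ⟨a, b, ha, hb, haN, hbN, hsum⟩ := hkey _ hz0
      have hax : g z = a x := ha x z (by rw [hz, hy1])
      have hm1 : m = ((L.t x : Sˣ) : S) • a x := by
        rw [← hax, hgz]
        show m = ((L.un (T.gen x) : Sˣ) : S) • ((((L.un (T.gen x))⁻¹ : Sˣ) : S) • m)
        rw [smul_smul, Units.mul_inv, one_smul]
      rw [hm1]
      rw [Finset.sum_sub_distrib, sub_eq_zero,
        ← Finset.add_sum_erase Finset.univ (fun x' => ((L.t x' : Sˣ) : S) • a x')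
          (Finset.mem_univ x)] at hsum
      have hbx : ((L.t x : Sˣ) : S) • a x = ∑ x', b x' -
          ∑ x' ∈ Finset.univ.erase x, ((L.t x' : Sˣ) : S) • a x' := by
        rw [← hsum]
        abel
      rw [hbx]
      refine Submodule.sub_mem _ (Submodule.sum_mem _ fun x' _ => ?_) (Submodule.sum_mem _ fun x' hx' => ?_)
      · exact hmf _ x' _ (hbN x') (by simp)
      · refine hmt _ x' _ (haN x') ?_
        intro h
        exact (Finset.mem_erase.1 hx').1 (congrArg Prod.fst h)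

end Pool.Agent.Lib.MP8a3537.AUF
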