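import Pool.Agent.Lib.MP_8a3537_gt.AUF.SpecB
import Pool.Agent.Lib.MP_8a3537_gt.AUL.LES
import Pool.Agent.Lib.MP_8a3537_gt.AUL.CNE
import Pool.Agent.Lib.MP_8a3537_gt.AUL.LFT
import Pool.Agent.Lib.MP_8a3537_gt.AUL.HTP
import Pool.Agent.Lib.MP_8a3537_gt.AUL.IND

/-!
# MP_8a3537_gt, folder AUF, module IN1 (helper18): injectivity if `Ext^q(N/K) = 0`
-/

namespace Pool.Agent.Lib.MP8a3537.AUF

open Matrix
open Pool.Agent.Lib.MP8a3537.AUL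

namespace IN1M

theorem key {A : Type} [Ring A] [StarRing A] (q : ℤ) (P Q : FC A) (v : Matrix Q.I P.I A)
    (hv : IsChain Q P v) (hE : (cone P Q v hv).dual.ExactAt q) (y : P.I → A)
    (hy1 : InDeg P.dual.deg q y) (hy2 : y ᵥ* P.eᴴ = 0)
    (hyv : ∃ w : Q.I → A, (y ᵥ* vᴴ : Q.I → A) = w ᵥ* Q.eᴴ) : ∃ z : P.I → A, y = z ᵥ* P.eᴴ := by
  have hyu := LESM.inDeg_u P Q hy1 hv
  obtain ⟨w, hw⟩ := hyv
  obtain ⟨z, hz, e1⟩ := LESM.preD Q hyu hw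
  obtain ⟨w', hw'⟩ := hE (LESM.row hv y z) ((LESM.row_inDeg hv).2 ⟨hy1, hz⟩) (by
    rw [LESM.row_vm, hy2, e1, sub_self, LESM.row_zero])
  obtain ⟨w1, w2, rfl⟩ := LESM.row_eta hv w'
  rw [LESM.row_vm] at hw'
  exact ⟨_, (LESM.row_inj hv hw').1⟩

end IN1M

theorem specIN1 : SpecIN1 := by
  intro A _ _ c N _ _ K hGr P Q r s v hv hrs q hq y hy hyv
  obtain ⟨C, ⟨t⟩, hC⟩ := hGr
  obtain ⟨t'⟩ := AUL.specCON A P Q N K r s v hv hrs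
  have hE := ((AUL.specIND AUL.specLFT AUL.specHTP) A C (cone P Q v hv) (N ⧸ K) t t').1 q (hC q hq)
  exact ⟨hy.1, IN1M.key q P Q v hv hE y hy.1 hy.2 hyv.2⟩

end Pool.Agent.Lib.MP8a3537.AUF
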