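import Pool.Agent.Lib.MP_8a3537_gt.AUF.SpecA
import Pool.Agent.Lib.MP_8a3537_gt.AUF.SpecB
import Pool.Agent.Lib.MP_8a3537_gt.AUL.Main

/-!
# MP_8a3537_gt, folder AUF, module INJ: injectivity for a finite family of submodules
-/

namespace Pool.Agent.Lib.MP8a3537.AUF

open Matrix
open Pool.Agent.Lib.MP8a3537.AUL

namespace INJM

section Chains

variable {A : Type} [Ring A]

theorem chain_mul {C D E : FC A} {u : Matrix C.I D.I A} {v : Matrix D.I E.I A}
    (hu : IsChain C D u) (hv : IsChain D E v) : IsChain C E (u * v) := by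
  refine ⟨?_, ?_⟩
  · intro i j h1
    rw [Matrix.mul_apply] at h1
    obtain ⟨k, _, hk⟩ := Finset.exists_ne_zero_of_sum_ne_zero h1
    rw [hv.deg k j (right_ne_zero_of_mul hk), hu.deg i k (left_ne_zero_of_mul hk)]
  · rw [← Matrix.mul_assoc, hu.comm, Matrix.mul_assoc, hv.comm, Matrix.mul_assoc]

theorem chain_sub {C D : FC A} {u v : Matrix C.I D.I A}
    (hu : IsChain C D u) (hv : IsChain C D v) : IsChain C D (u - v) := by
  refine ⟨?_, ?_⟩
  · intro i j h
    by_cases h0 : u i j = 0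
    · refine hv.deg i j fun h1 => h ?_
      rw [Matrix.sub_apply, h0, h1, sub_zero]
    · exact hu.deg i j h0
  · rw [Matrix.mul_sub, Matrix.sub_mul, hu.comm, hv.comm]

variable {ι : Type} [Fintype ι] [DecidableEq ι] {D : ι → FC A} {Q : FC A}

/-- The matrix with the blocks `v i`. -/
def stack (v : ∀ i, Matrix (D i).I Q.I A) : Matrix (dsum D).I Q.I A := fun i k => v i.1 i.2 k

theorem stack_vecMul (v : ∀ i, Matrix (D i).I Q.I A) (z : (dsum D).I → A) :
    z ᵥ* stack v = ∑ i, cx (D := D) z i ᵥ* v i := by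
  funext k
  rw [Finset.sum_apply]
  show ∑ i : (Σ x, (D x).I), z i * v i.1 i.2 k = _
  rw [Fintype.sum_sigma]
  rfl

theorem stack_chain {v : ∀ i, Matrix (D i).I Q.I A} (hv : ∀ i, IsChain (D i) Q (v i)) :
    IsChain (dsum D) Q (stack v) := by
  refine ⟨fun i k h => (hv i.1).deg i.2 k h, ?_⟩
  ext ⟨x, i⟩ k
  rw [Matrix.mul_apply, Matrix.mul_apply]
  show ∑ j : (Σ x, (D x).I), blockDiagonal' (fun x => (D x).e) ⟨x, i⟩ j * v j.1 j.2 k =
    ∑ j, v x i j * Q.e j k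
  rw [Fintype.sum_sigma, Finset.sum_eq_single x]
  · have h := congrFun (congrFun (hv x).comm i) k
    rw [Matrix.mul_apply, Matrix.mul_apply] at h
    rw [← h]
    refine Finset.sum_congr rfl fun j _ => ?_
    rw [blockDiagonal'_apply_eq]
  · intro y _ hy
    refine Finset.sum_eq_zero fun j _ => ?_
    rw [blockDiagonal'_apply_ne _ _ _ (Ne.symm hy), zero_mul]
  · intro h
    exact absurd (Finset.mem_univ x) h

variable [StarRing A]

theorem stack_B {v : ∀ i, Matrix (D i).I Q.I A} (q : ℤ) (y : Q.I → A)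
    (h : ∀ i, (y ᵥ* (v i)ᴴ : (D i).I → A) ∈ (D i).dual.B q) :
    (y ᵥ* (stack v)ᴴ : (dsum D).I → A) ∈ (dsum D).dual.B q := by
  constructor
  · rintro ⟨x, i⟩ hi
    exact (h x).1 i hi
  · have h2 : ∀ i, ∃ b : (D i).I → A, (y ᵥ* (v i)ᴴ : (D i).I → A) = b ᵥ* (D i).eᴴ :=
      fun i => (h i).2
    choose b hb using h2
    refine ⟨fun i => b i.1 i.2, ?_⟩
    funext ⟨x, i⟩
    have h3 : (y ᵥ* (stack v)ᴴ) ⟨x, i⟩ = (y ᵥ* (v x)ᴴ) i := rfl
    rw [h3, hb x]
    show ∑ j, b x j * star ((D x).e i j) =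
      ∑ j : (Σ x, (D x).I), b j.1 j.2 * star (blockDiagonal' (fun x => (D x).e) ⟨x, i⟩ j)
    rw [Fintype.sum_sigma, Finset.sum_eq_single x]
    · refine Finset.sum_congr rfl fun j _ => ?_
      rw [blockDiagonal'_apply_eq]
    · intro y _ hy
      refine Finset.sum_eq_zero fun j _ => ?_
      rw [blockDiagonal'_apply_ne _ _ _ (Ne.symm hy), star_zero, mul_zero]
    · intro h
      exact absurd (Finset.mem_univ x) h

/-- Homotopic chain maps restrict cocycles to the same classes. -/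
theorem homotopic {C E : FC A} {u v : Matrix C.I E.I A} {h : Matrix C.I E.I A}
    (hh : u - v = C.e * h + h * E.e) (y : E.I → A) (hy : y ᵥ* E.eᴴ = 0) :
    (y ᵥ* uᴴ : C.I → A) = y ᵥ* vᴴ + (y ᵥ* hᴴ) ᵥ* C.eᴴ := by
  have h1 : u = v + (C.e * h + h * E.e) := by
    rw [← hh]
    abel
  rw [h1, Matrix.conjTranspose_add, Matrix.conjTranspose_add, Matrix.conjTranspose_mul,
    Matrix.conjTranspose_mul, Matrix.vecMul_add, Matrix.vecMul_add, ← Matrix.vecMul_vecMul,
    ← Matrix.vecMul_vecMul, hy, Matrix.zero_vecMul, add_zero]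

end Chains

section Sum

variable {A : Type} [Ring A] {ι : Type} [Fintype ι] [DecidableEq ι] {N : Type} [AddCommGroup N]
  [Module A N]

/-- The sum of the components. -/
def sm (K : ι → Submodule A N) : (∀ i, K i) →ₗ[A] (⨆ i, K i : Submodule A N) :=
  ∑ i, (Submodule.inclusion (le_iSup K i)) ∘ₗ (LinearMap.proj i)

omit [DecidableEq ι] in
theorem sm_apply (K : ι → Submodule A N) (m : ∀ i, K i) :
    sm K m = ∑ i, Submodule.inclusion (le_iSup K i) (m i) := by
  unfold sm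
  rw [LinearMap.sum_apply]
  rfl

theorem sm_single (K : ι → Submodule A N) (i : ι) (x : K i) :
    sm K (Pi.single i x) = Submodule.inclusion (le_iSup K i) x := by
  rw [sm_apply, Finset.sum_eq_single i]
  · rw [Pi.single_eq_same]
  · intro j _ hj
    rw [Pi.single_eq_of_ne hj, map_zero]
  · intro h
    exact absurd (Finset.mem_univ i) h

theorem sm_surj (K : ι → Submodule A N) : Function.Surjective (sm K) := by
  have key : ∀ y ∈ (⨆ i, K i : Submodule A N), ∃ m, ((sm K m : (⨆ i, K i : Submodule A N)) : N) = y := by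
    intro y hy
    induction hy using Submodule.iSup_induction' with
    | mem i x hx =>
      refine ⟨Pi.single i ⟨x, hx⟩, ?_⟩
      rw [sm_single]
      rfl
    | zero => exact ⟨0, by rw [map_zero]; rfl⟩
    | add x y _ _ ihx ihy =>
      obtain ⟨m, hm⟩ := ihx
      obtain ⟨m', hm'⟩ := ihy
      refine ⟨m + m', ?_⟩
      rw [map_add, Submodule.coe_add, hm, hm']
  rintro ⟨y, hy⟩
  obtain ⟨m, hm⟩ := key y hy
  exact ⟨m, Subtype.ext hm⟩

end Sum

end INJM

open INJM in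
/-- **INJ.** -/
theorem specINJ (hDSM : SpecDSM) (hTCU : SpecTCU) (hIN1 : SpecIN1) (hINQ : SpecINQ) : SpecINJ := by
  intro A _ _ d hA hF ι _ _ c N _ _ hN K hK hGr P r D s v hv hrv y hy hB
  have hNn : IsNoetherian A N := isNoetherian_of_isNoetherianRing_of_finite A N
  have hKfin : ∀ i, Module.Finite A (K i) := fun i => inferInstance
  have hT : Tc A (c - 1) (∀ i, K i) :=
    (hTCU A d hA hF (c - 1) ι).2 (fun i => K i) hKfin hK
  obtain ⟨Q, ⟨rQ⟩, -⟩ := hF (⨆ i, K i : Submodule A N) inferInstance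
  obtain ⟨rD, hrD⟩ := (hDSM A ι D).2.2.1 (fun i => K i) s
  obtain ⟨v0, hv0, hp0⟩ := AUL.specLFT A Q P _ _ rQ r (⨆ i, K i : Submodule A N).subtype
  choose v' hv' hp' using fun i => AUL.specLFT A (D i) Q _ _ (s i) rQ
    (Submodule.inclusion (le_iSup K i))
  have hy' : (y ᵥ* v0ᴴ : Q.I → A) ∈ Q.dual.Z (c - 1) := AUL.ACXM.dual_mem P Q v0 hv0 _ y hy
  have hB' : ∀ i, ((y ᵥ* v0ᴴ) ᵥ* (v' i)ᴴ : (D i).I → A) ∈ (D i).dual.B (c - 1) := by
    intro i
    have hch : IsChain (D i) P (v' i * v0 - v i) := chain_sub (chain_mul (hv' i) hv0) (hv i)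
    obtain ⟨h, -, hh⟩ := AUL.specHTP A (D i) P N r (v' i * v0 - v i) hch (s i).isRes.1 (by
      intro x
      rw [Matrix.vecMul_sub, map_sub, ← Matrix.vecMul_vecMul, hp0, hp', hrv]
      exact sub_self _)
    have hy0 : y ᵥ* P.eᴴ = 0 := hy.2
    have h1 := homotopic hh y hy0
    rw [Matrix.conjTranspose_mul, ← Matrix.vecMul_vecMul] at h1
    refine ⟨(AUL.ACXM.dual_mem Q (D i) (v' i) (hv' i) _ _ hy').1, ?_⟩
    have hb0 : ∃ b : (D i).I → A, (y ᵥ* (v i)ᴴ : (D i).I → A) = b ᵥ* (D i).eᴴ := (hB i).2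
    obtain ⟨b, hb⟩ := hb0
    refine ⟨(b + y ᵥ* hᴴ : (D i).I → A), ?_⟩
    exact h1.trans ((congrArg (fun w : (D i).I → A => w + (y ᵥ* hᴴ) ᵥ* (D i).eᴴ) hb).trans
      (Matrix.add_vecMul _ _ _).symm)
  have hst := stack_B (v := v') (c - 1) (y ᵥ* v0ᴴ) hB'
  have hsc : IsChain (dsum D) Q (stack v') := stack_chain hv'
  have hpi : ∀ x, rQ.pi (x ᵥ* stack v') = sm K (rD.pi x) := by
    intro x
    rw [stack_vecMul, map_sum, sm_apply]
    refine Finset.sum_congr rfl fun i _ => ?_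
    rw [hp', hrD]
  have h3 : (y ᵥ* v0ᴴ : Q.I → A) ∈ Q.dual.B (c - 1) :=
    hINQ A (c - 1) (∀ i, K i) (⨆ i, K i : Submodule A N) (sm K) (sm_surj K) (hT _) (dsum D) Q rD rQ
      (stack v') hsc hpi _ hy' hst
  exact hIN1 A c N (⨆ i, K i) hGr P Q r rQ v0 hv0 hp0 (c - 1) (by omega) y hy h3

end Pool.Agent.Lib.MP8a3537.AUF
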