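import Pool.Agent.Lib.MP_8a3537_gt.AUF.SpecB
import Pool.Agent.Lib.MP_8a3537_gt.AUL.Main

/-!
# Group rings of extensions by free groups, module INQ (helper30): injectivity for a surjection
-/

namespace Pool.Agent.Lib.MP8a3537.AUF

open Matrix
open Pool.Agent.Lib.MP8a3537.AUL

namespace INQM

open CONM

variable {A : Type} [Ring A]

/-- the cone of a lift of the inclusion of the kernel resolves the image (cf. `AUL.specCON`) -/
theorem con {C D : FC A} {X K : Type} [AddCommGroup X] [Module A X] [AddCommGroup K] [Module A K]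
    (f : X →ₗ[A] K) (hf : Function.Surjective f)
    (r : Res C X) (s : Res D (LinearMap.ker f)) (u : Matrix D.I C.I A) (hu : IsChain D C u)
    (hr : ∀ x, r.pi (x ᵥ* u) = (s.pi x : X)) :
    ∃ R : Res (cone C D u hu) K, ∀ z : C.I ⊕ D.I → A, R.pi z = f (r.pi (z ∘ Sum.inl)) := by
  have hle : ∀ i, D.deg i ≤ 0 := s.isRes.1
  have hDe : ∀ (q : ℤ) (z : D.I → A), part D.deg (q + 1) (z ᵥ* D.e) = part D.deg q z ᵥ* D.e :=
    fun q z => part_vecMul D.e D.he q z
  have hud : ∀ i j, u i j ≠ 0 → C.deg j = D.deg i + 0 := fun i j h => by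
    rw [hu.deg i j h, add_zero]
  refine ⟨{ pi := f ∘ₗ r.pi ∘ₗ (LinearMap.funLeft A A (Sum.inl : C.I → C.I ⊕ D.I))
            isRes := ⟨?_, ?_⟩
            low := ?_
            surj := ?_
            zero := ?_
            ker := ?_ }, fun z => rfl⟩
  · rintro (i | i)
    · exact r.isRes.1 i
    · have := hle i
      show D.deg i - 1 ≤ 0
      omega
  · intro q hq (z : C.I ⊕ D.I → A) hz hz0
    change z ᵥ* fromBlocks C.e 0 u (-D.e) = 0 at hz0
    rw [vecMul_cone] at hz0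
    have hx : InDeg C.deg q (z ∘ Sum.inl) := fun i hi => hz (Sum.inl i) hi
    have hx' : InDeg D.deg (q + 1) (z ∘ Sum.inr) := fun i hi => hz (Sum.inr i) (by
      show D.deg i - 1 ≠ q
      omega)
    have h1 : (z ∘ Sum.inl) ᵥ* C.e + (z ∘ Sum.inr) ᵥ* u = 0 := by
      funext i
      exact congrFun hz0 (Sum.inl i)
    have h2 : (z ∘ Sum.inr) ᵥ* D.e = 0 := by
      funext i
      have := congrFun hz0 (Sum.inr i)
      simpa using this
    obtain ⟨z', hz'⟩ : ∃ z' : D.I → A, z ∘ Sum.inr = z' ᵥ* D.e := by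
      rcases lt_or_ge (q + 1) 0 with hlt | hge
      · exact s.isRes.2 (q + 1) hlt _ hx' h2
      · have hq1 : q + 1 = 0 := by omega
        rw [hq1] at hx'
        refine s.ker _ hx' (Subtype.ext ?_)
        rw [← hr, ← neg_eq_of_add_eq_zero_right h1, map_neg, r.zero, neg_zero]
        rfl
    set w := part D.deg q z' with hw
    have hw' : z ∘ Sum.inr = w ᵥ* D.e := by
      rw [hw, ← hDe, ← hz', part_eq hx']
    have hwd : InDeg D.deg q w := part_inDeg _ _ _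
    obtain ⟨y, hy⟩ := r.isRes.2 q hq (z ∘ Sum.inl + w ᵥ* u) (by
      intro i hi
      have := inDeg_vecMul u hud hwd i (by rwa [add_zero])
      rw [Pi.add_apply, hx i hi, this, add_zero]) (by
      rw [add_vecMul, vecMul_vecMul, ← hu.comm, ← vecMul_vecMul, ← hw', h1])
    refine ⟨Sum.elim y (-w), ?_⟩
    show z = Sum.elim y (-w) ᵥ* fromBlocks C.e 0 u (-D.e)
    rw [vecMul_cone, Sum.elim_comp_inl, Sum.elim_comp_inr, neg_vecMul, neg_vecMul, neg_neg, ← hw',
      ← hy, add_neg_cancel_right]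
    exact (elim_comp z).symm
  · intro q (x : C.I ⊕ D.I → A) hq hx
    show f (r.pi (x ∘ Sum.inl)) = 0
    rw [r.low q (x ∘ Sum.inl) hq (fun i hi => hx (Sum.inl i) hi), map_zero]
  · intro n
    obtain ⟨m, rfl⟩ := hf n
    obtain ⟨x, rfl⟩ := r.surj m
    exact ⟨Sum.elim x 0, rfl⟩
  · intro (y : C.I ⊕ D.I → A)
    show f (r.pi ((y ᵥ* fromBlocks C.e 0 u (-D.e)) ∘ Sum.inl)) = 0
    rw [vecMul_cone, Sum.elim_comp_inl, map_add, r.zero, zero_add, hr]
    exact (s.pi (y ∘ Sum.inr)).2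
  · intro (z : C.I ⊕ D.I → A) hz hz0
    change f (r.pi (z ∘ Sum.inl)) = 0 at hz0
    have hx : InDeg C.deg 0 (z ∘ Sum.inl) := fun i hi => hz (Sum.inl i) hi
    have hx' : z ∘ Sum.inr = 0 := by
      funext i
      refine hz (Sum.inr i) ?_
      have := hle i
      show D.deg i - 1 ≠ 0
      omega
    obtain ⟨z', hz'⟩ := s.surj ⟨r.pi (z ∘ Sum.inl), hz0⟩
    set w := part D.deg 0 z' with hw
    have hwpi : (s.pi w : X) = r.pi (z ∘ Sum.inl) := by
      rw [hw, pi_part, hz']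
    have hwd : InDeg D.deg 0 w := part_inDeg _ _ _
    have hwe : w ᵥ* D.e = 0 := by
      funext i
      refine inDeg_vecMul D.e D.he hwd i ?_
      have := hle i
      omega
    obtain ⟨y, hy⟩ := r.ker (z ∘ Sum.inl - w ᵥ* u) (by
      intro i hi
      have := inDeg_vecMul u hud hwd i (by rwa [add_zero])
      rw [Pi.sub_apply, hx i hi, this, sub_zero]) (by
      rw [map_sub, hr, hwpi, sub_self])
    refine ⟨Sum.elim y w, ?_⟩
    show z = Sum.elim y w ᵥ* fromBlocks C.e 0 u (-D.e)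
    rw [vecMul_cone, Sum.elim_comp_inl, Sum.elim_comp_inr, hwe, neg_zero, ← hy, sub_add_cancel,
      ← hx']
    exact (elim_comp z).symm

/-- composition of chain maps -/
theorem comp_chain {C D E : FC A} {u : Matrix C.I D.I A} {v : Matrix D.I E.I A}
    (hu : IsChain C D u) (hv : IsChain D E v) : IsChain C E (u * v) := by
  refine ⟨?_, ?_⟩
  · intro i j h
    rw [Matrix.mul_apply] at h
    obtain ⟨k, _, hk⟩ := Finset.exists_ne_zero_of_sum_ne_zero h
    rw [hv.deg k j (right_ne_zero_of_mul hk), hu.deg i k (left_ne_zero_of_mul hk)]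
  · rw [← Matrix.mul_assoc, hu.comm, Matrix.mul_assoc, hv.comm, Matrix.mul_assoc]


section core

variable [StarRing A]

open INDM

theorem core {P Q V : FC A} {k : Matrix V.I P.I A} (hk : IsChain V P k) {v : Matrix P.I Q.I A}
    {h : Matrix V.I Q.I A} (hhd : ∀ i j, h i j ≠ 0 → Q.deg j = V.deg i - 1)
    (hh : k * v = V.e * h + h * Q.e) (q : ℤ) (y : Q.I → A)
    (hyd : InDeg (fun i => -Q.deg i) q y) (hy0 : y ᵥ* Q.eᴴ = 0) (a : P.I → A)
    (haD : InDeg (fun i => -P.deg i) (q - 1) a) (ha : y ᵥ* vᴴ = a ᵥ* P.eᴴ)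
    (hVex : ∀ b : V.I → A, InDeg (fun i => -V.deg i) (q - 1) b → b ᵥ* V.eᴴ = 0 →
      ∃ z : V.I → A, b = z ᵥ* V.eᴴ) :
    ∃ z : P.I ⊕ V.I → A, (y ᵥ* (fromRows v h)ᴴ : P.I ⊕ V.I → A) =
      z ᵥ* (fromBlocks P.e 0 k (-V.e))ᴴ := by
  have hsplit : ∀ z : P.I ⊕ V.I → A, z ᵥ* (fromBlocks P.e 0 k (-V.e))ᴴ =
      Sum.elim ((z ∘ Sum.inl) ᵥ* P.eᴴ) ((z ∘ Sum.inl) ᵥ* kᴴ - (z ∘ Sum.inr) ᵥ* V.eᴴ) := by
    intro z
    rw [fromBlocks_conjTranspose, vecMul_fromBlocks, conjTranspose_zero, vecMul_zero, add_zero,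
      conjTranspose_neg, vecMul_neg, sub_eq_add_neg]
  have hbl : (y ᵥ* (fromRows v h)ᴴ : P.I ⊕ V.I → A) = Sum.elim (y ᵥ* vᴴ) (y ᵥ* hᴴ) := by
    funext i
    rcases i with i | i <;> rfl
  have hcomm : k * v - V.e * h = h * Q.e := by
    rw [hh]
    abel
  have hb0 : (y ᵥ* hᴴ - a ᵥ* kᴴ) ᵥ* V.eᴴ = 0 := by
    have h1 : y ᵥ* hᴴ ᵥ* V.eᴴ = y ᵥ* vᴴ ᵥ* kᴴ := by
      have h2 : (y ᵥ* ((k * v)ᴴ - (V.e * h)ᴴ) : V.I → A) = 0 := by
        rw [← conjTranspose_sub, hcomm, conjTranspose_mul, ← vecMul_vecMul, hy0, zero_vecMul]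
      rw [vecMul_sub, conjTranspose_mul, conjTranspose_mul, ← vecMul_vecMul, ← vecMul_vecMul] at h2
      exact (sub_eq_zero.mp h2).symm
    have h3 : a ᵥ* kᴴ ᵥ* V.eᴴ = y ᵥ* vᴴ ᵥ* kᴴ := by
      rw [ha, vecMul_vecMul, vecMul_vecMul, ← conjTranspose_mul, ← conjTranspose_mul, hk.comm]
    rw [sub_vecMul, h1, h3, sub_self]
  have hbD : InDeg (fun i => -V.deg i) (q - 1) (y ᵥ* hᴴ - a ᵥ* kᴴ) := by
    intro i hi
    have h1 : (y ᵥ* hᴴ) i = 0 := by
      show ∑ j, y j * hᴴ j i = 0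
      refine Finset.sum_eq_zero fun j _ => ?_
      by_cases h0 : h i j = 0
      · rw [conjTranspose_apply, h0, star_zero, mul_zero]
      · have h2 : y j = 0 := by
          apply hyd j
          have := hhd i j h0
          beta_reduce at hi ⊢
          omega
        rw [h2, zero_mul]
    have h2 : (a ᵥ* kᴴ) i = 0 := bw_inDeg hk (q - 1) a haD i hi
    show (y ᵥ* hᴴ) i - (a ᵥ* kᴴ) i = 0
    rw [h1, h2, sub_zero]
  obtain ⟨z, hz⟩ := hVex _ hbD hb0
  refine ⟨Sum.elim a (-z), ?_⟩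
  rw [hbl, hsplit, Sum.elim_comp_inl, Sum.elim_comp_inr, ← ha, neg_vecMul, sub_neg_eq_add, ← hz]
  congr 1
  abel

end core

end INQM

open CONM INQM INDM in
theorem specINQ : SpecINQ := by
  intro A _ _ q Y K _ _ _ _ f hf hGr P Q r s v hv hvr (y : Q.I → A) hy hyv
  obtain ⟨V, ⟨w⟩, hVex⟩ := hGr
  obtain ⟨k, hk, hkp⟩ := specLFT A V P (LinearMap.ker f) Y w r (LinearMap.ker f).subtype
  obtain ⟨R, hR⟩ := con f hf r w k hk hkp
  -- the composition `V → P → Q` is null-homotopic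
  have hkv0 : ∀ x, s.pi (x ᵥ* (k * v)) = 0 := by
    intro x
    rw [← vecMul_vecMul, hvr, hkp]
    exact (w.pi x).2
  obtain ⟨h, hhd, hh⟩ := specHTP A V Q K s (k * v) (comp_chain hk hv) w.isRes.1 hkv0
  have hlam : IsChain (cone P V k hk) Q (fromRows v h) := by
    refine ⟨?_, ?_⟩
    · rintro (i | i) j hij
      · exact hv.deg i j hij
      · exact hhd i j hij
    · show fromBlocks P.e 0 k (-V.e) * fromRows v h = fromRows v h * Q.e
      rw [fromBlocks_mul_fromRows, fromRows_mul, hv.comm, hh]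
      congr 1
      · simp
      · simp
  have hpu : ∀ z : P.I ⊕ V.I → A, s.pi (z ᵥ* fromRows v h) = R.pi z := by
    intro z
    rw [vecMul_fromRows, map_add, hvr, hR]
    have h1 : part Q.deg 0 ((z ∘ Sum.inr) ᵥ* h) = 0 := by
      have h2 := part_vecMul (dI := V.deg) (dJ := Q.deg) (k := -1) h (fun i j hij => by
        have := hhd i j hij
        omega) 1 (z ∘ Sum.inr)
      have h3 : part V.deg 1 (z ∘ Sum.inr) = 0 := by
        funext i
        have := w.isRes.1 i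
        exact if_neg (by omega)
      rw [h3, zero_vecMul] at h2
      exact h2
    have h4 := pi_part s ((z ∘ Sum.inr) ᵥ* h)
    rw [h1, map_zero] at h4
    rw [← h4, add_zero]
  obtain ⟨mu, hmu, hpv⟩ := specLFT A Q (cone P V k hk) K K s R LinearMap.id
  obtain ⟨h', hh'⟩ := homotopy specHTP R s hlam hmu hpu hpv
  have hy0 : dd Q y = 0 := hy.2
  have hcomp := comp_eq (C := cone P V k hk) (D := Q) (v := mu) hh' y hy0
  obtain ⟨-, (a0 : P.I → A), ha0⟩ := hyv
  have ha0' : y ᵥ* vᴴ = a0 ᵥ* P.eᴴ := ha0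
  have hvd : InDeg (fun i => -P.deg i) q (y ᵥ* vᴴ) := bw_inDeg hv q y hy.1
  have ha : y ᵥ* vᴴ = part (fun i => -P.deg i) (q - 1) a0 ᵥ* P.eᴴ := by
    have h1 := part_vecMul (dI := fun i => -P.deg i) (dJ := fun i => -P.deg i) (k := 1) P.eᴴ
      P.dual.he (q - 1) a0
    rw [sub_add_cancel, ← ha0', part_eq hvd] at h1
    exact h1
  obtain ⟨z0, hz0⟩ := core hk hhd hh q y hy.1 hy0 _ (part_inDeg _ _ _) ha
    (fun b hb hb' => hVex (q - 1) (by omega) b hb hb')
  obtain ⟨z, hcob⟩ : ∃ z : (cone P V k hk).I → A,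
      bw (C := cone P V k hk) (D := Q) (fromRows v h) y = dd (cone P V k hk) z := ⟨z0, hz0⟩
  refine ⟨hy.1, bw (C := Q) (D := cone P V k hk) mu z - bw (C := Q) (D := Q) h' y, ?_⟩
  have hfin : y = dd Q (bw (C := Q) (D := cone P V k hk) mu z - bw (C := Q) (D := Q) h' y) := by
    rw [dd_sub, dd_bw hmu, ← hcob]
    rw [hcomp, add_sub_cancel_right]
  exact hfin

end Pool.Agent.Lib.MP8a3537.AUF
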