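import Pool.Agent.Lib.MP_8a3537_gt.AUF.SpecB

/-! # AUF, module KID: the key identity -/

namespace Pool.Agent.Lib.MP8a3537.AUF

open Matrix
open Pool.Agent.Lib.MP8a3537.AUL

namespace KIDM

variable {S : Type} [Ring S] [StarRing S] {S0 : Subring S}

omit [StarRing S] in
theorem up_vecMul {I J : Type} [Fintype I] (y : I → S0) (m : Matrix I J S0) :
    up y ᵥ* m.map (fun a : S0 => (a : S)) = up (y ᵥ* m) := by
  funext j
  show ∑ i, (y i : S) * (m i j : S) = ((∑ i, y i * m i j : S0) : S)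
  push_cast
  rfl

omit [StarRing S] in
theorem up_mem (C : FC S0) (q : ℤ) (y : C.I → S0) (hy : y ∈ C.Z q) :
    (up y : (bc C).I → S) ∈ (bc C).Z q := by
  obtain ⟨h1, h2⟩ := hy
  constructor
  · intro i hi
    show ((y i : S0) : S) = 0
    rw [h1 i hi]
    rfl
  · show up y ᵥ* C.e.map (fun a : S0 => (a : S)) = 0
    rw [up_vecMul, h2]
    rfl

variable [StarSub S0] {F X : Type} [Group F] [Fintype X] [DecidableEq X] {T : TreeLen F X}

omit [Fintype X] [DecidableEq X] in
theorem phi_row (L : Fre S0 T) (C : FC S0) (D : X → FC S0) (u w : ∀ x, Matrix (D x).I C.I S0)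
    (z : C.I → S0) (i : Σ x, (D x).I) :
    (up z ᵥ* (L.phi u w)ᴴ : (Σ x, (D x).I) → S) i =
      ((L.t i.1 : Sˣ) : S) * ((L.rs u w (i.1, true) z i.2 : S0) : S) -
        ((L.rs u w (i.1, false) z i.2 : S0) : S) := by
  show ∑ j, (z j : S) * star ((w i.1 i.2 j : S) * (((L.t i.1)⁻¹ : Sˣ) : S) - (u i.1 i.2 j : S)) =
    ((L.t i.1 : Sˣ) : S) *
      ((∑ j, (L.sx i.1).symm (z j) * star (w i.1 i.2 j) : S0) : S) -
      ((∑ j, z j * star (u i.1 i.2 j) : S0) : S)
  have h : star (((L.t i.1)⁻¹ : Sˣ) : S) = ((L.t i.1 : Sˣ) : S) := by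
    unfold Fre.t
    rw [← L.star_un, star_star]
  push_cast
  rw [Finset.mul_sum, ← Finset.sum_sub_distrib]
  refine Finset.sum_congr rfl fun j _ => ?_
  have h2 : (((L.sx i.1).symm (z j) : S0) : S) =
      (((L.t i.1)⁻¹ : Sˣ) : S) * (z j : S) * ((L.t i.1 : Sˣ) : S) :=
    L.coe_sg_symm (T.gen i.1) (z j)
  rw [star_sub, star_mul, h, mul_sub, h2, coe_star, coe_star]
  simp [mul_assoc]

end KIDM

open KIDM in
theorem specKID (_hRSF : SpecRSF) : SpecKID := by
  intro S _ _ S0 _ F X _ _ _ T L C D u w q Q _ _ g hg z hz a b ha hb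
  have h1 : ∑ x, (((L.t x : Sˣ) : S) • g (a x) - g (b x)) =
      g (∑ x, (((L.t x : Sˣ) : S) • a x - b x)) := by
    rw [map_sum]
    refine Finset.sum_congr rfl fun x _ => ?_
    rw [map_sub, map_smul]
  rw [h1, hg]
  refine ⟨up z, 0, up_mem C.dual q z hz, Submodule.zero_mem _, ?_⟩
  rw [add_zero]
  funext i
  refine Eq.trans ?_ (phi_row L C D u w z i).symm
  have h2 : (∑ x, (((L.t x : Sˣ) : S) • a x - b x)).1 i =
      ∑ x, (((L.t x : Sˣ) : S) * (a x).1 i - (b x).1 i) := by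
    have h3 : ∀ (s : Finset X), (∑ x ∈ s, (((L.t x : Sˣ) : S) • a x - b x)).1 i =
        ∑ x ∈ s, (((L.t x : Sˣ) : S) * (a x).1 i - (b x).1 i) := by
      intro s
      induction s using Finset.induction_on with
      | empty => rfl
      | insert x s hx ih =>
        rw [Finset.sum_insert hx, Finset.sum_insert hx, ← ih]
        rfl
    exact h3 _
  rw [h2, Finset.sum_eq_single i.1]
  · rw [ha, hb]
    obtain ⟨x, i⟩ := i
    have e : ∀ y : (D x).I → S0, (up (jx x y) : (Σ x, (D x).I) → S) ⟨x, i⟩ = ((y i : S0) : S) := by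
      intro y
      show ((Pi.single x y : ∀ x', (D x').I → S0) x i : S) = _
      rw [Pi.single_eq_same]
    rw [e, e]
  · intro x _ hx
    rw [ha, hb]
    have e : ∀ y : (D x).I → S0, (up (jx x y) : (Σ x, (D x).I) → S) i = 0 := by
      intro y
      show ((Pi.single x y : ∀ x', (D x').I → S0) i.1 i.2 : S) = _
      rw [Pi.single_eq_of_ne (Ne.symm hx)]
      rfl
    rw [e, e, mul_zero, sub_zero]
  · intro h
    exact absurd (Finset.mem_univ _) h

end Pool.Agent.Lib.MP8a3537.AUF
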