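import Pool.Agent.Lib.MP_8a3537_gt.AUF.SpecA
import Pool.Agent.Lib.MP_8a3537_gt.AUF.SpecB
import Pool.Agent.Lib.MP_8a3537_gt.AUL.KYB

/-!
# AUF, module KYB: the complex part of the key lemma
-/

set_option autoImplicit false

namespace Pool.Agent.Lib.MP8a3537.AUF

open Matrix
open Pool.Agent.Lib.MP8a3537.AUL

namespace KYBM

section General

variable {A : Type} [Ring A] [StarRing A] {X : Type} [Fintype X] [DecidableEq X] {D : X → FC A}

/-- The differential of the dual of the direct sum. -/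
def dd (D : X → FC A) : Matrix (Σ x, (D x).I) (Σ x, (D x).I) A := (dsum D).eᴴ

/-- The components of the dual differential. -/
theorem cx_dual (z : (Σ x, (D x).I) → A) (x : X) :
    cx (D := D) (z ᵥ* dd D) x = cx (D := D) z x ᵥ* (D x).eᴴ := by
  funext j
  show ∑ i : (Σ x, (D x).I), z i * star (blockDiagonal' (fun x => (D x).e) ⟨x, j⟩ i) =
    ∑ i : (D x).I, z ⟨x, i⟩ * star ((D x).e j i)
  rw [Fintype.sum_sigma, Finset.sum_eq_single x]
  · refine Finset.sum_congr rfl fun i _ => ?_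
    rw [blockDiagonal'_apply_eq]
  · intro y _ hy
    refine Finset.sum_eq_zero fun i _ => ?_
    rw [blockDiagonal'_apply_ne _ _ _ (Ne.symm hy), star_zero, mul_zero]
  · intro h
    exact absurd (Finset.mem_univ x) h

end General

/-- The argument on the tree: a property of the vertices which holds at almost all vertices and
which passes to `g` from all neighbours of `g` but one holds everywhere. -/
theorem tree {F X : Type} [Group F] (T : TreeLen F X) (hX : Nonempty X) (P : F → Prop)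
    (hfin : {g | ¬ P g}.Finite)
    (hstep : ∀ (g : F) (s0 : X × Bool), (∀ s : X × Bool, s ≠ s0 → P (g * dr T.gen s)) → P g) :
    ∀ g, P g := by
  classical
  by_contra hcon
  push Not at hcon
  obtain ⟨g0, hg0⟩ := hcon
  obtain ⟨g, hg, hmax⟩ := Set.exists_max_image {g | ¬ P g} T.len hfin ⟨g0, hg0⟩
  apply hg
  have hup : ∀ s : X × Bool, ¬ T.len (g * dr T.gen s) < T.len g → P (g * dr T.gen s) := by
    intro s hs
    by_contra h
    have h1 := hmax _ h
    exact T.ne g s (le_antisymm h1 (not_lt.1 hs))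
  by_cases hex : ∃ s0 : X × Bool, T.len (g * dr T.gen s0) < T.len g
  · obtain ⟨s0, hs0⟩ := hex
    refine hstep g s0 fun s hs => hup s fun h => hs (T.uniq g s s0 h hs0)
  · push Not at hex
    obtain ⟨x⟩ := hX
    exact hstep g (x, true) fun s _ => hup s (not_lt.2 (hex s))

end KYBM

open AUL.KYBM in
theorem specKYB (hCFL : SpecCFL) (hDSM : SpecDSM) (hBCF : SpecBCF) (hRSF : SpecRSF) :
    SpecKYB := by
  intro S _ _ S0 _ F X _ _ _ T L hX C D u w hu hw hP q hRP hD
  classical
  have cf := hCFL S S0 F X T L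
  obtain ⟨rZ, rB, -, -, -, -⟩ := hRSF S S0 F X T L C D u w hu hw q
  have hst : ∀ x : X, star (((L.t x)⁻¹ : Sˣ) : S) = ((L.t x : Sˣ) : S) := by
    intro x
    unfold Fre.t
    rw [← L.star_un, star_star]
  -- the components of `y Φᴴ`
  have hphi : ∀ (y : C.I → S) (x : X),
      (fun k : (D x).I => (y ᵥ* (L.phi u w)ᴴ : (Σ x, (D x).I) → S) ⟨x, k⟩) =
      (fun i => y i * ((L.t x : Sˣ) : S)) ᵥ* (w x)ᴴ.map (fun a : S0 => (a : S)) -
        y ᵥ* (u x)ᴴ.map (fun a : S0 => (a : S)) := by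
    intro y x
    funext j
    show ∑ i, y i * star ((w x j i : S) * (((L.t x)⁻¹ : Sˣ) : S) - (u x j i : S)) =
      ∑ i, y i * ((L.t x : Sˣ) : S) * ((star (w x j i) : S0) : S) -
        ∑ i, y i * ((star (u x j i) : S0) : S)
    rw [← Finset.sum_sub_distrib]
    refine Finset.sum_congr rfl fun i _ => ?_
    rw [star_sub, star_mul, hst, mul_sub, mul_assoc]
    rfl
  have hcor : ∀ (y : C.I → S) (g : F) (x : X),
      cx (D := D) (L.cor (y ᵥ* (L.phi u w)ᴴ : (Σ x, (D x).I) → S) g) x =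
      L.rs u w (x, true) (L.cor y (g * (T.gen x)⁻¹)) - L.rs u w (x, false) (L.cor y g) := by
    intro y g x
    have h1 : cx (D := D) (L.cor (y ᵥ* (L.phi u w)ᴴ : (Σ x, (D x).I) → S) g) x =
        L.cor (fun k : (D x).I => (y ᵥ* (L.phi u w)ᴴ : (Σ x, (D x).I) → S) ⟨x, k⟩) g := rfl
    rw [h1, hphi, cf.sub, cf.mul, cf.mul]
    have h2 : L.cor (fun i => y i * ((L.t x : Sˣ) : S)) g =
        fun i => (L.sg (T.gen x)).symm (L.cor y (g * (T.gen x)⁻¹) i) := cf.mul_un C.I y (T.gen x) g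
    rw [h2]
    rfl
  intro x hx hx0
  obtain ⟨hc0, hc1⟩ := coc (bc C) (bc (dsum D)) (L.phi u w) x hx0
  obtain ⟨y, hy⟩ : ∃ y : C.I → S, y = x ∘ Sum.inl := ⟨_, rfl⟩
  obtain ⟨y', hy'⟩ : ∃ y' : (Σ x, (D x).I) → S, y' = x ∘ Sum.inr := ⟨_, rfl⟩
  have hy0 : y ᵥ* C.eᴴ.map (fun a : S0 => (a : S)) = 0 := by
    rw [hy]
    exact hc0
  have hy1 : (y ᵥ* (L.phi u w)ᴴ : (Σ x, (D x).I) → S) =
      y' ᵥ* (KYBM.dd D).map (fun a : S0 => (a : S)) := by
    rw [hy, hy']
    exact sub_eq_zero.mp hc1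
  have hyd : InDeg (nd C) q y := by
    intro i hi
    rw [hy]
    exact hx (Sum.inl i) hi
  have hyd' : InDeg (nd (dsum D)) (q - 1) y' := by
    intro i hi
    rw [hy']
    apply hx (Sum.inr i)
    intro h
    apply hi
    change -((dsum D).deg i - 1) = q at h
    change -(dsum D).deg i = q - 1
    omega
  -- the coefficient rows
  have hck : ∀ g, L.cor y g ᵥ* C.eᴴ = 0 := by
    intro g
    rw [← cf.mul, hy0]
    exact cf.zero C.I g
  have hcd : ∀ g, InDeg (nd C) q (L.cor y g) := by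
    intro g i hi
    change L.co (y i) g = 0
    rw [hyd i hi, show L.co (0 : S) = 0 from map_zero L.val.symm]
    rfl
  have hcZ : ∀ g, (L.cor y g : C.I → S0) ∈ C.dual.Z q := fun g => ⟨hcd g, hck g⟩
  have hrel : ∀ (g : F) (x : X),
      L.rs u w (x, true) (L.cor y (g * (T.gen x)⁻¹)) - L.rs u w (x, false) (L.cor y g) =
        cx (D := D) (L.cor y' g) x ᵥ* (D x).eᴴ := by
    intro g x
    rw [← hcor, ← KYBM.cx_dual]
    congr 1
    rw [hy1]
    exact cf.mul (Σ x, (D x).I) (Σ x, (D x).I) y' (KYBM.dd D) g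
  have hrelB : ∀ (g : F) (x : X),
      (L.rs u w (x, true) (L.cor y (g * (T.gen x)⁻¹)) - L.rs u w (x, false) (L.cor y g) :
        (D x).I → S0) ∈ (D x).dual.B q := by
    intro g x
    refine ⟨?_, cx (D := D) (L.cor y' g) x, hrel g x⟩
    have h1 : (L.rs u w (x, true) (L.cor y (g * (T.gen x)⁻¹)) : (D x).I → S0) ∈
        (D x).dual.Z q := rZ (x, true) _ (hcZ _)
    have h2 : (L.rs u w (x, false) (L.cor y g) : (D x).I → S0) ∈ (D x).dual.Z q :=
      rZ (x, false) _ (hcZ _)
    exact (Submodule.sub_mem _ h1 h2).1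
  have hback : ∀ (g : F) (s : X × Bool), (L.cor y (g * dr T.gen s) : C.I → S0) ∈ C.dual.B q →
      L.rs u w s (L.cor y g) ∈ (D s.1).dual.B q := by
    rintro g ⟨x, b⟩ h
    cases b
    · have h1 : (L.rs u w (x, true) (L.cor y (g * (T.gen x)⁻¹)) : (D x).I → S0) ∈
          (D x).dual.B q := rB (x, true) _ h
      have h2 := Submodule.sub_mem _ h1 (hrelB g x)
      rw [sub_sub_cancel] at h2
      exact h2
    · have h1 : (L.rs u w (x, false) (L.cor y (g * T.gen x)) : (D x).I → S0) ∈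
          (D x).dual.B q := rB (x, false) _ h
      have h2 := Submodule.add_mem _ (hrelB (g * T.gen x) x) h1
      have h3 : L.rs u w (x, true) (L.cor y g) =
          L.rs u w (x, true) (L.cor y (g * T.gen x * (T.gen x)⁻¹)) -
            L.rs u w (x, false) (L.cor y (g * T.gen x)) +
              L.rs u w (x, false) (L.cor y (g * T.gen x)) := by
        rw [mul_inv_cancel_right]
        funext i
        exact (sub_add_cancel _ _).symm
      rw [h3]
      exact h2
  have hall : ∀ g, (L.cor y g : C.I → S0) ∈ C.dual.B q := by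
    refine KYBM.tree T hX (fun g => (L.cor y g : C.I → S0) ∈ C.dual.B q) ?_ ?_
    · refine (cf.fin C.I y).subset fun g hg h0 => hg ?_
      show (L.cor y g : C.I → S0) ∈ C.dual.B q
      rw [h0]
      exact Submodule.zero_mem _
    · intro g s0 h
      exact hRP s0 (L.cor y g) (hcZ g) fun s hs => hback g s (h s hs)
  -- a primitive of `y`
  have hall' : ∀ g, ∃ z : C.I → S0, L.cor y g = z ᵥ* C.eᴴ := fun g => (hall g).2
  choose z0 hz0 using hall'
  obtain ⟨z, hz⟩ := cf.ex C.I (fun g => if L.cor y g = 0 then 0 else z0 g) (by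
    apply (cf.fin C.I y).subset
    intro g hg h0
    apply hg
    change (if L.cor y g = 0 then 0 else z0 g) = 0
    rw [if_pos h0])
  have hyz : y = z ᵥ* C.eᴴ.map (fun a : S0 => (a : S)) := by
    apply cf.ext
    intro g
    rw [cf.mul, hz g]
    by_cases h0 : L.cor y g = 0
    · rw [if_pos h0, h0, Matrix.zero_vecMul]
    · rw [if_neg h0]
      exact hz0 g
  have hDd : (dsum D).dual.ExactAt (q - 1) := by
    rw [(hDSM S0 X D).2.2.2.1]
    exact (hDSM S0 X fun x => (D x).dual).2.1 (q - 1) hD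
  rw [hy] at hyd hyz
  rw [hy'] at hyd'
  exact final (bc C) (bc (dsum D)) (L.phi u w) hP q
    (hBCF S S0 F X T L (dsum D).dual (q - 1) hDd) x z hyd hyd' hyz hc1

end Pool.Agent.Lib.MP8a3537.AUF
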