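import Pool.Agent.Lib.MP_8a3537_gt.AUF.SpecA
import Pool.Agent.Lib.MP_8a3537_gt.AUF.SpecB

/-!
# MP_8a3537_gt, folder AUF, module LDF: the lattice of the cokernel is finitely generated and
generates
-/

namespace Pool.Agent.Lib.MP8a3537.AUF

open Matrix
open Pool.Agent.Lib.MP8a3537.AUL

namespace LDFM

section

variable {S : Type} [Ring S] [StarRing S] {S0 : Subring S} [StarSub S0] {F X : Type} [Group F]
  [Fintype X] [DecidableEq X] {T : TreeLen F X}

omit [StarSub S0] [Fintype X] [DecidableEq X] in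
theorem un_smul_smul (L : Fre S0 T) {M : Type} [AddCommGroup M] [Module S M] (g : F) (a : S0)
    (m : M) : ((L.un g : Sˣ) : S) • (a • m) = L.sg g a • (((L.un g : Sˣ) : S) • m) := by
  rw [Subring.smul_def, Subring.smul_def, smul_smul, smul_smul, Fre.coe_sg,
    Units.inv_mul_cancel_right]

omit [StarSub S0] [Fintype X] [DecidableEq X] in
theorem fg_tr (L : Fre S0 T) {M : Type} [AddCommGroup M] [Module S M] (g : F)
    (N : Submodule S0 M) (h : N.FG) : (L.tr g N).FG := by
  classical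
  obtain ⟨s, hs⟩ := h
  refine ⟨s.image (fun m => ((L.un g : Sˣ) : S) • m), ?_⟩
  rw [Finset.coe_image]
  apply le_antisymm
  · rw [Submodule.span_le]
    rintro _ ⟨m, hm, rfl⟩
    have h1 : m ∈ N := hs ▸ Submodule.subset_span hm
    show (((L.un g)⁻¹ : Sˣ) : S) • ((L.un g : Sˣ) : S) • m ∈ N
    rwa [smul_smul, Units.inv_mul, one_smul]
  · intro m hm
    have key : ∀ x ∈ Submodule.span S0 (s : Set M), ((L.un g : Sˣ) : S) • x ∈
        Submodule.span S0 ((fun m => ((L.un g : Sˣ) : S) • m) '' (s : Set M)) := by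
      intro x hx
      induction hx using Submodule.span_induction with
      | mem x hx => exact Submodule.subset_span ⟨x, hx, rfl⟩
      | zero =>
        rw [smul_zero]
        exact Submodule.zero_mem _
      | add x y _ _ ihx ihy =>
        rw [smul_add]
        exact Submodule.add_mem _ ihx ihy
      | smul a x _ ih =>
        rw [un_smul_smul]
        exact Submodule.smul_mem _ _ ih
    have h2 := key _ (hs.symm ▸ (L.mem_tr g N m).1 hm)
    rwa [smul_smul, Units.mul_inv, one_smul] at h2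

/-- The zero complex. -/
def zc (A : Type) [Ring A] : FC A where
  I := Empty
  fin := inferInstance
  dec := inferInstance
  deg := fun i => i.elim
  e := 0
  he := fun i => i.elim
  hee := fun i => i.elim

variable {D : X → FC S0}

/-- The two facts of RSF which do not depend on `C`, `u`, `w`. -/
theorem rsf (hRSF : SpecRSF) (L : Fre S0 T) (D : X → FC S0) (q : ℤ) :
    (∀ x, ∀ y ∈ (D x).dual.Z q, (up (jx x y) : (Σ x, (D x).I) → S) ∈ (bc (dsum D)).dual.Z q) ∧
    (∀ z : (Σ x, (D x).I) → S0, (up z : (Σ x, (D x).I) → S) = ∑ x, up (jx x (cx z x))) := by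
  have h := hRSF S S0 F X T L (zc S0) D (fun _ => 0) (fun _ => 0)
    (fun x => ⟨fun i j => j.elim, by ext i j; exact j.elim⟩)
    (fun x => ⟨fun i j => Empty.elim j, by ext i j; exact Empty.elim j⟩) q
  exact ⟨h.2.2.2.1, h.2.2.2.2.2⟩

omit [StarRing S] [StarSub S0] [Fintype X] in
theorem up_jx_add (x : X) (y y' : (D x).I → S0) :
    (up (jx x (y + y')) : (Σ x, (D x).I) → S) = up (jx x y) + up (jx x y') := by
  funext i
  have h1 : (jx x (y + y') : (Σ x, (D x).I) → S0) i = jx x y i + jx x y' i := by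
    unfold jx
    rw [Pi.single_add]
    rfl
  show ((jx x (y + y') : (Σ x, (D x).I) → S0) i : S) = _
  rw [h1]
  rfl

omit [StarRing S] [StarSub S0] [Fintype X] in
theorem up_jx_smul (x : X) (a : S0) (y : (D x).I → S0) :
    (up (jx x (a • y)) : (Σ x, (D x).I) → S) = (a : S) • up (jx x y) := by
  funext i
  have h1 : (jx x (a • y) : (Σ x, (D x).I) → S0) i = a * jx x y i := by
    unfold jx
    rw [Pi.single_smul]
    rfl
  show ((jx x (a • y) : (Σ x, (D x).I) → S0) i : S) = _
  rw [h1]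
  rfl

/-- The map `y ↦ g [y]_x`. -/
def lin (D : X → FC S0) (q : ℤ)
    (hz : ∀ x, ∀ y ∈ (D x).dual.Z q, (up (jx x y) : (Σ x, (D x).I) → S) ∈ (bc (dsum D)).dual.Z q)
    {Q : Type} [AddCommGroup Q] [Module S Q] (g : (bc (dsum D)).dual.Z q →ₗ[S] Q) (x : X) :
    (D x).dual.Z q →ₗ[S0] Q where
  toFun y := g ⟨up (jx x y.1), hz x y.1 y.2⟩
  map_add' y y' := by
    rw [← map_add]
    exact congrArg g (Subtype.ext (up_jx_add x y.1 y'.1))
  map_smul' a y := by
    show g _ = (a : S) • g _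
    rw [← map_smul]
    exact congrArg g (Subtype.ext (up_jx_smul x a y.1))

theorem Ym_eq (D : X → FC S0) (q : ℤ)
    (hz : ∀ x, ∀ y ∈ (D x).dual.Z q, (up (jx x y) : (Σ x, (D x).I) → S) ∈ (bc (dsum D)).dual.Z q)
    {Q : Type} [AddCommGroup Q] [Module S Q] (g : (bc (dsum D)).dual.Z q →ₗ[S] Q) (x : X) :
    Ym g x ((D x).dual.Z q) = LinearMap.range (lin D q hz g x) := by
  ext m
  constructor
  · rintro ⟨y, hy, z, hzz, rfl⟩
    exact ⟨⟨y, hy⟩, congrArg g (Subtype.ext hzz.symm)⟩
  · rintro ⟨y, rfl⟩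
    exact ⟨y.1, y.2, ⟨up (jx x y.1), hz x y.1 y.2⟩, rfl, rfl⟩

theorem Ym_fg (hN : IsNoetherianRing S0) (D : X → FC S0) (q : ℤ)
    (hz : ∀ x, ∀ y ∈ (D x).dual.Z q, (up (jx x y) : (Σ x, (D x).I) → S) ∈ (bc (dsum D)).dual.Z q)
    {Q : Type} [AddCommGroup Q] [Module S Q] (g : (bc (dsum D)).dual.Z q →ₗ[S] Q) (x : X) :
    (Ym g x ((D x).dual.Z q)).FG := by
  rw [Ym_eq D q hz g x]
  have h1 : IsNoetherian S0 ((D x).dual.I → S0) := inferInstance
  have h2 : Module.Finite S0 ((D x).dual.Z q) := inferInstance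
  exact Module.Finite.iff_fg.mp (Module.Finite.range _)

/-- The coefficient rows of a cocycle are cocycles, and so are their components. -/
theorem cx_mem {L : Fre S0 T} (hL : CFacts L) (D : X → FC S0) (q : ℤ) (y : (Σ x, (D x).I) → S)
    (hy : y ∈ (bc (dsum D)).dual.Z q) (h : F) (x : X) :
    cx (D := D) (L.cor y h) x ∈ (D x).dual.Z q := by
  obtain ⟨h1, h2⟩ := hy
  constructor
  · intro i hi
    have h3 : y ⟨x, i⟩ = 0 := h1 ⟨x, i⟩ hi
    show L.co (y ⟨x, i⟩) h = 0
    rw [h3]
    unfold Fre.co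
    rw [map_zero]
    rfl
  · have h4 : (0 : (dsum D).I → S0) = L.cor (I := (dsum D).I) y h ᵥ* (dsum D).eᴴ :=
      (hL.zero (dsum D).I h).symm.trans
        ((congrArg (fun w : (dsum D).I → S => L.cor w h) h2.symm).trans
          (hL.mul (dsum D).I (dsum D).I y ((dsum D).eᴴ) h))
    funext j
    have h5 := congrFun h4 ⟨x, j⟩
    show ∑ i : (D x).I, L.cor y h ⟨x, i⟩ * star ((D x).e j i) = 0
    have h6 : ∑ i : (Σ x, (D x).I), L.cor y h i *
        star (blockDiagonal' (fun x => (D x).e) ⟨x, j⟩ i) = 0 := h5.symm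
    rw [Fintype.sum_sigma, Finset.sum_eq_single x] at h6
    · rw [← h6]
      refine Finset.sum_congr rfl fun i _ => ?_
      rw [blockDiagonal'_apply_eq]
    · intro z _ hzx
      refine Finset.sum_eq_zero fun i _ => ?_
      rw [blockDiagonal'_apply_ne _ _ _ (Ne.symm hzx), star_zero, mul_zero]
    · intro hn
      exact absurd (Finset.mem_univ x) hn

omit [StarSub S0] [Fintype X] [DecidableEq X] in
/-- A row is the sum of its coefficient rows. -/
theorem row_eq {L : Fre S0 T} (hL : CFacts L) {I : Type} [Fintype I] (y : I → S) (E : Finset F)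
    (hE : ∀ g, L.cor y g ≠ 0 → g ∈ E) :
    y = ∑ g ∈ E, ((L.un g : Sˣ) : S) • (up (L.cor y g) : I → S) := by
  classical
  have h := hL.sum I (I → S) (fun i => Pi.single i 1) y E hE
  have h1 : ∀ z : I → S, ∑ i, z i • (Pi.single i (1 : S) : I → S) = z := by
    intro z
    funext j
    rw [Finset.sum_apply, Finset.sum_eq_single j]
    · rw [Pi.smul_apply, Pi.single_eq_same, smul_eq_mul, mul_one]
    · intro i _ hij
      rw [Pi.smul_apply, Pi.single_eq_of_ne (Ne.symm hij), smul_zero]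
    · intro hj
      exact absurd (Finset.mem_univ j) hj
  rw [h1 y] at h
  refine h.trans (Finset.sum_congr rfl fun g _ => ?_)
  exact congrArg (fun w : I → S => ((L.un g : Sˣ) : S) • w) (h1 (up (L.cor y g)))

end

end LDFM

open LDFM in
/-- **LDF.** -/
theorem specLDF (hCFL : SpecCFL) (hRSF : SpecRSF) : SpecLDF := by
  intro S _ _ S0 _ F X _ _ _ T L hN D q Q _ _ g hg
  obtain ⟨hz, hsum⟩ := rsf hRSF L D q
  have hL : CFacts L := hCFL S S0 F X T L
  have hfg : ∀ x, (Ym g x ((D x).dual.Z q)).FG := Ym_fg hN D q hz g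
  refine ⟨hfg, ?_, ?_⟩
  · refine Submodule.fg_iSup _ fun s => ?_
    rcases s with ⟨x, b⟩
    cases b
    · exact hfg x
    · exact fg_tr L (T.gen x) _ (hfg x)
  · show Submodule.span S ((⨆ s, YA L g s : Submodule S0 Q) : Set Q) = ⊤
    rw [eq_top_iff]
    rintro m -
    obtain ⟨y, rfl⟩ := hg m
    set E : Finset F := (hL.fin _ y.1).toFinset with hE
    have hrow := row_eq hL (y.1 : (Σ x, (D x).I) → S) E
      (fun h hh => (Set.Finite.mem_toFinset _).2 hh)
    have hcx : ∀ h x, cx (D := D) (L.cor y.1 h) x ∈ (D x).dual.Z q :=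
      fun h x => cx_mem hL D q y.1 y.2 h x
    have hy : y = ∑ h ∈ E, ((L.un h : Sˣ) : S) •
        ∑ x, (⟨up (jx x (cx (D := D) (L.cor y.1 h) x)), hz x _ (hcx h x)⟩ :
          (bc (dsum D)).dual.Z q) := by
      apply Subtype.ext
      rw [Submodule.coe_sum]
      refine hrow.trans (Finset.sum_congr rfl fun h _ => ?_)
      rw [Submodule.coe_smul, Submodule.coe_sum]
      exact congrArg (fun w : (Σ x, (D x).I) → S => ((L.un h : Sˣ) : S) • w)
        (hsum (L.cor y.1 h))
    rw [hy, map_sum]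
    refine Submodule.sum_mem _ fun h _ => ?_
    rw [map_smul, map_sum]
    refine Submodule.smul_mem _ _ (Submodule.sum_mem _ fun x _ => ?_)
    refine Submodule.subset_span ?_
    have h1 : YA L g (x, false) ≤ ⨆ s, YA L g s := le_iSup (YA L g) (x, false)
    exact h1 ⟨_, hcx h x, _, rfl, rfl⟩

end Pool.Agent.Lib.MP8a3537.AUF
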