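import Pool.Agent.Lib.MP_8a3537_gt.AUF.SpecB
import Pool.Agent.Lib.MP_8a3537_gt.AUL.ACX

/-!
# AUF, module RSF: restrictions and rows with one component
-/

set_option autoImplicit false

namespace Pool.Agent.Lib.MP8a3537.AUF

open Matrix
open Pool.Agent.Lib.MP8a3537.AUL

namespace RSFM

section General

variable {A : Type} [Ring A] [StarRing A]

/-- Coboundaries restrict to coboundaries. -/
theorem dual_B (C D : FC A) (u : Matrix D.I C.I A) (hu : IsChain D C u) (q : ℤ) (z : C.I → A)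
    (hz : z ∈ C.dual.B q) : (z ᵥ* uᴴ : D.I → A) ∈ D.dual.B q := by
  have h0 := ACXM.dual_mem C D u hu q z (ACXM.b_mem C.dual q z hz)
  obtain ⟨h1, y, hy⟩ := hz
  refine ⟨h0.1, (y ᵥ* uᴴ : D.I → A), ?_⟩
  change C.I → A at y
  have hy' : z = y ᵥ* C.eᴴ := hy
  show z ᵥ* uᴴ = (y ᵥ* uᴴ) ᵥ* D.eᴴ
  rw [hy', vecMul_vecMul, vecMul_vecMul, ← conjTranspose_mul, ← conjTranspose_mul, hu.comm]

theorem map_Z (C : FC A) (f : A →+* A) (hf : ∀ a, f (star a) = star (f a)) (q : ℤ)
    (z : C.I → A) (hz : z ∈ C.dual.Z q) :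
    ((fun i => f (z i)) : (C.map f).I → A) ∈ (C.map f).dual.Z q := by
  obtain ⟨h1, h2⟩ := hz
  constructor
  · intro i hi
    show f (z i) = 0
    rw [h1 i hi, map_zero]
  · funext j
    show ∑ i, f (z i) * star (f (C.e j i)) = 0
    have h3 : ∑ i, z i * star (C.e j i) = 0 := congrFun h2 j
    have h4 := congrArg f h3
    rw [map_sum, map_zero] at h4
    rw [← h4]
    refine Finset.sum_congr rfl fun i _ => ?_
    rw [map_mul, hf]

theorem map_B (C : FC A) (f : A →+* A) (hf : ∀ a, f (star a) = star (f a)) (q : ℤ)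
    (z : C.I → A) (hz : z ∈ C.dual.B q) :
    ((fun i => f (z i)) : (C.map f).I → A) ∈ (C.map f).dual.B q := by
  obtain ⟨h1, y, hy⟩ := hz
  refine ⟨fun i hi => ?_, ((fun i => f (y i)) : C.I → A), ?_⟩
  · show f (z i) = 0
    rw [h1 i hi, map_zero]
  · funext j
    show f (z j) = ∑ i, f (y i) * star (f (C.e j i))
    have h3 : z j = ∑ i, y i * star (C.e j i) := congrFun hy j
    rw [h3, map_sum]
    refine Finset.sum_congr rfl fun i _ => ?_
    rw [map_mul, hf]

variable {X : Type} [Fintype X] [DecidableEq X] {D : X → FC A}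

omit [StarRing A] [Fintype X] in
theorem jx_same (x : X) (y : (D x).I → A) (k : (D x).I) : jx x y ⟨x, k⟩ = y k := by
  unfold jx
  rw [Pi.single_eq_same]

omit [StarRing A] [Fintype X] in
theorem jx_ne {x x' : X} (h : x' ≠ x) (y : (D x).I → A) (k : (D x').I) :
    jx x y ⟨x', k⟩ = 0 := by
  unfold jx
  rw [Pi.single_eq_of_ne h]
  rfl

theorem jx_mul (x : X) (y : (D x).I → A) :
    (jx x y ᵥ* (dsum D).eᴴ : (Σ x, (D x).I) → A) = jx x (y ᵥ* (D x).eᴴ) := by
  funext i
  obtain ⟨x', k⟩ := i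
  show ∑ j : Σ x, (D x).I, jx x y j * star (blockDiagonal' (fun x => (D x).e) ⟨x', k⟩ j) = _
  rw [Fintype.sum_sigma, Finset.sum_eq_single x]
  · by_cases h : x' = x
    · subst h
      rw [jx_same]
      show _ = ∑ j, y j * star ((D x').e k j)
      refine Finset.sum_congr rfl fun j _ => ?_
      rw [jx_same, blockDiagonal'_apply_eq]
    · rw [jx_ne h]
      refine Finset.sum_eq_zero fun j _ => ?_
      rw [blockDiagonal'_apply_ne _ _ _ h, star_zero, mul_zero]
  · intro b _ hb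
    refine Finset.sum_eq_zero fun j _ => ?_
    rw [jx_ne hb, zero_mul]
  · intro h
    exact absurd (Finset.mem_univ x) h

theorem jx_deg {q : ℤ} (x : X) (y : (D x).I → A) (h : InDeg (D x).dual.deg q y) :
    InDeg (dsum D).dual.deg q (jx x y) := by
  rintro ⟨x', k⟩ hk
  by_cases hx : x' = x
  · subst hx
    rw [jx_same]
    exact h k hk
  · exact jx_ne hx y k

theorem jx_Z {q : ℤ} (x : X) (y : (D x).I → A) (h : y ∈ (D x).dual.Z q) :
    (jx x y : (Σ x, (D x).I) → A) ∈ (dsum D).dual.Z q := by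
  refine ⟨jx_deg x y h.1, ?_⟩
  show (jx x y ᵥ* (dsum D).eᴴ : (Σ x, (D x).I) → A) = 0
  rw [jx_mul]
  have h2 : y ᵥ* (D x).eᴴ = 0 := h.2
  rw [h2]
  funext i
  unfold jx
  rw [Pi.single_zero]
  rfl

theorem jx_B {q : ℤ} (x : X) (y : (D x).I → A) (h : y ∈ (D x).dual.B q) :
    (jx x y : (Σ x, (D x).I) → A) ∈ (dsum D).dual.B q := by
  obtain ⟨h1, z, hz⟩ := h
  refine ⟨jx_deg x y h1, jx x z, ?_⟩
  show jx x y = (jx x z ᵥ* (dsum D).eᴴ : (Σ x, (D x).I) → A)
  rw [jx_mul]
  exact congrArg (jx x) hz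

end General

section Sub

variable {S : Type} [Ring S] [StarRing S] {S0 : Subring S} [StarSub S0]

omit [StarSub S0] in
theorem up_B (C : FC S0) (q : ℤ) (y : C.I → S0) (hy : y ∈ C.B q) :
    (up y : (bc C).I → S) ∈ (bc C).B q := by
  obtain ⟨h1, x, hx⟩ := hy
  refine ⟨fun i hi => ?_, up x, ?_⟩
  · show ((y i : S0) : S) = 0
    rw [h1 i hi]
    rfl
  · show up y = ACXM.emb x ᵥ* C.e.map (fun a : S0 => (a : S))
    rw [ACXM.emb_vecMul, ← hx]
    rfl

variable {F X : Type} [Group F] [Fintype X] [DecidableEq X] {T : TreeLen F X}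

omit [Fintype X] [DecidableEq X] in
theorem sx_star (L : Fre S0 T) (x : X) (a : S0) :
    ((L.sx x).symm : S0 →+* S0) (star a) = star (((L.sx x).symm : S0 →+* S0) a) := by
  show (L.sg (T.gen x)).symm (star a) = star ((L.sg (T.gen x)).symm a)
  rw [Fre.sg_symm, Fre.sg_symm, Fre.sg_star]

end Sub

end RSFM

open RSFM in
theorem specRSF : SpecRSF := by
  intro S _ _ S0 _ F X _ _ _ T L C D u w hu hw q
  refine ⟨?_, ?_, ?_, ?_, ?_, ?_⟩
  · rintro ⟨x, b⟩ y hy
    cases b
    · exact ACXM.dual_mem C (D x) (u x) (hu x) q y hy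
    · exact ACXM.dual_mem (C.map ((L.sx x).symm : S0 →+* S0)) (D x) (w x) (hw x) q _
        (map_Z C ((L.sx x).symm : S0 →+* S0) (sx_star L x) q y hy)
  · rintro ⟨x, b⟩ y hy
    cases b
    · exact dual_B C (D x) (u x) (hu x) q y hy
    · exact dual_B (C.map ((L.sx x).symm : S0 →+* S0)) (D x) (w x) (hw x) q _
        (map_B C ((L.sx x).symm : S0 →+* S0) (sx_star L x) q y hy)
  · rintro ⟨x, b⟩ y z
    cases b
    · exact Matrix.add_vecMul _ _ _
    · have h : (fun j => (L.sx x).symm ((y + z : C.I → S0) j)) =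
          (fun j => (L.sx x).symm (y j)) + fun j => (L.sx x).symm (z j) := by
        funext j
        rw [Pi.add_apply, Pi.add_apply, map_add]
      show (fun j => (L.sx x).symm ((y + z : C.I → S0) j)) ᵥ* (w x)ᴴ = _
      rw [h, Matrix.add_vecMul]
      rfl
  · intro x y hy
    exact ACXM.emb_mem (dsum D).dual q _ (jx_Z x y hy)
  · intro x y hy
    exact up_B (dsum D).dual q _ (jx_B x y hy)
  · intro z
    funext i
    obtain ⟨x', k⟩ := i
    rw [Finset.sum_apply, Finset.sum_eq_single x']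
    · show ((z ⟨x', k⟩ : S0) : S) = ((jx x' (cx z x') ⟨x', k⟩ : S0) : S)
      rw [jx_same]
      rfl
    · intro b _ hb
      show ((jx b (cx z b) ⟨x', k⟩ : S0) : S) = 0
      rw [jx_ne (Ne.symm hb)]
      rfl
    · intro h
      exact absurd (Finset.mem_univ x') h

end Pool.Agent.Lib.MP8a3537.AUF
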