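import Pool.Agent.Lib.MP_8a3537_gt.AUF.LDF
import Pool.Agent.Lib.MP_8a3537_gt.AUF.RSF
import Pool.Agent.Lib.MP_8a3537_gt.AUF.KYB

/-!
# AUF, module LDP: the property `(px)` of the lattice of the cokernel
-/

set_option autoImplicit false

namespace Pool.Agent.Lib.MP8a3537.AUF

open Matrix
open Pool.Agent.Lib.MP8a3537.AUL

namespace LDPM

section

variable {S : Type} [Ring S] [StarRing S] {S0 : Subring S} [StarSub S0] {F X : Type} [Group F]
  [Fintype X] [DecidableEq X] {T : TreeLen F X}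

/-- The relations which come from the edge modules. -/
def W (L : Fre S0 T) {M : Type} [AddCommGroup M] [Module S M] (Nx : X → Submodule S0 M)
    (n : F →₀ M) : Prop :=
  ∃ n' : X → F →₀ M, (∀ x g, n' x g ∈ Nx x) ∧
    ∀ g, n g = ∑ x, (((L.t x : Sˣ) : S) • n' x (g * T.gen x) - n' x g)

section Mod

variable {M : Type} [AddCommGroup M] [Module S M] {Nx : X → Submodule S0 M}

omit [StarSub S0] [DecidableEq X] in
theorem W_zero (L : Fre S0 T) : W L Nx 0 :=
  ⟨fun _ => 0, fun x _ => (Nx x).zero_mem, fun g => by simp⟩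

omit [StarSub S0] [DecidableEq X] in
theorem W_add (L : Fre S0 T) {n m : F →₀ M} (hn : W L Nx n) (hm : W L Nx m) :
    W L Nx (n + m) := by
  obtain ⟨n', h1, h2⟩ := hn
  obtain ⟨m', h3, h4⟩ := hm
  refine ⟨fun x => n' x + m' x, fun x g => (Nx x).add_mem (h1 x g) (h3 x g), fun g => ?_⟩
  rw [Finsupp.add_apply, h2, h4, ← Finset.sum_add_distrib]
  refine Finset.sum_congr rfl fun x _ => ?_
  rw [Finsupp.add_apply, Finsupp.add_apply, smul_add]
  abel

omit [StarSub S0] in
theorem W_single (L : Fre S0 T) (x : X) (h : F) (m : M) (hm : m ∈ Nx x) :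
    W L Nx (Finsupp.single h (((L.t x : Sˣ) : S) • m) - Finsupp.single (h * T.gen x) m) := by
  classical
  refine ⟨fun x' => if x' = x then Finsupp.single (h * T.gen x) m else 0, fun x' g => ?_,
    fun g => ?_⟩
  · by_cases hx : x' = x
    · simp only [if_pos hx]
      by_cases hg : h * T.gen x = g
      · rw [hg, Finsupp.single_eq_same, hx]
        exact hm
      · rw [Finsupp.single_eq_of_ne (Ne.symm hg)]
        exact Submodule.zero_mem _
    · simp only [if_neg hx]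
      exact Submodule.zero_mem _
  · rw [Finset.sum_eq_single x]
    · simp only [if_true]
      rw [Finsupp.sub_apply]
      congr 1
      by_cases hg : g = h
      · rw [hg, Finsupp.single_eq_same, Finsupp.single_eq_same]
      · rw [Finsupp.single_eq_of_ne hg, Finsupp.single_eq_of_ne, smul_zero]
        intro h1
        exact hg (mul_right_cancel h1)
    · intro x' _ hx'
      simp only [if_neg hx']
      simp
    · intro hx
      exact absurd (Finset.mem_univ x) hx

/-- The sum `∑ un g • n_g`. -/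
noncomputable def sm (L : Fre S0 T) (n : F →₀ M) : M :=
  n.sum fun g m => ((L.un g : Sˣ) : S) • m

omit [StarSub S0] [Fintype X] [DecidableEq X] in
theorem sm_add (L : Fre S0 T) (n m : F →₀ M) : sm L (n + m) = sm L n + sm L m :=
  Finsupp.sum_add_index' (fun _ => smul_zero _) fun _ _ _ => smul_add _ _ _

omit [StarSub S0] [Fintype X] [DecidableEq X] in
theorem sm_single (L : Fre S0 T) (h : F) (m : M) :
    sm L (Finsupp.single h m) = ((L.un h : Sˣ) : S) • m :=
  Finsupp.sum_single_index (smul_zero _)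

end Mod

variable {D : X → FC S0} {q : ℤ} {Q : Type} [AddCommGroup Q] [Module S Q]

open Classical in
/-- `g` on rows. -/
noncomputable def GG (g : (bc (dsum D)).dual.Z q →ₗ[S] Q) (y : (Σ x, (D x).I) → S) : Q :=
  if h : y ∈ (bc (dsum D)).dual.Z q then g ⟨y, h⟩ else 0

theorem GG_mem (g : (bc (dsum D)).dual.Z q →ₗ[S] Q) {y : (Σ x, (D x).I) → S}
    (h : y ∈ (bc (dsum D)).dual.Z q) : GG g y = g ⟨y, h⟩ := dif_pos h

theorem GG_add (g : (bc (dsum D)).dual.Z q →ₗ[S] Q) {y y' : (Σ x, (D x).I) → S}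
    (h : y ∈ (bc (dsum D)).dual.Z q) (h' : y' ∈ (bc (dsum D)).dual.Z q) :
    GG g (y + y') = GG g y + GG g y' := by
  rw [GG_mem g h, GG_mem g h', ← map_add]
  exact GG_mem g (Submodule.add_mem _ h h')

theorem GG_sub (g : (bc (dsum D)).dual.Z q →ₗ[S] Q) {y y' : (Σ x, (D x).I) → S}
    (h : y ∈ (bc (dsum D)).dual.Z q) (h' : y' ∈ (bc (dsum D)).dual.Z q) :
    GG g (y - y') = GG g y - GG g y' := by
  rw [GG_mem g h, GG_mem g h', ← map_sub]
  exact GG_mem g (Submodule.sub_mem _ h h')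

theorem GG_smul (g : (bc (dsum D)).dual.Z q →ₗ[S] Q) {y : (Σ x, (D x).I) → S} (a : S)
    (h : y ∈ (bc (dsum D)).dual.Z q) : GG g (a • y) = a • GG g y := by
  rw [GG_mem g h, ← map_smul]
  exact GG_mem g (Submodule.smul_mem _ a h)

theorem GG_zero (g : (bc (dsum D)).dual.Z q →ₗ[S] Q) : GG g 0 = 0 := by
  have h : (0 : (Σ x, (D x).I) → S) ∈ (bc (dsum D)).dual.Z q := Submodule.zero_mem _
  exact (GG_mem g h).trans (map_zero g)

theorem GG_sum (g : (bc (dsum D)).dual.Z q →ₗ[S] Q) {ι : Type} (s : Finset ι)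
    (y : ι → (Σ x, (D x).I) → S) (h : ∀ i ∈ s, y i ∈ (bc (dsum D)).dual.Z q) :
    (∑ i ∈ s, y i : (Σ x, (D x).I) → S) ∈ (bc (dsum D)).dual.Z q ∧
      GG g (∑ i ∈ s, y i) = ∑ i ∈ s, GG g (y i) := by
  classical
  induction s using Finset.induction_on with
  | empty => exact ⟨Submodule.zero_mem _, by simpa using GG_zero g⟩
  | insert i s hi ih =>
    obtain ⟨h1, h2⟩ := ih fun j hj => h j (Finset.mem_insert_of_mem hj)
    have h3 := h i (Finset.mem_insert_self i s)
    rw [Finset.sum_insert hi, Finset.sum_insert hi, GG_add g h3 h1, h2]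
    exact ⟨Submodule.add_mem _ h3 h1, rfl⟩

/-- The coefficient rows of a cocycle, over `S`, are cocycles. -/
theorem up_cor_mem {L : Fre S0 T} (cf : CFacts L) {y : (Σ x, (D x).I) → S}
    (hy : y ∈ (bc (dsum D)).dual.Z q) (h : F) :
    (up (L.cor y h) : (Σ x, (D x).I) → S) ∈ (bc (dsum D)).dual.Z q := by
  refine ACXM.emb_mem (dsum D).dual q _ ?_
  obtain ⟨h1, h2⟩ := hy
  constructor
  · intro i hi
    have h3 : y i = 0 := h1 i hi
    show L.co (y i) h = 0
    rw [h3]
    unfold Fre.co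
    rw [map_zero]
    rfl
  · exact ((hL_aux cf y h).trans (congrArg (fun w : (Σ x, (D x).I) → S => L.cor w h) h2)).trans
      (cf.zero _ h)
where
  hL_aux {L : Fre S0 T} (cf : CFacts L) (y : (Σ x, (D x).I) → S) (h : F) :
      L.cor y h ᵥ* KYBM.dd D = L.cor (y ᵥ* (KYBM.dd D).map (fun a : S0 => (a : S))) h :=
    (cf.mul (Σ x, (D x).I) (Σ x, (D x).I) y (KYBM.dd D) h).symm

/-- The coefficient rows of a coboundary are coboundaries. -/
theorem cor_B {L : Fre S0 T} (cf : CFacts L) {y : (Σ x, (D x).I) → S}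
    (hy : y ∈ (bc (dsum D)).dual.B q) (h : F) :
    (up (L.cor y h) : (Σ x, (D x).I) → S) ∈ (bc (dsum D)).dual.B q := by
  refine RSFM.up_B (dsum D).dual q _ ?_
  obtain ⟨h1, z, hz⟩ := hy
  have hz' : y = (z : (Σ x, (D x).I) → S) ᵥ* (KYBM.dd D).map (fun a : S0 => (a : S)) := hz
  refine ⟨?_, L.cor (I := Σ x, (D x).I) z h, ?_⟩
  · intro i hi
    have h3 : y i = 0 := h1 i hi
    show L.co (y i) h = 0
    rw [h3]
    unfold Fre.co
    rw [map_zero]
    rfl
  · rw [hz']
    exact cf.mul (Σ x, (D x).I) (Σ x, (D x).I) z (KYBM.dd D) h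

/-- The family of the classes of the coefficient rows. -/
noncomputable def NN {L : Fre S0 T} (cf : CFacts L) (g : (bc (dsum D)).dual.Z q →ₗ[S] Q)
    (y : (Σ x, (D x).I) → S) : F →₀ Q :=
  Finsupp.ofSupportFinite (fun h => GG g (up (L.cor y h))) (by
    refine (cf.fin (Σ x, (D x).I) y).subset fun h hh h0 => hh ?_
    show GG g (up (L.cor y h)) = 0
    rw [h0]
    exact GG_zero g)

theorem NN_apply {L : Fre S0 T} (cf : CFacts L) (g : (bc (dsum D)).dual.Z q →ₗ[S] Q)
    (y : (Σ x, (D x).I) → S) (h : F) : NN cf g y h = GG g (up (L.cor y h)) := rfl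

omit [StarRing S] [StarSub S0] in
theorem up_add {I : Type} (y z : I → S0) : (up (y + z) : I → S) = up y + up z := by
  funext i
  show ((y i + z i : S0) : S) = _
  push_cast
  rfl

omit [StarRing S] [StarSub S0] in
theorem up_sub {I : Type} (y z : I → S0) : (up (y - z) : I → S) = up y - up z := by
  funext i
  show ((y i - z i : S0) : S) = _
  push_cast
  rfl

theorem NN_add {L : Fre S0 T} (cf : CFacts L) (g : (bc (dsum D)).dual.Z q →ₗ[S] Q)
    {y z : (Σ x, (D x).I) → S} (hy : y ∈ (bc (dsum D)).dual.Z q)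
    (hz : z ∈ (bc (dsum D)).dual.Z q) : NN cf g (y + z) = NN cf g y + NN cf g z := by
  ext h
  rw [Finsupp.add_apply, NN_apply, NN_apply, NN_apply, cf.add, up_add,
    GG_add g (up_cor_mem cf hy h) (up_cor_mem cf hz h)]

/-- The induction: modulo `W` every family with values in the lattice comes from a cocycle. -/
def AA {L : Fre S0 T} (cf : CFacts L) (g : (bc (dsum D)).dual.Z q →ₗ[S] Q) (n : F →₀ Q) : Prop :=
  ∃ y : (Σ x, (D x).I) → S, y ∈ (bc (dsum D)).dual.Z q ∧
    (∃ r : F →₀ Q, W L (fun x => Ym g x ((D x).dual.Z q)) r ∧ n = NN cf g y + r) ∧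
    sm L n = GG g y

theorem AA_add {L : Fre S0 T} (cf : CFacts L) (g : (bc (dsum D)).dual.Z q →ₗ[S] Q)
    {n m : F →₀ Q} (hn : AA cf g n) (hm : AA cf g m) : AA cf g (n + m) := by
  obtain ⟨y, hy, ⟨r, hr, hn1⟩, hn2⟩ := hn
  obtain ⟨z, hz, ⟨s, hs, hm1⟩, hm2⟩ := hm
  refine ⟨y + z, Submodule.add_mem _ hy hz, ⟨r + s, W_add L hr hs, ?_⟩, ?_⟩
  · rw [NN_add cf g hy hz, hn1, hm1]
    abel
  · rw [sm_add, hn2, hm2, GG_add g hy hz]

theorem AA_zero {L : Fre S0 T} (cf : CFacts L) (g : (bc (dsum D)).dual.Z q →ₗ[S] Q) :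
    AA cf g 0 := by
  refine ⟨0, Submodule.zero_mem _, ⟨0, W_zero L, ?_⟩, ?_⟩
  · ext h
    rw [add_zero, NN_apply, cf.zero]
    exact (GG_zero g).symm
  · rw [GG_zero]
    exact Finsupp.sum_zero_index

/-- One class of a cocycle over `S0`. -/
theorem AA_false {L : Fre S0 T} (cf : CFacts L) (g : (bc (dsum D)).dual.Z q →ₗ[S] Q) (x : X)
    (h : F) (m : Q) (hm : m ∈ Ym g x ((D x).dual.Z q)) : AA cf g (Finsupp.single h m) := by
  classical
  obtain ⟨y, hy, z, hz, rfl⟩ := hm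
  have hzm : (up (jx x y) : (Σ x, (D x).I) → S) ∈ (bc (dsum D)).dual.Z q := by
    rw [← hz]
    exact z.2
  have hgz : GG g (up (jx x y)) = g z := by
    rw [GG_mem g hzm]
    exact congrArg g (Subtype.ext hz.symm)
  refine ⟨((L.un h : Sˣ) : S) • (up (jx x y) : (Σ x, (D x).I) → S), Submodule.smul_mem _ _ hzm,
    ⟨0, W_zero L, ?_⟩, ?_⟩
  · ext k
    have h1 : L.cor (((L.un h : Sˣ) : S) • (up (jx x y) : (Σ x, (D x).I) → S)) k =
        L.cor (up (jx x y) : (Σ x, (D x).I) → S) (h⁻¹ * k) := cf.un_mul _ _ h k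
    rw [add_zero, NN_apply, h1]
    by_cases hk : k = h
    · rw [hk, inv_mul_cancel, Finsupp.single_eq_same]
      have h2 : L.cor (up (jx x y) : (Σ x, (D x).I) → S) 1 = jx x y := cf.coe1 _ _
      rw [h2, hgz]
    · rw [Finsupp.single_eq_of_ne hk]
      have h2 : L.cor (up (jx x y) : (Σ x, (D x).I) → S) (h⁻¹ * k) = 0 := by
        refine cf.coe0 _ _ _ fun h3 => hk ?_
        rw [inv_mul_eq_one] at h3
        exact h3.symm
      rw [h2]
      exact (GG_zero g).symm
  · rw [sm_single, GG_smul g _ hzm, hgz]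

theorem AA_true {L : Fre S0 T} (cf : CFacts L) (g : (bc (dsum D)).dual.Z q →ₗ[S] Q) (x : X)
    (h : F) (m : Q) (hm : m ∈ L.tr (T.gen x) (Ym g x ((D x).dual.Z q))) :
    AA cf g (Finsupp.single h m) := by
  obtain ⟨m', hm'⟩ : ∃ m', m' = (((L.un (T.gen x))⁻¹ : Sˣ) : S) • m := ⟨_, rfl⟩
  have h1 : m' ∈ Ym g x ((D x).dual.Z q) := by rw [hm']; exact hm
  have h2 : m = ((L.t x : Sˣ) : S) • m' := by
    rw [hm', smul_smul]
    show m = (((L.un (T.gen x) : Sˣ) : S) * (((L.un (T.gen x))⁻¹ : Sˣ) : S)) • m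
    rw [Units.mul_inv, one_smul]
  obtain ⟨y, hy, ⟨r, hr, hn1⟩, hn2⟩ := AA_false cf g x (h * T.gen x) m' h1
  refine ⟨y, hy, ⟨r + (Finsupp.single h (((L.t x : Sˣ) : S) • m') -
    Finsupp.single (h * T.gen x) m'), W_add L hr (W_single L x h m' h1), ?_⟩, ?_⟩
  · rw [← add_assoc, ← hn1, ← h2]
    abel
  · rw [← hn2, sm_single, sm_single, h2, smul_smul, map_mul]
    rfl

theorem AA_all {L : Fre S0 T} (cf : CFacts L) (g : (bc (dsum D)).dual.Z q →ₗ[S] Q)
    (n : F →₀ Q) (hn : ∀ h, n h ∈ (⨆ s, YA L g s : Submodule S0 Q)) : AA cf g n := by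
  classical
  have h1 : ∀ (h : F) (m : Q), m ∈ (⨆ s, YA L g s : Submodule S0 Q) →
      AA cf g (Finsupp.single h m) := by
    intro h m hm
    refine Submodule.iSup_induction (YA L g) (motive := fun m => AA cf g (Finsupp.single h m))
      hm ?_ ?_ ?_
    · rintro ⟨x, b⟩ m hm
      cases b
      · exact AA_false cf g x h m hm
      · exact AA_true cf g x h m hm
    · rw [Finsupp.single_zero]
      exact AA_zero cf g
    · intro a b ha hb
      rw [Finsupp.single_add]
      exact AA_add cf g ha hb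
  have h2 : ∀ s : Finset F, AA cf g (∑ h ∈ s, Finsupp.single h (n h)) := by
    intro s
    induction s using Finset.induction_on with
    | empty =>
      rw [Finset.sum_empty]
      exact AA_zero cf g
    | insert h s hs ih =>
      rw [Finset.sum_insert hs]
      exact AA_add cf g (h1 h (n h) (hn h)) ih
  have h3 := h2 n.support
  have h4 : ∑ h ∈ n.support, Finsupp.single h (n h) = n := Finsupp.sum_single n
  rw [h4] at h3
  exact h3

end

end LDPM

open LDPM in
/-- **LDP.** -/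
theorem specLDP (hCFL : SpecCFL) (hRSF : SpecRSF) (hKID : SpecKID) : SpecLDP := by
  intro S _ _ S0 _ F X _ _ _ T L C D u w hu hw q Q _ _ g hg n hn hn0
  classical
  have cf := hCFL S S0 F X T L
  obtain ⟨rZ, rB, rA, rU, rV, rS⟩ := hRSF S S0 F X T L C D u w hu hw q
  obtain ⟨y, hy, ⟨r, hr, hn1⟩, hn2⟩ := AA_all cf g n hn
  have hgy : g ⟨y, hy⟩ = 0 := by
    rw [← GG_mem g hy, ← hn2]
    exact hn0
  obtain ⟨z, b, hz, hb, hyz⟩ := (hg ⟨y, hy⟩).1 hgy
  have hyz' : y = (z ᵥ* (L.phi u w)ᴴ + b : (Σ x, (D x).I) → S) := hyz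
  -- `g` kills the coboundaries
  have hB : ∀ b : (Σ x, (D x).I) → S, b ∈ (bc (dsum D)).dual.B q → GG g b = 0 := by
    intro b hb
    have hbz : b ∈ (bc (dsum D)).dual.Z q := ACXM.b_mem (bc (dsum D)).dual q b hb
    rw [GG_mem g hbz]
    refine (hg ⟨b, hbz⟩).2 ⟨0, b, Submodule.zero_mem _, hb, ?_⟩
    show b = ((0 : C.I → S) ᵥ* (L.phi u w)ᴴ + b : (Σ x, (D x).I) → S)
    rw [Matrix.zero_vecMul, zero_add]
  -- the coefficient rows of `z`
  have hzZ : ∀ h, (L.cor z h : C.I → S0) ∈ C.dual.Z q := by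
    intro h
    obtain ⟨h1, h2⟩ := hz
    constructor
    · intro i hi
      have h3 : z i = 0 := h1 i hi
      show L.co (z i) h = 0
      rw [h3]
      unfold Fre.co
      rw [map_zero]
      rfl
    · have h3 : z ᵥ* C.eᴴ.map (fun a : S0 => (a : S)) = 0 := h2
      show L.cor z h ᵥ* C.eᴴ = 0
      rw [← cf.mul C.I C.I z C.eᴴ h, h3]
      exact cf.zero C.I h
  obtain ⟨al, hal⟩ : ∃ al : X → (C.I → S0) → Q, al = fun x z0 =>
    GG g (up (jx x (L.rs u w (x, true) z0))) := ⟨_, rfl⟩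
  obtain ⟨be, hbe⟩ : ∃ be : X → (C.I → S0) → Q, be = fun x z0 =>
    GG g (up (jx x (L.rs u w (x, false) z0))) := ⟨_, rfl⟩
  have hmem : ∀ (x : X) (c : Bool) (z0 : C.I → S0), z0 ∈ C.dual.Z q →
      (up (jx x (L.rs u w (x, c) z0)) : (Σ x, (D x).I) → S) ∈ (bc (dsum D)).dual.Z q :=
    fun x c z0 h0 => rU x _ (rZ (x, c) z0 h0)
  have hkid : ∀ z0 ∈ C.dual.Z q, ∑ x, be x z0 = ∑ x, ((L.t x : Sˣ) : S) • al x z0 := by
    intro z0 h0
    have h1 := hKID S S0 F X T L C D u w q Q g hg z0 h0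
      (fun x => ⟨_, hmem x true z0 h0⟩) (fun x => ⟨_, hmem x false z0 h0⟩)
      (fun x => rfl) (fun x => rfl)
    rw [Finset.sum_sub_distrib, sub_eq_zero] at h1
    rw [hal, hbe]
    simp only
    rw [Finset.sum_congr rfl fun x _ => GG_mem g (hmem x false z0 h0), ← h1]
    exact Finset.sum_congr rfl fun x _ => by rw [GG_mem g (hmem x true z0 h0)]
  -- the class of a coefficient row of `y`
  have hst : ∀ x : X, star (((L.t x)⁻¹ : Sˣ) : S) = ((L.t x : Sˣ) : S) := by
    intro x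
    unfold Fre.t
    rw [← L.star_un, star_star]
  have hphi : ∀ (x : X),
      (fun k : (D x).I => (z ᵥ* (L.phi u w)ᴴ : (Σ x, (D x).I) → S) ⟨x, k⟩) =
      (fun i => z i * ((L.t x : Sˣ) : S)) ᵥ* (w x)ᴴ.map (fun a : S0 => (a : S)) -
        z ᵥ* (u x)ᴴ.map (fun a : S0 => (a : S)) := by
    intro x
    funext j
    show ∑ i, z i * star ((w x j i : S) * (((L.t x)⁻¹ : Sˣ) : S) - (u x j i : S)) =
      ∑ i, z i * ((L.t x : Sˣ) : S) * ((star (w x j i) : S0) : S) -
        ∑ i, z i * ((star (u x j i) : S0) : S)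
    rw [← Finset.sum_sub_distrib]
    refine Finset.sum_congr rfl fun i _ => ?_
    rw [star_sub, star_mul, hst, mul_sub, mul_assoc]
    rfl
  have hcor : ∀ (h : F) (x : X),
      cx (D := D) (L.cor (z ᵥ* (L.phi u w)ᴴ : (Σ x, (D x).I) → S) h) x =
      L.rs u w (x, true) (L.cor z (h * (T.gen x)⁻¹)) - L.rs u w (x, false) (L.cor z h) := by
    intro h x
    have h1 : cx (D := D) (L.cor (z ᵥ* (L.phi u w)ᴴ : (Σ x, (D x).I) → S) h) x =
        L.cor (fun k : (D x).I => (z ᵥ* (L.phi u w)ᴴ : (Σ x, (D x).I) → S) ⟨x, k⟩) h := rfl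
    rw [h1, hphi, cf.sub, cf.mul, cf.mul]
    have h2 : L.cor (fun i => z i * ((L.t x : Sˣ) : S)) h =
        fun i => (L.sg (T.gen x)).symm (L.cor z (h * (T.gen x)⁻¹) i) := cf.mul_un C.I z (T.gen x) h
    rw [h2]
    rfl
  have hNN : ∀ h, NN cf g y h = ∑ x, (al x (L.cor z (h * (T.gen x)⁻¹)) - be x (L.cor z h)) := by
    intro h
    have h1 : (up (L.cor y h) : (Σ x, (D x).I) → S) =
        (∑ x, (up (jx x (L.rs u w (x, true) (L.cor z (h * (T.gen x)⁻¹)))) -
          up (jx x (L.rs u w (x, false) (L.cor z h)))) : (Σ x, (D x).I) → S) +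
        up (L.cor (b : (Σ x, (D x).I) → S) h) := by
      rw [hyz', cf.add, up_add, rS]
      congr 1
      refine Finset.sum_congr rfl fun x _ => ?_
      rw [hcor]
      funext i
      obtain ⟨x', k⟩ := i
      show ((jx x (L.rs u w (x, true) (L.cor z (h * (T.gen x)⁻¹)) -
        L.rs u w (x, false) (L.cor z h)) ⟨x', k⟩ : S0) : S) =
        ((jx x (L.rs u w (x, true) (L.cor z (h * (T.gen x)⁻¹))) ⟨x', k⟩ : S0) : S) -
        ((jx x (L.rs u w (x, false) (L.cor z h)) ⟨x', k⟩ : S0) : S)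
      by_cases hx : x' = x
      · subst hx
        rw [RSFM.jx_same, RSFM.jx_same, RSFM.jx_same]
        show (((L.rs u w (x', true) (L.cor z (h * (T.gen x')⁻¹)) k -
          L.rs u w (x', false) (L.cor z h) k : S0)) : S) = _
        push_cast
        rfl
      · rw [RSFM.jx_ne hx, RSFM.jx_ne hx, RSFM.jx_ne hx]
        simp
    have hbB := cor_B cf (D := D) hb h
    have hterm : ∀ x ∈ (Finset.univ : Finset X),
        (up (jx x (L.rs u w (x, true) (L.cor z (h * (T.gen x)⁻¹)))) -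
          up (jx x (L.rs u w (x, false) (L.cor z h))) : (Σ x, (D x).I) → S) ∈
          (bc (dsum D)).dual.Z q := fun x _ =>
      Submodule.sub_mem _ (hmem x true _ (hzZ _)) (hmem x false _ (hzZ _))
    obtain ⟨h2, h3⟩ := GG_sum g Finset.univ _ hterm
    rw [NN_apply, h1, GG_add g h2 (ACXM.b_mem _ q _ hbB), h3, hB _ hbB, add_zero]
    refine Finset.sum_congr rfl fun x _ => ?_
    rw [GG_sub g (hmem x true _ (hzZ _)) (hmem x false _ (hzZ _)), hal, hbe]
  have hWN : W L (fun x => Ym g x ((D x).dual.Z q)) (NN cf g y) := by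
    have hfin : ∀ x : X, (Function.support fun h : F =>
        -al x (L.cor z (h * (T.gen x)⁻¹))).Finite := by
      intro x
      have h1 : (Set.preimage (fun h : F => h * (T.gen x)⁻¹) {h | L.cor z h ≠ 0}).Finite :=
        Set.Finite.preimage (Function.Injective.injOn fun a b hab => mul_right_cancel hab)
          (cf.fin C.I z)
      refine h1.subset fun h hh h0 => hh ?_
      show -al x (L.cor z (h * (T.gen x)⁻¹)) = 0
      rw [h0, hal]
      show -GG g (up (jx x (L.rs u w (x, true) (0 : C.I → S0)))) = 0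
      have h2 : (up (jx x (L.rs u w (x, true) (0 : C.I → S0))) : (Σ x, (D x).I) → S) ∈
          (bc (dsum D)).dual.B q := rV x _ (rB (x, true) 0 (Submodule.zero_mem _))
      rw [hB _ h2, neg_zero]
    refine ⟨fun x => Finsupp.ofSupportFinite _ (hfin x), fun x h => ?_, fun h => ?_⟩
    · show -al x (L.cor z (h * (T.gen x)⁻¹)) ∈ Ym g x ((D x).dual.Z q)
      refine Submodule.neg_mem _ ?_
      rw [hal]
      refine ⟨_, rZ (x, true) _ (hzZ (h * (T.gen x)⁻¹)), ⟨_, hmem x true _ (hzZ _)⟩, rfl, ?_⟩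
      exact (GG_mem g (hmem x true _ (hzZ _))).symm
    · rw [hNN, Finset.sum_sub_distrib, hkid _ (hzZ h), ← Finset.sum_sub_distrib]
      refine Finset.sum_congr rfl fun x _ => ?_
      show al x (L.cor z (h * (T.gen x)⁻¹)) - ((L.t x : Sˣ) : S) • al x (L.cor z h) =
        ((L.t x : Sˣ) : S) • (-al x (L.cor z (h * T.gen x * (T.gen x)⁻¹))) -
          (-al x (L.cor z (h * (T.gen x)⁻¹)))
      rw [mul_inv_cancel_right, smul_neg]
      abel
  have hW := W_add L hWN hr
  rw [← hn1] at hW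
  exact hW

end Pool.Agent.Lib.MP8a3537.AUF
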