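import Pool.Agent.Lib.MP_8a3537_gt.AUF.SpecB

/-! # AUF, module LDX: the lattice datum of the cokernel -/

namespace Pool.Agent.Lib.MP8a3537.AUF

open Matrix
open Pool.Agent.Lib.MP8a3537.AUL

theorem specLDX (hLDF : SpecLDF) (hLDP : SpecLDP) : SpecLDX := by
  intro S _ _ S0 _ F X _ _ _ T L hn C D u w hu hw q Q _ _ g hg hk
  obtain ⟨h1, h2, h3⟩ := hLDF S S0 F X T L hn D q Q g hg
  have hp := hLDP S S0 F X T L C D u w hu hw q Q g hk
  let E : LD L Q :=
    { N := ⨆ s, YA L g s
      Nx := fun x => Ym g x ((D x).dual.Z q)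
      fg := h2
      fgx := h1
      gen := h3
      le := fun x => le_iSup (YA L g) (x, false)
      tle := by
        intro x m hm
        refine le_iSup (YA L g) (x, true) ?_
        change (((L.un (T.gen x))⁻¹ : Sˣ) : S) • (((L.t x : Sˣ) : S) • m) ∈
          Ym g x ((D x).dual.Z q)
        have h4 : (((L.un (T.gen x))⁻¹ : Sˣ) : S) • (((L.t x : Sˣ) : S) • m) = m := by
          rw [smul_smul]
          change ((((L.un (T.gen x))⁻¹ : Sˣ) : S) * ((L.un (T.gen x) : Sˣ) : S)) • m = m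
          rw [Units.inv_mul, one_smul]
        rw [h4]
        exact hm
      px := hp }
  refine ⟨E, fun x => rfl, ?_⟩
  change (⨆ s, YA L g s) = ⨆ s, E.A s
  refine iSup_congr fun s => ?_
  rcases s with ⟨x, _ | _⟩
  · rfl
  · rfl

end Pool.Agent.Lib.MP8a3537.AUF
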