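import Pool.Agent.Lib.MP_8a3537_gt.AUF.SpecA
import Pool.Agent.Lib.MP_8a3537_gt.AUL.LES

/-!
# Group rings of extensions by free groups: module LOC
-/

namespace Pool.Agent.Lib.MP8a3537.AUF

open Matrix
open Pool.Agent.Lib.MP8a3537.AUL

theorem specLOC (hGRI : SpecGRI) (hDSM : SpecDSM) (hBCF : SpecBCF) (hEXN : SpecEXN)
    (hMAK : SpecMAK) (hPHC : SpecPHC) (hCHR : SpecCHR) : SpecLOC := by
  intro S _ _ S0 _ F X _ _ _ T L hN0 M _ _ hfin c hT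
  obtain ⟨E, -⟩ := hEXN S S0 F X T L hN0 M hfin ⊥ Submodule.fg_bot
  obtain ⟨C, ⟨r⟩, hC⟩ : Gr S0 c E.N := (hGRI S0 c E.N E.N).2.2 (hT E.N E.fg)
  have hD : ∀ x, ∃ D : FC S0, Nonempty (Res D (E.Nx x)) ∧ ∀ q < c, D.dual.ExactAt q :=
    fun x => (hGRI S0 c (E.Nx x) (E.Nx x)).2.2 (hT (E.Nx x) (E.fgx x))
  choose D hDr hDe using hD
  let s : ∀ x, Res (D x) (E.Nx x) := fun x => (hDr x).some
  obtain ⟨u, w, hd⟩ := hMAK S S0 F X T L M E C D r s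
  have hP := hPHC S S0 F X T L C D u w hd.hu hd.hw
  refine ⟨cone (bc C) (bc (dsum D)) (L.phi u w) hP, hCHR S S0 F X T L M E C D r s u w hd hP,
    fun q hq => ?_⟩
  refine (AUL.specLES S (bc C) (bc (dsum D)) (L.phi u w) hP).1 q ?_ ?_
  · rw [bc_dual]
    exact hBCF S S0 F X T L C.dual q (hC q hq)
  · rw [bc_dual, (hDSM S0 X D).2.2.2.1]
    exact hBCF S S0 F X T L (dsum fun x => (D x).dual) (q - 1)
      ((hDSM S0 X (fun x => (D x).dual)).2.1 (q - 1) (fun x => hDe x (q - 1) (by omega)))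

end Pool.Agent.Lib.MP8a3537.AUF
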