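import Pool.Agent.Lib.MP_8a3537_gt.AUF.SpecA
import Pool.Agent.Lib.MP_8a3537_gt.AUL.LFT

/-!
AUF, module MAK: existence of the chain maps `u x` and `w x`.
-/

namespace Pool.Agent.Lib.MP8a3537.AUF

open Matrix
open Pool.Agent.Lib.MP8a3537.AUL

namespace MAKM

variable {S : Type} [Ring S] [StarRing S] {S0 : Subring S} {F X : Type} [Group F]
  {T : TreeLen F X} (L : Fre S0 T)

theorem sg_inv_eq (x : X) :
    (L.sg (T.gen x)⁻¹ : S0 →+* S0) = ((L.sx x).symm : S0 →+* S0) := by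
  ext a
  exact congrArg (fun b : S0 => (b : S)) (L.sg_symm (T.gen x) a).symm

variable {M : Type} [AddCommGroup M] [Module S M]

theorem t_smul (x : X) (m : M) :
    ((L.t x : Sˣ) : S) • (((L.un (T.gen x)⁻¹ : Sˣ) : S) • m) = m := by
  rw [map_inv, smul_smul]
  change (((L.un (T.gen x) : Sˣ) : S) * (((L.un (T.gen x))⁻¹ : Sˣ) : S)) • m = m
  rw [Units.mul_inv, one_smul]

end MAKM

open MAKM in
theorem specMAK (hTWF : SpecTWF) : SpecMAK := by
  intro S _ _ S0 _ F X _ _ _ T L M _ _ E C D r s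
  have hu : ∀ x, ∃ u : Matrix (D x).I C.I S0, IsChain (D x) C u ∧
      ∀ z, r.pi (z ᵥ* u) = Submodule.inclusion (E.le x) ((s x).pi z) := fun x =>
    AUL.specLFT S0 (D x) C (E.Nx x) E.N (s x) r (Submodule.inclusion (E.le x))
  have hw : ∀ x, ∃ w : Matrix (D x).I C.I S0,
      IsChain (D x) (C.map ((L.sx x).symm : S0 →+* S0)) w ∧
      ∀ z, ((L.t x : Sˣ) : S) • (((s x).pi z : E.Nx x) : M) =
        ((r.pi (fun j => L.sx x ((z ᵥ* w) j)) : E.N) : M) := by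
    intro x
    have key : ∃ s' : Res (C.map ((L.sx x).symm : S0 →+* S0)) (L.tr (T.gen x)⁻¹ E.N),
        ∀ y : C.I → S0, ((s'.pi y : L.tr (T.gen x)⁻¹ E.N) : M) =
          ((L.un (T.gen x)⁻¹ : Sˣ) : S) •
            ((r.pi (fun i => (L.sg (T.gen x)⁻¹).symm (y i)) : E.N) : M) := by
      rw [← sg_inv_eq]
      exact (hTWF S S0 F X T L M E.N ⊥ (T.gen x)⁻¹ 0).2.2.1 C r
    obtain ⟨s', hs'⟩ := key
    have hle : E.Nx x ≤ L.tr (T.gen x)⁻¹ E.N := by
      intro m hm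
      rw [L.mem_tr, map_inv, inv_inv]
      exact E.tle x m hm
    obtain ⟨w, hw1, hw2⟩ : ∃ w : Matrix (D x).I C.I S0,
        IsChain (D x) (C.map ((L.sx x).symm : S0 →+* S0)) w ∧
        ∀ z : (D x).I → S0, (((s x).pi z : E.Nx x) : M) =
          ((s'.pi (z ᵥ* w) : L.tr (T.gen x)⁻¹ E.N) : M) := by
      obtain ⟨w, hw1, hw2⟩ := AUL.specLFT S0 (D x) (C.map ((L.sx x).symm : S0 →+* S0)) (E.Nx x)
        (L.tr (T.gen x)⁻¹ E.N) (s x) s' (Submodule.inclusion hle)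
      exact ⟨w, hw1, fun z => (congrArg (fun z : L.tr (T.gen x)⁻¹ E.N => (z : M)) (hw2 z)).symm⟩
    refine ⟨w, hw1, fun z => ?_⟩
    have h4 : (fun i => (L.sg (T.gen x)⁻¹).symm ((z ᵥ* w) i)) =
        fun j => L.sx x ((z ᵥ* w) j) := by
      funext i
      rw [L.sg_symm, inv_inv]
      rfl
    have h5 := (hw2 z).trans (hs' (z ᵥ* w))
    rw [h4] at h5
    rw [h5, t_smul]
  choose u hu1 hu2 using hu
  choose w hw1 hw2 using hw
  refine ⟨u, w, hu1, hw1, fun x z => ?_, hw2⟩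
  rw [hu2 x z]
  rfl

end Pool.Agent.Lib.MP8a3537.AUF
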