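import Pool.Agent.Lib.MP_8a3537_gt.AUF.SpecA

/-!
# PHC: the matrix `Φ = (w_x t_x⁻¹ - u_x)_x` is a chain map
-/

namespace Pool.Agent.Lib.MP8a3537.AUF

open Matrix
open Pool.Agent.Lib.MP8a3537.AUL

namespace PHCM

variable {S : Type} [Ring S] [StarRing S] {S0 : Subring S} [StarSub S0] {F X : Type} [Group F]
  [Fintype X] [DecidableEq X] {T : TreeLen F X}

omit [StarSub S0] [Fintype X] [DecidableEq X] in
/-- `t_x⁻¹ a = σ_x⁻¹(a) t_x⁻¹`. -/
theorem inv_mul_coe (L : Fre S0 T) (x : X) (a : S0) :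
    (((L.t x)⁻¹ : Sˣ) : S) * (a : S) =
      (((L.sx x).symm a : S0) : S) * (((L.t x)⁻¹ : Sˣ) : S) := by
  have h : (((L.sx x).symm a : S0) : S) =
      (((L.t x)⁻¹ : Sˣ) : S) * a * ((L.t x : Sˣ) : S) := L.coe_sg_symm (T.gen x) a
  rw [h]
  simp [mul_assoc]

/-- A row of the matrix of the base change of a direct sum. -/
theorem sum_bc {A : Type} [Ring A] {Y : Type} [Fintype Y] [DecidableEq Y] (A0 : Subring A)
    (D : Y → FC A0) (x : Y) (i : (D x).I) (f : (Σ x, (D x).I) → A) :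
    ∑ j : (Σ x, (D x).I), (bc (dsum D)).e ⟨x, i⟩ j * f j =
      ∑ j, (((D x).e i j : A0) : A) * f ⟨x, j⟩ := by
  rw [Fintype.sum_sigma]
  rw [Finset.sum_eq_single x]
  · refine Finset.sum_congr rfl fun j _ => ?_
    have h : (dsum D).e ⟨x, i⟩ ⟨x, j⟩ = (D x).e i j :=
      blockDiagonal'_apply_eq (fun y => (D y).e) x i j
    show (((dsum D).e ⟨x, i⟩ ⟨x, j⟩ : A0) : A) * f ⟨x, j⟩ = _
    rw [h]
  · intro y _ hy
    refine Finset.sum_eq_zero fun j _ => ?_
    have h : (dsum D).e ⟨x, i⟩ ⟨y, j⟩ = 0 :=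
      blockDiagonal'_apply_ne (fun y => (D y).e) i j (Ne.symm hy)
    show (((dsum D).e ⟨x, i⟩ ⟨y, j⟩ : A0) : A) * f ⟨y, j⟩ = _
    rw [h, ZeroMemClass.coe_zero, zero_mul]
  · intro h
    exact absurd (Finset.mem_univ x) h

end PHCM

theorem specPHC : SpecPHC := by
  intro S _ _ S0 _ F X _ _ _ T L C D u w hu hw
  constructor
  · rintro ⟨x, i⟩ j h
    by_cases h1 : u x i j = 0
    · by_cases h2 : w x i j = 0
      · exfalso
        apply h
        simp [Fre.phi, h1, h2]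
      · exact (hw x).deg i j h2
    · exact (hu x).deg i j h1
  · ext ⟨x, i⟩ k
    have e1 : ∑ j, (D x).e i j * w x j k = ∑ j, w x i j * (L.sx x).symm (C.e j k) :=
      congrFun (congrFun (hw x).comm i) k
    have e2 : ∑ j, (D x).e i j * u x j k = ∑ j, u x i j * C.e j k := by
      have h := congrFun (congrFun (hu x).comm i) k
      rw [Matrix.mul_apply, Matrix.mul_apply] at h
      exact h
    have l1 : ∑ j : (Σ x, (D x).I), (bc (dsum D)).e ⟨x, i⟩ j * L.phi u w j k =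
        ((∑ j, (D x).e i j * w x j k : S0) : S) * (((L.t x)⁻¹ : Sˣ) : S) -
          ((∑ j, (D x).e i j * u x j k : S0) : S) := by
      rw [PHCM.sum_bc, AddSubmonoidClass.coe_finsetSum, AddSubmonoidClass.coe_finsetSum,
        Finset.sum_mul, ← Finset.sum_sub_distrib]
      refine Finset.sum_congr rfl fun j _ => ?_
      show (((D x).e i j : S0) : S) * ((w x j k : S) * (((L.t x)⁻¹ : Sˣ) : S) - (u x j k : S)) = _
      rw [mul_sub, ← mul_assoc]
      rfl
    have l2 : ∑ j, L.phi u w ⟨x, i⟩ j * (bc C).e j k =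
        ((∑ j, w x i j * (L.sx x).symm (C.e j k) : S0) : S) * (((L.t x)⁻¹ : Sˣ) : S) -
          ((∑ j, u x i j * C.e j k : S0) : S) := by
      rw [AddSubmonoidClass.coe_finsetSum, AddSubmonoidClass.coe_finsetSum, Finset.sum_mul,
        ← Finset.sum_sub_distrib]
      refine Finset.sum_congr rfl fun j _ => ?_
      show ((w x i j : S) * (((L.t x)⁻¹ : Sˣ) : S) - (u x i j : S)) * ((C.e j k : S0) : S) = _
      rw [sub_mul, mul_assoc, PHCM.inv_mul_coe, ← mul_assoc]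
      rfl
    show ∑ j : (Σ x, (D x).I), (bc (dsum D)).e ⟨x, i⟩ j * L.phi u w j k =
      ∑ j, L.phi u w ⟨x, i⟩ j * (bc C).e j k
    exact l1.trans (by rw [e1, e2]; exact l2.symm)

end Pool.Agent.Lib.MP8a3537.AUF
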