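import Pool.Agent.Lib.MP_8a3537_gt.AUF.SpecC
import Pool.Agent.Lib.MP_8a3537_gt.AUL.POL

/-!
# MP_8a3537_gt, folder AUF, module PZN (helper94): group rings of poly-infinite-cyclic groups, with
# the number of steps
-/

namespace Pool.Agent.Lib.MP8a3537.AUF

open Matrix
open Pool.Agent.Lib.MP8a3537.AUL

namespace PZNM

theorem mono {A : Type} [Ring A] [StarRing A] {d d' : ℕ} (h : Aus A d) (hd : d ≤ d') :
    Aus A d' where
  noeth := h.noeth
  fin := by
    intro N _ _ hN
    obtain ⟨C, hC, hdeg⟩ := h.fin N hN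
    refine ⟨C, hC, fun i => ?_⟩
    have h1 := hdeg i
    have h2 : (d : ℤ) ≤ (d' : ℤ) := by exact_mod_cast hd
    omega
  aus := h.aus

end PZNM

/-- **PZN.** -/
theorem specPZN (hSEM : AUL.SpecSEM) (hSTP : AUL.SpecSTP) (hGRP : AUL.SpecGRP) : SpecPZN := by
  intro R H _ _ _ d0 n h0 hH
  induction hH with
  | one n H hs =>
    refine PZNM.mono (d := d0) ?_ (Nat.le_add_right d0 n)
    refine (hSEM R (MonoidAlgebra R H) (RingEquiv.ofBijective _ (POLM.bij R H)) ?_).2 d0 h0
    intro a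
    change MonoidAlgebra.single (1 : H) (star a) = star (MonoidAlgebra.single (1 : H) a)
    rw [UV.star_single, inv_one]
  | step n H N t hN hext ih =>
    obtain ⟨hss, ⟨L⟩, σ, hσ⟩ := hGRP R H N t hext
    exact hSTP (MonoidAlgebra R H) (gsub R N) L (d0 + n)
      ((hSEM (MonoidAlgebra R N) (gsub R N) σ hσ).2 (d0 + n) ih)

end Pool.Agent.Lib.MP8a3537.AUF
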