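import Pool.Agent.Lib.MP_8a3537_gt.AUF.GRI
import Pool.Agent.Lib.MP_8a3537_gt.AUF.RSF
import Pool.Agent.Lib.MP_8a3537_gt.AUL.SEM
import Pool.Agent.Lib.MP_8a3537_gt.AUL.TCS
import Pool.Agent.Lib.MP_8a3537_gt.AUL.LFT
import Pool.Agent.Lib.MP_8a3537_gt.AUL.CNE
import Pool.Agent.Lib.MP_8a3537_gt.AUL.LES

/-!
# AUF, module RLF: restrictions of cocycles of a lattice datum
-/

set_option autoImplicit false

namespace Pool.Agent.Lib.MP8a3537.AUF

open Matrix
open Pool.Agent.Lib.MP8a3537.AUL

namespace RLFM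

variable {S : Type} [Ring S] [StarRing S] {S0 : Subring S} [StarSub S0] {F X : Type} [Group F]
  [Fintype X] [DecidableEq X] {T : TreeLen F X} (L : Fre S0 T)

/-- The complex which resolves the module of the direction `s`. -/
def DD (D : X → FC S0) : X × Bool → FC S0
  | (x, true) => (D x).map (L.sg (T.gen x) : S0 →+* S0)
  | (x, false) => D x

/-- The chain map of the direction `s`. -/
def vv (C : FC S0) (D : X → FC S0) (u w : ∀ x, Matrix (D x).I C.I S0) :
    (s : X × Bool) → Matrix (DD L D s).I C.I S0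
  | (x, true) => ((w x).map (L.sg (T.gen x)) : Matrix (D x).I C.I S0)
  | (x, false) => u x

variable {M : Type} [AddCommGroup M] [Module S M]

theorem A_le {L : Fre S0 T} (E : LD L M) (s : X × Bool) : E.A s ≤ E.N := by
  obtain ⟨x, b⟩ := s
  cases b
  · exact E.le x
  · intro m hm
    have h1 : (((L.un (T.gen x))⁻¹ : Sˣ) : S) • m ∈ E.Nx x := hm
    have h2 := E.tle x _ h1
    have h3 : ((L.t x : Sˣ) : S) • ((((L.un (T.gen x))⁻¹ : Sˣ) : S) • m) = m := by
      rw [smul_smul]
      show (((L.un (T.gen x) : Sˣ) : S) * (((L.un (T.gen x))⁻¹ : Sˣ) : S)) • m = m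
      rw [Units.mul_inv, one_smul]
    rwa [h3] at h2

theorem iSup_eq {L : Fre S0 T} (E : LD L M) (s0 : X × Bool) :
    (⨆ i : {s : X × Bool // s ≠ s0}, (E.A i.1).submoduleOf E.N) = (E.Ns s0).submoduleOf E.N := by
  apply Submodule.map_injective_of_injective E.N.subtype_injective
  rw [Submodule.map_iSup]
  have h : ∀ P : Submodule S0 M, P ≤ E.N → Submodule.map E.N.subtype (P.submoduleOf E.N) = P := by
    intro P hP
    rw [Submodule.submoduleOf, Submodule.map_comap_subtype]
    exact inf_eq_right.2 hP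
  rw [h (E.Ns s0) (iSup_le fun i => A_le E i.1)]
  exact iSup_congr fun i => h _ (A_le E i.1)

theorem chain (C : FC S0) (D : X → FC S0) (u w : ∀ x, Matrix (D x).I C.I S0)
    (hu : ∀ x, IsChain (D x) C (u x))
    (hw : ∀ x, IsChain (D x) (C.map ((L.sx x).symm : S0 →+* S0)) (w x)) (s : X × Bool) :
    IsChain (DD L D s) C (vv L C D u w s) := by
  obtain ⟨x, b⟩ := s
  cases b
  · exact hu x
  · constructor
    · intro i j hij
      refine (hw x).deg i j ?_
      intro h0
      apply hij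
      show L.sg (T.gen x) (w x i j) = 0
      rw [h0, map_zero]
    · show ((D x).e.map (L.sg (T.gen x) : S0 →+* S0)) * ((w x).map (L.sg (T.gen x) : S0 →+* S0)) =
        ((w x).map (L.sg (T.gen x) : S0 →+* S0)) * C.e
      have hc : (D x).e * w x = w x * (C.e.map ((L.sg (T.gen x)).symm : S0 →+* S0)) := (hw x).comm
      have he : (C.e.map ((L.sg (T.gen x)).symm : S0 →+* S0)).map (L.sg (T.gen x) : S0 →+* S0) =
          C.e := by
        ext i j
        show ((L.sg (T.gen x) ((L.sg (T.gen x)).symm (C.e i j)) : S0) : S) = _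
        rw [RingEquiv.apply_symm_apply]
      rw [← Matrix.map_mul, hc, Matrix.map_mul, he]

theorem tcEquiv {A : Type} [Ring A] [StarRing A] {c : ℤ} {Y Z : Type} [AddCommGroup Y]
    [Module A Y] [AddCommGroup Z] [Module A Z] (φ : Y ≃ₗ[A] Z) (h : Tc A c Y) : Tc A c Z :=
  (specTCS specLFT specCON specLES A c Y Z φ.toLinearMap).2.1 φ.surjective h

end RLFM

open RLFM in
theorem specRLF (hINJ : SpecINJ) (hTWF : SpecTWF) : SpecRLF := by
  intro S _ _ S0 _ F X _ _ _ T L d hn hfr M _ _ E c hT1 hT2 C D r s u w hD s0 y hy hres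
  have key : ∀ i : X × Bool, ∃ s' : Res (DD L D i) ((E.A i).submoduleOf E.N),
      ∀ z, r.pi (z ᵥ* vv L C D u w i) = ((s'.pi z : (E.A i).submoduleOf E.N) : E.N) := by
    rintro ⟨x, b⟩
    have hle := A_le E (x, b)
    have hc : ∀ m : E.A (x, b), ((((Submodule.submoduleOfEquivOfLe hle).symm m :
        (E.A (x, b)).submoduleOf E.N) : E.N) : M) = (m : M) := fun m => rfl
    cases b
    · refine ⟨GRIM.resEquiv (s x) (Submodule.submoduleOfEquivOfLe hle).symm, fun z => ?_⟩
      apply Subtype.ext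
      refine (hD.lu x z).trans ?_
      exact (hc _).symm
    · obtain ⟨s2, hs2⟩ := (hTWF S S0 F X T L M (E.Nx x) (E.Nx x) (T.gen x) c).2.2.1 (D x) (s x)
      refine ⟨GRIM.resEquiv s2 (Submodule.submoduleOfEquivOfLe hle).symm, fun z => ?_⟩
      apply Subtype.ext
      refine Eq.trans ?_ (hc _).symm
      refine Eq.trans ?_ (hs2 z).symm
      have h1 := hD.lw x (fun i => (L.sg (T.gen x)).symm (z i))
      refine Eq.trans ?_ h1.symm
      have h2 : (z ᵥ* vv L C D u w (x, true) : C.I → S0) =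
          fun j => L.sx x (((fun i => (L.sg (T.gen x)).symm (z i)) ᵥ* w x) j) := by
        funext j
        show ∑ i, z i * L.sg (T.gen x) (w x i j) =
          L.sg (T.gen x) (∑ i, (L.sg (T.gen x)).symm (z i) * w x i j)
        rw [map_sum]
        refine Finset.sum_congr rfl fun i _ => ?_
        rw [map_mul, RingEquiv.apply_symm_apply]
      exact congrArg (fun v => ((r.pi v : E.N) : M)) h2
  choose s' hs' using key
  have hTK : ∀ i : X × Bool, Tc S0 (c - 1) ((E.A i).submoduleOf E.N) := by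
    intro i
    have h0 : Tc S0 (c - 1) (E.A i) := by
      obtain ⟨x, b⟩ := i
      cases b
      · exact hT1 x
      · exact (hTWF S S0 F X T L M (E.Nx x) (E.Nx x) (T.gen x) (c - 1)).1 (hT1 x)
    exact tcEquiv (Submodule.submoduleOfEquivOfLe (A_le E i)).symm h0
  have hGr : Gr S0 c (E.N ⧸ ⨆ i : {s : X × Bool // s ≠ s0}, (E.A i.1).submoduleOf E.N) := by
    rw [iSup_eq E s0]
    exact (specGRI S0 c _ (E.N ⧸ (E.Ns s0).submoduleOf E.N)).2.2 (hT2 s0)
  have hfin : Module.Finite S0 E.N := Module.Finite.iff_fg.2 E.fg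
  refine hINJ S0 d hn hfr {s : X × Bool // s ≠ s0} c E.N hfin
    (fun i => (E.A i.1).submoduleOf E.N) (fun i => hTK i.1) hGr C r (fun i => DD L D i.1)
    (fun i => s' i.1) (fun i => vv L C D u w i.1)
    (fun i => chain L C D u w hD.hu hD.hw i.1) (fun i x => hs' i.1 x) y hy ?_
  rintro ⟨⟨x, b⟩, hi⟩
  have h1 := hres (x, b) hi
  cases b
  · exact h1
  · have h2 := RSFM.map_B (D x) (L.sg (T.gen x) : S0 →+* S0) (fun a => L.sg_star (T.gen x) a)
      (c - 1) _ h1
    have h3 : (y ᵥ* (vv L C D u w (x, true))ᴴ : (D x).I → S0) =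
        fun i => L.sg (T.gen x) (L.rs u w (x, true) y i) := by
      funext i
      show ∑ j, y j * star (L.sg (T.gen x) (w x i j)) =
        L.sg (T.gen x) (∑ j, (L.sg (T.gen x)).symm (y j) * star (w x i j))
      rw [map_sum]
      refine Finset.sum_congr rfl fun j _ => ?_
      rw [map_mul, RingEquiv.apply_symm_apply, L.sg_star]
    show (y ᵥ* (vv L C D u w (x, true))ᴴ : (D x).I → S0) ∈
      ((D x).map (L.sg (T.gen x) : S0 →+* S0)).dual.B (c - 1)
    rw [h3]
    exact h2

end Pool.Agent.Lib.MP8a3537.AUF
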