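import Pool.Agent.Lib.MP_8a3537_gt.AUF.SpecA
import Pool.Agent.Lib.MP_8a3537_gt.AUF.SpecB

/-! # AUF, module STP: the step -/

namespace Pool.Agent.Lib.MP8a3537.AUF

open Matrix
open Pool.Agent.Lib.MP8a3537.AUL

theorem specSTP (hCOH : SpecCOH) (hFNF : SpecFNF) (hACQ : SpecACQ) : SpecSTP := by
  intro S _ _ S0 _ F X _ _ _ T L d h hX
  exact ⟨hCOH S S0 F X T L d h.noeth h.fin, hFNF S S0 F X T L d h.noeth h.fin,
    hACQ S S0 F X T L d h hX⟩

end Pool.Agent.Lib.MP8a3537.AUF
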