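import Pool.Agent.Lib.MP_8a3537_gt.AUF.SpecA
import Pool.Agent.Lib.MP_8a3537_gt.AUL.SEM
import Pool.Agent.Lib.MP_8a3537_gt.AUL.TWI

/-!
# Group rings of extensions by free groups (MP_8a3537_gt, folder AUF), module TWF: translates
-/

namespace Pool.Agent.Lib.MP8a3537.AUF

open Matrix
open Pool.Agent.Lib.MP8a3537.AUL

namespace TWFM

variable {S : Type} [Ring S] [StarRing S] {S0 : Subring S} [StarSub S0] {F X : Type} [Group F]
  {T : TreeLen F X} {M : Type} [AddCommGroup M] [Module S M]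

omit [StarSub S0] in
theorem mem_tr' (L : Fre S0 T) (g : F) (N : Submodule S0 M) (m : M) :
    ((L.un g : Sˣ) : S) • m ∈ L.tr g N ↔ m ∈ N := by
  rw [Fre.mem_tr, smul_smul, Units.inv_mul, one_smul]

omit [StarSub S0] in
theorem un_inv_smul (L : Fre S0 T) (g : F) (m : M) :
    ((L.un g : Sˣ) : S) • (((L.un g)⁻¹ : Sˣ) : S) • m = m := by
  rw [smul_smul, Units.mul_inv, one_smul]

omit [StarSub S0] in
theorem inv_un_smul (L : Fre S0 T) (g : F) (m : M) :
    (((L.un g)⁻¹ : Sˣ) : S) • ((L.un g : Sˣ) : S) • m = m := by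
  rw [smul_smul, Units.inv_mul, one_smul]

omit [StarSub S0] in
theorem un_smul_smul (L : Fre S0 T) (g : F) (a : S0) (m : M) :
    ((L.un g : Sˣ) : S) • (a • m) = L.sg g a • (((L.un g : Sˣ) : S) • m) := by
  rw [Subring.smul_def, Subring.smul_def, smul_smul, smul_smul, Fre.coe_sg,
    Units.inv_mul_cancel_right]

/-- `m ↦ un g • m`. -/
def fk (L : Fre S0 T) (g : F) (N : Submodule S0 M) : N ≃+ L.tr g N where
  toFun m := ⟨((L.un g : Sˣ) : S) • (m : M), (mem_tr' L g N m).2 m.2⟩
  invFun m := ⟨(((L.un g)⁻¹ : Sˣ) : S) • (m : M), (L.mem_tr g N m).1 m.2⟩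
  left_inv m := Subtype.ext (inv_un_smul L g (m : M))
  right_inv m := Subtype.ext (un_inv_smul L g (m : M))
  map_add' _ _ := Subtype.ext (smul_add _ _ _)

omit [StarSub S0] in
theorem fk_coe (L : Fre S0 T) (g : F) (N : Submodule S0 M) (m : N) :
    ((fk L g N m : L.tr g N) : M) = ((L.un g : Sˣ) : S) • (m : M) := rfl

theorem fk_smul (L : Fre S0 T) (g : F) (N : Submodule S0 M) (a : S0) (m : N) :
    fk L g N (a • m) = L.sg g a • fk L g N m := by
  apply Subtype.ext
  rw [fk_coe, Submodule.coe_smul, Submodule.coe_smul, fk_coe]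
  exact un_smul_smul L g a (m : M)

omit [StarSub S0] in
theorem fg_tr (L : Fre S0 T) (g : F) (N : Submodule S0 M) (h : N.FG) : (L.tr g N).FG := by
  classical
  obtain ⟨s, hs⟩ := h
  refine ⟨s.image (fun m => ((L.un g : Sˣ) : S) • m), ?_⟩
  rw [Finset.coe_image]
  apply le_antisymm
  · rw [Submodule.span_le]
    rintro _ ⟨m, hm, rfl⟩
    exact (mem_tr' L g N m).2 (hs ▸ Submodule.subset_span hm)
  · intro m hm
    have key : ∀ x ∈ Submodule.span S0 (s : Set M), ((L.un g : Sˣ) : S) • x ∈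
        Submodule.span S0 ((fun m => ((L.un g : Sˣ) : S) • m) '' (s : Set M)) := by
      intro x hx
      induction hx using Submodule.span_induction with
      | mem x hx => exact Submodule.subset_span ⟨x, hx, rfl⟩
      | zero =>
        rw [smul_zero]
        exact Submodule.zero_mem _
      | add x y _ _ ihx ihy =>
        rw [smul_add]
        exact Submodule.add_mem _ ihx ihy
      | smul a x _ ih =>
        rw [un_smul_smul]
        exact Submodule.smul_mem _ _ ih
    have h2 := key _ (hs.symm ▸ (L.mem_tr g N m).1 hm)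
    rwa [un_inv_smul] at h2

end TWFM

open TWFM in
theorem specTWF : SpecTWF := by
  intro S _ _ S0 _ F X _ T L M _ _ N N0 g c
  have hs := AUL.specSEM S0 S0 (L.sg g) (L.sg_star g)
  refine ⟨(hs.1 N (L.tr g N) (fk L g N) (fk_smul L g N)).2 c, ?_, ?_, fg_tr L g N⟩
  · intro _
    obtain ⟨f, hf⟩ := AUL.TWIM.quot (L.sg g) (fk L g N) (fk_smul L g N) (N0.submoduleOf N)
      ((L.tr g N0).submoduleOf (L.tr g N)) (by
        intro x
        change (x : M) ∈ N0 ↔ ((L.un g : Sˣ) : S) • (x : M) ∈ L.tr g N0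
        exact (mem_tr' L g N0 x).symm)
    exact (hs.1 _ _ f hf).2 c
  · intro C r
    obtain ⟨s, hs'⟩ := (hs.1 N (L.tr g N) (fk L g N) (fk_smul L g N)).1 C r
    refine ⟨s, fun y => ?_⟩
    rw [hs' y]
    rfl

end Pool.Agent.Lib.MP8a3537.AUF
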