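import Pool.Agent.Lib.MP_8a3537_gt.AUF.SpecC

/-! # AUF, module WPG: group rings of (poly-infinite-cyclic)-by-free groups over Auslander regular
rings -/

namespace Pool.Agent.Lib.MP8a3537.AUF

open Pool.Agent.Lib.MP8a3537.AUL

/-- `R[K]` is weakly Auslander regular and coherent if `R` is Auslander regular and `K` is finitely
generated and (poly-infinite-cyclic of length at most `h`)-by-free. -/
theorem warPF (hSTP : StpF) (hSEM : AUL.SpecSEM) (hFRL : SpecFRL)
    (hGRPF : SpecGRPF) (hPZN : SpecPZN) (hFGX : SpecFGX) (hBRW : SpecBRW)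
    (R K : Type) [Ring R] [StarRing R] [Group K] (d h : ℕ) (hR : Aus R d) (hK : Group.FG K)
    (hPF : PF h K) : WAB.WAR (MonoidAlgebra R K) (d + h + 1) := by
  classical
  obtain ⟨N, hN, hPZ, hfree⟩ := hPF
  obtain ⟨X, hX, ψ, hψ⟩ := hFGX K N hK hfree
  obtain ⟨T, _⟩ := hFRL X
  obtain ⟨hss, ⟨L⟩, σ, hσ⟩ := hGRPF R K (FreeGroup X) X T N ψ hψ
  have h2 : Aus (MonoidAlgebra R N) (d + h) := hPZN R N d h hR hPZ
  have h3 : Aus (gsub R N) (d + h) := (hSEM (MonoidAlgebra R N) (gsub R N) σ hσ).2 (d + h) h2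
  have _ : Fintype X := Fintype.ofFinite X
  have h4 : CWA (MonoidAlgebra R K) (d + h + 1) :=
    hSTP (MonoidAlgebra R K) (gsub R N) (FreeGroup X) X T L (d + h) h3
  exact hBRW (MonoidAlgebra R K) (d + h + 1) h4

end Pool.Agent.Lib.MP8a3537.AUF
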