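import Pool.Agent.Lib.MP_8a3537_gt.AUF.SpecA

/-! # AUF, module XIN: the boundary map of the tree is injective -/

namespace Pool.Agent.Lib.MP8a3537.AUF

open Pool.Agent.Lib.MP8a3537.AUL

theorem specXIN (hXTR : SpecXTR) : SpecXIN := by
  intro S _ _ S0 _ F X _ _ _ T L M _ _ n hn
  classical
  by_contra hcon
  push Not at hcon
  obtain ⟨x0, g0, h0⟩ := hcon
  have hfin : {e : F × X | n e.2 e.1 ≠ 0}.Finite := by
    have h1 : {e : F × X | n e.2 e.1 ≠ 0} ⊆
        ⋃ x : X, ((fun g : F => (g, x)) '' (n x).support) := by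
      rintro ⟨g, x⟩ he
      refine Set.mem_iUnion.mpr ⟨x, g, ?_, rfl⟩
      exact Finset.mem_coe.mpr (Finsupp.mem_support_iff.mpr he)
    exact (Set.finite_iUnion fun x => ((n x).support.finite_toSet).image _).subset h1
  obtain ⟨v, s, hs, hs'⟩ := (hXTR F X T).1 _ hfin ⟨(g0, x0), h0⟩
  have key : ∀ s', s' ≠ s → n (T.ed v s').2 (T.ed v s').1 = 0 := by
    intro s' h
    by_contra h2
    exact hs' s' h h2
  have h3 := hn v
  obtain ⟨y, b⟩ := s
  rw [Finset.sum_eq_single y] at h3
  · cases b with
    | true =>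
      have h4 : n y v = 0 := key (y, false) (by simp)
      rw [h4, sub_zero] at h3
      have h5 : n y (v * T.gen y) = 0 := by
        have h6 := congrArg (fun m => (((L.t y)⁻¹ : Sˣ) : S) • m) h3
        simpa [smul_smul] using h6
      exact hs h5
    | false =>
      have h4 : n y (v * T.gen y) = 0 := key (y, true) (by simp)
      rw [h4, smul_zero, zero_sub, neg_eq_zero] at h3
      exact hs h3
  · intro z _ hz
    have h4 : n z v = 0 := key (z, false) (by simp [hz])
    have h5 : n z (v * T.gen z) = 0 := key (z, true) (by simp [hz])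
    rw [h4, h5, smul_zero, sub_zero]
  · intro h
    exact absurd (Finset.mem_univ y) h

end Pool.Agent.Lib.MP8a3537.AUF
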