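import Pool.Agent.Lib.MP_8a3537_gt.AUF.SpecA

set_option autoImplicit false

/-!
# Module XTR: extremal vertices
-/

namespace Pool.Agent.Lib.MP8a3537.AUF

namespace XTRM

variable {F X : Type} [Group F]

/-- The opposite direction. -/
def op (s : X × Bool) : X × Bool := (s.1, !s.2)

theorem ed_op (T : TreeLen F X) (v : F) (s : X × Bool) :
    T.ed (v * dr T.gen s) (op s) = T.ed v s := by
  obtain ⟨x, b⟩ := s
  cases b
  · show (v * (T.gen x)⁻¹ * T.gen x, x) = (v, x)
    rw [inv_mul_cancel_right]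
  · rfl

theorem ed_cases (T : TreeLen F X) (v : F) (s : X × Bool) :
    v = (T.ed v s).1 ∨ v = (T.ed v s).1 * (T.gen (T.ed v s).2)⁻¹ := by
  obtain ⟨x, b⟩ := s
  cases b
  · exact Or.inl rfl
  · right
    show v = v * T.gen x * (T.gen x)⁻¹
    rw [mul_inv_cancel_right]

theorem vert_finite (T : TreeLen F X) {E : Set (F × X)} (hE : E.Finite) :
    {v : F | ∃ s, T.ed v s ∈ E}.Finite := by
  refine ((hE.image Prod.fst).union (hE.image fun p => p.1 * (T.gen p.2)⁻¹)).subset ?_
  rintro v ⟨s, hs⟩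
  rcases ed_cases T v s with h | h
  · exact Or.inl ⟨_, hs, h.symm⟩
  · exact Or.inr ⟨_, hs, h.symm⟩

end XTRM

open XTRM in
theorem specXTR : SpecXTR := by
  intro F X _ T
  constructor
  · intro E hE hne
    have hU := vert_finite T hE
    have hUne : {v : F | ∃ s, T.ed v s ∈ E}.Nonempty := by
      obtain ⟨⟨g, x⟩, hg⟩ := hne
      exact ⟨g, (x, false), hg⟩
    obtain ⟨v, ⟨s, hs⟩, hmax⟩ := Set.exists_max_image _ T.len hU hUne
    have key : ∀ s', T.ed v s' ∈ E → T.len (v * dr T.gen s') < T.len v := by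
      intro s' hs'
      refine lt_of_le_of_ne (hmax _ ⟨op s', ?_⟩) (T.ne v s')
      rwa [ed_op]
    exact ⟨v, s, hs, fun s' hne' h' => hne' (T.uniq v s' s (key s' h') (key s hs))⟩
  · intro V hV hne
    obtain ⟨v, hv, hmax⟩ := Set.exists_max_image _ T.len hV hne
    exact ⟨v, hv, fun s s' h h' => T.uniq v s s' (lt_of_le_of_ne (hmax _ h) (T.ne v s))
      (lt_of_le_of_ne (hmax _ h') (T.ne v s'))⟩

end Pool.Agent.Lib.MP8a3537.AUF
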