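import Pool.Agent.Lib.MP_8a3537_gt.AUL.Main
import Pool.Agent.Lib.MP_8a3537_gt.AUF.ACH
import Pool.Agent.Lib.MP_8a3537_gt.AUF.ACQ
import Pool.Agent.Lib.MP_8a3537_gt.AUF.ACX
import Pool.Agent.Lib.MP_8a3537_gt.AUF.BCF
import Pool.Agent.Lib.MP_8a3537_gt.AUF.BRC
import Pool.Agent.Lib.MP_8a3537_gt.AUF.BRJ
import Pool.Agent.Lib.MP_8a3537_gt.AUF.BRR
import Pool.Agent.Lib.MP_8a3537_gt.AUF.BRV
import Pool.Agent.Lib.MP_8a3537_gt.AUF.BRW
import Pool.Agent.Lib.MP_8a3537_gt.AUF.CFL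
import Pool.Agent.Lib.MP_8a3537_gt.AUF.CFP
import Pool.Agent.Lib.MP_8a3537_gt.AUF.CHR
import Pool.Agent.Lib.MP_8a3537_gt.AUF.CLZ
import Pool.Agent.Lib.MP_8a3537_gt.AUF.COH
import Pool.Agent.Lib.MP_8a3537_gt.AUF.DSM
import Pool.Agent.Lib.MP_8a3537_gt.AUF.EMX
import Pool.Agent.Lib.MP_8a3537_gt.AUF.EXC
import Pool.Agent.Lib.MP_8a3537_gt.AUF.EXN
import Pool.Agent.Lib.MP_8a3537_gt.AUF.EXT
import Pool.Agent.Lib.MP_8a3537_gt.AUF.FGX
import Pool.Agent.Lib.MP_8a3537_gt.AUF.FNF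
import Pool.Agent.Lib.MP_8a3537_gt.AUF.FRL
import Pool.Agent.Lib.MP_8a3537_gt.AUF.GRI
import Pool.Agent.Lib.MP_8a3537_gt.AUF.GRPF
import Pool.Agent.Lib.MP_8a3537_gt.AUF.GRU
import Pool.Agent.Lib.MP_8a3537_gt.AUF.GRX
import Pool.Agent.Lib.MP_8a3537_gt.AUF.IN1
import Pool.Agent.Lib.MP_8a3537_gt.AUF.INJ
import Pool.Agent.Lib.MP_8a3537_gt.AUF.INQ
import Pool.Agent.Lib.MP_8a3537_gt.AUF.KID
import Pool.Agent.Lib.MP_8a3537_gt.AUF.KYB
import Pool.Agent.Lib.MP_8a3537_gt.AUF.LAT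
import Pool.Agent.Lib.MP_8a3537_gt.AUF.LDF
import Pool.Agent.Lib.MP_8a3537_gt.AUF.LDX
import Pool.Agent.Lib.MP_8a3537_gt.AUF.LOC
import Pool.Agent.Lib.MP_8a3537_gt.AUF.MAK
import Pool.Agent.Lib.MP_8a3537_gt.AUF.PHC
import Pool.Agent.Lib.MP_8a3537_gt.AUF.PZN
import Pool.Agent.Lib.MP_8a3537_gt.AUF.RFP
import Pool.Agent.Lib.MP_8a3537_gt.AUF.RLF
import Pool.Agent.Lib.MP_8a3537_gt.AUF.RSF
import Pool.Agent.Lib.MP_8a3537_gt.AUF.STP
import Pool.Agent.Lib.MP_8a3537_gt.AUF.TCU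
import Pool.Agent.Lib.MP_8a3537_gt.AUF.TWF
import Pool.Agent.Lib.MP_8a3537_gt.AUF.WPG
import Pool.Agent.Lib.MP_8a3537_gt.AUF.XIN
import Pool.Agent.Lib.MP_8a3537_gt.AUF.XTR
import Pool.Agent.Lib.MP_8a3537_gt.AUF.LDP

/-!
# Group rings of (poly-infinite-cyclic)-by-free groups: assembly
-/

namespace Pool.Agent.Lib.MP8a3537.AUF

open Pool.Agent.Lib.MP8a3537.AUL

theorem mRFP : SpecRFP := specRFP specRSM

theorem mRF1 : SpecRF1 := fun A _ C X _ _ r => (mRFP A C).1 X r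

theorem mTCU : SpecTCU := specTCU specGRI

theorem mXIN : SpecXIN := specXIN specXTR

theorem mBCF : SpecBCF := specBCF specCFL

theorem mEXC : SpecEXC := specEXC specCFL

theorem mEXN : SpecEXN := specEXN specCFL specTWF mEXC

theorem mMAK : SpecMAK := specMAK specTWF

theorem mCHR : SpecCHR := specCHR specDSM mXIN specCFL mBCF

theorem mCOH : SpecCOH := specCOH mRF1 mXIN specCFL specTWF mEXC mMAK specPHC mCHR

theorem mFNF : SpecFNF := specFNF mEXN mMAK specPHC mCHR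

theorem mLAT : SpecLAT := specLAT mTCU specCFL specTWF

theorem mLOC : SpecLOC := specLOC specGRI specDSM mBCF mEXN mMAK specPHC mCHR

theorem mACH : SpecACH := specACH specCFL mLAT

theorem mINJ : SpecINJ := specINJ specDSM mTCU specIN1 specINQ

theorem mRLF : SpecRLF := specRLF mINJ specTWF

theorem mKYB : SpecKYB := specKYB specCFL specDSM mBCF specRSF

theorem mKID : SpecKID := specKID specRSF

theorem mLDF : SpecLDF := specLDF specCFL specRSF

theorem mGRX : SpecGRX := specGRX specTWF specRSF mKID specGRU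

theorem mLDP : SpecLDP := specLDP specCFL specRSF mKID

theorem mLDX : SpecLDX := specLDX mLDF mLDP

theorem mACX : SpecACX :=
  specACX specDSM mTCU mBCF specTWF mMAK specPHC mCHR mRLF mKYB mLDX mGRX

theorem mACQ : SpecACQ :=
  specACQ mRFP specGRI specEXT specCFP mEXN mMAK specPHC mCHR mCOH mFNF mLOC mACH mACX

/-- **The step**: `S0 * F` is coherent and weakly Auslander regular if `S0` is Auslander regular. -/
theorem mStpF : StpF :=
  stpF_of_nonempty specSEM fun S _ _ S0 _ F X _ _ _ _ T L d h =>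
    specSTP mCOH mFNF mACQ S S0 F X T L d h inferInstance

theorem mBRW : SpecBRW :=
  specBRW specBRC (specBRR specBRL) (specBRJ AUL.mIND mRFP) (specBRV specBRL)

theorem mPZN : SpecPZN := specPZN specSEM AUL.mSTP AUL.specGRP

/-- **Group rings of finitely generated (poly-infinite-cyclic)-by-free groups** over Auslander
regular rings are coherent and weakly Auslander regular. -/
theorem war_of_PF (R K : Type) [Ring R] [StarRing R] [Group K] (d h : ℕ) (hR : Aus R d)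
    (hK : Group.FG K) (hPF : PF h K) : WAB.WAR (MonoidAlgebra R K) (d + h + 1) :=
  warPF mStpF specSEM specFRL specGRPF mPZN specFGX mBRW R K d h hR hK hPF

end Pool.Agent.Lib.MP8a3537.AUF
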