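import Pool.Agent.Lib.MP_8a3537_gt.AUF.SpecA

/-! # AUF, module CFL: coefficients in a crossed product with a free group -/

namespace Pool.Agent.Lib.MP8a3537.AUF

open Matrix
open Pool.Agent.Lib.MP8a3537.AUL

namespace CFLM

variable {S : Type} [Ring S] [StarRing S] {S0 : Subring S} {F X : Type} [Group F]
  {T : TreeLen F X}

theorem val_apply (L : Fre S0 T) (f : F →₀ S0) :
    L.val f = f.sum fun k a => ((L.un k : Sˣ) : S) * (a : S) := rfl

theorem val_single (L : Fre S0 T) (k : F) (a : S0) :
    L.val (Finsupp.single k a) = ((L.un k : Sˣ) : S) * (a : S) := by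
  rw [val_apply, Finsupp.sum_single_index]
  simp

theorem co_single (L : Fre S0 T) (k : F) (a : S0) :
    L.co (((L.un k : Sˣ) : S) * (a : S)) = Finsupp.single k a := by
  rw [← val_single L, Fre.co, AddEquiv.symm_apply_apply]

theorem val_co (L : Fre S0 T) (s : S) : L.val (L.co s) = s := L.val.apply_symm_apply s

theorem co_add (L : Fre S0 T) (s s' : S) : L.co (s + s') = L.co s + L.co s' :=
  map_add L.val.symm s s'

theorem co_sub (L : Fre S0 T) (s s' : S) : L.co (s - s') = L.co s - L.co s' :=
  map_sub L.val.symm s s'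

theorem co_zero (L : Fre S0 T) : L.co (0 : S) = 0 := map_zero L.val.symm

theorem co_sum (L : Fre S0 T) {ι : Type} (E : Finset ι) (f : ι → S) :
    L.co (∑ i ∈ E, f i) = ∑ i ∈ E, L.co (f i) := map_sum L.val.symm f E

theorem ind (L : Fre S0 T) (P : S → Prop) (h0 : P 0) (hadd : ∀ x y, P x → P y → P (x + y))
    (h1 : ∀ (k : F) (a : S0), P (((L.un k : Sˣ) : S) * (a : S))) (s : S) : P s := by
  rw [← val_co L s]
  induction L.co s using Finsupp.induction with
  | zero => rw [map_zero]; exact h0
  | single_add k a f _ _ ih =>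
    rw [map_add]
    apply hadd _ _ _ ih
    rw [val_single]
    exact h1 k a

theorem co_coe (L : Fre S0 T) (a : S0) : L.co (a : S) = Finsupp.single 1 a := by
  rw [← co_single L, map_one, Units.val_one, one_mul]

theorem co_mul_coe (L : Fre S0 T) (s : S) (b : S0) (k : F) : L.co (s * (b : S)) k = L.co s k * b := by
  classical
  refine ind L (fun s => L.co (s * (b : S)) k = L.co s k * b) ?_ ?_ ?_ s
  · simp [co_zero]
  · intro x y hx hy
    rw [add_mul, co_add, co_add, Finsupp.add_apply, Finsupp.add_apply, hx, hy, add_mul]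
  · intro j a
    have h : ((L.un j : Sˣ) : S) * (a : S) * (b : S) = ((L.un j : Sˣ) : S) * ((a * b : S0) : S) := by
      rw [mul_assoc, Subring.coe_mul]
    rw [h, co_single, co_single, Finsupp.single_apply, Finsupp.single_apply]
    split_ifs <;> simp

theorem co_un_mul (L : Fre S0 T) (s : S) (h k : F) :
    L.co (((L.un h : Sˣ) : S) * s) k = L.co s (h⁻¹ * k) := by
  classical
  refine ind L (fun s => L.co (((L.un h : Sˣ) : S) * s) k = L.co s (h⁻¹ * k)) ?_ ?_ ?_ s
  · simp [co_zero]
  · intro x y hx hy
    rw [mul_add, co_add, co_add, Finsupp.add_apply, Finsupp.add_apply, hx, hy]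
  · intro j a
    have h1 : ((L.un h : Sˣ) : S) * (((L.un j : Sˣ) : S) * (a : S)) =
        ((L.un (h * j) : Sˣ) : S) * (a : S) := by
      rw [map_mul, Units.val_mul, mul_assoc]
    rw [h1, co_single, co_single, Finsupp.single_apply, Finsupp.single_apply]
    by_cases hj : h * j = k
    · rw [if_pos hj, if_pos (by rw [← hj, inv_mul_cancel_left])]
    · rw [if_neg hj, if_neg (fun e => hj (by rw [e, mul_inv_cancel_left]))]

theorem co_mul_inv (L : Fre S0 T) (s : S) (h k : F) :
    L.co (s * (((L.un h)⁻¹ : Sˣ) : S)) k = L.sg h (L.co s (k * h)) := by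
  classical
  refine ind L (fun s => L.co (s * (((L.un h)⁻¹ : Sˣ) : S)) k = L.sg h (L.co s (k * h)))
    ?_ ?_ ?_ s
  · simp [co_zero]
  · intro x y hx hy
    rw [add_mul, co_add, co_add, Finsupp.add_apply, Finsupp.add_apply, hx, hy, ← map_add]
  · intro j a
    have h1 : ((L.un j : Sˣ) : S) * (a : S) * (((L.un h)⁻¹ : Sˣ) : S) =
        ((L.un (j * h⁻¹) : Sˣ) : S) * ((L.sg h a : S0) : S) := by
      rw [L.coe_sg, map_mul, map_inv, Units.val_mul]
      simp [mul_assoc]
    rw [h1, co_single, co_single, Finsupp.single_apply, Finsupp.single_apply]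
    by_cases hj : j * h⁻¹ = k
    · rw [if_pos hj, if_pos (by rw [← hj, inv_mul_cancel_right])]
    · rw [if_neg hj, if_neg (fun e => hj (by rw [e, mul_inv_cancel_right])), map_zero]

theorem co_mul_un (L : Fre S0 T) (s : S) (h k : F) :
    L.co (s * ((L.un h : Sˣ) : S)) k = (L.sg h).symm (L.co s (k * h⁻¹)) := by
  classical
  refine ind L (fun s => L.co (s * ((L.un h : Sˣ) : S)) k = (L.sg h).symm (L.co s (k * h⁻¹)))
    ?_ ?_ ?_ s
  · simp [co_zero]
  · intro x y hx hy
    rw [add_mul, co_add, co_add, Finsupp.add_apply, Finsupp.add_apply, hx, hy, ← map_add]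
  · intro j a
    have h1 : ((L.un j : Sˣ) : S) * (a : S) * ((L.un h : Sˣ) : S) =
        ((L.un (j * h) : Sˣ) : S) * (((L.sg h).symm a : S0) : S) := by
      rw [L.coe_sg_symm, map_mul, Units.val_mul]
      simp [mul_assoc]
    rw [h1, co_single, co_single, Finsupp.single_apply, Finsupp.single_apply]
    by_cases hj : j * h = k
    · rw [if_pos hj, if_pos (by rw [← hj, mul_inv_cancel_right])]
    · rw [if_neg hj, if_neg (fun e => hj (by rw [e, inv_mul_cancel_right])), map_zero]

theorem co_coe_mul (L : Fre S0 T) (s : S) (b : S0) (k : F) :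
    L.co ((b : S) * s) k = (L.sg k).symm b * L.co s k := by
  classical
  refine ind L (fun s => L.co ((b : S) * s) k = (L.sg k).symm b * L.co s k) ?_ ?_ ?_ s
  · simp [co_zero]
  · intro x y hx hy
    rw [mul_add, co_add, co_add, Finsupp.add_apply, Finsupp.add_apply, hx, hy, mul_add]
  · intro j a
    have h1 : (b : S) * (((L.un j : Sˣ) : S) * (a : S)) =
        ((L.un j : Sˣ) : S) * (((L.sg j).symm b * a : S0) : S) := by
      rw [← mul_assoc, L.mul_un, mul_assoc, Subring.coe_mul]
    rw [h1, co_single, co_single, Finsupp.single_apply, Finsupp.single_apply]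
    by_cases hj : j = k
    · rw [if_pos hj, if_pos hj, hj]
    · rw [if_neg hj, if_neg hj, mul_zero]

theorem eq_sum (L : Fre S0 T) (s : S) (E : Finset F) (hE : ∀ k, L.co s k ≠ 0 → k ∈ E) :
    s = ∑ k ∈ E, ((L.un k : Sˣ) : S) * (L.co s k : S) := by
  conv_lhs => rw [← val_co L s, val_apply]
  apply Finsupp.sum_of_support_subset
  · intro k hk
    exact hE k (Finsupp.mem_support_iff.mp hk)
  · intro k _
    simp

end CFLM

open CFLM in
theorem specCFL : SpecCFL := by
  intro S _ _ S0 _ F X _ T L
  classical
  refine ⟨?_, ?_, ?_, ?_, ?_, ?_, ?_, ?_, ?_, ?_, ?_, ?_, ?_, ?_⟩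
  · intro I _ x
    refine Set.Finite.subset (Set.finite_iUnion fun i : I => (L.co (x i)).support.finite_toSet) ?_
    intro k hk
    by_contra hcon
    apply hk
    funext i
    by_contra hi
    apply hcon
    refine Set.mem_iUnion.mpr ⟨i, ?_⟩
    exact Finset.mem_coe.mpr (Finsupp.mem_support_iff.mpr hi)
  · intro I x y h
    funext i
    rw [← val_co L (x i), ← val_co L (y i)]
    congr 1
    ext k
    exact congrArg Subtype.val (congrFun (h k) i)
  · intro I x y k
    funext i
    change L.co (x i + y i) k = _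
    rw [co_add]
    rfl
  · intro I x y k
    funext i
    change L.co (x i - y i) k = _
    rw [co_sub]
    rfl
  · intro I k
    funext i
    change L.co 0 k = 0
    rw [co_zero]
    rfl
  · intro I f hf
    refine ⟨fun i => L.val (Finsupp.onFinset hf.toFinset (fun k => f k i) ?_), ?_⟩
    · intro k hk
      rw [Set.Finite.mem_toFinset]
      intro h0
      apply hk
      rw [h0]
      rfl
    · intro k
      funext i
      change L.co (L.val _) k = _
      rw [Fre.co, AddEquiv.symm_apply_apply]
      rfl
  · intro I x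
    funext i
    change L.co (x i : S) 1 = _
    rw [co_coe, Finsupp.single_apply, if_pos rfl]
  · intro I x g hg
    funext i
    change L.co (x i : S) g = _
    rw [co_coe, Finsupp.single_apply, if_neg (Ne.symm hg)]
    rfl
  · intro I J _ x m k
    funext j
    change L.co (∑ i, x i * (m i j : S)) k = ∑ i, L.co (x i) k * m i j
    rw [co_sum, Finsupp.finsetSum_apply]
    exact Finset.sum_congr rfl fun i _ => co_mul_coe L _ _ _
  · intro I x h g
    funext i
    exact co_un_mul L _ _ _
  · intro I x h g
    funext i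
    exact co_mul_inv L _ _ _
  · intro I x h g
    funext i
    exact co_mul_un L _ _ _
  · intro I x a g
    funext i
    exact co_coe_mul L _ _ _
  · intro I _ M _ _ p x E hE
    have h1 : ∀ i, x i = ∑ k ∈ E, ((L.un k : Sˣ) : S) * (L.co (x i) k : S) := by
      intro i
      apply eq_sum
      intro k hk
      apply hE
      intro h0
      exact hk (congrFun h0 i)
    calc ∑ i, x i • p i = ∑ i, ∑ k ∈ E, ((L.un k : Sˣ) : S) • (L.cor x k i • p i) := by
          refine Finset.sum_congr rfl fun i _ => ?_
          conv_lhs => rw [h1 i]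
          rw [Finset.sum_smul]
          refine Finset.sum_congr rfl fun k _ => ?_
          rw [mul_smul]
          rfl
      _ = _ := by
          rw [Finset.sum_comm]
          refine Finset.sum_congr rfl fun k _ => ?_
          rw [Finset.smul_sum]

end Pool.Agent.Lib.MP8a3537.AUF
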