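import Pool.Agent.Lib.MP_8a3537_gt.AUL.Spec

/-!
# Group rings of extensions by free groups (MP_8a3537_gt, folder AUF): definitions

Paper: `/team-store/8a3537_WA.md`, PART 2. Conventions of the folder `AUL`: left modules, rows,
complexes `FC`, resolutions `Res`, `Gr`, `Tc`, `FinRes`, `Aus`, `cone`, `bc`, `Gen`.
-/

namespace Pool.Agent.Lib.MP8a3537.AUF

open Matrix
open Pool.Agent.Lib.MP8a3537.AUL

/-! ### Trees -/

/-- The direction `(x, true)` is `gen x`, the direction `(x, false)` is its inverse. -/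
def dr {F X : Type} [Group F] (gen : X → F) : X × Bool → F
  | (x, true) => gen x
  | (x, false) => (gen x)⁻¹

/-- A group with a length function like that of the free group on the finite set `X`: the graph with
the vertices `g` and the edges `(g, x)` between `g` and `g * (gen x)⁻¹` is a tree. The neighbours of
`g` are the `g * dr gen s`, `s : X × Bool`. -/
structure TreeLen (F X : Type) [Group F] where
  /-- the generators -/
  gen : X → F
  /-- the length -/
  len : F → ℕ
  len_one : len 1 = 0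
  ne : ∀ (g : F) (s : X × Bool), len (g * dr gen s) ≠ len g
  uniq : ∀ (g : F) (s s' : X × Bool), len (g * dr gen s) < len g → len (g * dr gen s') < len g →
    s = s'
  desc : ∀ h : F, h ≠ 1 → ∃ s : X × Bool, len ((dr gen s)⁻¹ * h) < len h
  ball : ∀ n : ℕ, {g : F | len g ≤ n}.Finite

/-- The edge between `v` and its neighbour `v * dr gen s`. -/
def TreeLen.ed {F X : Type} [Group F] (T : TreeLen F X) (v : F) : X × Bool → F × X
  | (x, true) => (v * T.gen x, x)
  | (x, false) => (v, x)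

/-! ### Complexes and modules -/

section Rings

variable {A : Type} [Ring A]

/-- The direct sum of a finite family of complexes. -/
def dsum {X : Type} [Fintype X] [DecidableEq X] (D : X → FC A) : FC A where
  I := Σ x, (D x).I
  fin := inferInstance
  dec := inferInstance
  deg := fun i => (D i.1).deg i.2
  e := blockDiagonal' fun x => (D x).e
  he := by
    rintro ⟨x, i⟩ ⟨y, j⟩ h
    rw [blockDiagonal'_apply] at h
    split_ifs at h with h1
    · have h1' : x = y := h1
      subst h1'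
      exact (D x).he i j h
    · exact absurd rfl h
  hee := by
    intro i k
    have h : blockDiagonal' (fun x => (D x).e) * blockDiagonal' (fun x => (D x).e) = 0 := by
      rw [← blockDiagonal'_mul]
      simp only [FC.e_mul_e]
      exact blockDiagonal'_zero
    have h2 := congrFun (congrFun h i) k
    rwa [Matrix.mul_apply] at h2

/-- The component of a row of the direct sum. -/
def cx {X : Type} {D : X → FC A} (z : (Σ x, (D x).I) → A) (x : X) : (D x).I → A := fun i => z ⟨x, i⟩

/-- A coherent ring: finitely generated submodules of `A^n` are finitely presented. -/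
def Coh (A : Type) [Ring A] : Prop :=
  ∀ (n : ℕ) (N : Submodule A (Fin n → A)), N.FG → Module.FinitePresentation A N

/-- Every finitely presented module has a resolution with degrees `≥ -d`. -/
def FinResP (A : Type) [Ring A] (d : ℕ) : Prop :=
  ∀ (N : Type) [AddCommGroup N] [Module A N], Module.FinitePresentation A N →
    ∃ C : FC A, Nonempty (Res C N) ∧ ∀ i, -(d : ℤ) ≤ C.deg i

/-- Coherent and weakly Auslander regular: `Ext^q(Ext^c(M, A), A) = 0` for `q < c`, `M` finitely
presented. -/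
structure CWA (A : Type) [Ring A] [StarRing A] (d : ℕ) : Prop where
  coh : Coh A
  fin : FinResP A d
  wa : ∀ C : FC A, C.IsRes → ∀ c : ℤ, 0 ≤ c → Gr A c (C.dual.H c)

end Rings

/-! ### The ring `S = S0 * F` -/

section Free

variable {S : Type} [Ring S] [StarRing S] {S0 : Subring S} [StarSub S0] {F X : Type} [Group F]
  [Fintype X] [DecidableEq X] {T : TreeLen F X}

/-- `S = S0 * F` (a crossed product with trivial twisting): units `un g` with `(un g)^* = (un g)⁻¹`,
normalizing `S0`, every element of `S` is `∑ un g * a_g` with unique `a_g ∈ S0`, almost all zero. -/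
structure Fre {S : Type} [Ring S] [StarRing S] (S0 : Subring S) {F X : Type} [Group F]
    (T : TreeLen F X) where
  /-- the units -/
  un : F →* Sˣ
  star_un : ∀ g, star ((un g : Sˣ) : S) = (((un g)⁻¹ : Sˣ) : S)
  conj_mem : ∀ g, ∀ a ∈ S0, ((un g : Sˣ) : S) * a * (((un g)⁻¹ : Sˣ) : S) ∈ S0
  bij : Function.Bijective (fun f : F →₀ S0 => f.sum fun g a => ((un g : Sˣ) : S) * (a : S))

omit [StarSub S0] [Fintype X] [DecidableEq X] in
theorem Fre.conj_mem' (L : Fre S0 T) (g : F) (a : S) (ha : a ∈ S0) :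
    (((L.un g)⁻¹ : Sˣ) : S) * a * ((L.un g : Sˣ) : S) ∈ S0 := by
  have h := L.conj_mem g⁻¹ a ha
  rwa [map_inv, inv_inv] at h

/-- The automorphism `sg g (a) = un g * a * (un g)⁻¹` of `S0`. -/
def Fre.sg (L : Fre S0 T) (g : F) : S0 ≃+* S0 where
  toFun a := ⟨((L.un g : Sˣ) : S) * a * (((L.un g)⁻¹ : Sˣ) : S), L.conj_mem g a a.2⟩
  invFun a := ⟨(((L.un g)⁻¹ : Sˣ) : S) * a * ((L.un g : Sˣ) : S), L.conj_mem' g a a.2⟩
  left_inv a := Subtype.ext (by simp [mul_assoc])
  right_inv a := Subtype.ext (by simp [mul_assoc])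
  map_mul' a b := Subtype.ext (by simp [mul_assoc])
  map_add' a b := Subtype.ext (by simp [mul_add, add_mul])

omit [StarSub S0] [Fintype X] [DecidableEq X] in
theorem Fre.coe_sg (L : Fre S0 T) (g : F) (a : S0) :
    ((L.sg g a : S0) : S) = ((L.un g : Sˣ) : S) * a * (((L.un g)⁻¹ : Sˣ) : S) := rfl

omit [StarSub S0] [Fintype X] [DecidableEq X] in
theorem Fre.coe_sg_symm (L : Fre S0 T) (g : F) (a : S0) :
    (((L.sg g).symm a : S0) : S) = (((L.un g)⁻¹ : Sˣ) : S) * a * ((L.un g : Sˣ) : S) := rfl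

omit [StarSub S0] [Fintype X] [DecidableEq X] in
theorem Fre.sg_mul (L : Fre S0 T) (g h : F) (a : S0) : L.sg (g * h) a = L.sg g (L.sg h a) :=
  Subtype.ext (by simp [Fre.coe_sg, mul_assoc])

omit [StarSub S0] [Fintype X] [DecidableEq X] in
theorem Fre.sg_one (L : Fre S0 T) (a : S0) : L.sg 1 a = a :=
  Subtype.ext (by simp [Fre.coe_sg])

omit [StarSub S0] [Fintype X] [DecidableEq X] in
theorem Fre.sg_symm (L : Fre S0 T) (g : F) (a : S0) : (L.sg g).symm a = L.sg g⁻¹ a :=
  Subtype.ext (by simp [Fre.coe_sg, Fre.coe_sg_symm])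

omit [Fintype X] [DecidableEq X] in
theorem Fre.sg_star (L : Fre S0 T) (g : F) (a : S0) : L.sg g (star a) = star (L.sg g a) :=
  Subtype.ext (by
    have h : star (((L.un g)⁻¹ : Sˣ) : S) = ((L.un g : Sˣ) : S) := by
      rw [← L.star_un g, star_star]
    rw [AUL.coe_star, Fre.coe_sg, Fre.coe_sg, AUL.coe_star, star_mul, star_mul, L.star_un, h,
      mul_assoc])

omit [StarSub S0] [Fintype X] [DecidableEq X] in
/-- `un g * a = sg g (a) * un g`. -/
theorem Fre.un_mul (L : Fre S0 T) (g : F) (a : S0) :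
    ((L.un g : Sˣ) : S) * (a : S) = ((L.sg g a : S0) : S) * ((L.un g : Sˣ) : S) := by
  simp [Fre.coe_sg, mul_assoc]

omit [StarSub S0] [Fintype X] [DecidableEq X] in
/-- `a * un g = un g * sg g⁻¹ (a)`. -/
theorem Fre.mul_un (L : Fre S0 T) (g : F) (a : S0) :
    (a : S) * ((L.un g : Sˣ) : S) = ((L.un g : Sˣ) : S) * (((L.sg g).symm a : S0) : S) := by
  simp [Fre.coe_sg_symm, ← mul_assoc]

/-- The unit `t_x`. -/
def Fre.t (L : Fre S0 T) (x : X) : Sˣ := L.un (T.gen x)

/-- The automorphism `sg (gen x)`: `a ↦ t_x a t_x⁻¹`. -/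
def Fre.sx (L : Fre S0 T) (x : X) : S0 ≃+* S0 := L.sg (T.gen x)

/-- The additive bijection `(a_g) ↦ ∑ un g * a_g`. -/
noncomputable def Fre.val (L : Fre S0 T) : (F →₀ S0) ≃+ S :=
  AddEquiv.ofBijective
    ({ toFun := fun f : F →₀ S0 => f.sum fun g a => ((L.un g : Sˣ) : S) * (a : S)
       map_zero' := Finsupp.sum_zero_index
       map_add' := fun f g => Finsupp.sum_add_index' (fun k => by simp)
        (fun k a b => by simp [mul_add]) } : (F →₀ S0) →+ S) L.bij

/-- The coefficients `a_g` of an element of `S`. -/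
noncomputable def Fre.co (L : Fre S0 T) (s : S) : F →₀ S0 := L.val.symm s

/-- The coefficient rows of a row over `S`. -/
noncomputable def Fre.cor (L : Fre S0 T) {I : Type} (x : I → S) (g : F) : I → S0 :=
  fun i => L.co (x i) g

section Modules

variable {M : Type} [AddCommGroup M] [Module S M]

/-- The `S0`-submodule `un g • N`. -/
def Fre.tr (L : Fre S0 T) (g : F) (N : Submodule S0 M) : Submodule S0 M where
  carrier := {m | (((L.un g)⁻¹ : Sˣ) : S) • m ∈ N}
  add_mem' := by
    intro x y hx hy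
    simp only [Set.mem_ofPred_eq, smul_add] at *
    exact N.add_mem hx hy
  zero_mem' := by simp
  smul_mem' := by
    intro a x hx
    simp only [Set.mem_ofPred_eq] at *
    have h2 : (((L.un g)⁻¹ : Sˣ) : S) • (a • x) =
        ((L.sg g).symm a) • ((((L.un g)⁻¹ : Sˣ) : S) • x) := by
      rw [Subring.smul_def, Subring.smul_def, smul_smul, smul_smul, Fre.coe_sg_symm]
      simp [mul_assoc]
    rw [h2]
    exact N.smul_mem _ hx

omit [StarSub S0] [Fintype X] [DecidableEq X] in
theorem Fre.mem_tr (L : Fre S0 T) (g : F) (N : Submodule S0 M) (m : M) :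
    m ∈ L.tr g N ↔ (((L.un g)⁻¹ : Sˣ) : S) • m ∈ N := Iff.rfl

/-- The property `(px)` of the pair `N`, `Nx`: the relations `∑ un g • n_g = 0` between elements of
`N` are generated by the elements of the `Nx x`. -/
def Fre.PX (L : Fre S0 T) (N : Submodule S0 M) (Nx : X → Submodule S0 M) : Prop :=
  ∀ n : F →₀ M, (∀ g, n g ∈ N) → (n.sum fun g m => ((L.un g : Sˣ) : S) • m) = 0 →
    ∃ n' : X → F →₀ M, (∀ x g, n' x g ∈ Nx x) ∧
      ∀ g, n g = ∑ x, (((L.t x : Sˣ) : S) • n' x (g * T.gen x) - n' x g)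

/-- `∑_(|h| ≤ w) un h • (span of the p_i)`. -/
def Fre.EW (L : Fre S0 T) (w : ℕ) {ι : Type} (p : ι → M) : Submodule S0 M :=
  ⨆ h : {h : F // T.len h ≤ w}, L.tr h.1 (Submodule.span S0 (Set.range p))

/-- A lattice datum for the `S`-module `M`. -/
structure LD (L : Fre S0 T) (M : Type) [AddCommGroup M] [Module S M] where
  /-- the vertex module -/
  N : Submodule S0 M
  /-- the edge modules -/
  Nx : X → Submodule S0 M
  fg : N.FG
  fgx : ∀ x, (Nx x).FG
  gen : Gen N
  le : ∀ x, Nx x ≤ N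
  tle : ∀ x, ∀ m ∈ Nx x, ((L.t x : Sˣ) : S) • m ∈ N
  px : L.PX N Nx

/-- The images of the edge modules in the vertex module: `(x, false) ↦ Nx x`,
`(x, true) ↦ t_x • Nx x`. -/
def LD.A {L : Fre S0 T} (E : LD L M) : X × Bool → Submodule S0 M
  | (x, true) => L.tr (T.gen x) (E.Nx x)
  | (x, false) => E.Nx x

/-- The sum of all but one of them. -/
def LD.Ns {L : Fre S0 T} (E : LD L M) (s0 : X × Bool) : Submodule S0 M :=
  ⨆ s : {s : X × Bool // s ≠ s0}, E.A s.1

/-- `C`, `D x` resolve `N` and `Nx x`, `u x : D x → C` lifts the inclusion `Nx x ≤ N`, and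
`w x : D x → σ_x⁻¹(C)` lifts the inclusion `Nx x ≤ t_x⁻¹ N`. -/
structure Dat (L : Fre S0 T) (E : LD L M) (C : FC S0) (D : X → FC S0) (r : Res C E.N)
    (s : ∀ x, Res (D x) (E.Nx x)) (u w : ∀ x, Matrix (D x).I C.I S0) : Prop where
  hu : ∀ x, IsChain (D x) C (u x)
  hw : ∀ x, IsChain (D x) (C.map ((L.sx x).symm : S0 →+* S0)) (w x)
  lu : ∀ x z, ((r.pi (z ᵥ* u x) : E.N) : M) = (((s x).pi z : E.Nx x) : M)
  lw : ∀ x z, ((L.t x : Sˣ) : S) • (((s x).pi z : E.Nx x) : M) =
    ((r.pi (fun j => L.sx x ((z ᵥ* w x) j)) : E.N) : M)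

end Modules

/-- The matrix `Φ = (w_x t_x⁻¹ - u_x)_x`. -/
def Fre.phi (L : Fre S0 T) {C : FC S0} {D : X → FC S0} (u w : ∀ x, Matrix (D x).I C.I S0) :
    Matrix (Σ x, (D x).I) C.I S :=
  fun i j => (w i.1 i.2 j : S) * (((L.t i.1)⁻¹ : Sˣ) : S) - (u i.1 i.2 j : S)

/-- The restriction of a row of `C.dual` in the direction `s`. -/
def Fre.rs (L : Fre S0 T) {C : FC S0} {D : X → FC S0} (u w : ∀ x, Matrix (D x).I C.I S0) :
    (s : X × Bool) → (C.I → S0) → ((D s.1).I → S0)
  | (x, true), y => (fun j => (L.sx x).symm (y j)) ᵥ* (w x)ᴴ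
  | (x, false), y => y ᵥ* (u x)ᴴ

/-- A cocycle of degree `q` of `C.dual` is a coboundary if all but one of its restrictions are. -/
def Fre.RP (L : Fre S0 T) {C : FC S0} {D : X → FC S0} (u w : ∀ x, Matrix (D x).I C.I S0)
    (q : ℤ) : Prop :=
  ∀ (s0 : X × Bool), ∀ y ∈ C.dual.Z q,
    (∀ s : X × Bool, s ≠ s0 → L.rs u w s y ∈ (D s.1).dual.B q) → y ∈ C.dual.B q

end Free

end Pool.Agent.Lib.MP8a3537.AUF
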