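import Pool.Agent.Lib.MP_8a3537_gt.AUF.SpecA

/-!
# Group rings of extensions by free groups: module FNF
-/

namespace Pool.Agent.Lib.MP8a3537.AUF

open Matrix
open Pool.Agent.Lib.MP8a3537.AUL

theorem specFNF (hEXN : SpecEXN) (hMAK : SpecMAK) (hPHC : SpecPHC) (hCHR : SpecCHR) :
    SpecFNF := by
  intro S _ _ S0 _ F X _ _ _ T L d hN0 hF M _ _ hfin
  obtain ⟨E, -⟩ := hEXN S S0 F X T L hN0 M hfin ⊥ Submodule.fg_bot
  have hfN : Module.Finite S0 E.N := Module.Finite.iff_fg.2 E.fg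
  obtain ⟨C, ⟨r⟩, hCd⟩ := hF E.N hfN
  have hD : ∀ x, ∃ D : FC S0, Nonempty (Res D (E.Nx x)) ∧ ∀ i, -(d : ℤ) ≤ D.deg i :=
    fun x => hF (E.Nx x) (Module.Finite.iff_fg.2 (E.fgx x))
  choose D hDr hDd using hD
  let s : ∀ x, Res (D x) (E.Nx x) := fun x => (hDr x).some
  obtain ⟨u, w, hd⟩ := hMAK S S0 F X T L M E C D r s
  have hP := hPHC S S0 F X T L C D u w hd.hu hd.hw
  refine ⟨cone (bc C) (bc (dsum D)) (L.phi u w) hP, hCHR S S0 F X T L M E C D r s u w hd hP, ?_⟩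
  rintro (i | ⟨x, i⟩)
  · have h : -(d : ℤ) ≤ C.deg i := hCd i
    change -((d + 1 : ℕ) : ℤ) ≤ C.deg i
    push_cast
    omega
  · have h : -(d : ℤ) ≤ (D x).deg i := hDd x i
    change -((d + 1 : ℕ) : ℤ) ≤ (D x).deg i - 1
    push_cast
    omega

end Pool.Agent.Lib.MP8a3537.AUF
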