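import Pool.Agent.Lib.MP_8a3537_gt.AUF.SpecA
import Pool.Agent.Lib.MP_8a3537_gt.AUL.Main

/-!
# AUF, module LAT: finitely generated `S0`-submodules of `M`
-/

namespace Pool.Agent.Lib.MP8a3537.AUF

open Pool.Agent.Lib.MP8a3537.AUL

namespace LATM

variable {S : Type} [Ring S] [StarRing S] {S0 : Subring S} {F X : Type} [Group F]
  {T : TreeLen F X}
variable {M : Type} [AddCommGroup M] [Module S M]

theorem smul_mem_tr (L : Fre S0 T) (h g : F) (N : Submodule S0 M) (m : M) (hm : m ∈ L.tr g N) :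
    ((L.un h : Sˣ) : S) • m ∈ L.tr (h * g) N := by
  rw [L.mem_tr] at hm ⊢
  rw [smul_smul, ← Units.val_mul, map_mul, mul_inv_rev, inv_mul_cancel_right]
  exact hm

theorem tr_one (L : Fre S0 T) (N : Submodule S0 M) : L.tr 1 N = N := by
  ext m
  rw [L.mem_tr, map_one, inv_one, Units.val_one, one_smul]

/-- The chain `U_k = ⨆_(|h| ≤ k) un h • Y`. -/
def U (L : Fre S0 T) (Y : Submodule S0 M) (k : ℕ) : Submodule S0 M :=
  ⨆ h : {h : F // T.len h ≤ k}, L.tr h.1 Y

theorem tr_le_U (L : Fre S0 T) (Y : Submodule S0 M) (k : ℕ) (h : F) (hh : T.len h ≤ k) :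
    L.tr h Y ≤ U L Y k :=
  le_iSup (fun h : {h : F // T.len h ≤ k} => L.tr h.1 Y) ⟨h, hh⟩

theorem U_mono (L : Fre S0 T) (Y : Submodule S0 M) : Monotone (U L Y) := by
  intro k k' hk
  exact iSup_le fun h => tr_le_U L Y k' h.1 (h.2.trans hk)

theorem smul_U (L : Fre S0 T) (Y : Submodule S0 M) (h : F) (k : ℕ) :
    ∃ k', ∀ x ∈ U L Y k, ((L.un h : Sˣ) : S) • x ∈ U L Y k' := by
  obtain ⟨k', hk'⟩ : ∃ k', ∀ g : F, T.len g ≤ k → T.len (h * g) ≤ k' := by
    have hfin : ((fun g => T.len (h * g)) '' {g : F | T.len g ≤ k}).Finite :=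
      (T.ball k).image _
    obtain ⟨k', hk'⟩ := hfin.bddAbove
    exact ⟨k', fun g hg => hk' ⟨g, hg, rfl⟩⟩
  refine ⟨k', fun x hx => ?_⟩
  refine Submodule.iSup_induction (fun h : {h : F // T.len h ≤ k} => L.tr h.1 Y)
    (motive := fun x => ((L.un h : Sˣ) : S) • x ∈ U L Y k') hx ?_ ?_ ?_
  · intro g y hy
    exact tr_le_U L Y k' (h * g.1) (hk' g.1 g.2) (smul_mem_tr L h g.1 Y y hy)
  · rw [smul_zero]
    exact Submodule.zero_mem _
  · intro y z hy hz
    rw [smul_add]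
    exact Submodule.add_mem _ hy hz

theorem exists_U (L : Fre S0 T) (Y : Submodule S0 M) (hG : Gen Y) (m : M) :
    ∃ n, m ∈ U L Y n := by
  have hm : m ∈ Submodule.span S (Y : Set M) := by
    rw [show Submodule.span S (Y : Set M) = ⊤ from hG]
    exact Submodule.mem_top
  induction hm using Submodule.span_induction with
  | mem x hx =>
    refine ⟨0, tr_le_U L Y 0 1 T.len_one.le ?_⟩
    rw [tr_one]
    exact hx
  | zero => exact ⟨0, Submodule.zero_mem _⟩
  | add x y _ _ hx hy =>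
    obtain ⟨a, ha⟩ := hx
    obtain ⟨b, hb⟩ := hy
    exact ⟨max a b, Submodule.add_mem _ (U_mono L Y (le_max_left a b) ha)
      (U_mono L Y (le_max_right a b) hb)⟩
  | smul s x _ hx =>
    obtain ⟨n, hn⟩ := hx
    obtain ⟨f, hf⟩ := L.bij.2 s
    choose kk hkk using fun h => smul_U L Y h n
    refine ⟨f.support.sup kk, ?_⟩
    rw [← hf]
    change (f.sum fun g a => ((L.un g : Sˣ) : S) * (a : S)) • x ∈ _
    rw [Finsupp.sum, Finset.sum_smul]
    refine Submodule.sum_mem _ fun k hk => ?_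
    rw [mul_smul]
    have h1 : ((f k : S0) : S) • x ∈ U L Y n := (U L Y n).smul_mem (f k) hn
    exact U_mono L Y (Finset.le_sup hk) (hkk k _ h1)

theorem le_U (L : Fre S0 T) (Y : Submodule S0 M) (hG : Gen Y) (N : Submodule S0 M) (hN : N.FG) :
    ∃ n, N ≤ U L Y n := by
  obtain ⟨s, hs⟩ := hN
  choose g hg using exists_U L Y hG
  refine ⟨s.sup g, ?_⟩
  rw [← hs, Submodule.span_le]
  intro x hx
  exact U_mono L Y (Finset.le_sup (Finset.mem_coe.1 hx)) (hg x)

end LATM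

open LATM in
/-- **LAT** -/
theorem specLAT (hTCU : SpecTCU) (_ : SpecCFL) (hTWF : SpecTWF) : SpecLAT := by
  classical
  intro S _ _ S0 _ F X _ T L d hn hd M _ _ Y hY hG c hc N hN
  obtain ⟨n, hNU⟩ := le_U L Y hG N hN
  have : Fintype {h : F // T.len h ≤ n} := (T.ball n).fintype
  have h1 : Tc S0 c (U L Y n) :=
    (hTCU S0 d hn hd c {h : F // T.len h ≤ n}).1 M (fun h => L.tr h.1 Y)
      (fun h => (hTWF S S0 F X T L M Y Y h.1 c).2.2.2 hY)
      (fun h => (hTWF S S0 F X T L M Y Y h.1 c).1 hc)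
  exact (AUL.mTCS S0 c N (U L Y n) (Submodule.inclusion hNU)).1
    (Submodule.inclusion_injective hNU) h1

end Pool.Agent.Lib.MP8a3537.AUF
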