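import Pool.Agent.Lib.MP_8a3537_gt.AUF.SpecA
import Pool.Agent.Lib.MP_8a3537_gt.AUL.Main

/-!
# Group rings of extensions by free groups, module TCU (helper30): `T_c` of finite sums and products
-/

namespace Pool.Agent.Lib.MP8a3537.AUF

open Pool.Agent.Lib.MP8a3537.AUL

namespace TCUM

variable {A : Type} [Ring A] [StarRing A] {c : ℤ} {X : Type} [AddCommGroup X] [Module A X]

theorem sup (d : ℕ) (hN : IsNoetherianRing A) (hF : FinRes A d) (P T : Submodule A X)
    (hP : P.FG) (hT : T.FG) (tP : Tc A c P) (tT : Tc A c T) : Tc A c (P ⊔ T : Submodule A X) := by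
  have hfin : Module.Finite A (P ⊔ T : Submodule A X) := Module.Finite.iff_fg.mpr (hP.sup hT)
  have hTS : T ≤ P ⊔ T := le_sup_right
  refine mTCE A d hN hF c (P ⊔ T : Submodule A X) (P.comap (P ⊔ T).subtype) hfin ?_ ?_
  · let f : (P.comap (P ⊔ T).subtype : Submodule A (P ⊔ T : Submodule A X)) →ₗ[A] P :=
      { toFun := fun y => ⟨y.1.1, y.2⟩
        map_add' := fun _ _ => rfl
        map_smul' := fun _ _ => rfl }
    refine (mTCS A c _ _ f).1 ?_ tP
    intro y z hyz
    have h1 : (f y).1 = (f z).1 := by rw [hyz]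
    exact Subtype.ext (Subtype.ext h1)
  · let f : T →ₗ[A] ((P ⊔ T : Submodule A X) ⧸ P.comap (P ⊔ T).subtype) :=
      (P.comap (P ⊔ T).subtype).mkQ.comp (Submodule.inclusion hTS)
    refine (mTCS A c _ _ f).2.1 ?_ tT
    intro z
    obtain ⟨y, rfl⟩ := Submodule.mkQ_surjective _ z
    obtain ⟨p, hp, t, ht, hpt⟩ := Submodule.mem_sup.mp y.2
    refine ⟨⟨t, ht⟩, ?_⟩
    change (P.comap (P ⊔ T).subtype).mkQ (Submodule.inclusion hTS ⟨t, ht⟩) =
      (P.comap (P ⊔ T).subtype).mkQ y
    rw [← sub_eq_zero, ← map_sub, Submodule.mkQ_apply, Submodule.Quotient.mk_eq_zero,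
      Submodule.mem_comap]
    have h2 : (P ⊔ T).subtype (Submodule.inclusion hTS ⟨t, ht⟩ - y) = -p := by
      rw [map_sub]
      change t - y.1 = -p
      rw [← hpt]
      abel
    rw [h2]
    exact P.neg_mem hp

theorem bot (hGRI : SpecGRI) : Tc A c (⊥ : Submodule A X) := by
  intro N'
  have : Subsingleton N' := by infer_instance
  exact (hGRI A c N' N').2.1 this

end TCUM

theorem specTCU (hGRI : SpecGRI) : SpecTCU := by
  intro A _ _ d hN hF c ι _ _
  have part1 : ∀ (X : Type) [AddCommGroup X] [Module A X] (P : ι → Submodule A X),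
      (∀ i, (P i).FG) → (∀ i, Tc A c (P i)) → Tc A c (⨆ i, P i : Submodule A X) := by
    intro X _ _ P hfg htc
    have key : ∀ s : Finset ι, (⨆ i ∈ s, P i : Submodule A X).FG ∧
        Tc A c (⨆ i ∈ s, P i : Submodule A X) := by
      intro s
      induction s using Finset.induction_on with
      | empty =>
        have h : (⨆ i ∈ (∅ : Finset ι), P i : Submodule A X) = ⊥ := by simp
        rw [h]
        exact ⟨Submodule.fg_bot, TCUM.bot hGRI⟩
      | insert i s hi ih =>
        rw [Finset.iSup_insert]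
        exact ⟨(hfg i).sup ih.1, TCUM.sup d hN hF _ _ (hfg i) ih.1 (htc i) ih.2⟩
    have h := (key Finset.univ).2
    have h2 : (⨆ i ∈ (Finset.univ : Finset ι), P i : Submodule A X) = ⨆ i, P i := by simp
    rwa [h2] at h
  refine ⟨part1, ?_⟩
  intro P _ _ hfin htc
  have h1 : Tc A c (⨆ i, LinearMap.range (LinearMap.single A P i) : Submodule A (∀ i, P i)) := by
    apply part1
    · intro i
      exact Module.Finite.iff_fg.mp (Module.Finite.range _)
    · intro i
      exact (mTCS A c _ _ (LinearMap.single A P i).rangeRestrict).2.1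
        (LinearMap.surjective_rangeRestrict _) (htc i)
  rw [LinearMap.iSup_range_single] at h1
  exact (mTCS A c _ _ (Submodule.topEquiv (R := A) (M := ∀ i, P i)).symm.toLinearMap).1
    (Submodule.topEquiv (R := A) (M := ∀ i, P i)).symm.injective h1

end Pool.Agent.Lib.MP8a3537.AUF
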